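import Pool.Agent.H306R2.RZ.Defs2

set_option autoImplicit false

/-! Project RZ, task FI4: everything except the numerical optimisation. -/

namespace Pool.Agent.H864R2.RZ2FI4

open Finset Filter Topology MeasureTheory
open Pool.Agent.H306R2.RZ

noncomputable section

/-! ### the inputs -/

def HC5 : Prop := ∀ (d : ℕ) (_ : Odd d) (_ : Squarefree d) (L : ℝ) (_ : 0 < L)
    (_ : ∀ x : ℝ, 0 ≤ x → x ≤ L / 2 → LLd d (1 / 2 + x / L) ≠ 0),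
    ∀ σ : ℝ, 0 < σ → σ < 1 → 0 < LLd d σ

def HMR : Prop := ∀ (F : ℝ → ℝ) (_ : TF F) (_ : ∀ x, 0 ≤ F x) (P : ℕ) (_ : Odd P)
    (_ : Squarefree P)
    (δ : ℝ) (_ : 0 < δ) (_ : δ < 1 / 8) (χ : ℝ → ℝ)
    (θ' θ : ℝ) (_ : 0 < θ') (_ : θ' < θ)
    (_ : Adm (1 / 2 + 3 * δ) θ) (_ : ST θ' θ χ) (c c' : ℝ → ℝ)
    (_ : ∀ x, HasDerivAt c (c' x) x) (_ : Continuous c') (X0 : ℝ) (_ : 0 ≤ X0) (ε : ℝ)
    (_ : 0 < ε),
    ∃ L0 : ℝ, ∀ L : ℝ, L0 ≤ L →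
      cnt F L (OS ∩ {d | bad1 L X0 d}) ≤
      PiP P * (1 / 2 * Ft F 0) * (vv (c X0) (Bx χ X0) (nx χ) (ax X0) +
        ∫ x in (0 : ℝ)..X0, 2 * Real.sqrt (vv (c x) (Bx χ x) (nx χ) (ax x) *
          ww (c x) (c' x) (Bx χ x) (Bx1 χ x) (nx χ) (ax x) (ax1 x) (ax2 x))) + ε

def HMRc : Prop := ∀ (θ' θ : ℝ) (_ : 0 < θ') (_ : θ' < θ) (_ : θ < 1 / 2) (c c' : ℝ → ℝ)
    (_ : ∀ x, HasDerivAt c (c' x) x) (_ : Continuous c') (X0 : ℝ) (_ : 0 ≤ X0) (ε : ℝ)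
    (_ : 0 < ε), ∃ (θ'' : ℝ) (χ : ℝ → ℝ), 0 < θ'' ∧ θ'' < θ' ∧ ST θ'' θ' χ ∧
      vv (c X0) (Bx χ X0) (nx χ) (ax X0) +
        (∫ x in (0 : ℝ)..X0, 2 * Real.sqrt (vv (c x) (Bx χ x) (nx χ) (ax x) *
          ww (c x) (c' x) (Bx χ x) (Bx1 χ x) (nx χ) (ax x) (ax1 x) (ax2 x))) ≤
      vv (c X0) (∫ u in (0 : ℝ)..θ', Sx X0 (u + 1 / 2)) θ' (ax X0) +
        (∫ x in (0 : ℝ)..X0, 2 * Real.sqrt (
          vv (c x) (∫ u in (0 : ℝ)..θ', Sx x (u + 1 / 2)) θ' (ax x) *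
          ww (c x) (c' x) (∫ u in (0 : ℝ)..θ', Sx x (u + 1 / 2))
            (∫ u in (0 : ℝ)..θ', Sx1 x (u + 1 / 2)) θ' (ax x) (ax1 x) (ax2 x))) + ε

def HTR : Prop := ∀ (F : ℝ → ℝ) (_ : TF F) (_ : ∀ x, 0 ≤ F x) (δ θ : ℝ) (_ : 0 < δ)
    (_ : Adm (1 / 2 + 3 * δ) θ),
    ∃ C c0 L0 : ℝ, 0 < C ∧ 0 < c0 ∧ ∀ L : ℝ, L0 ≤ L → ∀ X0 : ℝ, 1 ≤ X0 → X0 ≤ L / 2 →
      cnt F L (OS ∩ {d | bad2 L X0 d}) ≤ C * Real.exp (-(c0 * X0))

def HFI1 : Prop := Tendsto (fun X : ℕ => ((OS ∩ {d | d ≤ X}).ncard : ℝ) / X)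
    atTop (𝓝 (4 / Real.pi ^ 2))

def HFI2 : Prop := ∀ (ε : ℝ) (_ : 0 < ε), ∃ P : ℕ, Odd P ∧ Squarefree P ∧
    PiP P ≤ 8 / Real.pi ^ 2 + ε

def HFI3 : Prop := ∀ (η : ℝ) (_ : 0 < η) (_ : η < 1), ∃ F : ℝ → ℝ, TF F ∧ (∀ x, 0 ≤ F x) ∧
    (∀ x, η ≤ x → x ≤ 1 → 1 ≤ F x) ∧ Ft F 0 ≤ 1 + η

/-! ### counting with the smooth weight -/

lemma fin_supp {F : ℝ → ℝ} (hF : TF F) (Y : ℝ) (hY : 0 < Y) :
    ∃ N : ℕ, ∀ d : ℕ, N ≤ d → F ((d : ℝ) / Y) = 0 := by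
  obtain ⟨R, hR⟩ := hF.cpt.isCompact.isBounded.subset_closedBall (0 : ℝ)
  refine ⟨⌈R * Y⌉₊ + 1, ?_⟩
  intro d hd
  by_contra h
  have h1 : (d : ℝ) / Y ∈ tsupport F := subset_tsupport F h
  have h2 := hR h1
  rw [Metric.mem_closedBall, dist_zero_right, Real.norm_eq_abs] at h2
  have h3 : (d : ℝ) / Y ≤ R := (le_abs_self _).trans h2
  rw [div_le_iff₀ hY] at h3
  have h4 : R * Y ≤ (⌈R * Y⌉₊ : ℝ) := Nat.le_ceil _
  have h5 : ((⌈R * Y⌉₊ + 1 : ℕ) : ℝ) ≤ d := by exact_mod_cast hd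
  push_cast at h5
  linarith

lemma card_le {F : ℝ → ℝ} (hF : TF F) (hF0 : ∀ x, 0 ≤ F x) {η L X : ℝ} (hX : 0 < X)
    (hL : Real.exp L = X) (hF1 : ∀ x, η ≤ x → x ≤ 1 → 1 ≤ F x) (A : Set ℕ) (s : Finset ℕ)
    (hs : ∀ d ∈ s, d ∈ A ∧ η * X ≤ d ∧ (d : ℝ) ≤ X) : (s.card : ℝ) ≤ X * cnt F L A := by
  classical
  unfold cnt
  rw [hL, mul_div_cancel₀ _ hX.ne']
  obtain ⟨N, hN⟩ := fin_supp hF X hX
  have hsum : Summable (fun d : ℕ => A.indicator (fun d => F ((d : ℝ) / X)) d) := by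
    apply summable_of_ne_finset_zero (s := Finset.range N)
    intro d hd
    rw [Finset.mem_range, not_lt] at hd
    by_cases hA : d ∈ A
    · rw [Set.indicator_of_mem hA, hN d hd]
    · rw [Set.indicator_of_notMem hA]
  have h0 : ∀ d : ℕ, 0 ≤ A.indicator (fun d => F ((d : ℝ) / X)) d := fun d =>
    Set.indicator_nonneg (fun d _ => hF0 _) d
  calc (s.card : ℝ) = ∑ d ∈ s, (1 : ℝ) := by simp
    _ ≤ ∑ d ∈ s, A.indicator (fun d => F ((d : ℝ) / X)) d := by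
        apply Finset.sum_le_sum
        intro d hd
        obtain ⟨h1, h2, h3⟩ := hs d hd
        rw [Set.indicator_of_mem h1]
        apply hF1
        · rwa [le_div_iff₀ hX]
        · rwa [div_le_one hX]
    _ ≤ _ := hsum.sum_le_tsum s (fun d _ => h0 d)

/-- the numbers `≤ X` which are not good -/
lemma bad_count (hC5 : HC5) {F : ℝ → ℝ} (hF : TF F) (hF0 : ∀ x, 0 ≤ F x) {η X0 : ℝ} (hη : 0 < η)
    (hF1 : ∀ x, η ≤ x → x ≤ 1 → 1 ≤ F x) (X : ℕ) (hX : 2 ≤ X) :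
    ((OS ∩ {d | d ≤ X}).ncard : ℝ) ≤
      ((OS ∩ {d | d ≤ X} ∩ {d | ∀ σ : ℝ, 0 < σ → σ < 1 → 0 < LLd d σ}).ncard : ℝ) +
      (η * X + X * cnt F (Real.log X) (OS ∩ {d | bad1 (Real.log X) X0 d}) +
        X * cnt F (Real.log X) (OS ∩ {d | bad2 (Real.log X) X0 d})) := by
  classical
  have hX1 : (1 : ℝ) < X := by
    have : (2 : ℝ) ≤ X := by exact_mod_cast hX
    linarith
  have hX0 : (0 : ℝ) < X := by linarith
  have hL : 0 < Real.log X := Real.log_pos hX1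
  set U := (Finset.range (X + 1)).filter (fun d => d ∈ OS) with hU
  set G := U.filter (fun d => ∀ σ : ℝ, 0 < σ → σ < 1 → 0 < LLd d σ) with hG
  set B0 := (Finset.Icc 1 ⌊η * X⌋₊) with hB0
  set B1 := U.filter (fun d => bad1 (Real.log X) X0 d ∧ η * X ≤ d) with hB1
  set B2 := U.filter (fun d => bad2 (Real.log X) X0 d ∧ η * X ≤ d) with hB2
  have e1 : (OS ∩ {d | d ≤ X} : Set ℕ) = (U : Set ℕ) := by
    ext d
    simp [hU, and_comm]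
  have e2 : (OS ∩ {d | d ≤ X} ∩ {d | ∀ σ : ℝ, 0 < σ → σ < 1 → 0 < LLd d σ} : Set ℕ) = (G : Set ℕ) := by
    ext d
    simp [hG, hU, and_comm]
  rw [e2, e1, Set.ncard_coe_finset, Set.ncard_coe_finset]
  have hsub : U ⊆ G ∪ (B0 ∪ (B1 ∪ B2)) := by
    intro d hd
    have hd' := hd
    rw [hU, Finset.mem_filter, Finset.mem_range] at hd'
    obtain ⟨hdX, hdo, hds⟩ := hd'
    simp only [Finset.mem_union]
    by_cases hg : ∀ σ : ℝ, 0 < σ → σ < 1 → 0 < LLd d σ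
    · left
      rw [hG, Finset.mem_filter]
      exact ⟨hd, hg⟩
    · right
      by_cases hdη : (d : ℝ) < η * X
      · left
        rw [hB0, Finset.mem_Icc]
        exact ⟨hdo.pos, Nat.le_floor hdη.le⟩
      · right
        rw [not_lt] at hdη
        have hz : ¬ ∀ x : ℝ, 0 ≤ x → x ≤ Real.log X / 2 → LLd d (1 / 2 + x / Real.log X) ≠ 0 :=
          fun h => hg (hC5 d hdo hds (Real.log X) hL h)
        push Not at hz
        obtain ⟨x, hx0, hx1, hx2⟩ := hz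
        rcases le_total x X0 with h | h
        · left
          rw [hB1, Finset.mem_filter]
          exact ⟨hd, ⟨x, hx0, h, hx2⟩, hdη⟩
        · right
          rw [hB2, Finset.mem_filter]
          exact ⟨hd, ⟨x, h, hx1, hx2⟩, hdη⟩
  have hc : U.card ≤ G.card + (B0.card + (B1.card + B2.card)) :=
    (Finset.card_le_card hsub).trans ((Finset.card_union_le _ _).trans
      (Nat.add_le_add_left ((Finset.card_union_le _ _).trans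
        (Nat.add_le_add_left (Finset.card_union_le _ _) _)) _))
  have hc' : (U.card : ℝ) ≤ G.card + (B0.card + (B1.card + B2.card)) := by exact_mod_cast hc
  have c0 : (B0.card : ℝ) ≤ η * X := by
    rw [hB0, Nat.card_Icc]
    simp only [Nat.add_sub_cancel]
    exact Nat.floor_le (by positivity)
  have hUm : ∀ d ∈ U, d ∈ OS ∧ (d : ℝ) ≤ X := by
    intro d hd
    rw [hU, Finset.mem_filter, Finset.mem_range] at hd
    refine ⟨hd.2, ?_⟩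
    have : d ≤ X := by omega
    exact_mod_cast this
  have c1 : (B1.card : ℝ) ≤ X * cnt F (Real.log X) (OS ∩ {d | bad1 (Real.log X) X0 d}) := by
    apply card_le hF hF0 hX0 (Real.exp_log hX0) hF1
    intro d hd
    rw [hB1, Finset.mem_filter] at hd
    exact ⟨⟨(hUm d hd.1).1, hd.2.1⟩, hd.2.2, (hUm d hd.1).2⟩
  have c2 : (B2.card : ℝ) ≤ X * cnt F (Real.log X) (OS ∩ {d | bad2 (Real.log X) X0 d}) := by
    apply card_le hF hF0 hX0 (Real.exp_log hX0) hF1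
    intro d hd
    rw [hB2, Finset.mem_filter] at hd
    exact ⟨⟨(hUm d hd.1).1, hd.2.1⟩, hd.2.2, (hUm d hd.1).2⟩
  linarith

/-! ### signs -/

lemma Adm_mono {s θ θ0 : ℝ} (hA : Adm s θ) (h0 : 0 < θ0) (h : θ0 < θ) : Adm s θ0 where
  hs := hA.hs
  hθ := h0
  hs1 := hA.hs1
  hθ1 := h.trans hA.hθ1
  hst := by linarith [hA.hst]
  main := by linarith [hA.main]

lemma ax_nonneg (x : ℝ) : 0 ≤ ax x := by
  unfold ax
  exact intervalIntegral.integral_nonneg (by norm_num) (fun _ _ => sq_nonneg _)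

lemma nx_nonneg (χ : ℝ → ℝ) : 0 ≤ nx χ := by
  unfold nx
  exact intervalIntegral.integral_nonneg (by norm_num) (fun _ _ => sq_nonneg _)

lemma vv_nonneg {c B n a : ℝ} (hn : 0 ≤ n) (ha : 0 ≤ a) : 0 ≤ vv c B n a := by
  unfold vv
  positivity

lemma int_nonneg {X0 : ℝ} (hX0 : 0 ≤ X0) (f : ℝ → ℝ) : 0 ≤ ∫ x in (0 : ℝ)..X0, 2 * Real.sqrt (f x) :=
  intervalIntegral.integral_nonneg hX0 (fun _ _ => by positivity)

lemma PiP_nonneg (P : ℕ) : 0 ≤ PiP P := by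
  unfold PiP
  apply Finset.prod_nonneg
  intro p hp
  have hp1 : (1 : ℝ) ≤ p := by
    exact_mod_cast (Nat.prime_of_mem_primeFactors hp).one_lt.le
  have : 1 / (p : ℝ) ^ 2 ≤ 1 := by
    rw [div_le_one (by positivity)]
    exact one_le_pow₀ hp1
  linarith

lemma Ft_nonneg {F : ℝ → ℝ} (hF0 : ∀ x, 0 ≤ F x) : 0 ≤ Ft F 0 := by
  unfold Ft cas
  apply integral_nonneg
  intro x
  simp [hF0 x]

/-- the numerical part of the choice of the constants -/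
lemma choose_t {J J' : ℝ} (hJJ : J < J') : ∃ t : ℝ, 0 < t ∧ t < 1 ∧
    t + t + ((8 / Real.pi ^ 2 + t) * (1 / 2 * (1 + t)) * (J + t) + t) + t <
      J' * (4 / Real.pi ^ 2 - t) := by
  have hcont : Continuous (fun t : ℝ => J' * (4 / Real.pi ^ 2 - t) -
      (t + t + ((8 / Real.pi ^ 2 + t) * (1 / 2 * (1 + t)) * (J + t) + t) + t)) := by fun_prop
  have h0 : 0 < J' * (4 / Real.pi ^ 2 - 0) -
      ((0 : ℝ) + 0 + ((8 / Real.pi ^ 2 + 0) * (1 / 2 * (1 + 0)) * (J + 0) + 0) + 0) := by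
    have hpi : 0 < 4 / Real.pi ^ 2 := by positivity
    have e : (8 / Real.pi ^ 2 + 0) * (1 / 2 * (1 + 0)) * (J + 0) = J * (4 / Real.pi ^ 2) := by ring
    rw [e]
    have := mul_lt_mul_of_pos_right hJJ hpi
    linarith
  have hev : ∀ᶠ t in 𝓝 (0 : ℝ), 0 < J' * (4 / Real.pi ^ 2 - t) -
      (t + t + ((8 / Real.pi ^ 2 + t) * (1 / 2 * (1 + t)) * (J + t) + t) + t) :=
    (hcont.tendsto 0).eventually (lt_mem_nhds h0)
  have hev2 : ∀ᶠ t in 𝓝[>] (0 : ℝ), 0 < J' * (4 / Real.pi ^ 2 - t) -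
      (t + t + ((8 / Real.pi ^ 2 + t) * (1 / 2 * (1 + t)) * (J + t) + t) + t) :=
    hev.filter_mono nhdsWithin_le_nhds
  have hev3 : ∀ᶠ t in 𝓝[>] (0 : ℝ), t < 1 :=
    (gt_mem_nhds (show (0 : ℝ) < 1 by norm_num) : ∀ᶠ t in 𝓝 (0 : ℝ), t < 1).filter_mono
      nhdsWithin_le_nhds
  obtain ⟨t, ⟨h1, h2⟩, h3⟩ := ((hev2.and hev3).and self_mem_nhdsWithin).exists
  exact ⟨t, h3, h2, by linarith⟩

theorem FI4_of (hC5 : HC5) (hMR : HMR) (hMRc : HMRc) (hTR : HTR) (hFI1 : HFI1) (hFI2 : HFI2)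
    (hFI3 : HFI3) (θ0 J : ℝ) (hθ0 : 0 < θ0) (hθ1 : ∃ δ θ : ℝ, 0 < δ ∧ δ < 1 / 8 ∧ θ0 < θ ∧
      Adm (1 / 2 + 3 * δ) θ)
    (hJ : ∃ (c c' : ℝ → ℝ) (X1 : ℝ), (∀ x, HasDerivAt c (c' x) x) ∧ Continuous c' ∧ ∀ X0 : ℝ, X1 ≤ X0 →
      vv (c X0) (∫ u in (0 : ℝ)..θ0, Sx X0 (u + 1 / 2)) θ0 (ax X0) +
        (∫ x in (0 : ℝ)..X0, 2 * Real.sqrt (
          vv (c x) (∫ u in (0 : ℝ)..θ0, Sx x (u + 1 / 2)) θ0 (ax x) *
          ww (c x) (c' x) (∫ u in (0 : ℝ)..θ0, Sx x (u + 1 / 2))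
            (∫ u in (0 : ℝ)..θ0, Sx1 x (u + 1 / 2)) θ0 (ax x) (ax1 x) (ax2 x))) ≤ J)
    (J' : ℝ) (hJJ : J < J') :
    ∃ N : ℕ, ∀ X : ℕ, N ≤ X →
      (1 - J') * ((OS ∩ {d | d ≤ X}).ncard : ℝ) ≤
        ((OS ∩ {d | d ≤ X} ∩ {d | ∀ σ : ℝ, 0 < σ → σ < 1 → 0 < LLd d σ}).ncard : ℝ) := by
  obtain ⟨δ, θ, hδ, hδ1, hθθ, hA⟩ := hθ1
  obtain ⟨c, c', X1, hc, hc', hJ⟩ := hJ
  have hA0 := Adm_mono hA hθ0 hθθ
  obtain ⟨t, ht, ht1, hth⟩ := choose_t hJJ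
  obtain ⟨P, hP, hPs, hPP⟩ := hFI2 t ht
  obtain ⟨F, hF, hF0, hF1, hFt⟩ := hFI3 t ht ht1
  obtain ⟨C, c0, L1, hC, hc0, hTR⟩ := hTR F hF hF0 δ θ hδ hA
  -- choice of `X0`
  obtain ⟨X0, hX01, hX0X, hX0C⟩ : ∃ X0 : ℝ, 1 ≤ X0 ∧ X1 ≤ X0 ∧ C * Real.exp (-(c0 * X0)) ≤ t := by
    have h1 : Tendsto (fun x : ℝ => C * Real.exp (-(c0 * x))) atTop (𝓝 (C * 0)) := by
      apply Tendsto.const_mul
      apply Real.tendsto_exp_neg_atTop_nhds_zero.comp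
      exact tendsto_id.const_mul_atTop hc0
    rw [mul_zero] at h1
    obtain ⟨x, ⟨h2, h3⟩, h4⟩ := (((h1.eventually (gt_mem_nhds ht)).and
      (eventually_ge_atTop 1)).and (eventually_ge_atTop X1)).exists
    exact ⟨x, h3, h4, h2.le⟩
  have hX00 : 0 ≤ X0 := by linarith
  obtain ⟨θ'', χ, hθ''0, hθ'', hχ, hχJ⟩ := hMRc θ0 θ hθ0 hθθ hA.hθ1 c c' hc hc' X0 hX00 t ht
  obtain ⟨L2, hMR⟩ := hMR F hF hF0 P hP hPs δ hδ hδ1 χ θ'' θ0 hθ''0 hθ'' hA0 hχ c c' hc hc' X0 hX00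
    t ht
  have hJX := hJ X0 hX0X
  set E := vv (c X0) (Bx χ X0) (nx χ) (ax X0) +
        (∫ x in (0 : ℝ)..X0, 2 * Real.sqrt (vv (c x) (Bx χ x) (nx χ) (ax x) *
          ww (c x) (c' x) (Bx χ x) (Bx1 χ x) (nx χ) (ax x) (ax1 x) (ax2 x))) with hE
  have hE0 : 0 ≤ E := add_nonneg (vv_nonneg (nx_nonneg χ) (ax_nonneg X0)) (int_nonneg hX00 _)
  have hEJ : E ≤ J + t := by linarith
  have hJ0 : 0 ≤ J := le_trans (add_nonneg (vv_nonneg hθ0.le (ax_nonneg X0)) (int_nonneg hX00 _)) hJX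
  -- the main constant
  have hmain : PiP P * (1 / 2 * Ft F 0) * E ≤
      (8 / Real.pi ^ 2 + t) * (1 / 2 * (1 + t)) * (J + t) := by
    have h1 := PiP_nonneg P
    have h2 := Ft_nonneg hF0
    apply mul_le_mul _ hEJ hE0 (by positivity)
    apply mul_le_mul hPP (by linarith) (by positivity) (by positivity)
  -- large `X`
  have hlog : Tendsto (fun X : ℕ => Real.log X) atTop atTop :=
    Real.tendsto_log_atTop.comp tendsto_natCast_atTop_atTop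
  have hlow : ∀ᶠ X : ℕ in atTop, 4 / Real.pi ^ 2 - t < ((OS ∩ {d | d ≤ X}).ncard : ℝ) / X :=
    hFI1.eventually (lt_mem_nhds (by linarith))
  have hev := (((hlog.eventually (eventually_ge_atTop L1)).and
    (hlog.eventually (eventually_ge_atTop L2))).and
    (hlog.eventually (eventually_ge_atTop (2 * X0)))).and ((eventually_ge_atTop 2).and hlow)
  rw [Filter.eventually_atTop] at hev
  obtain ⟨N, hN⟩ := hev
  refine ⟨N, ?_⟩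
  intro X hX
  obtain ⟨⟨⟨g1, g2⟩, g3⟩, g4, g5⟩ := hN X hX
  have hXr : (2 : ℝ) ≤ X := by exact_mod_cast g4
  have hXp : (0 : ℝ) < X := by linarith
  have k1 := hMR (Real.log X) g2
  have k2 := hTR (Real.log X) g1 X0 hX01 (by linarith)
  have k3 := bad_count hC5 hF hF0 (X0 := X0) ht hF1 X g4
  rw [lt_div_iff₀ hXp] at g5
  set NO := ((OS ∩ {d | d ≤ X}).ncard : ℝ)
  set NG := ((OS ∩ {d | d ≤ X} ∩ {d | ∀ σ : ℝ, 0 < σ → σ < 1 → 0 < LLd d σ}).ncard : ℝ)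
  set c1 := cnt F (Real.log X) (OS ∩ {d | bad1 (Real.log X) X0 d})
  set c2 := cnt F (Real.log X) (OS ∩ {d | bad2 (Real.log X) X0 d})
  have m1 : c1 ≤ (8 / Real.pi ^ 2 + t) * (1 / 2 * (1 + t)) * (J + t) + t := by linarith
  have m2 : c2 ≤ t := k2.trans hX0C
  have m3 : X * c1 ≤ X * ((8 / Real.pi ^ 2 + t) * (1 / 2 * (1 + t)) * (J + t) + t) :=
    mul_le_mul_of_nonneg_left m1 hXp.le
  have m4 : X * c2 ≤ X * t := mul_le_mul_of_nonneg_left m2 hXp.le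
  have hJ'0 : 0 ≤ J' := by linarith
  have m5 : J' * ((4 / Real.pi ^ 2 - t) * X) ≤ J' * NO := mul_le_mul_of_nonneg_left g5.le hJ'0
  have m6 : X * (t + t + ((8 / Real.pi ^ 2 + t) * (1 / 2 * (1 + t)) * (J + t) + t) + t) ≤
      X * (J' * (4 / Real.pi ^ 2 - t)) := mul_le_mul_of_nonneg_left hth.le hXp.le
  have m7 : 0 ≤ X * t := by positivity
  nlinarith

end

end Pool.Agent.H864R2.RZ2FI4
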