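import Mathlib

set_option autoImplicit false
set_option linter.unusedVariables false

open Set Metric Filter Topology MeasureTheory
open scoped ContDiff InnerProductSpace NNReal ENNReal

namespace Pool.Agent.H864R2

abbrev V := EuclideanSpace ℝ (Fin 3)

/-- a smooth closed convex surface `{f = 0}` -/
structure Surf where
  f : V → ℝ
  smooth : ContDiff ℝ ∞ f
  conv : Convex ℝ {x | f x ≤ 0}
  cpt : IsCompact {x | f x ≤ 0}
  int : (interior {x | f x ≤ 0}).Nonempty
  reg : ∀ x, f x = 0 → fderiv ℝ f x ≠ 0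

namespace Surf

variable (S : Surf)

def B : Set V := {x | S.f x ≤ 0}
def C : Set V := {x | S.f x = 0}

noncomputable def g (x : V) : V := (InnerProductSpace.toDual ℝ V).symm (fderiv ℝ S.f x)

lemma inner_g (x v : V) : ⟪S.g x, v⟫_ℝ = fderiv ℝ S.f x v := by
  unfold g
  exact InnerProductSpace.toDual_symm_apply

lemma hasFDerivAt_f (x : V) : HasFDerivAt S.f (fderiv ℝ S.f x) x :=
  (S.smooth.differentiable (by simp)).differentiableAt.hasFDerivAt

lemma g_smooth : ContDiff ℝ ∞ S.g := by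
  have h1 : ContDiff ℝ ∞ (fderiv ℝ S.f) := S.smooth.fderiv_right (by simp)
  exact (InnerProductSpace.toDual ℝ V).symm.toContinuousLinearEquiv.contDiff.comp h1

lemma g_cont : Continuous S.g := S.g_smooth.continuous

lemma g_ne {x : V} (hx : x ∈ S.C) : S.g x ≠ 0 := by
  intro h
  apply S.reg x hx
  ext v
  rw [← S.inner_g, h]
  simp

lemma f_cont : Continuous S.f := S.smooth.continuous

lemma C_sub_B : S.C ⊆ S.B := fun x hx => le_of_eq hx

lemma C_closed : IsClosed S.C := isClosed_singleton.preimage S.f_cont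

lemma C_compact : IsCompact S.C := S.cpt.of_isClosed_subset S.C_closed S.C_sub_B

/-- unit outward normal field -/
noncomputable def N (x : V) : V := ‖S.g x‖⁻¹ • S.g x

lemma N_norm {x : V} (hx : x ∈ S.C) : ‖S.N x‖ = 1 := by
  unfold N
  rw [norm_smul, norm_inv, norm_norm, inv_mul_cancel₀ (norm_ne_zero_iff.2 (S.g_ne hx))]

lemma g_eq (x : V) : S.g x = ‖S.g x‖ • S.N x := by
  unfold N
  by_cases h : S.g x = 0
  · simp [h]
  · rw [smul_smul, mul_inv_cancel₀ (norm_ne_zero_iff.2 h), one_smul]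

lemma N_contDiffAt {x : V} (hx : S.g x ≠ 0) : ContDiffAt ℝ ∞ S.N x := by
  unfold N
  have h1 : ContDiffAt ℝ ∞ S.g x := S.g_smooth.contDiffAt
  exact ((h1.norm ℝ hx).inv (norm_ne_zero_iff.2 hx)).smul h1

lemma N_contOn : ContinuousOn S.N S.C := fun x hx =>
  (S.N_contDiffAt (S.g_ne hx)).continuousAt.continuousWithinAt

/-- supporting hyperplanes -/
lemma inner_g_le {x y : V} (hx : x ∈ S.C) (hy : y ∈ S.B) : ⟪S.g x, y - x⟫_ℝ ≤ 0 := by
  rw [S.inner_g]
  have h1 : HasDerivWithinAt (fun t : ℝ => S.f (x + t • (y - x))) (fderiv ℝ S.f x (y - x))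
      (Ici 0) 0 := by
    have h2 : HasDerivAt (fun t : ℝ => x + t • (y - x)) (y - x) 0 := by
      simpa using ((hasDerivAt_id (0:ℝ)).smul_const (y - x)).const_add x
    have h3 := (S.hasFDerivAt_f (x + (0:ℝ) • (y - x))).comp_hasDerivAt (0:ℝ) h2
    simp only [zero_smul, add_zero] at h3
    exact h3.hasDerivWithinAt
  by_contra hcon
  push Not at hcon
  -- then f is positive for small t
  have h4 : Tendsto (slope (fun t : ℝ => S.f (x + t • (y - x))) 0) (𝓝[Ioi 0] 0)
      (𝓝 (fderiv ℝ S.f x (y - x))) := by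
    have := (hasDerivWithinAt_iff_tendsto_slope' (by simp)).1 (h1.mono Ioi_subset_Ici_self)
    simpa using this
  have h5 : ∀ᶠ t in 𝓝[Ioi 0] (0:ℝ), 0 < slope (fun t : ℝ => S.f (x + t • (y - x))) 0 t :=
    h4.eventually (lt_mem_nhds hcon)
  have h6 : ∀ᶠ t in 𝓝[Ioi 0] (0:ℝ), t ∈ Ioo (0:ℝ) 1 := Ioo_mem_nhdsGT one_pos
  obtain ⟨t, ht1, ht2⟩ := (h5.and h6).exists
  have h7 : x + t • (y - x) ∈ S.B := by
    have := S.conv (S.C_sub_B hx) hy (a := 1 - t) (b := t) (by linarith [ht2.2]) ht2.1.le (by ring)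
    have e : x + t • (y - x) = (1 - t) • x + t • y := by
      rw [smul_sub, sub_smul, one_smul]; abel
    rw [e]; exact this
  rw [slope_def_field] at ht1
  simp only [zero_smul, add_zero, sub_zero] at ht1
  have h8 : S.f x = 0 := hx
  rw [h8, sub_zero] at ht1
  have h9 : S.f (x + t • (y - x)) ≤ 0 := h7
  have : S.f (x + t • (y - x)) / t ≤ 0 := div_nonpos_of_nonpos_of_nonneg h9 ht2.1.le
  linarith

lemma inner_N_le {x y : V} (hx : x ∈ S.C) (hy : y ∈ S.B) : ⟪S.N x, y - x⟫_ℝ ≤ 0 := by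
  unfold N
  rw [real_inner_smul_left]
  exact mul_nonpos_of_nonneg_of_nonpos (by positivity) (S.inner_g_le hx hy)

/-- points beyond a supporting hyperplane are exterior -/
lemma ext_of_inner {x z : V} (hx : x ∈ S.C) (hz : 0 ≤ ⟪S.N x, z - x⟫_ℝ) : 0 ≤ S.f z := by
  by_contra hcon
  push Not at hcon
  have h1 : ∀ᶠ t in 𝓝[Ioi 0] (0:ℝ), S.f (z + t • S.N x) < 0 := by
    have hc : ContinuousAt (fun t : ℝ => S.f (z + t • S.N x)) 0 := by
      apply Continuous.continuousAt
      exact S.f_cont.comp (by fun_prop)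
    have : ∀ᶠ t in 𝓝 (0:ℝ), S.f (z + t • S.N x) < 0 := by
      apply hc.eventually_lt_const
      simpa using hcon
    exact this.filter_mono nhdsWithin_le_nhds
  obtain ⟨t, ht1, ht2⟩ := (h1.and self_mem_nhdsWithin).exists
  have ht2' : (0:ℝ) < t := ht2
  have h2 := S.inner_N_le hx (y := z + t • S.N x) ht1.le
  have e : z + t • S.N x - x = (z - x) + t • S.N x := by abel
  rw [e, inner_add_right, inner_smul_right, real_inner_self_eq_norm_sq, S.N_norm hx] at h2
  nlinarith

lemma int_B : interior S.B = {x | S.f x < 0} := by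
  apply Subset.antisymm
  · intro x hx
    have h0 : x ∈ S.B := interior_subset hx
    have h1 : S.f x ≤ 0 := h0
    rcases lt_or_eq_of_le h1 with h | h
    · exact h
    exfalso
    -- x ∈ C : move along the normal
    have h2 : ∀ᶠ t in 𝓝[Ioi 0] (0:ℝ), x + t • S.N x ∈ S.B := by
      have hc : ContinuousAt (fun t : ℝ => x + t • S.N x) 0 := by
        apply Continuous.continuousAt; fun_prop
      have : ∀ᶠ t in 𝓝 (0:ℝ), x + t • S.N x ∈ S.B := by
        apply hc.eventually_mem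
        simpa using mem_interior_iff_mem_nhds.1 hx
      exact this.filter_mono nhdsWithin_le_nhds
    obtain ⟨t, ht1, ht2⟩ := (h2.and self_mem_nhdsWithin).exists
    have ht2' : (0:ℝ) < t := ht2
    have h3 := S.inner_N_le (x := x) h ht1
    rw [add_sub_cancel_left, inner_smul_right, real_inner_self_eq_norm_sq, S.N_norm h] at h3
    nlinarith
  · apply interior_maximal
    · intro x hx
      have h1 : S.f x < 0 := hx
      exact h1.le
    · exact isOpen_lt S.f_cont continuous_const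

lemma frontier_B : frontier S.B = S.C := by
  have hcl : IsClosed S.B := S.cpt.isClosed
  rw [hcl.frontier_eq, S.int_B]
  ext x
  constructor
  · rintro ⟨h1, h2⟩
    have h3 : S.f x ≤ 0 := h1
    have h4 : ¬ S.f x < 0 := h2
    exact le_antisymm h3 (not_lt.1 h4)
  · intro h
    have h3 : S.f x = 0 := h
    refine ⟨show S.f x ≤ 0 from h3.le, ?_⟩
    intro h4
    have h5 : S.f x < 0 := h4
    linarith

lemma B_nonempty : S.B.Nonempty := S.int.mono interior_subset

lemma exists_proj (z : V) : ∃ w ∈ S.B, ∀ y ∈ S.B, ⟪z - w, y - w⟫_ℝ ≤ 0 := by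
  obtain ⟨w, hw, h⟩ := exists_norm_eq_iInf_of_complete_convex S.B_nonempty
    (S.cpt.isClosed.isComplete) S.conv z
  exact ⟨w, hw, (norm_eq_iInf_iff_real_inner_le_zero S.conv hw).1 h⟩

/-- nearest point projection to the convex body -/
noncomputable def P (z : V) : V := (S.exists_proj z).choose

lemma P_mem (z : V) : S.P z ∈ S.B := (S.exists_proj z).choose_spec.1

lemma P_inner (z : V) {y : V} (hy : y ∈ S.B) : ⟪z - S.P z, y - S.P z⟫_ℝ ≤ 0 :=
  (S.exists_proj z).choose_spec.2 y hy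

lemma P_lip (z w : V) : ‖S.P z - S.P w‖ ≤ ‖z - w‖ := by
  have h1 := S.P_inner z (S.P_mem w)
  have h2 := S.P_inner w (S.P_mem z)
  have h3 : ‖S.P z - S.P w‖ ^ 2 ≤ ⟪z - w, S.P z - S.P w⟫_ℝ := by
    rw [← real_inner_self_eq_norm_sq]
    have e1 : ⟪z - S.P z, S.P w - S.P z⟫_ℝ = - ⟪z - S.P z, S.P z - S.P w⟫_ℝ := by
      rw [← inner_neg_right, neg_sub]
    have e2 : ⟪z - w, S.P z - S.P w⟫_ℝ = ⟪z - S.P z, S.P z - S.P w⟫_ℝ
        + ⟪S.P z - S.P w, S.P z - S.P w⟫_ℝ - ⟪w - S.P w, S.P z - S.P w⟫_ℝ := by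
      rw [← inner_add_left, ← inner_sub_left]
      congr 1
      abel
    rw [e1] at h1
    linarith
  have h4 := real_inner_le_norm (z - w) (S.P z - S.P w)
  rcases eq_or_lt_of_le (norm_nonneg (S.P z - S.P w)) with h | h
  · rw [← h]; exact norm_nonneg _
  · nlinarith

lemma P_lipschitz : LipschitzWith 1 S.P := by
  apply LipschitzWith.of_dist_le_mul
  intro z w
  rw [dist_eq_norm, dist_eq_norm, NNReal.coe_one, one_mul]
  exact S.P_lip z w

lemma P_of_mem {z : V} (hz : z ∈ S.B) : S.P z = z := by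
  have h := S.P_inner z hz
  rw [real_inner_self_eq_norm_sq] at h
  have : ‖z - S.P z‖ = 0 := by nlinarith [norm_nonneg (z - S.P z)]
  exact (sub_eq_zero.1 (norm_eq_zero.1 this)).symm

lemma P_mem_C {z : V} (hz : 0 ≤ S.f z) : S.P z ∈ S.C := by
  have h1 : S.f (S.P z) ≤ 0 := S.P_mem z
  rcases lt_or_eq_of_le h1 with h | h
  swap
  · exact h
  exfalso
  have h2 : ∀ᶠ t in 𝓝[Ioi 0] (0:ℝ), S.f (S.P z + t • (z - S.P z)) < 0 := by
    have hc : ContinuousAt (fun t : ℝ => S.f (S.P z + t • (z - S.P z))) 0 := by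
      apply Continuous.continuousAt
      exact S.f_cont.comp (by fun_prop)
    have : ∀ᶠ t in 𝓝 (0:ℝ), S.f (S.P z + t • (z - S.P z)) < 0 := by
      apply hc.eventually_lt_const
      simpa using h
    exact this.filter_mono nhdsWithin_le_nhds
  obtain ⟨t, ht1, ht2⟩ := (h2.and self_mem_nhdsWithin).exists
  have ht2' : (0:ℝ) < t := ht2
  have h3 := S.P_inner z (y := S.P z + t • (z - S.P z)) ht1.le
  rw [add_sub_cancel_left, inner_smul_right, real_inner_self_eq_norm_sq] at h3
  have h4 : ‖z - S.P z‖ = 0 := by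
    by_contra h5
    have : 0 < ‖z - S.P z‖ := lt_of_le_of_ne (norm_nonneg _) (Ne.symm h5)
    have := mul_pos ht2' (pow_pos this 2)
    linarith
  have h5 : z = S.P z := sub_eq_zero.1 (norm_eq_zero.1 h4)
  rw [← h5] at h
  linarith

end Surf

end Pool.Agent.H864R2
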