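import Pool.Agent.H864R2.Cut3

set_option autoImplicit false
set_option linter.unusedVariables false

open Set Metric Filter Topology MeasureTheory
open scoped ContDiff InnerProductSpace NNReal ENNReal

namespace Pool.Agent.H864R2

namespace Surf

variable (S : Surf)

lemma d_ap (hP : S.PropM) {p : V} (hp : p ∈ S.C) : S.d p (S.ap p) = S.ell p :=
  S.Mn_ell hP (S.W_UC hp 0)

lemma fl_Φ_Φ {w : V × V} (hw : w ∈ S.UC) (t : ℝ) : S.Φ t (fl (S.Φ t w)) = fl w := by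
  rw [S.Φ_fl (S.Φ_UC hw t), S.Φ_inv]

lemma ell_ap (hP : S.PropM) {p : V} (hp : p ∈ S.C) :
    S.ell (S.ap p) = S.ell p ∧ S.ap (S.ap p) = p := by
  have hw := S.dir_mem hp
  set w : V × V := (p, S.dir p) with hwd
  set u := fl (S.Φ (S.ell p) w) with hu
  have hend : (S.Φ (S.ell p) w).1 = S.ap p := S.end_ap hP hw
  have hu1 : u.1 = S.ap p := hend
  have huU : u ∈ S.UC := S.fl_UC (S.Φ_UC hw _)
  have hΦu : S.Φ (S.ell p) u = fl w := S.fl_Φ_Φ hw _
  have hJ : S.J (S.ell p) u = 0 := by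
    rw [hu, ← S.J_symm hw]; exact S.J_ell hP hw
  have hge : S.ell p ≤ S.ell (S.ap p) := by
    have := S.d_le_ell (S.ap_C hp) hp
    rwa [S.d_comm, S.d_ap hP hp] at this
  have heq : S.ell (S.ap p) = S.ell p := by
    apply le_antisymm _ hge
    by_contra hlt
    push Not at hlt
    have := S.J_pos hP huU (S.ell_pos hp) (by rw [hu1]; exact hlt)
    rw [hJ] at this
    exact lt_irrefl _ this
  refine ⟨heq, ?_⟩
  have := S.end_ap hP huU
  rw [hu1, heq, hΦu] at this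
  exact this.symm

lemma d_add (hP : S.PropM) {p x : V} (hp : p ∈ S.C) (hx : x ∈ S.C) :
    S.d p x + S.d x (S.ap p) = S.ell p := by
  obtain ⟨w, hw, h1, h2⟩ := S.exists_Mn hp hx
  have hM := S.Mn_ell hP hw
  have h3 := S.Mn_dist hw hM (S.d_nonneg p x) (by rw [h1]; exact S.d_le_ell hp hx) le_rfl
  rw [S.end_ap hP hw, h2, h1] at h3
  rw [h3]; ring

lemma ell_const (hP : S.PropM) {p q : V} (hp : p ∈ S.C) (hq : q ∈ S.C) : S.ell p = S.ell q := by
  have h1 := S.d_add hP hq hp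
  have h2 := S.d_add hP hq (S.ap_C hp)
  have h3 := S.d_add hP hp hq
  have h4 := S.d_add hP hp (S.ap_C hq)
  rw [S.d_comm q p] at h1
  rw [S.d_comm (S.ap p) (S.ap q), ] at h2
  rw [S.d_comm (S.ap q) (S.ap p)] at h4
  rw [S.d_comm (S.ap q) (S.ap p)] at h2
  linarith

/-- common value of `ell` -/
noncomputable def L : ℝ := S.ell S.C_nonempty.some

lemma ell_L (hP : S.PropM) {p : V} (hp : p ∈ S.C) : S.ell p = S.L :=
  S.ell_const hP hp S.C_nonempty.some_mem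

lemma L_pos : 0 < S.L := S.ell_pos S.C_nonempty.some_mem

lemma Φ_L (hP : S.PropM) {w : V × V} (hw : w ∈ S.UC) : (S.Φ S.L w).1 = S.ap w.1 := by
  rw [← S.ell_L hP hw.1]; exact S.end_ap hP hw

lemma Φ_L' (hP : S.PropM) {w : V × V} (hw : w ∈ S.UC) (t : ℝ) :
    (S.Φ (t + S.L) w).1 = S.ap (S.Φ t w).1 := by
  rw [add_comm, S.Φ_add]; exact S.Φ_L hP (S.Φ_UC hw t)

lemma ap_ap (hP : S.PropM) {p : V} (hp : p ∈ S.C) : S.ap (S.ap p) = p := (S.ell_ap hP hp).2

lemma Φ_2L (hP : S.PropM) {w : V × V} (hw : w ∈ S.UC) : S.Φ (2 * S.L) w = w := by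
  apply S.geo_unique (S.Φ_UC hw _) hw (zero_lt_one)
  intro t _
  rw [← S.Φ_add, show t + 2 * S.L = (t + S.L) + S.L by ring, S.Φ_L' hP hw, S.Φ_L' hP hw,
    S.ap_ap hP (S.geo_C hw t)]

lemma Mn_L (hP : S.PropM) {w : V × V} (hw : w ∈ S.UC) : S.Mn S.L w := by
  rw [← S.ell_L hP hw.1]; exact S.Mn_ell hP hw

lemma d_L (hP : S.PropM) {w : V × V} (hw : w ∈ S.UC) {t : ℝ} (h0 : 0 ≤ t) (hL : t ≤ S.L) :
    S.d w.1 (S.Φ t w).1 = t := S.Mn_mono hw (S.Mn_L hP hw) h0 hL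

lemma J_L (hP : S.PropM) {w : V × V} (hw : w ∈ S.UC) : S.J S.L w = 0 := by
  rw [← S.ell_L hP hw.1]; exact S.J_ell hP hw

lemma J_pos' (hP : S.PropM) {w : V × V} (hw : w ∈ S.UC) {t : ℝ} (h0 : 0 < t) (hL : t < S.L) :
    0 < S.J t w := S.J_pos hP hw h0 (by rw [S.ell_L hP hw.1]; exact hL)

lemma geo_inj' (hP : S.PropM) {w w' : V × V} (hw : w ∈ S.UC) (hw' : w' ∈ S.UC) (hww : w.1 = w'.1)
    {r : ℝ} (hr : 0 < r) (hrl : r < S.L) (h : (S.Φ r w).1 = (S.Φ r w').1) : w = w' :=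
  S.geo_inj hP hw hw' hww hr (by rw [S.ell_L hP hw.1]; exact hrl) h

lemma J'_L (hP : S.PropM) {w : V × V} (hw : w ∈ S.UC) : S.J' S.L w = -1 := by
  have hL := S.L_pos
  set s₀ : ℝ := -(S.L / 2) with hs₀
  have hy := S.J_Jac hw
  have hc := S.J_shift hw s₀
  set c : ℝ → ℝ := fun t => S.J (t - s₀) (S.Φ s₀ w) with hcd
  set c' : ℝ → ℝ := fun t => S.J' (t - s₀) (S.Φ s₀ w) with hcd'
  have h1 : ∀ s, c s * S.J (s + S.L) w - S.J s w * c (s + S.L) = 0 := by
    intro s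
    have hlin := Jac_lin (c s) (-(S.J s w)) hy hc
    have h2 := (S.Jac_char hw hlin (a := s) (by ring) (s + S.L)).1
    simp only [add_sub_cancel_left, S.J_L hP (S.Φ_UC hw s), mul_zero] at h2
    linarith
  have hc0 : 0 < c 0 := by
    simp only [hcd, zero_sub, hs₀, neg_neg]
    exact S.J_pos' hP (S.Φ_UC hw _) (by linarith) (by linarith)
  -- differentiate at 0
  have hadd : HasDerivAt (fun s : ℝ => s + S.L) 1 0 := (hasDerivAt_id 0).add_const _
  have d1 : HasDerivAt (fun s => S.J (s + S.L) w) (S.J' S.L w) 0 := by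
    have h := (hy (0 + S.L)).1.comp (0:ℝ) hadd
    simp only [mul_one, zero_add] at h
    exact h
  have d2 : HasDerivAt (fun s => c (s + S.L)) (c' S.L) 0 := by
    have h := (hc (0 + S.L)).1.comp (0:ℝ) hadd
    simp only [mul_one, zero_add] at h
    exact h
  have d3 := ((hc 0).1.fun_mul d1).fun_sub ((hy 0).1.fun_mul d2)
  have d4 : HasDerivAt (fun s => c s * S.J (s + S.L) w - S.J s w * c (s + S.L)) 0 0 := by
    simp only [h1]; exact hasDerivAt_const 0 0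
  have h3 := d3.unique d4
  simp only [zero_add, S.J_L hP hw, S.J_zero hw, S.J'_zero hw] at h3
  have h4 := hy.wronsk hc 0 S.L
  simp only [S.J_L hP hw, S.J_zero hw, S.J'_zero hw] at h4
  have h5 : c S.L = c 0 * S.J' S.L w := by linarith
  have h6 : c 0 = S.J' S.L w * c S.L := by linarith
  rw [h5] at h6
  have h7 : S.J' S.L w ^ 2 = 1 := by
    have : c 0 * (S.J' S.L w ^ 2 - 1) = 0 := by linear_combination -h6
    rcases mul_eq_zero.1 this with h | h
    · exact absurd h hc0.ne'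
    · linarith
  -- sign
  have h8 : S.J' S.L w ≤ 0 := by
    have hd := (hy S.L).1
    have h9 := hd.tendsto_slope_zero_left
    refine le_of_tendsto h9 ?_
    have : Ioo (-S.L) 0 ∈ 𝓝[<] (0:ℝ) := Ioo_mem_nhdsLT (by linarith)
    filter_upwards [this] with t ht
    have k1 : 0 < S.J (S.L + t) w := S.J_pos' hP hw (by linarith [ht.1]) (by linarith [ht.2])
    simp only [S.J_L hP hw, sub_zero, smul_eq_mul]
    exact mul_nonpos_of_nonpos_of_nonneg (inv_nonpos.2 ht.2.le) k1.le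
  have h9 : (S.J' S.L w - 1) * (S.J' S.L w + 1) = 0 := by linear_combination h7
  rcases mul_eq_zero.1 h9 with h | h
  · linarith
  · linarith

/-- polar coordinates: surjectivity -/
lemma polar_surj (hP : S.PropM) {p x : V} (hp : p ∈ S.C) (hx : x ∈ S.C) (h1 : x ≠ p)
    (h2 : x ≠ S.ap p) : S.d p x ∈ Ioo 0 S.L ∧ ∃ θ ∈ Ico 0 (2 * Real.pi),
      (S.Φ (S.d p x) (S.W p θ)).1 = x := by
  obtain ⟨w, hw, k1, k2⟩ := S.exists_Mn hp hx
  have h0 : 0 < S.d p x := by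
    apply lt_of_le_of_ne (S.d_nonneg _ _)
    intro h
    exact h1 (S.eq_of_d hp hx h.symm).symm
  have hL : S.d p x < S.L := by
    have h3 := S.d_le_ell hp hx
    rw [S.ell_L hP hp] at h3
    apply lt_of_le_of_ne h3
    intro h
    have h4 := S.d_add hP hp hx
    rw [S.ell_L hP hp, h] at h4
    exact h2 (S.eq_of_d hx (S.ap_C hp) (by linarith))
  refine ⟨⟨h0, hL⟩, ?_⟩
  subst k1
  obtain ⟨θ, hθ, h⟩ := S.exists_W (p := w.1) (v := w.2) hw
  have h' : S.W w.1 θ = w := h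
  exact ⟨θ, hθ, by rw [h']; exact k2⟩

end Surf

end Pool.Agent.H864R2
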