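import Pool.Agent.H864R2.Blas

set_option autoImplicit false
set_option linter.unusedVariables false

open Set Metric Filter Topology MeasureTheory
open scoped ContDiff InnerProductSpace NNReal ENNReal

namespace Pool.Agent.H864R2

/-- determinant through the triple product -/
lemma det3 (A : V →L[ℝ] V) : A.det = ⟪A (EuclideanSpace.single 0 1),
    cr (A (EuclideanSpace.single 1 1)) (A (EuclideanSpace.single 2 1))⟫_ℝ := by
  have h1 : A.det = LinearMap.det (A : V →ₗ[ℝ] V) := rfl
  set b := (EuclideanSpace.basisFun (Fin 3) ℝ).toBasis with hb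
  have hbi : ∀ i, b i = EuclideanSpace.single i 1 := by
    intro i; simp [hb]
  rw [h1, ← LinearMap.det_toMatrix b, Matrix.det_fin_three]
  have h2 : ∀ i j, (LinearMap.toMatrix b b (A : V →ₗ[ℝ] V)) i j = (A (EuclideanSpace.single j 1)) i := by
    intro i j
    rw [LinearMap.toMatrix_apply, hbi]
    simp [hb]
  simp only [h2]
  rw [inner_c]
  simp only [cr_0, cr_1, cr_2]
  ring

namespace Surf

variable (S : Surf)

/-- an interior point -/
noncomputable def o : V := S.int.some

lemma o_int : S.o ∈ interior S.B := S.int.some_mem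

lemma o_mem : S.o ∈ S.B := interior_subset S.o_int

/-- centred body -/
def gs : Set V := {v | S.o + v ∈ S.B}

lemma gs_convex : Convex ℝ S.gs := by
  have : S.gs = (fun v => S.o + v) ⁻¹' S.B := rfl
  rw [this]
  exact S.conv.translate_preimage_right S.o

lemma gs_nhds : S.gs ∈ 𝓝 (0:V) := by
  have h1 : Tendsto (fun v : V => S.o + v) (𝓝 0) (𝓝 S.o) := by
    exact (continuous_const_add S.o).tendsto' 0 S.o (add_zero _)
  exact h1 (mem_interior_iff_mem_nhds.1 S.o_int)

lemma gs_frontier {v : V} : v ∈ frontier S.gs ↔ S.o + v ∈ S.C := by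
  have h1 : S.gs = (Homeomorph.addLeft S.o) ⁻¹' S.B := rfl
  rw [h1, ← (Homeomorph.addLeft S.o).preimage_frontier, S.frontier_B]
  rfl

lemma gs_bdd : Bornology.IsVonNBounded ℝ S.gs := by
  have h1 : S.gs = (Homeomorph.addLeft S.o) ⁻¹' S.B := rfl
  have h2 : IsCompact S.gs := by
    rw [h1]; exact (Homeomorph.addLeft S.o).isCompact_preimage.2 S.cpt
  exact (NormedSpace.isVonNBounded_iff ℝ).2 h2.isBounded

/-- gauge function -/
noncomputable def γg (y : V) : ℝ := gauge S.gs (y - S.o)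

lemma γg_cont : Continuous S.γg :=
  (continuous_gauge S.gs_convex S.gs_nhds).comp (continuous_id.sub continuous_const)

lemma γg_C {x : V} : S.γg x = 1 ↔ x ∈ S.C := by
  unfold γg
  rw [gauge_eq_one_iff_mem_frontier S.gs_convex S.gs_nhds, S.gs_frontier, add_sub_cancel]

lemma γg_le {y : V} (hy : y ∈ S.B) : S.γg y ≤ 1 := by
  apply gauge_le_one_of_mem
  show S.o + (y - S.o) ∈ S.B
  rwa [add_sub_cancel]

lemma γg_ray {x : V} {l : ℝ} (hl : 0 ≤ l) : S.γg (S.o + l • (x - S.o)) = l * S.γg x := by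
  unfold γg
  rw [add_sub_cancel_left, gauge_smul_of_nonneg hl, smul_eq_mul]

lemma γg_pos {y : V} (hy : y ≠ S.o) : 0 < S.γg y := by
  unfold γg
  rw [gauge_pos (absorbent_nhds_zero S.gs_nhds) S.gs_bdd]
  exact sub_ne_zero.2 hy

/-- radial projection -/
noncomputable def rp (y : V) : V := S.o + (S.γg y)⁻¹ • (y - S.o)

lemma rp_meas : Measurable S.rp := by
  unfold rp
  exact (measurable_const).add ((S.γg_cont.measurable.inv).smul (measurable_id.sub measurable_const))

lemma rp_ray {x : V} (hx : x ∈ S.C) {l : ℝ} (hl : 0 < l) : S.rp (S.o + l • (x - S.o)) = x := by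
  unfold rp
  rw [S.γg_ray hl.le, S.γg_C.2 hx, mul_one, add_sub_cancel_left, smul_smul, inv_mul_cancel₀ hl.ne',
    one_smul, add_sub_cancel]

lemma ray_B {x : V} (hx : x ∈ S.C) {l : ℝ} (h0 : 0 ≤ l) (h1 : l ≤ 1) :
    S.o + l • (x - S.o) ∈ S.B := by
  have := S.conv.add_smul_sub_mem S.o_mem (S.C_sub_B hx) ⟨h0, h1⟩
  exact this

lemma exists_ray {y : V} (hy : y ∈ S.B) (hne : y ≠ S.o) :
    ∃ x ∈ S.C, ∃ l ∈ Ioc (0:ℝ) 1, y = S.o + l • (x - S.o) := by
  have h1 := S.γg_pos hne
  refine ⟨S.rp y, ?_, S.γg y, ⟨h1, S.γg_le hy⟩, ?_⟩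
  · rw [← S.γg_C]
    unfold rp
    rw [S.γg_ray (inv_nonneg.2 h1.le), inv_mul_cancel₀ h1.ne']
  · unfold rp
    rw [add_sub_cancel_left, smul_smul, mul_inv_cancel₀ h1.ne', one_smul, add_sub_cancel]

lemma ray_inj {x y : V} (hx : x ∈ S.C) (hy : y ∈ S.C) {l m : ℝ} (hl : 0 < l) (hm : 0 < m)
    (h : S.o + l • (x - S.o) = S.o + m • (y - S.o)) : l = m ∧ x = y := by
  constructor
  · have := congrArg S.γg h
    rwa [S.γg_ray hl.le, S.γg_ray hm.le, S.γg_C.2 hx, S.γg_C.2 hy, mul_one, mul_one] at this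
  · have := congrArg S.rp h
    rwa [S.rp_ray hx hl, S.rp_ray hy hm] at this

/-- support function with respect to `o` -/
noncomputable def hs (x : V) : ℝ := ⟪x - S.o, S.N x⟫_ℝ

lemma N_meas : Measurable S.N := by
  unfold N
  exact (S.g_cont.norm.measurable.inv).smul S.g_cont.measurable

lemma hs_meas : Measurable S.hs := by
  unfold hs
  exact (measurable_id.sub measurable_const).inner S.N_meas

lemma hs_pos {x : V} (hx : x ∈ S.C) : 0 < S.hs x := by
  obtain ⟨ε, hε, hb⟩ := Metric.mem_nhds_iff.1 (mem_interior_iff_mem_nhds.1 S.o_int)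
  have h1 : S.o + (ε/2) • S.N x ∈ S.B := by
    apply hb
    rw [mem_ball_iff_norm, add_sub_cancel_left, norm_smul, S.N_norm hx, mul_one, Real.norm_eq_abs,
      abs_of_pos (by positivity)]
    linarith
  have h2 := S.inner_N_le hx h1
  have h3 : S.o + (ε/2) • S.N x - x = (ε/2) • S.N x - (x - S.o) := by abel
  rw [h3, inner_sub_right, inner_smul_right, real_inner_self_eq_norm_sq, S.N_norm hx] at h2
  unfold hs
  rw [real_inner_comm]
  nlinarith

end Surf

end Pool.Agent.H864R2
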