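import Pool.Agent.H864R2.IntGeo

set_option autoImplicit false
set_option linter.unusedVariables false

open Set Metric Filter Topology MeasureTheory
open scoped ContDiff InnerProductSpace NNReal ENNReal

namespace Pool.Agent.H864R2

namespace Surf

variable (S : Surf)

attribute [local irreducible] K N

lemma exists_good_p (hP : S.PropM) : ∃ p ∈ S.C,
    ∫⁻ θ in Ico 0 (2 * Real.pi), ENNReal.ofReal (∫ t in (0:ℝ)..S.L, S.K (S.Φ t (S.W p θ)).1 *
      Real.sin (S.kk * t) ^ 2) =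
    ∫⁻ θ in Ico 0 (2 * Real.pi), ENNReal.ofReal (S.kk ^ 2 * S.L / 2) := by
  have hL := S.L_pos
  have hk := S.kk_pos
  have hkL := S.kk_L
  have hpi := Real.pi_pos
  set A : V → ℝ≥0∞ := fun p => ∫⁻ x, ENNReal.ofReal (S.K x) * S.ker S.κ₁ (p, x) ∂S.ν with hA
  set c : ℝ≥0∞ := ENNReal.ofReal (S.kk ^ 2 * S.L * Real.pi) with hc
  have hconst : ∫⁻ θ in Ico 0 (2 * Real.pi), ENNReal.ofReal (S.kk ^ 2 * S.L / 2) = c := by
    rw [setLIntegral_const, Real.volume_Ico, ← ENNReal.ofReal_mul (by positivity)]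
    congr 1; ring
  have hAle : ∀ p ∈ S.C, A p ≤ c := by
    intro p hp
    simp only [hA]
    rw [S.berger_p hP hp, ← hconst]
    apply lintegral_mono
    intro θ
    exact ENNReal.ofReal_le_ofReal (S.picone hP (S.W_UC hp θ)).1
  have hAint : ∫⁻ p, A p ∂S.ν = ENNReal.ofReal (4 * Real.pi ^ 2 * S.L) := by
    rw [S.berger_swap hP, ← ENNReal.ofReal_mul (by positivity)]
    congr 1; ring
  have hcint : ∫⁻ _p, c ∂S.ν ≤ ∫⁻ p, A p ∂S.ν := by
    rw [lintegral_const, hAint, hc, ENNReal.ofReal_mul (by positivity), mul_assoc]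
    calc ENNReal.ofReal (S.kk ^ 2 * S.L) * (ENNReal.ofReal Real.pi * S.ν univ)
        ≤ ENNReal.ofReal (S.kk ^ 2 * S.L) * ENNReal.ofReal (4 * S.L ^ 2) :=
          mul_le_mul_right (S.area_le hP) _
      _ = ENNReal.ofReal (4 * Real.pi ^ 2 * S.L) := by
          rw [← ENNReal.ofReal_mul (by positivity)]
          congr 1
          rw [← hkL]; ring
  have hae : A ≤ᵐ[S.ν] fun _ => c := by
    filter_upwards [S.ν_C hP] with p hp
    exact hAle p hp
  have heq := ae_eq_of_ae_le_of_lintegral_le hae (by rw [hAint]; exact ENNReal.ofReal_ne_top)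
    aemeasurable_const hcint
  have hne : S.ν ≠ 0 := by
    intro h0
    rw [h0, lintegral_zero_measure] at hAint
    have : 0 < ENNReal.ofReal (4 * Real.pi ^ 2 * S.L) := ENNReal.ofReal_pos.2 (by positivity)
    rw [← hAint] at this
    exact lt_irrefl _ this
  have : (ae S.ν).NeBot := ae_neBot.2 hne
  obtain ⟨p, h1, h2⟩ := (heq.and (S.ν_C hP)).exists
  refine ⟨p, h2, ?_⟩
  rw [hconst, ← S.berger_p hP h2]
  exact h1

lemma K_const (hP : S.PropM) {x : V} (hx : x ∈ S.C) : S.K x = S.kk ^ 2 := by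
  have hL := S.L_pos
  have hk := S.kk_pos
  obtain ⟨p, hp, heq⟩ := S.exists_good_p hP
  have hK : ∀ q : ℝ × ℝ, (S.Φ q.1 (S.W p q.2)).1 ∈ S.C := fun q => S.geo_C (S.W_UC hp q.2) q.1
  have hKc : Continuous (fun q : ℝ × ℝ => S.K (S.Φ q.1 (S.W p q.2)).1) := by
    rw [← continuousOn_univ]
    exact S.K_contOn.comp (S.E_cont p).continuousOn (fun q _ => hK q)
  have hae := ae_eq_of_ae_le_of_lintegral_le (μ := volume.restrict (Ico 0 (2 * Real.pi)))
    (f := fun θ : ℝ => ENNReal.ofReal (∫ t in (0:ℝ)..S.L, S.K (S.Φ t (S.W p θ)).1 *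
      Real.sin (S.kk * t) ^ 2)) (g := fun _ => ENNReal.ofReal (S.kk ^ 2 * S.L / 2))
    (Eventually.of_forall fun θ => ENNReal.ofReal_le_ofReal (S.picone hP (S.W_UC hp θ)).1)
    (by
      rw [heq, setLIntegral_const, Real.volume_Ico]
      exact ENNReal.mul_ne_top ENNReal.ofReal_ne_top ENNReal.ofReal_ne_top)
    aemeasurable_const heq.symm.le
  have hgood : ∀ᵐ θ ∂(volume.restrict (Ico 0 (2 * Real.pi))), ∀ t ∈ Ioo 0 S.L,
      S.K (S.Φ t (S.W p θ)).1 = S.kk ^ 2 := by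
    filter_upwards [hae] with θ hθ
    apply (S.picone hP (S.W_UC hp θ)).2
    have h0 : 0 < S.kk ^ 2 * S.L / 2 := by positivity
    have h1 : 0 ≤ ∫ t in (0:ℝ)..S.L, S.K (S.Φ t (S.W p θ)).1 * Real.sin (S.kk * t) ^ 2 := by
      apply intervalIntegral.integral_nonneg hL.le
      intro t _
      exact mul_nonneg (S.K_nonneg (hK (t, θ))) (sq_nonneg _)
    exact (ENNReal.ofReal_eq_ofReal_iff h1 h0.le).1 hθ
  have hall : ∀ t ∈ Ioo 0 S.L, ∀ θ ∈ Ico 0 (2 * Real.pi), S.K (S.Φ t (S.W p θ)).1 = S.kk ^ 2 := by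
    intro t ht
    have h1 : (fun θ : ℝ => S.K (S.Φ t (S.W p θ)).1) =ᵐ[volume.restrict (Ico 0 (2 * Real.pi))]
        fun _ => S.kk ^ 2 := by
      filter_upwards [hgood] with θ hθ
      exact hθ t ht
    have h2 := Measure.eqOn_Ico_of_ae_eq (μ := volume) h1
      (hKc.comp (Continuous.prodMk_right t)).continuousOn continuousOn_const
    exact h2
  have hgeo : Continuous (fun t : ℝ => S.K (S.Φ t (S.W p 0)).1) := hKc.comp (Continuous.prodMk_left 0)
  have h00 : (0:ℝ) ∈ Ico 0 (2 * Real.pi) := ⟨le_rfl, by positivity⟩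
  by_cases h1 : x = p
  · subst h1
    have h2 : Tendsto (fun t : ℝ => S.K (S.Φ t (S.W x 0)).1) (𝓝[>] 0) (𝓝 (S.K x)) := by
      have := (hgeo.tendsto 0).mono_left (nhdsWithin_le_nhds (s := Ioi 0))
      simp only [S.Φ_zero, S.W_fst] at this
      exact this
    have h3 : Tendsto (fun t : ℝ => S.K (S.Φ t (S.W x 0)).1) (𝓝[>] 0) (𝓝 (S.kk ^ 2)) := by
      apply tendsto_const_nhds.congr'
      filter_upwards [Ioo_mem_nhdsGT hL] with t ht
      exact (hall t ht 0 h00).symm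
    exact tendsto_nhds_unique h2 h3
  by_cases h1' : x = S.ap p
  · subst h1'
    have hend : (S.Φ S.L (S.W p 0)).1 = S.ap p := S.Φ_L hP (S.W_UC hp 0)
    have h2 : Tendsto (fun t : ℝ => S.K (S.Φ t (S.W p 0)).1) (𝓝[<] S.L) (𝓝 (S.K (S.ap p))) := by
      have := (hgeo.tendsto S.L).mono_left (nhdsWithin_le_nhds (s := Iio S.L))
      simp only [hend] at this
      exact this
    have h3 : Tendsto (fun t : ℝ => S.K (S.Φ t (S.W p 0)).1) (𝓝[<] S.L) (𝓝 (S.kk ^ 2)) := by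
      apply tendsto_const_nhds.congr'
      filter_upwards [Ioo_mem_nhdsLT hL] with t ht
      exact (hall t ht 0 h00).symm
    exact tendsto_nhds_unique h2 h3
  obtain ⟨ht, θ, hθ, hE⟩ := S.polar_surj hP hp hx h1 h1'
  rw [← hE]
  exact hall _ ht θ hθ

end Surf

end Pool.Agent.H864R2
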