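import Pool.Agent.H864R2.Jac2

set_option autoImplicit false
set_option linter.unusedVariables false

open Set Metric Filter Topology MeasureTheory
open scoped ContDiff InnerProductSpace NNReal ENNReal

namespace Pool.Agent.H864R2

namespace Surf

variable (S : Surf)

/-- the geodesic of `w` is minimising on `[0, r]` -/
def Mn (r : ℝ) (w : V × V) : Prop := S.d w.1 (S.Φ r w).1 = r

lemma geo_C {w : V × V} (hw : w ∈ S.UC) (t : ℝ) : (S.Φ t w).1 ∈ S.C := (S.Φ_UC hw t).1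

lemma d_start_le {w : V × V} (hw : w ∈ S.UC) {t : ℝ} (ht : 0 ≤ t) : S.d w.1 (S.Φ t w).1 ≤ t := by
  have := S.d_geo_le hw 0 t
  rwa [S.Φ_zero, zero_sub, abs_neg, abs_of_nonneg ht] at this

lemma Mn_dist {w : V × V} (hw : w ∈ S.UC) {r s t : ℝ} (h : S.Mn r w) (hs : 0 ≤ s) (hst : s ≤ t)
    (htr : t ≤ r) : S.d (S.Φ s w).1 (S.Φ t w).1 = t - s := by
  have h1 := S.d_geo_le hw s t
  rw [abs_sub_comm, abs_of_nonneg (by linarith)] at h1
  have h2 := S.d_geo_le hw t r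
  rw [abs_sub_comm, abs_of_nonneg (by linarith)] at h2
  have h3 := S.d_start_le hw hs
  have h4 := S.d_triangle (S.geo_C hw s) (S.geo_C hw t) (S.geo_C hw r)
  have h5 := S.d_triangle hw.1 (S.geo_C hw s) (S.geo_C hw r)
  have h6 : S.d w.1 (S.Φ r w).1 = r := h
  linarith

lemma Mn_mono {w : V × V} (hw : w ∈ S.UC) {r s : ℝ} (h : S.Mn r w) (hs : 0 ≤ s) (hsr : s ≤ r) :
    S.Mn s w := by
  have := S.Mn_dist hw h le_rfl hs hsr
  rw [S.Φ_zero, sub_zero] at this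
  exact this

lemma Mn_UMin {w : V × V} (hw : w ∈ S.UC) {r : ℝ} (h : S.Mn r w) :
    S.UMin r (fun t => (S.Φ t w).1) := by
  refine ⟨fun t _ => S.geo_C hw t, fun s hs t ht => ?_⟩
  rcases le_total s t with hst | hst
  · rw [S.Mn_dist hw h hs.1 hst ht.2, abs_sub_comm, abs_of_nonneg (by linarith)]
  · rw [S.d_comm, S.Mn_dist hw h ht.1 hst hs.2, abs_of_nonneg (by linarith)]

lemma exists_Mn {p x : V} (hp : p ∈ S.C) (hx : x ∈ S.C) :
    ∃ w ∈ S.UC, w.1 = p ∧ (S.Φ (S.d p x) w).1 = x := by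
  obtain ⟨σ, h0, h1, h2⟩ := S.exists_UMin hp hx
  obtain ⟨w, hw, h3⟩ := h2.exists_geo (S.d_nonneg p x)
  refine ⟨w, hw, ?_, ?_⟩
  · have := h3 0 ⟨le_rfl, S.d_nonneg p x⟩
    rw [h0, S.Φ_zero] at this
    exact this.symm
  · rw [← h3 _ ⟨S.d_nonneg p x, le_rfl⟩, h1]

lemma Mn_of_end {w : V × V} {p x : V} (h : w.1 = p) (h' : (S.Φ (S.d p x) w).1 = x) :
    S.Mn (S.d p x) w := by
  unfold Mn; rw [h', h]

lemma UMin_of_le {D : ℝ} {σ : ℝ → V} (hC : ∀ t ∈ Icc 0 D, σ t ∈ S.C)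
    (hle : ∀ s ∈ Icc 0 D, ∀ t ∈ Icc 0 D, s ≤ t → S.d (σ s) (σ t) ≤ t - s)
    (hD0 : 0 ≤ D) (hD : D ≤ S.d (σ 0) (σ D)) : S.UMin D σ := by
  have h0 : (0:ℝ) ∈ Icc 0 D := ⟨le_rfl, hD0⟩
  have h1 : D ∈ Icc 0 D := ⟨hD0, le_rfl⟩
  have key : ∀ s ∈ Icc 0 D, ∀ t ∈ Icc 0 D, s ≤ t → S.d (σ s) (σ t) = t - s := by
    intro s hs t ht hst
    have a1 := hle 0 h0 s hs hs.1
    have a2 := hle s hs t ht hst
    have a3 := hle t ht D h1 ht.2
    have a4 := S.d_triangle (hC 0 h0) (hC s hs) (hC D h1)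
    have a5 := S.d_triangle (hC s hs) (hC t ht) (hC D h1)
    linarith
  refine ⟨hC, fun s hs t ht => ?_⟩
  rcases le_total s t with hst | hst
  · rw [key s hs t ht hst, abs_sub_comm, abs_of_nonneg (by linarith)]
  · rw [S.d_comm, key t ht s hs hst, abs_of_nonneg (by linarith)]

/-- a minimising geodesic whose endpoint lies on a shortest curve to `x` passes through `x` -/
lemma extend_geo {w : V × V} (hw : w ∈ S.UC) {s : ℝ} (hs : 0 < s) (h : S.Mn s w) {x : V}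
    (hx : x ∈ S.C) (hd : S.d w.1 x = s + S.d (S.Φ s w).1 x) : (S.Φ (S.d w.1 x) w).1 = x := by
  set y := (S.Φ s w).1 with hy
  have hyC : y ∈ S.C := S.geo_C hw s
  obtain ⟨τ, t0, t1, t2⟩ := S.exists_UMin hyC hx
  set L := S.d w.1 x with hL
  set D := S.d y x with hD
  have hD0 : 0 ≤ D := S.d_nonneg y x
  set σ : ℝ → V := fun t => if t ≤ s then (S.Φ t w).1 else τ (t - s) with hσ
  have hσ1 : ∀ t, t ≤ s → σ t = (S.Φ t w).1 := fun t ht => by simp only [hσ, if_pos ht]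
  have hσ2 : ∀ t, s ≤ t → σ t = τ (t - s) := by
    intro t ht
    rcases eq_or_lt_of_le ht with h' | h'
    · rw [← h', hσ1 s le_rfl, sub_self, t0]
    · simp only [hσ, if_neg (not_le.2 h')]
  have hmin : S.UMin L σ := by
    apply S.UMin_of_le
    · intro t ht
      rcases le_total t s with h' | h'
      · rw [hσ1 t h']; exact S.geo_C hw t
      · rw [hσ2 t h']; exact t2.1 _ ⟨by linarith, by linarith [ht.2]⟩
    · have case1 : ∀ a b : ℝ, 0 ≤ a → a ≤ b → b ≤ s → S.d (σ a) (σ b) ≤ b - a := by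
        intro a b ha hab hb
        rw [hσ1 a (hab.trans hb), hσ1 b hb, S.Mn_dist hw h ha hab hb]
      have case2 : ∀ a b : ℝ, s ≤ a → a ≤ b → b ≤ L → S.d (σ a) (σ b) ≤ b - a := by
        intro a b ha hab hb
        rw [hσ2 a ha, hσ2 b (ha.trans hab), t2.2 _ ⟨by linarith, by linarith⟩ _
          ⟨by linarith, by linarith⟩, abs_sub_comm, abs_of_nonneg (by linarith)]
        linarith
      intro a ha b hb hab
      rcases le_total b s with h1 | h1
      · exact case1 a b ha.1 hab h1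
      rcases le_total s a with h2 | h2
      · exact case2 a b h2 hab hb.2
      · have k1 := case1 a s ha.1 h2 le_rfl
        have k2 := case2 s b le_rfl h1 hb.2
        have m1 : σ a ∈ S.C := by rw [hσ1 a h2]; exact S.geo_C hw a
        have m2 : σ s ∈ S.C := by rw [hσ1 s le_rfl]; exact S.geo_C hw s
        have m3 : σ b ∈ S.C := by rw [hσ2 b h1]; exact t2.1 _ ⟨by linarith, by linarith [hb.2]⟩
        have := S.d_triangle m1 m2 m3
        linarith
    · linarith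
    · rw [hσ1 0 hs.le, S.Φ_zero, hσ2 L (by linarith), show L - s = D by linarith, t1]
  have hL0 : s ≤ L := by linarith
  obtain ⟨w', hw', hg⟩ := hmin.exists_geo (by linarith)
  have hww : w' = w := by
    apply S.geo_unique hw' hw hs
    intro t ht
    rw [← hg t ⟨ht.1, ht.2.trans hL0⟩, hσ1 t ht.2]
  have h5 := hg L ⟨by linarith, le_rfl⟩
  rw [hww, hσ2 L hL0, show L - s = D by linarith, t1] at h5
  exact h5.symm

/-- the hypothesis on shortest curves -/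
def PropM : Prop := ∀ x y : V, x ∈ S.C → y ∈ S.C →
  ({A : Set V | ∃ γ : ℝ → V, S.Adm x y γ ∧ (∀ δ : ℝ → V, S.Adm x y δ →
    eVariationOn γ (Icc 0 1) ≤ eVariationOn δ (Icc 0 1)) ∧ γ '' Icc 0 1 = A}).Subsingleton ∨
  ({A : Set V | ∃ γ : ℝ → V, S.Adm x y γ ∧ (∀ δ : ℝ → V, S.Adm x y δ →
    eVariationOn γ (Icc 0 1) ≤ eVariationOn δ (Icc 0 1)) ∧ γ '' Icc 0 1 = A}).Infinite

lemma image_mem {w : V × V} (hw : w ∈ S.UC) {r : ℝ} (hr : 0 ≤ r) (h : S.Mn r w) {x : V}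
    (hx : (S.Φ r w).1 = x) :
    (fun t => (S.Φ t w).1) '' Icc 0 r ∈ {A : Set V | ∃ γ : ℝ → V, S.Adm w.1 x γ ∧
      (∀ δ : ℝ → V, S.Adm w.1 x δ → eVariationOn γ (Icc 0 1) ≤ eVariationOn δ (Icc 0 1)) ∧
      γ '' Icc 0 1 = A} := by
  have hxC : x ∈ S.C := hx ▸ S.geo_C hw r
  set φ : ℝ → ℝ := fun t => r * t with hφ
  have hmono : MonotoneOn φ (Icc 0 1) := fun a _ b _ hab => mul_le_mul_of_nonneg_left hab hr
  have hmaps : MapsTo φ (Icc 0 1) (Icc 0 r) := fun t ht =>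
    ⟨mul_nonneg hr ht.1, mul_le_of_le_one_right hr ht.2⟩
  refine ⟨(fun t => (S.Φ t w).1) ∘ φ, ⟨?_, ?_, ?_, ?_⟩, ?_, ?_⟩
  · exact ((continuous_fst.comp (S.Φ_contt w)).comp (continuous_const.mul continuous_id)).continuousOn
  · simp [hφ, S.Φ_zero]
  · simp [hφ, hx]
  · intro t _; exact S.geo_C hw _
  · intro δ hδ
    have h1 := eVariationOn.comp_le_of_monotoneOn (fun t => (S.Φ t w).1) φ hmono hmaps
    have h2 := (S.Mn_UMin hw h).var hr
    have h3 := S.dE_le_adm hδ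
    rw [← S.ofReal_d hw.1 hxC, ← hx, h] at h3
    exact h1.trans (h2.le.trans h3)
  · rw [image_comp]
    congr 1
    apply Subset.antisymm
    · rintro _ ⟨t, ht, rfl⟩; exact hmaps ht
    · intro t ht
      rcases eq_or_lt_of_le hr with h0 | h0
      · refine ⟨0, ⟨le_rfl, zero_le_one⟩, ?_⟩
        rw [← h0] at ht
        simp only [hφ, mul_zero]; exact (le_antisymm ht.2 ht.1).symm
      · refine ⟨t / r, ⟨div_nonneg ht.1 hr, (div_le_one h0).2 ht.2⟩, ?_⟩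
        simp only [hφ]; field_simp

lemma image_inj {w w' : V × V} (hw : w ∈ S.UC) (hw' : w' ∈ S.UC) (hww : w.1 = w'.1) {r : ℝ}
    (hr : 0 < r) (h : S.Mn r w) (h' : S.Mn r w')
    (heq : (fun t => (S.Φ t w).1) '' Icc 0 r = (fun t => (S.Φ t w').1) '' Icc 0 r) : w = w' := by
  apply S.geo_unique hw hw' hr
  intro t ht
  have h1 : (S.Φ t w).1 ∈ (fun t => (S.Φ t w').1) '' Icc 0 r := by
    rw [← heq]; exact ⟨t, ht, rfl⟩
  obtain ⟨t', ht', h2⟩ := h1
  simp only at h2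
  have h3 : S.d w.1 (S.Φ t w).1 = t := S.Mn_mono hw h ht.1 ht.2
  have h4 : S.d w'.1 (S.Φ t' w').1 = t' := S.Mn_mono hw' h' ht'.1 ht'.2
  rw [h2, ← hww, h3] at h4
  rw [← h2, h4]

/-- two shortest curves force a conjugate one -/
lemma conj_of_two (hM : S.PropM) {w w' : V × V} (hw : w ∈ S.UC) (hw' : w' ∈ S.UC)
    (hww : w.1 = w'.1) {r : ℝ} (hr : 0 < r) (h : S.Mn r w) (h' : S.Mn r w')
    (hend : (S.Φ r w).1 = (S.Φ r w').1) (hne : w ≠ w') :
    ∃ w₂ ∈ S.UC, w₂.1 = w.1 ∧ S.Mn r w₂ ∧ (S.Φ r w₂).1 = (S.Φ r w).1 ∧ S.J r w₂ = 0 := by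
  set p := w.1 with hp
  set x := (S.Φ r w).1 with hx
  have hpC : p ∈ S.C := hw.1
  have hxC : x ∈ S.C := S.geo_C hw r
  have hdr : S.d p x = r := h
  -- the set of directions
  set Θ : Set ℝ := {θ | θ ∈ Icc 0 (2 * Real.pi) ∧ (S.Φ r (S.W p θ)).1 = x} with hΘ
  have hEc : Continuous fun θ => (S.Φ r (S.W p θ)).1 :=
    continuous_fst.comp (S.Φ_cont.comp (continuous_const.prodMk (S.W_cont p)))
  have hinf : Θ.Infinite := by
    rcases hM p x hpC hxC with hs | hi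
    · exfalso
      have m1 := S.image_mem hw hr.le h rfl
      have m2 := S.image_mem hw' hr.le h' rfl
      rw [← hww, ← hend] at m2
      exact hne (S.image_inj hw hw' hww hr h h' (hs m1 m2))
    · intro hfin
      apply hi
      have hsub : {A : Set V | ∃ γ : ℝ → V, S.Adm p x γ ∧ (∀ δ : ℝ → V, S.Adm p x δ →
          eVariationOn γ (Icc 0 1) ≤ eVariationOn δ (Icc 0 1)) ∧ γ '' Icc 0 1 = A} ⊆
          (fun θ => (fun t => (S.Φ t (S.W p θ)).1) '' Icc 0 r) '' Θ := by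
        rintro A ⟨γ, hγ, hmin, rfl⟩
        obtain ⟨σ, s0, s1, s2, s3⟩ := S.exists_UMin_of_min hpC hxC hγ
          (by unfold dE; exact le_iInf fun δ => hmin δ.1 δ.2)
        obtain ⟨w₁, hw₁, hg⟩ := s2.exists_geo (S.d_nonneg p x)
        rw [hdr] at s1 s2 s3 hg
        have e0 : w₁.1 = p := by
          have := hg 0 ⟨le_rfl, hr.le⟩
          rw [s0, S.Φ_zero] at this
          exact this.symm
        obtain ⟨θ, hθ, hWθ⟩ := S.exists_W (p := p) (v := w₁.2) (by rw [← e0]; exact hw₁)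
        have e1 : S.W p θ = w₁ := by rw [hWθ, ← e0]
        refine ⟨θ, ⟨Ico_subset_Icc_self hθ, ?_⟩, ?_⟩
        · rw [e1, ← hg r ⟨hr.le, le_rfl⟩, s1]
        · simp only [e1]
          rw [← s3]
          exact image_congr fun t ht => (hg t ht).symm
      exact (hfin.image _).subset hsub
  obtain ⟨θ₀, hθ₀, hacc⟩ := hinf.exists_accPt_of_subset_isCompact isCompact_Icc
    (fun θ hθ => hθ.1 : Θ ⊆ Icc 0 (2 * Real.pi))
  have hE0 : (S.Φ r (S.W p θ₀)).1 = x := by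
    have hcl : IsClosed Θ := isClosed_Icc.inter (isClosed_singleton.preimage hEc)
    have : θ₀ ∈ Θ := by
      have h1 := hacc.clusterPt.mem_closure
      rwa [hcl.closure_eq] at h1
    exact this.2
  refine ⟨S.W p θ₀, S.W_UC hpC θ₀, rfl, ?_, hE0, ?_⟩
  · show S.d p _ = r
    rw [hE0]; exact hdr
  · by_contra hJ
    have h1 := S.E_θ hpC r θ₀
    have hne' : S.J r (S.W p θ₀) • cr (S.N (S.Φ r (S.W p θ₀)).1) (S.Φ r (S.W p θ₀)).2 ≠ 0 := by
      apply smul_ne_zero hJ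
      have := (S.UC_cr (S.Φ_UC (S.W_UC hpC θ₀) r)).2.2
      simp only at this
      rw [← norm_ne_zero_iff, this]; norm_num
    have h2 := h1.eventually_ne (c := x) hne'
    rw [accPt_iff_frequently] at hacc
    have h3 : ∀ᶠ θ in 𝓝 θ₀, θ ≠ θ₀ → (S.Φ r (S.W p θ)).1 ≠ x := by
      rw [eventually_nhdsWithin_iff] at h2
      exact h2
    obtain ⟨θ, h4, h5⟩ := (hacc.and_eventually h3).exists
    exact h5 h4.1 h4.2.2

end Surf

end Pool.Agent.H864R2
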