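import Pool.Agent.H864R2.IF

set_option autoImplicit false
set_option linter.unusedVariables false

open Set Metric Filter Topology MeasureTheory
open scoped ContDiff InnerProductSpace NNReal ENNReal

namespace Pool.Agent.H864R2

namespace Surf

variable (S : Surf)

/-- local angle -/
lemma exists_ang {p : V} (hp : p ∈ S.C) (θ₀ : ℝ) : ∃ a : V → ℝ, ContinuousAt a (S.W p θ₀).2 ∧
    a (S.W p θ₀).2 = θ₀ ∧ ∀ v, (p, v) ∈ S.UC → S.W p (a v) = (p, v) := by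
  have hU := S.W_UC hp θ₀
  set v₀ := (S.W p θ₀).2 with hv₀
  set n₀ := cr (S.N p) v₀ with hn₀
  have hU2 := S.UC_cr hU
  have e1 : ‖v₀‖ = 1 := hU.2.2
  have e2 : ‖n₀‖ = 1 := hU2.2.2
  have e3 : ⟪v₀, n₀⟫_ℝ = 0 := inner_cr_right _ _
  set z : V → ℂ := fun v => ⟨⟪v, v₀⟫_ℝ, ⟪v, n₀⟫_ℝ⟩ with hz
  have hzc : Continuous z := by
    have h1 : z = fun v => ((⟪v, v₀⟫_ℝ : ℝ) : ℂ) + ((⟪v, n₀⟫_ℝ : ℝ) : ℂ) * Complex.I := by
      funext v
      apply Complex.ext <;> simp [hz]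
    rw [h1]
    exact (Complex.continuous_ofReal.comp (continuous_id.inner continuous_const)).add
      ((Complex.continuous_ofReal.comp (continuous_id.inner continuous_const)).mul continuous_const)
  have hz0 : z v₀ = 1 := by
    apply Complex.ext
    · simp only [hz, real_inner_self_eq_norm_sq, e1]; norm_num
    · simp only [hz, e3]; norm_num
  refine ⟨fun v => θ₀ + (z v).arg, ?_, ?_, ?_⟩
  · apply continuousAt_const.add
    have h1 : ContinuousAt Complex.arg (z v₀) := by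
      rw [hz0]; exact Complex.continuousAt_arg (by simp)
    exact ContinuousAt.comp (f := z) (g := Complex.arg) h1 hzc.continuousAt
  · simp only [hz0, Complex.arg_one, add_zero]
  · intro v hv
    have h1 := S.tan_expand hU (x := v) (by rw [real_inner_comm]; exact hv.2.1)
    have h2 : v = ⟪v, v₀⟫_ℝ • v₀ + ⟪v, n₀⟫_ℝ • n₀ := h1
    have hn : ⟪v, v₀⟫_ℝ ^ 2 + ⟪v, n₀⟫_ℝ ^ 2 = 1 := by
      have h4 : ‖v‖ ^ 2 = 1 := by rw [hv.2.2]; norm_num
      rw [← real_inner_self_eq_norm_sq] at h4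
      nth_rewrite 1 [h2] at h4
      rw [inner_add_left, real_inner_smul_left, real_inner_smul_left, real_inner_comm v v₀,
        real_inner_comm v n₀] at h4
      linarith
    have hzn : ‖z v‖ = 1 := by
      rw [Complex.norm_def, Complex.normSq_mk]
      rw [show ⟪v, v₀⟫_ℝ * ⟪v, v₀⟫_ℝ + ⟪v, n₀⟫_ℝ * ⟪v, n₀⟫_ℝ = 1 by nlinarith]; simp
    have hzne : z v ≠ 0 := by rw [← norm_ne_zero_iff, hzn]; norm_num
    have hc : Real.cos (z v).arg = ⟪v, v₀⟫_ℝ := by rw [Complex.cos_arg hzne, hzn]; simp [hz]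
    have hs : Real.sin (z v).arg = ⟪v, n₀⟫_ℝ := by rw [Complex.sin_arg, hzn]; simp [hz]
    have hcW := S.cr_W hp θ₀
    rw [← hv₀, ← hn₀] at hcW
    refine Prod.ext rfl ?_
    show Real.cos (θ₀ + (z v).arg) • S.dir p + Real.sin (θ₀ + (z v).arg) • cr (S.N p) (S.dir p) = v
    rw [Real.cos_add, Real.sin_add, hc, hs]
    conv_rhs => rw [h2]
    rw [hcW, show v₀ = Real.cos θ₀ • S.dir p + Real.sin θ₀ • cr (S.N p) (S.dir p) from rfl]
    module

/-- local injectivity of the polar map -/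
lemma loc_inj {p : V} (hp : p ∈ S.C) {r θ₀ : ℝ} (hJ : S.J r (S.W p θ₀) ≠ 0) :
    ∀ᶠ q in 𝓝 (((r, θ₀), (r, θ₀)) : (ℝ × ℝ) × (ℝ × ℝ)),
      (S.Φ q.1.1 (S.W p q.1.2)).1 = (S.Φ q.2.1 (S.W p q.2.2)).1 → q.1 = q.2 := by
  set E : ℝ × ℝ → V := fun q => (S.Φ q.1 (S.W p q.2)).1 with hE
  have hEs : ContDiff ℝ ∞ E := contDiff_fst.comp (S.G_smooth (S.W_smooth p))
  have hEd : Differentiable ℝ E := hEs.differentiable (by simp)
  have h1 : HasStrictFDerivAt E (fderiv ℝ E (r, θ₀)) (r, θ₀) :=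
    hEs.contDiffAt.hasStrictFDerivAt (by simp)
  have e1 := (pd1 hEd r θ₀).unique (S.pos_deriv (S.W_UC hp θ₀) r)
  have e2 := (pd2 hEd r θ₀).unique (S.E_θ hp r θ₀)
  set c : ℝ := min 1 |S.J r (S.W p θ₀)| with hc
  have hc0 : 0 < c := lt_min one_pos (abs_pos.2 hJ)
  have hUC := S.Φ_UC (S.W_UC hp θ₀) r
  set T := (S.Φ r (S.W p θ₀)).2 with hT
  set n := cr (S.N (S.Φ r (S.W p θ₀)).1) (S.Φ r (S.W p θ₀)).2 with hn
  have hTn : ⟪T, n⟫_ℝ = 0 := inner_cr_right _ _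
  have hnT : ⟪n, T⟫_ℝ = 0 := by rw [real_inner_comm]; exact hTn
  have hT1 : ‖T‖ = 1 := hUC.2.2
  have hn1 : ‖n‖ = 1 := S.n_norm (S.W_UC hp θ₀) r
  have hlow : ∀ u : ℝ × ℝ, c * ‖u‖ ≤ ‖fderiv ℝ E (r, θ₀) u‖ := by
    rintro ⟨a, b⟩
    have h2 : fderiv ℝ E (r, θ₀) (a, b) = a • T + (b * S.J r (S.W p θ₀)) • n := by
      have : ((a, b) : ℝ × ℝ) = a • (1, 0) + b • (0, 1) := by ext <;> simp
      rw [this, map_add, map_smul, map_smul, e1, e2, smul_smul]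
    have h3 : |a| ≤ ‖fderiv ℝ E (r, θ₀) (a, b)‖ := by
      have h4 := abs_real_inner_le_norm (fderiv ℝ E (r, θ₀) (a, b)) T
      rw [hT1, mul_one, h2, inner_add_left, real_inner_smul_left, real_inner_smul_left, hnT,
        real_inner_self_eq_norm_sq, hT1] at h4
      rw [h2]
      simpa using h4
    have h5 : |b| * |S.J r (S.W p θ₀)| ≤ ‖fderiv ℝ E (r, θ₀) (a, b)‖ := by
      have h4 := abs_real_inner_le_norm (fderiv ℝ E (r, θ₀) (a, b)) n
      rw [hn1, mul_one, h2, inner_add_left, real_inner_smul_left, real_inner_smul_left, hTn,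
        real_inner_self_eq_norm_sq, hn1] at h4
      rw [h2]
      simpa [abs_mul] using h4
    rw [Prod.norm_def]
    rcases max_cases ‖(a, b).1‖ ‖(a, b).2‖ with ⟨h6, -⟩ | ⟨h6, -⟩
    · rw [h6]
      calc c * ‖a‖ ≤ 1 * ‖a‖ := mul_le_mul_of_nonneg_right (min_le_left _ _) (norm_nonneg _)
        _ = |a| := by rw [one_mul]; rfl
        _ ≤ _ := h3
    · rw [h6]
      calc c * ‖b‖ ≤ |S.J r (S.W p θ₀)| * ‖b‖ :=
            mul_le_mul_of_nonneg_right (min_le_right _ _) (norm_nonneg _)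
        _ = |b| * |S.J r (S.W p θ₀)| := by rw [mul_comm]; rfl
        _ ≤ _ := h5
  have h6 := h1.isLittleO.def (half_pos hc0)
  filter_upwards [h6] with q hq heq
  have heq' : E q.1 = E q.2 := heq
  rw [heq', sub_self, zero_sub, norm_neg] at hq
  have h7 := hlow (q.1 - q.2)
  have h8 : ‖q.1 - q.2‖ = 0 := by
    have := norm_nonneg (q.1 - q.2)
    nlinarith
  exact sub_eq_zero.1 (norm_eq_zero.1 h8)

/-- continuity of the direction -/
lemma dir_tendsto {ι : Type*} {l : Filter ι} {x : ι → V} {w : ι → V × V} {p₀ x₀ : V} {w₀ : V × V}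
    (hw : ∀ i, w i ∈ S.UC) (hx : ∀ i, x i ∈ S.C) (hx₀ : x₀ ∈ S.C)
    (hend : ∀ i, (S.Φ (S.d (w i).1 (x i)) (w i)).1 = x i)
    (hp : Tendsto (fun i => (w i).1) l (𝓝 p₀)) (hxt : Tendsto x l (𝓝 x₀))
    (huniq : ∀ w ∈ S.UC, w.1 = p₀ → (S.Φ (S.d p₀ x₀) w).1 = x₀ → w = w₀) :
    Tendsto w l (𝓝 w₀) := by
  apply S.UC_compact.tendsto_nhds_of_unique_mapClusterPt (Eventually.of_forall hw)
  intro w' hw' hcl
  obtain ⟨U, hU, hlim⟩ := mapClusterPt_iff_ultrafilter.1 hcl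
  have h1 : w'.1 = p₀ :=
    tendsto_nhds_unique ((continuous_fst.tendsto w').comp hlim) (hp.mono_left hU)
  have hp₀ : p₀ ∈ S.C := h1 ▸ hw'.1
  have h2 : Tendsto (fun i => S.d (w i).1 (x i)) U (𝓝 (S.d p₀ x₀)) :=
    S.d_tendsto (hp.mono_left hU) (hxt.mono_left hU) (fun i => (hw i).1) hx hp₀ hx₀
  have h3 : Tendsto (fun i => (S.Φ (S.d (w i).1 (x i)) (w i)).1) U (𝓝 (S.Φ (S.d p₀ x₀) w').1) := by
    have h4 : Tendsto (fun i => ((S.d (w i).1 (x i), w i) : ℝ × (V × V))) U (𝓝 (S.d p₀ x₀, w')) :=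
      h2.prodMk_nhds hlim
    exact (continuous_fst.comp S.Φ_cont).continuousAt.tendsto.comp h4
  simp only [hend] at h3
  exact huniq w' hw' h1 (tendsto_nhds_unique h3 (hxt.mono_left hU))

/-- minimality is an open condition near a unique nonconjugate minimiser -/
lemma Mn_open {p : V} (hp : p ∈ S.C) {r θ₀ : ℝ} (hM : S.Mn r (S.W p θ₀))
    (hJ : S.J r (S.W p θ₀) ≠ 0) (huniq : ∀ w ∈ S.UC, w.1 = p →
      (S.Φ r w).1 = (S.Φ r (S.W p θ₀)).1 → w = S.W p θ₀) :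
    ∀ᶠ q : ℝ × ℝ in 𝓝 (r, θ₀), S.Mn q.1 (S.W p q.2) := by
  set x : ℝ × ℝ → V := fun q => (S.Φ q.1 (S.W p q.2)).1 with hx
  have hxC : ∀ q, x q ∈ S.C := fun q => S.geo_C (S.W_UC hp q.2) q.1
  choose w hw hw1 hw2 using fun q => S.exists_Mn hp (hxC q)
  have hxt : Tendsto x (𝓝 (r, θ₀)) (𝓝 (x (r, θ₀))) := (S.E_cont p).tendsto _
  have hd0 : S.d p (x (r, θ₀)) = r := hM
  have h1 : Tendsto w (𝓝 (r, θ₀)) (𝓝 (S.W p θ₀)) := by
    apply S.dir_tendsto hw hxC (hxC (r, θ₀)) (fun q => by rw [hw1]; exact hw2 q) (p₀ := p) ?_ hxt ?_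
    · simp only [hw1]; exact tendsto_const_nhds
    · intro w' hw' h2 h3
      rw [hd0] at h3
      exact huniq w' hw' h2 h3
  have h2 : Tendsto (fun q => S.d p (x q)) (𝓝 (r, θ₀)) (𝓝 r) := by
    have := S.d_tendsto (F := 𝓝 (r, θ₀)) (u := fun _ => p) (v := x) tendsto_const_nhds hxt
      (fun _ => hp) hxC hp (hxC (r, θ₀))
    rwa [hd0] at this
  obtain ⟨a, ha, ha0, haW⟩ := S.exists_ang hp θ₀
  have h3 : Tendsto (fun q => a (w q).2) (𝓝 (r, θ₀)) (𝓝 θ₀) := by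
    have h4 : Tendsto (fun q => (w q).2) (𝓝 (r, θ₀)) (𝓝 (S.W p θ₀).2) :=
      (continuous_snd.tendsto _).comp h1
    have h5 := ha.tendsto.comp h4
    rwa [ha0] at h5
  have h4 : Tendsto (fun q : ℝ × ℝ => ((q, (S.d p (x q), a (w q).2)) : (ℝ × ℝ) × (ℝ × ℝ)))
      (𝓝 (r, θ₀)) (𝓝 ((r, θ₀), (r, θ₀))) :=
    Filter.Tendsto.prodMk_nhds tendsto_id (h2.prodMk_nhds h3)
  filter_upwards [h4.eventually (S.loc_inj hp hJ)] with q hq
  have h5 : S.W p (a (w q).2) = w q := by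
    have h6 : (p, (w q).2) = w q := Prod.ext (hw1 q).symm rfl
    rw [haW (w q).2 (by rw [h6]; exact hw q), h6]
  have h7 := hq (by simp only [h5]; exact (hw2 q).symm)
  have h8 := congrArg Prod.fst h7
  exact h8.symm

/-- critical radii -/
def Crit (p : V) : Set ℝ := {t | ∃ θ, S.J t (S.W p θ) = 0 ∧
  fderiv ℝ (fun q : ℝ × ℝ => S.J q.1 (S.W p q.2)) (t, θ) (0, 1) = 0}

lemma Crit_null {p : V} (hp : p ∈ S.C) : volume (S.Crit p) = 0 := by
  set F : ℝ × ℝ → ℝ := fun q => S.J q.2 (S.W p q.1) with hF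
  have hFs : ContDiff ℝ ∞ F := S.J_swap_smooth hp
  have hFd : Differentiable ℝ F := hFs.differentiable (by simp)
  set Z : Set (ℝ × ℝ) := {q | F q = 0 ∧ fderiv ℝ F q (1, 0) = 0} with hZ
  have hcr : S.Crit p = Prod.snd '' Z := by
    ext t
    constructor
    · rintro ⟨θ, h1, h2⟩
      refine ⟨(θ, t), ⟨h1, ?_⟩, rfl⟩
      rw [hF, S.J_swap_pθ hp]; exact h2
    · rintro ⟨⟨θ, t'⟩, ⟨h1, h2⟩, rfl⟩
      refine ⟨θ, h1, ?_⟩
      rw [hF, S.J_swap_pθ hp] at h2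
      exact h2
  have hloc : ∀ q ∈ Z, ∃ O ∈ 𝓝 q, volume (Prod.snd '' (O ∩ Z)) = 0 := by
    rintro ⟨θ, t⟩ ⟨hq1, hq2⟩
    have hne : fderiv ℝ F (θ, t) (0, 1) ≠ 0 := by
      rw [hF, S.J_swap_pt hp]
      exact S.J'_ne (S.W_UC hp θ) hq1
    obtain ⟨ψ, -, z1, -, z3, z4⟩ := implicit2 hFs hq1 hne
    have hfst : Tendsto Prod.fst (𝓝 (θ, t)) (𝓝 θ) := continuous_fst.tendsto (θ, t)
    refine ⟨_, (z4.and ((hfst.eventually z1).and (hfst.eventually z3.eventually_nhds))), ?_⟩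
    apply measure_mono_null _ (sard1 (f := ψ) (s := {s | HasDerivAt ψ 0 s})
      (fun s hs => HasDerivAt.hasDerivWithinAt hs))
    rintro _ ⟨v, ⟨⟨v1, v2, v3⟩, v4, v5⟩, rfl⟩
    refine ⟨v.1, ?_, v1 v4⟩
    have k1 := (hFd (v.1, ψ v.1)).hasFDerivAt.comp_hasDerivAt v.1
      ((hasDerivAt_id v.1).prodMk v2.hasDerivAt)
    have k2 : ((1, deriv ψ v.1) : ℝ × ℝ) = (1, 0) + deriv ψ v.1 • (0, 1) := by ext <;> simp
    have k3 : (v.1, ψ v.1) = v := Prod.ext rfl (v1 v4)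
    rw [k2, map_add, map_smul, k3, v5, zero_add] at k1
    have k4 : HasDerivAt (fun _ : ℝ => (0:ℝ)) 0 v.1 := hasDerivAt_const _ 0
    have k5 := k4.congr_of_eventuallyEq (f₁ := F ∘ fun s => (s, ψ s)) v3
    have k6 := k1.unique k5
    have k7 : fderiv ℝ F v (0, 1) ≠ 0 := by
      have : v = (v.1, v.2) := rfl
      rw [this, hF, S.J_swap_pt hp]
      exact S.J'_ne (S.W_UC hp v.1) v4
    have k8 : deriv ψ v.1 = 0 := by
      rcases mul_eq_zero.1 k6 with h | h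
      · exact h
      · exact absurd h k7
    show HasDerivAt ψ 0 v.1
    rw [← k8]; exact v2.hasDerivAt
  choose! O hO hO' using hloc
  obtain ⟨t, ht, htc, hcov⟩ := TopologicalSpace.countable_cover_nhdsWithin (f := O) (s := Z)
    (fun q hq => mem_nhdsWithin_of_mem_nhds (hO q hq))
  rw [hcr]
  apply measure_mono_null (t := ⋃ q ∈ t, Prod.snd '' (O q ∩ Z))
  · rintro _ ⟨v, hv, rfl⟩
    have := hcov hv
    simp only [mem_iUnion] at this ⊢
    obtain ⟨q, hq, hvq⟩ := this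
    exact ⟨q, hq, v, ⟨hvq, hv⟩, rfl⟩
  · rw [measure_biUnion_null_iff htc]
    intro q hq
    exact hO' q (ht hq)

end Surf

end Pool.Agent.H864R2
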