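import Pool.Agent.H864R2.Cut2

set_option autoImplicit false
set_option linter.unusedVariables false

open Set Metric Filter Topology MeasureTheory
open scoped ContDiff InnerProductSpace NNReal ENNReal

namespace Pool.Agent.H864R2

namespace Surf

variable (S : Surf)

lemma d_contOn_right {p : V} (hp : p ∈ S.C) : ContinuousOn (fun y => S.d p y) S.C := by
  intro y hy
  have h := S.d_cont (p, y) ⟨hp, hy⟩
  have h2 : Tendsto (fun y' : V => (p, y')) (𝓝[S.C] y) (𝓝[S.C ×ˢ S.C] (p, y)) := by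
    apply tendsto_nhdsWithin_iff.2
    refine ⟨(Continuous.prodMk_right p).continuousAt.continuousWithinAt, ?_⟩
    filter_upwards [self_mem_nhdsWithin] with y' hy'
    exact ⟨hp, hy'⟩
  have h3 := h.tendsto.comp h2
  simpa only [Function.comp_def, ContinuousWithinAt] using h3

/-- greatest distance from `p` -/
noncomputable def ell (p : V) : ℝ := sSup ((fun y => S.d p y) '' S.C)

lemma exists_ell {p : V} (hp : p ∈ S.C) : ∃ x ∈ S.C, S.d p x = S.ell p := by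
  obtain ⟨x, hx, h⟩ := S.C_compact.exists_sSup_image_eq S.C_nonempty (S.d_contOn_right hp)
  exact ⟨x, hx, h.symm⟩

lemma d_le_ell {p x : V} (hp : p ∈ S.C) (hx : x ∈ S.C) : S.d p x ≤ S.ell p := by
  apply le_csSup
  · exact (S.C_compact.image_of_continuousOn (S.d_contOn_right hp)).bddAbove
  · exact ⟨x, hx, rfl⟩

lemma ell_pos {p : V} (hp : p ∈ S.C) : 0 < S.ell p := by
  have hw := S.dir_mem hp
  have h1 := S.pos_deriv hw 0
  have hne : (S.Φ 0 (p, S.dir p)).2 ≠ 0 := by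
    rw [← norm_ne_zero_iff, (S.Φ_UC hw 0).2.2]; norm_num
  have h2 := h1.eventually_ne (c := p) hne
  obtain ⟨t, ht⟩ := h2.exists
  have h3 := S.geo_C hw t
  have h4 : 0 < S.d p (S.Φ t (p, S.dir p)).1 := by
    apply lt_of_le_of_ne (S.d_nonneg _ _)
    intro h
    exact ht (S.eq_of_d hp h3 h.symm).symm
  exact h4.trans_le (S.d_le_ell hp h3)

lemma Mn_iff_cont {p : V} (hp : p ∈ S.C) :
    Continuous (fun q : ℝ × ℝ => S.d p (S.Φ q.1 (S.W p q.2)).1) := by
  rw [continuous_iff_continuousAt]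
  intro q
  exact S.d_tendsto (u := fun _ => p) (v := fun q : ℝ × ℝ => (S.Φ q.1 (S.W p q.2)).1)
    tendsto_const_nhds ((S.E_cont p).tendsto q) (fun _ => hp)
    (fun q => S.geo_C (S.W_UC hp q.2) q.1) hp (S.geo_C (S.W_UC hp q.2) q.1)

/-- if some minimiser reaches a conjugate point at time `r`, then `r` is critical -/
lemma crit_of_conj {p : V} (hp : p ∈ S.C) {r : ℝ} (hr : 0 < r) {w : V × V} (hw : w ∈ S.UC)
    (hwp : w.1 = p) (hM : S.Mn r w) (hJ : S.J r w = 0) : r ∈ S.Crit p := by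
  subst hwp
  obtain ⟨θ, -, h⟩ := S.exists_W (p := w.1) (v := w.2) hw
  have h' : S.W w.1 θ = w := h
  refine ⟨θ, by rw [h', hJ], ?_⟩
  exact S.J_θ_zero hp hr (by rw [h']; exact hM) (by rw [h', hJ])

lemma Mn_all_of_notCrit (hP : S.PropM) {p : V} (hp : p ∈ S.C) {r : ℝ} (hr : 0 < r)
    (hrl : r ≤ S.ell p) (hc : r ∉ S.Crit p) (θ : ℝ) : S.Mn r (S.W p θ) := by
  set Θ : Set ℝ := {θ | S.Mn r (S.W p θ)} with hΘ
  have hcl : IsClosed Θ := by
    have h1 : Continuous (fun θ : ℝ => S.d p (S.Φ r (S.W p θ)).1) :=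
      (S.Mn_iff_cont hp).comp (Continuous.prodMk_right r)
    exact isClosed_eq h1 continuous_const
  have hne : Θ.Nonempty := by
    obtain ⟨x, hx, hd⟩ := S.exists_ell hp
    obtain ⟨w, hw, h1, h2⟩ := S.exists_Mn hp hx
    have h3 : S.Mn (S.d p x) w := S.Mn_of_end h1 h2
    rw [hd] at h3
    subst h1
    obtain ⟨θ, -, h⟩ := S.exists_W (p := w.1) (v := w.2) hw
    have h' : S.W w.1 θ = w := h
    refine ⟨θ, ?_⟩
    show S.Mn r (S.W w.1 θ)
    rw [h']
    exact S.Mn_mono hw h3 hr.le hrl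
  have hop : IsOpen Θ := by
    rw [isOpen_iff_mem_nhds]
    intro θ₀ hθ₀
    have hM : S.Mn r (S.W p θ₀) := hθ₀
    have hJ : S.J r (S.W p θ₀) ≠ 0 := fun h0 =>
      hc (S.crit_of_conj hp hr (S.W_UC hp θ₀) rfl hM h0)
    have huniq : ∀ w ∈ S.UC, w.1 = p → (S.Φ r w).1 = (S.Φ r (S.W p θ₀)).1 → w = S.W p θ₀ := by
      intro w hw h1 h2
      by_contra hn
      have hMw : S.Mn r w := by
        unfold Mn
        rw [h2, h1]; exact hM
      obtain ⟨w₂, k1, k2, k3, k4, k5⟩ := S.conj_of_two hP hw (S.W_UC hp θ₀) h1 hr hMw hM h2 hn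
      exact hc (S.crit_of_conj hp hr k1 (k2.trans h1) k3 k5)
    have h1 := S.Mn_open hp hM hJ huniq
    have h2 : Tendsto (fun θ : ℝ => ((r, θ) : ℝ × ℝ)) (𝓝 θ₀) (𝓝 (r, θ₀)) :=
      (Continuous.prodMk_right r).tendsto θ₀
    exact h2.eventually h1
  have := IsClopen.eq_univ ⟨hcl, hop⟩ hne
  have h2 : θ ∈ Θ := by rw [this]; trivial
  exact h2

/-- all geodesics from `p` minimise up to the greatest distance -/
lemma Mn_ell (hP : S.PropM) {w : V × V} (hw : w ∈ S.UC) : S.Mn (S.ell w.1) w := by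
  obtain ⟨θ, -, h⟩ := S.exists_W (p := w.1) (v := w.2) hw
  have h' : S.W w.1 θ = w := h
  have hp := hw.1
  have hl := S.ell_pos hp
  -- minimality for all r < ell
  have key : ∀ r, 0 ≤ r → r < S.ell w.1 → S.Mn r w := by
    intro r hr hrl
    have h1 : ∃ r' ∈ Ioo r (S.ell w.1), r' ∉ S.Crit w.1 := by
      by_contra hcon
      push Not at hcon
      have h2 : volume (Ioo r (S.ell w.1)) ≤ volume (S.Crit w.1) := measure_mono hcon
      rw [S.Crit_null hp, Real.volume_Ioo] at h2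
      have h3 : 0 < ENNReal.ofReal (S.ell w.1 - r) := ENNReal.ofReal_pos.2 (by linarith)
      exact absurd h2 (not_le.2 h3)
    obtain ⟨r', hr', hc⟩ := h1
    have h2 := S.Mn_all_of_notCrit hP hp (lt_of_le_of_lt hr hr'.1) hr'.2.le hc θ
    rw [h'] at h2
    exact S.Mn_mono hw h2 hr hr'.1.le
  -- limit
  have hcont : Continuous (fun r : ℝ => S.d w.1 (S.Φ r (S.W w.1 θ)).1) :=
    (S.Mn_iff_cont hp).comp (Continuous.prodMk_left θ)
  rw [h'] at hcont
  have h3 : Tendsto (fun r : ℝ => S.d w.1 (S.Φ r w).1) (𝓝[<] (S.ell w.1))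
      (𝓝 (S.d w.1 (S.Φ (S.ell w.1) w).1)) := hcont.continuousAt.continuousWithinAt
  have h4 : Tendsto (fun r : ℝ => S.d w.1 (S.Φ r w).1) (𝓝[<] (S.ell w.1)) (𝓝 (S.ell w.1)) := by
    have h5 : Tendsto (fun r : ℝ => r) (𝓝[<] (S.ell w.1)) (𝓝 (S.ell w.1)) :=
      tendsto_id.mono_left nhdsWithin_le_nhds
    apply h5.congr'
    filter_upwards [Ioo_mem_nhdsLT hl] with r hr
    exact (key r hr.1.le hr.2).symm
  exact tendsto_nhds_unique h3 h4

/-- the endpoints at the greatest distance are conjugate endpoints -/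
lemma exists_conj_end (hP : S.PropM) {w : V × V} (hw : w ∈ S.UC) :
    ∃ w₂ ∈ S.UC, w₂.1 = w.1 ∧ (S.Φ (S.ell w.1) w₂).1 = (S.Φ (S.ell w.1) w).1 ∧
      S.J (S.ell w.1) w₂ = 0 := by
  by_cases hJ : S.J (S.ell w.1) w = 0
  · exact ⟨w, hw, rfl, rfl, hJ⟩
  have hp := hw.1
  have hl := S.ell_pos hp
  obtain ⟨θ, -, h⟩ := S.exists_W (p := w.1) (v := w.2) hw
  have h' : S.W w.1 θ = w := h
  have hM := S.Mn_ell hP hw
  by_cases huniq : ∀ w' ∈ S.UC, w'.1 = w.1 → (S.Φ (S.ell w.1) w').1 = (S.Φ (S.ell w.1) w).1 → w' = w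
  · exfalso
    have h1 := S.Mn_open hp (r := S.ell w.1) (θ₀ := θ) (by rw [h']; exact hM) (by rw [h']; exact hJ)
      (by rw [h']; exact huniq)
    have h2 : Tendsto (fun t : ℝ => ((t, θ) : ℝ × ℝ)) (𝓝 (S.ell w.1)) (𝓝 (S.ell w.1, θ)) :=
      (Continuous.prodMk_left θ).tendsto _
    have h3 := h2.eventually h1
    have h4 : ∀ᶠ t in 𝓝[>] (S.ell w.1), S.Mn t (S.W w.1 θ) := h3.filter_mono nhdsWithin_le_nhds
    obtain ⟨t, ht1, ht2⟩ := (h4.and self_mem_nhdsWithin).exists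
    have h5 : S.d w.1 (S.Φ t (S.W w.1 θ)).1 = t := ht1
    have h6 := S.d_le_ell hp (S.geo_C (S.W_UC hp θ) t)
    rw [h5] at h6
    exact absurd h6 (not_le.2 ht2)
  · push Not at huniq
    obtain ⟨w', hw', h1, h2, hne⟩ := huniq
    have hM' : S.Mn (S.ell w.1) w' := by
      have := S.Mn_ell hP hw'
      rwa [h1] at this
    obtain ⟨w₂, k1, k2, k3, k4, k5⟩ := S.conj_of_two hP hw hw' h1.symm hl hM hM' h2.symm hne.symm
    exact ⟨w₂, k1, k2, k4, k5⟩

/-- all geodesics from `p` meet again at distance `ell p` -/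
lemma end_const (hP : S.PropM) {p : V} (hp : p ∈ S.C) (θ θ' : ℝ) :
    (S.Φ (S.ell p) (S.W p θ)).1 = (S.Φ (S.ell p) (S.W p θ')).1 := by
  set E : ℝ → V := fun θ => (S.Φ (S.ell p) (S.W p θ)).1 with hE
  have hEd : ∀ θ, HasDerivAt E (S.J (S.ell p) (S.W p θ) •
      cr (S.N (S.Φ (S.ell p) (S.W p θ)).1) (S.Φ (S.ell p) (S.W p θ)).2) θ := fun θ =>
    S.E_θ hp (S.ell p) θ
  have hcoord : ∀ i : Fin 3, ∀ a b : ℝ, ¬ (E a i < E b i) := by
    intro i a b hab
    set φ : ℝ → ℝ := fun θ => E θ i with hφ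
    have hφd : ∀ θ, HasDerivAt φ (S.J (S.ell p) (S.W p θ) *
        (cr (S.N (S.Φ (S.ell p) (S.W p θ)).1) (S.Φ (S.ell p) (S.W p θ)).2) i) θ := by
      intro θ
      exact (EuclideanSpace.proj (𝕜 := ℝ) i).hasFDerivAt.comp_hasDerivAt θ (hEd θ)
    have hφc : Continuous φ := continuous_iff_continuousAt.2 fun θ => (hφd θ).continuousAt
    set D : Set ℝ := {θ | S.J (S.ell p) (S.W p θ) = 0} with hD
    have h1 : volume (φ '' D) = 0 := by
      apply sard1
      intro θ hθ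
      have := hφd θ
      have h0 : S.J (S.ell p) (S.W p θ) = 0 := hθ
      rw [h0, zero_mul] at this
      exact this.hasDerivWithinAt
    have h2 : Icc (φ a) (φ b) ⊆ φ '' D := by
      intro y hy
      obtain ⟨c, hc⟩ := mem_range_of_exists_le_of_exists_ge hφc ⟨a, hy.1⟩ ⟨b, hy.2⟩
      obtain ⟨w₂, k1, k2, k3, k4⟩ := S.exists_conj_end hP (S.W_UC hp c)
      have k2' : w₂.1 = p := k2
      rw [S.W_fst] at k3 k4
      obtain ⟨θ₂, -, h⟩ := S.exists_W (p := p) (v := w₂.2) (by rw [← k2']; exact k1)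
      have h' : S.W p θ₂ = w₂ := by rw [h, ← k2']
      refine ⟨θ₂, ?_, ?_⟩
      · show S.J (S.ell p) (S.W p θ₂) = 0
        rw [h', k4]
      · show (S.Φ (S.ell p) (S.W p θ₂)).1 i = y
        rw [h', k3]; exact hc
    have h3 : volume (Icc (φ a) (φ b)) ≤ 0 := (measure_mono h2).trans h1.le
    rw [Real.volume_Icc] at h3
    have h4 : 0 < ENNReal.ofReal (φ b - φ a) := ENNReal.ofReal_pos.2 (sub_pos.2 hab)
    exact absurd h3 (not_le.2 h4)
  have hc : ∀ i : Fin 3, E θ i = E θ' i := fun i =>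
    le_antisymm (not_lt.1 (hcoord i θ' θ)) (not_lt.1 (hcoord i θ θ'))
  exact ext3 (hc 0) (hc 1) (hc 2)

/-- the antipode -/
noncomputable def ap (p : V) : V := (S.Φ (S.ell p) (S.W p 0)).1

lemma ap_C {p : V} (hp : p ∈ S.C) : S.ap p ∈ S.C := S.geo_C (S.W_UC hp 0) _

lemma end_ap (hP : S.PropM) {w : V × V} (hw : w ∈ S.UC) : (S.Φ (S.ell w.1) w).1 = S.ap w.1 := by
  obtain ⟨θ, -, h⟩ := S.exists_W (p := w.1) (v := w.2) hw
  have h' : S.W w.1 θ = w := h
  have := S.end_const hP hw.1 θ 0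
  rw [h'] at this
  exact this

lemma J_ell (hP : S.PropM) {w : V × V} (hw : w ∈ S.UC) : S.J (S.ell w.1) w = 0 := by
  obtain ⟨θ, -, h⟩ := S.exists_W (p := w.1) (v := w.2) hw
  have h' : S.W w.1 θ = w := h
  have h1 := S.E_θ hw.1 (S.ell w.1) θ
  have h2 : (fun θ => (S.Φ (S.ell w.1) (S.W w.1 θ)).1) = fun _ => S.ap w.1 := by
    funext θ; exact S.end_const hP hw.1 θ 0
  rw [h2] at h1
  have h3 := h1.unique (hasDerivAt_const θ _)
  rw [h'] at h3
  rcases smul_eq_zero.1 h3 with h4 | h4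
  · exact h4
  · exact absurd h4 (S.n_ne hw _)

lemma geo_inj (hP : S.PropM) {w w' : V × V} (hw : w ∈ S.UC) (hw' : w' ∈ S.UC) (hww : w.1 = w'.1)
    {r : ℝ} (hr : 0 < r) (hrl : r < S.ell w.1) (h : (S.Φ r w).1 = (S.Φ r w').1) : w = w' := by
  have hM := S.Mn_ell hP hw
  have hM' := S.Mn_ell hP hw'
  rw [← hww] at hM'
  apply S.geo_unique hw hw' hrl
  intro t ht
  have h1 : S.d w.1 (S.Φ t w').1 = t := by
    rw [hww]; exact S.Mn_mono hw' hM' (hr.le.trans ht.1) ht.2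
  have h2 := S.Mn_dist hw' hM' hr.le ht.1 ht.2
  have h3 := S.extend_geo hw hr (S.Mn_mono hw hM hr.le hrl.le) (x := (S.Φ t w').1)
    (S.geo_C hw' t) (by rw [h1, h, h2]; ring)
  rwa [h1] at h3

lemma J_ne (hP : S.PropM) {w : V × V} (hw : w ∈ S.UC) {r : ℝ} (hr : 0 < r) (hrl : r < S.ell w.1) :
    S.J r w ≠ 0 := by
  intro hJ
  obtain ⟨θ₀, -, h⟩ := S.exists_W (p := w.1) (v := w.2) hw
  have h' : S.W w.1 θ₀ = w := h
  set p := w.1 with hp'
  have hp : p ∈ S.C := hw.1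
  set F : ℝ × ℝ → ℝ := fun q => S.J q.2 (S.W p q.1) with hF
  have hFs : ContDiff ℝ ∞ F := S.J_swap_smooth hp
  have hFd : Differentiable ℝ F := hFs.differentiable (by simp)
  have hJ0 : F (θ₀, r) = 0 := by simp only [hF, h', hJ]
  obtain ⟨ψ, z0, z1, z2, z3, z4⟩ := implicit2 hFs hJ0 (by
    rw [hF, S.J_swap_pt hp]; exact S.J'_ne (S.W_UC hp θ₀) hJ0)
  have hIoo : ∀ᶠ s in 𝓝 θ₀, ψ s ∈ Ioo 0 (S.ell p) := by
    have : Ioo 0 (S.ell p) ∈ 𝓝 (ψ θ₀) := by rw [z0]; exact Ioo_mem_nhds hr hrl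
    exact z2 this
  obtain ⟨ε, hε, hball⟩ := Metric.eventually_nhds_iff_ball.1 ((z1.and z3).and hIoo)
  -- derivative of ψ vanishes
  have hd : ∀ s ∈ ball θ₀ ε, HasDerivAt ψ 0 s := by
    intro s hs
    obtain ⟨⟨v2, v3⟩, v4⟩ := hball s hs
    have hM : S.Mn (ψ s) (S.W p s) :=
      S.Mn_mono (S.W_UC hp s) (S.Mn_ell hP (S.W_UC hp s)) v4.1.le v4.2.le
    have hθ := S.J_θ_zero hp v4.1 hM v3
    rw [← S.J_swap_pθ hp] at hθ
    have k1 := (hFd (s, ψ s)).hasFDerivAt.comp_hasDerivAt s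
      ((hasDerivAt_id s).prodMk v2.hasDerivAt)
    have k2 : ((1, deriv ψ s) : ℝ × ℝ) = (1, 0) + deriv ψ s • (0, 1) := by ext <;> simp
    rw [k2, map_add, map_smul, hF, hθ, zero_add, S.J_swap_pt hp] at k1
    have k4 : HasDerivAt (fun _ : ℝ => (0:ℝ)) 0 s := hasDerivAt_const _ 0
    have k5 := k4.congr_of_eventuallyEq (f₁ := F ∘ fun s => (s, ψ s)) (by
      filter_upwards [isOpen_ball.mem_nhds hs] with u hu
      exact (hball u hu).1.2)
    have k6 := k1.unique k5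
    have k8 : deriv ψ s = 0 := by
      rcases mul_eq_zero.1 k6 with h | h
      · exact h
      · exact absurd h (S.J'_ne (S.W_UC hp s) v3)
    rw [← k8]; exact v2.hasDerivAt
  have hconst : ∀ s ∈ ball θ₀ ε, ψ s = r := by
    intro s hs
    have := isOpen_ball.is_const_of_deriv_eq_zero (f := ψ) (convex_ball θ₀ ε).isPreconnected
      (fun s hs => (hd s hs).differentiableAt.differentiableWithinAt)
      (fun s hs => (hd s hs).deriv) hs (mem_ball_self hε)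
    rw [this, z0]
  -- so E(r, ·) is locally constant
  have hE : ∀ s ∈ ball θ₀ ε, HasDerivAt (fun θ => (S.Φ r (S.W p θ)).1) 0 s := by
    intro s hs
    have h1 := S.E_θ hp r s
    have h2 : S.J r (S.W p s) = 0 := by
      have := (hball s hs).1.2
      rw [hconst s hs] at this
      exact this
    rw [h2, zero_smul] at h1
    exact h1
  have hE2 : ∀ s ∈ ball θ₀ ε, (S.Φ r (S.W p s)).1 = (S.Φ r (S.W p θ₀)).1 := by
    intro s hs
    exact isOpen_ball.is_const_of_deriv_eq_zero (f := fun θ => (S.Φ r (S.W p θ)).1)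
      (convex_ball θ₀ ε).isPreconnected
      (fun s hs => (hE s hs).differentiableAt.differentiableWithinAt)
      (fun s hs => (hE s hs).deriv) hs (mem_ball_self hε)
  have hW : ∀ s ∈ ball θ₀ ε, S.W p s = S.W p θ₀ := fun s hs =>
    S.geo_inj hP (S.W_UC hp s) (S.W_UC hp θ₀) rfl hr hrl (hE2 s hs)
  have h1 := S.W_deriv hp θ₀
  have h2 : HasDerivAt (fun _ : ℝ => S.W p θ₀) 0 θ₀ := hasDerivAt_const _ _
  have h3 := h2.congr_of_eventuallyEq (f₁ := S.W p) (by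
    filter_upwards [isOpen_ball.mem_nhds (mem_ball_self hε)] with u hu
    exact hW u hu)
  have h4 := congrArg Prod.snd (h1.unique h3)
  have h5 := (S.UC_cr (S.W_UC hp θ₀)).2.2
  simp only [S.W_fst] at h4 h5
  rw [h4] at h5
  simp at h5

lemma J_pos (hP : S.PropM) {w : V × V} (hw : w ∈ S.UC) {r : ℝ} (hr : 0 < r) (hrl : r < S.ell w.1) :
    0 < S.J r w := by
  have hc : Continuous (fun t => S.J t w) :=
    continuous_iff_continuousAt.2 fun t => ((S.J_Jac hw t).1).continuousAt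
  -- positive for small t
  have h1 := (S.J_Jac hw 0).1
  simp only [S.J'_zero hw] at h1
  have h2 : ∀ᶠ t in 𝓝[>] (0:ℝ), 0 < S.J t w := by
    have h3 := h1.tendsto_slope_zero_right
    simp only [zero_add, S.J_zero hw, sub_zero] at h3
    have h4 := h3.eventually (lt_mem_nhds (show (0:ℝ) < 1 by norm_num))
    filter_upwards [h4, self_mem_nhdsWithin] with t ht ht0
    have ht0' : (0:ℝ) < t := ht0
    have : 0 < t * (t⁻¹ • S.J t w) := mul_pos ht0' ht
    rwa [smul_eq_mul, mul_inv_cancel_left₀ ht0'.ne'] at this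
  obtain ⟨t, ht1, ht2⟩ := (h2.and (Ioo_mem_nhdsGT hr)).exists
  by_contra hcon
  push Not at hcon
  obtain ⟨c, hc1, hc2⟩ := intermediate_value_Icc' ht2.2.le hc.continuousOn ⟨hcon, ht1.le⟩
  exact S.J_ne hP hw (ht2.1.trans_le hc1.1) (hc1.2.trans_lt hrl) hc2

end Surf

end Pool.Agent.H864R2
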