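import Pool.Agent.H864R2.Base

set_option autoImplicit false
set_option linter.unusedVariables false

open Set Metric Filter Topology MeasureTheory
open scoped ContDiff InnerProductSpace NNReal ENNReal

namespace Pool.Agent.H864R2

lemma var_le {c : ℝ → V} {F : ℝ → ℝ} {a b : ℝ} (hab : a ≤ b)
    (h : ∀ s ∈ Icc a b, ∀ t ∈ Icc a b, s ≤ t → ‖c t - c s‖ ≤ F t - F s) :
    eVariationOn c (Icc a b) ≤ ENNReal.ofReal (F b - F a) := by
  have hF : MonotoneOn F (Icc a b) := by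
    intro s hs t ht hst
    have := h s hs t ht hst
    linarith [norm_nonneg (c t - c s)]
  have h1 : eVariationOn c (Icc a b) ≤ eVariationOn F (Icc a b) := by
    unfold eVariationOn
    refine iSup_mono fun p => Finset.sum_le_sum fun i _ => ?_
    have hm := p.2.2.1 (Nat.le_succ i)
    have := h _ (p.2.2.2 i) _ (p.2.2.2 (i+1)) hm
    rw [edist_dist, edist_dist, dist_eq_norm, dist_eq_norm]
    apply ENNReal.ofReal_le_ofReal
    exact this.trans (le_abs_self _)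
  refine h1.trans ?_
  have h2 := hF.eVariationOn_eq (a := a) (b := b) (left_mem_Icc.2 hab) (right_mem_Icc.2 hab)
  rw [inter_self] at h2
  exact h2.le

namespace Surf

variable (S : Surf)

def Adm (x y : V) (γ : ℝ → V) : Prop :=
  ContinuousOn γ (Icc 0 1) ∧ γ 0 = x ∧ γ 1 = y ∧ ∀ t ∈ Icc (0:ℝ) 1, S.f (γ t) = 0

/-- intrinsic distance -/
noncomputable def dE (x y : V) : ℝ≥0∞ :=
  ⨅ γ : {γ : ℝ → V // S.Adm x y γ}, eVariationOn γ.1 (Icc 0 1)

lemma dE_le_adm {x y : V} {γ : ℝ → V} (h : S.Adm x y γ) : S.dE x y ≤ eVariationOn γ (Icc 0 1) :=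
  iInf_le (fun γ : {γ : ℝ → V // S.Adm x y γ} => eVariationOn γ.1 (Icc 0 1)) ⟨γ, h⟩

lemma dE_le_var {γ : ℝ → V} {a b : ℝ} (hab : a ≤ b) (hc : ContinuousOn γ (Icc a b))
    (hC : ∀ t ∈ Icc a b, S.f (γ t) = 0) : S.dE (γ a) (γ b) ≤ eVariationOn γ (Icc a b) := by
  set φ : ℝ → ℝ := fun τ => a + τ * (b - a) with hφ
  have hm : MonotoneOn φ (Icc 0 1) := by
    intro s _ t _ hst
    simp only [hφ]
    nlinarith
  have hmaps : MapsTo φ (Icc 0 1) (Icc a b) := by
    intro t ht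
    simp only [hφ]
    constructor
    · nlinarith [ht.1, ht.2]
    · nlinarith [ht.1, ht.2]
  have hadm : S.Adm (γ a) (γ b) (γ ∘ φ) := by
    refine ⟨hc.comp (by fun_prop) hmaps, by simp [hφ], by simp [hφ], ?_⟩
    intro t ht
    exact hC _ (hmaps ht)
  exact (S.dE_le_adm hadm).trans (eVariationOn.comp_le_of_monotoneOn γ φ hm hmaps)

lemma dE_triangle (x y z : V) : S.dE x z ≤ S.dE x y + S.dE y z := by
  unfold dE
  refine ENNReal.le_iInf_add_iInf ?_
  rintro ⟨γ₁, h1⟩ ⟨γ₂, h2⟩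
  obtain ⟨c1, a1, b1, d1⟩ := h1
  obtain ⟨c2, a2, b2, d2⟩ := h2
  set γ : ℝ → V := fun t => if t ≤ 1 then γ₁ t else γ₂ (t - 1) with hγ
  have e1 : EqOn γ γ₁ (Icc 0 1) := by
    intro t ht
    simp [hγ, ht.2]
  have e2 : EqOn γ (fun t => γ₂ (t - 1)) (Icc 1 2) := by
    intro t ht
    simp only [hγ]
    split_ifs with h
    · have : t = 1 := le_antisymm h ht.1
      rw [this, sub_self, b1, a2]
    · rfl
  have hsub : MapsTo (fun t : ℝ => t - 1) (Icc 1 2) (Icc 0 1) := by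
    intro t ht
    constructor
    · simpa using ht.1
    · have := ht.2; simp only; linarith
  have k1 : ContinuousOn γ (Icc 0 1) := c1.congr e1
  have k2 : ContinuousOn γ (Icc 1 2) := (c2.comp (by fun_prop) hsub).congr e2
  have k : ContinuousOn γ (Icc 0 2) := by
    have := k1.union_of_isClosed k2 isClosed_Icc isClosed_Icc
    rwa [Icc_union_Icc_eq_Icc (by norm_num) (by norm_num)] at this
  have hC : ∀ t ∈ Icc (0:ℝ) 2, S.f (γ t) = 0 := by
    intro t ht
    by_cases h : t ≤ 1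
    · rw [e1 ⟨ht.1, h⟩]; exact d1 t ⟨ht.1, h⟩
    · push Not at h
      rw [e2 ⟨h.le, ht.2⟩]; exact d2 _ (hsub ⟨h.le, ht.2⟩)
  have h3 := S.dE_le_var (by norm_num) k hC
  have g0 : γ 0 = x := by rw [e1 ⟨le_rfl, zero_le_one⟩, a1]
  have g2 : γ 2 = z := by
    rw [e2 ⟨by norm_num, le_rfl⟩]
    simp only
    norm_num
    exact b2
  rw [g0, g2] at h3
  have h4 : eVariationOn γ (Icc 0 2) = eVariationOn γ (Icc 0 1) + eVariationOn γ (Icc 1 2) := by
    have := eVariationOn.Icc_add_Icc γ (s := univ) (a := 0) (b := 1) (c := 2) (by norm_num)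
      (by norm_num) (mem_univ _)
    simpa using this.symm
  rw [h4] at h3
  refine h3.trans (add_le_add (le_of_eq (eVariationOn.congr e1)) ?_)
  rw [eVariationOn.congr e2]
  exact eVariationOn.comp_le_of_monotoneOn γ₂ (fun t => t - 1) (fun s _ t _ hst => by
    simp only; linarith) hsub

lemma dE_comm_le (x y : V) : S.dE x y ≤ S.dE y x := by
  unfold dE
  refine le_iInf ?_
  rintro ⟨γ, c, a, b, d⟩
  have hmaps : MapsTo (fun t : ℝ => 1 - t) (Icc 0 1) (Icc 0 1) := by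
    intro t ht
    constructor
    · have := ht.2; simp only; linarith
    · have := ht.1; simp only; linarith
  have hadm : S.Adm x y (γ ∘ fun t => 1 - t) :=
    ⟨c.comp (by fun_prop) hmaps, by simp [b], by simp [a], fun t ht => d _ (hmaps ht)⟩
  exact (S.dE_le_adm hadm).trans (eVariationOn.comp_le_of_antitoneOn γ (fun t => 1 - t)
    (fun s _ t _ hst => by simp only; linarith) hmaps)

lemma dE_comm (x y : V) : S.dE x y = S.dE y x :=
  le_antisymm (S.dE_comm_le x y) (S.dE_comm_le y x)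

lemma edist_le_dE (x y : V) : edist x y ≤ S.dE x y := by
  unfold dE
  refine le_iInf ?_
  rintro ⟨γ, c, a, b, d⟩
  have := eVariationOn.edist_le γ (s := Icc 0 1) (x := 0) (y := 1) (by simp) (by simp)
  rwa [a, b] at this

lemma dE_self {x : V} (hx : x ∈ S.C) : S.dE x x = 0 := by
  have hadm : S.Adm x x (fun _ => x) := ⟨continuousOn_const, rfl, rfl, fun _ _ => hx⟩
  have := S.dE_le_adm hadm
  have h2 : eVariationOn (fun _ : ℝ => x) (Icc 0 1) = 0 := by
    apply eVariationOn.constant_on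
    intro a ha b hb
    obtain ⟨_, _, rfl⟩ := ha
    obtain ⟨_, _, rfl⟩ := hb
    rfl
  rw [h2] at this
  exact le_antisymm this bot_le

/-- curves in the exterior project to curves on the surface -/
lemma dE_ext {c : ℝ → V} {F : ℝ → ℝ} {a b : ℝ} (hab : a ≤ b) (hc : ContinuousOn c (Icc a b))
    (h : ∀ s ∈ Icc a b, ∀ t ∈ Icc a b, s ≤ t → ‖c t - c s‖ ≤ F t - F s)
    (hext : ∀ t ∈ Icc a b, 0 ≤ S.f (c t)) :
    S.dE (S.P (c a)) (S.P (c b)) ≤ ENNReal.ofReal (F b - F a) := by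
  have h1 := S.dE_le_var (γ := S.P ∘ c) hab (S.P_lipschitz.continuous.comp_continuousOn hc)
    (fun t ht => S.P_mem_C (hext t ht))
  refine h1.trans (var_le hab ?_)
  intro s hs t ht hst
  exact (S.P_lip _ _).trans (h s hs t ht hst)

lemma dE_seg {x z : V} (hext : ∀ t ∈ Icc (0:ℝ) 1, 0 ≤ S.f (x + t • (z - x))) :
    S.dE (S.P x) (S.P z) ≤ ENNReal.ofReal ‖z - x‖ := by
  have h := S.dE_ext (c := fun t => x + t • (z - x)) (F := fun t => t * ‖z - x‖) (a := 0) (b := 1)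
    zero_le_one (by fun_prop) ?_ hext
  · simpa using h
  · intro s _ t _ hst
    have e : x + t • (z - x) - (x + s • (z - x)) = (t - s) • (z - x) := by
      rw [sub_smul]; abel
    rw [e, norm_smul, Real.norm_eq_abs, abs_of_nonneg (by linarith)]
    linarith

lemma exists_kappa : ∃ κ : ℝ, 0 < κ ∧ ∀ x ∈ S.C, ∀ y ∈ S.C,
    |⟪S.N x, y - x⟫_ℝ| ≤ κ * ‖y - x‖ ^ 2 := by
  -- bound for the second derivative
  have h1 : ContDiff ℝ ∞ (fderiv ℝ S.f) := S.smooth.fderiv_right (by simp)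
  have h2 : ContDiff ℝ 1 (fderiv ℝ S.f) := h1.of_le (by exact_mod_cast le_top)
  obtain ⟨M, hM⟩ := S.cpt.exists_bound_of_continuousOn
    (f := fun x => fderiv ℝ (fderiv ℝ S.f) x) (h2.continuous_fderiv one_ne_zero).continuousOn
  have hM0 : 0 ≤ M := by
    obtain ⟨x, hx⟩ := S.B_nonempty
    exact (norm_nonneg _).trans (hM x hx)
  -- lower bound for the gradient
  obtain ⟨c, hc0, hc⟩ : ∃ c : ℝ, 0 < c ∧ ∀ x ∈ S.C, c ≤ ‖S.g x‖ := by
    rcases S.C.eq_empty_or_nonempty with h | h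
    · exact ⟨1, one_pos, by simp [h]⟩
    · obtain ⟨x, hx, hmin⟩ := S.C_compact.exists_isMinOn h S.g_cont.norm.continuousOn
      exact ⟨‖S.g x‖, norm_pos_iff.2 (S.g_ne hx), fun y hy => hmin hy⟩
  refine ⟨(M + 1) / c, by positivity, ?_⟩
  intro x hx y hy
  have hxB := S.C_sub_B hx
  have hyB := S.C_sub_B hy
  have hseg : segment ℝ x y ⊆ S.B := S.conv.segment_subset hxB hyB
  have hderiv : ∀ z ∈ segment ℝ x y, ‖fderiv ℝ S.f z - fderiv ℝ S.f x‖ ≤ M * ‖y - x‖ := by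
    intro z hz
    have h3 := (S.conv).norm_image_sub_le_of_norm_fderiv_le (𝕜 := ℝ) (f := fderiv ℝ S.f)
      (C := M) (x := x) (y := z)
      (fun w _ => (h2.differentiable one_ne_zero) w) hM hxB (hseg hz)
    refine h3.trans ?_
    have : ‖z - x‖ ≤ ‖y - x‖ := by
      obtain ⟨a, b, ha, hb, hab, rfl⟩ := hz
      have e : a • x + b • y - x = b • (y - x) := by
        have : a = 1 - b := by linarith
        rw [this, sub_smul, one_smul, smul_sub]; abel
      rw [e, norm_smul, Real.norm_eq_abs, abs_of_nonneg hb]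
      nlinarith [norm_nonneg (y - x)]
    gcongr
  have h4 := (convex_segment (𝕜 := ℝ) x y).norm_image_sub_le_of_norm_hasFDerivWithin_le'
    (f := S.f) (f' := fderiv ℝ S.f) (φ := fderiv ℝ S.f x) (C := M * ‖y - x‖)
    (fun z _ => (S.hasFDerivAt_f z).hasFDerivWithinAt) hderiv
    (left_mem_segment ℝ x y) (right_mem_segment ℝ x y)
  have hx0 : S.f x = 0 := hx
  have hy0 : S.f y = 0 := hy
  rw [hx0, hy0, sub_zero, zero_sub, norm_neg, ← S.inner_g, Real.norm_eq_abs] at h4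
  unfold N
  rw [real_inner_smul_left, abs_mul, abs_of_nonneg (by positivity : (0:ℝ) ≤ ‖S.g x‖⁻¹)]
  have h5 := hc x hx
  have h6 : ‖S.g x‖⁻¹ ≤ c⁻¹ := inv_anti₀ hc0 h5
  calc ‖S.g x‖⁻¹ * |⟪S.g x, y - x⟫_ℝ| ≤ c⁻¹ * (M * ‖y - x‖ * ‖y - x‖) := by
        gcongr
    _ ≤ (M + 1) / c * ‖y - x‖ ^ 2 := by
        rw [div_eq_mul_inv]
        have : (M + 1) * c⁻¹ * ‖y - x‖ ^ 2 - c⁻¹ * (M * ‖y - x‖ * ‖y - x‖) = c⁻¹ * ‖y - x‖^2 := by ring
        have h7 : 0 ≤ c⁻¹ * ‖y - x‖^2 := by positivity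
        linarith

lemma exists_delta : ∃ δ : ℝ, 0 < δ ∧ ∀ x ∈ S.C, ∀ y ∈ S.C, ‖x - y‖ < δ →
    1 / 2 ≤ ⟪S.N x, S.N y⟫_ℝ := by
  have h1 := S.C_compact.uniformContinuousOn_of_continuous S.N_contOn
  rw [Metric.uniformContinuousOn_iff] at h1
  obtain ⟨δ, hδ, h⟩ := h1 (1/2) (by norm_num)
  refine ⟨δ, hδ, fun x hx y hy hxy => ?_⟩
  have h2 := h x hx y hy (by rwa [dist_eq_norm])
  rw [dist_eq_norm] at h2
  have h3 : ⟪S.N x, S.N y⟫_ℝ = 1 + ⟪S.N x, S.N y - S.N x⟫_ℝ := by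
    rw [inner_sub_right, real_inner_self_eq_norm_sq, S.N_norm hx]; ring
  have h4 := abs_real_inner_le_norm (S.N x) (S.N y - S.N x)
  rw [S.N_norm hx, one_mul, norm_sub_rev] at h4
  rw [h3]
  linarith [neg_abs_le ⟪S.N x, S.N y - S.N x⟫_ℝ]

/-- chord-arc estimate -/
lemma exists_chord : ∃ K δ : ℝ, 0 < K ∧ 0 < δ ∧ ∀ x ∈ S.C, ∀ y ∈ S.C, ‖x - y‖ < δ →
    S.dE x y ≤ ENNReal.ofReal (‖x - y‖ + K * ‖x - y‖ ^ 3) := by
  obtain ⟨κ, hκ0, hκ⟩ := S.exists_kappa
  obtain ⟨δ, hδ0, hδ⟩ := S.exists_delta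
  refine ⟨4 * κ ^ 2, δ, by positivity, hδ0, ?_⟩
  intro x hx y hy hxy
  set D := ‖x - y‖ with hD
  have hD' : ‖y - x‖ = D := norm_sub_rev _ _
  have hD0 : 0 ≤ D := norm_nonneg _
  set z : V := (1/2 : ℝ) • (x + y) + (κ * D ^ 2) • S.N x with hz
  have hNx := S.N_norm hx
  have k1 := hκ x hx y hy
  have k2 := hκ y hy x hx
  rw [hD'] at k1
  rw [← hD] at k2
  have k3 := hδ x hx y hy hxy
  have ezx : z - x = (1/2 : ℝ) • (y - x) + (κ * D ^ 2) • S.N x := by
    rw [hz]; module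
  have ezy : z - y = (1/2 : ℝ) • (x - y) + (κ * D ^ 2) • S.N x := by
    rw [hz]; module
  -- first segment
  have s1 : S.dE x (S.P z) ≤ ENNReal.ofReal ‖z - x‖ := by
    have := S.dE_seg (x := x) (z := z) (fun t ht => ?_)
    · rwa [S.P_of_mem (S.C_sub_B hx)] at this
    · apply S.ext_of_inner hx
      rw [add_sub_cancel_left, inner_smul_right]
      apply mul_nonneg ht.1
      rw [ezx, inner_add_right, inner_smul_right, inner_smul_right, real_inner_self_eq_norm_sq,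
        hNx]
      have := neg_abs_le ⟪S.N x, y - x⟫_ℝ
      nlinarith [sq_nonneg D]
  have s2 : S.dE y (S.P z) ≤ ENNReal.ofReal ‖z - y‖ := by
    have := S.dE_seg (x := y) (z := z) (fun t ht => ?_)
    · rwa [S.P_of_mem (S.C_sub_B hy)] at this
    · apply S.ext_of_inner hy
      rw [add_sub_cancel_left, inner_smul_right]
      apply mul_nonneg ht.1
      rw [ezy, inner_add_right, inner_smul_right, inner_smul_right,
        real_inner_comm (S.N x) (S.N y)]
      have := neg_abs_le ⟪S.N y, x - y⟫_ℝ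
      have h5 : 0 ≤ κ * D ^ 2 := by positivity
      nlinarith
  have s3 := S.dE_triangle x (S.P z) y
  rw [S.dE_comm (S.P z) y] at s3
  refine (s3.trans (add_le_add s1 s2)).trans ?_
  rw [← ENNReal.ofReal_add (norm_nonneg _) (norm_nonneg _)]
  apply ENNReal.ofReal_le_ofReal
  -- norms
  have n1 : ‖z - x‖ ≤ D / 2 * (1 + 4 * κ ^ 2 * D ^ 2) := by
    apply le_of_sq_le_sq _ (by positivity)
    rw [ezx, ← real_inner_self_eq_norm_sq, inner_add_left, inner_add_right, inner_add_right]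
    simp only [real_inner_smul_left, inner_smul_right, real_inner_self_eq_norm_sq, hNx, hD']
    rw [real_inner_comm (S.N x) (y - x)]
    have := le_abs_self ⟪S.N x, y - x⟫_ℝ
    have h5 : 0 ≤ κ * D ^ 2 := by positivity
    nlinarith [mul_le_mul_of_nonneg_left (this.trans k1) h5, sq_nonneg (κ ^ 2 * D ^ 3)]
  have n2 : ‖z - y‖ ≤ D / 2 * (1 + 4 * κ ^ 2 * D ^ 2) := by
    apply le_of_sq_le_sq _ (by positivity)
    rw [ezy, ← real_inner_self_eq_norm_sq, inner_add_left, inner_add_right, inner_add_right]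
    simp only [real_inner_smul_left, inner_smul_right, real_inner_self_eq_norm_sq, hNx, ← hD]
    rw [real_inner_comm (S.N x) (x - y)]
    have e1 : ⟪S.N x, x - y⟫_ℝ = - ⟪S.N x, y - x⟫_ℝ := by rw [← inner_neg_right, neg_sub]
    rw [e1]
    have := neg_abs_le ⟪S.N x, y - x⟫_ℝ
    have h6 : - ⟪S.N x, y - x⟫_ℝ ≤ κ * D ^ 2 := by linarith
    have h5 : 0 ≤ κ * D ^ 2 := by positivity
    nlinarith [mul_le_mul_of_nonneg_left h6 h5, sq_nonneg (κ ^ 2 * D ^ 3)]
  nlinarith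

end Surf

end Pool.Agent.H864R2
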