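import Pool.Agent.H864R2.Dist

set_option autoImplicit false
set_option linter.unusedVariables false

open Set Metric Filter Topology MeasureTheory
open scoped ContDiff InnerProductSpace NNReal ENNReal

namespace Pool.Agent.H864R2

lemma rank_V : 1 < Module.rank ℝ V := by
  have : Module.rank ℝ V = 3 := by
    have h := finrank_euclideanSpace (𝕜 := ℝ) (ι := Fin 3)
    rw [Fintype.card_fin] at h
    rw [← Module.finrank_eq_rank, h]; norm_num
  rw [this]; norm_num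

namespace Surf

variable (S : Surf)

lemma C_preconnected : IsPreconnected S.C := by
  obtain ⟨h, h1, h2, h3⟩ := exists_homeomorph_image_interior_closure_frontier_eq_unitBall
    S.conv S.int (s := S.B) (S.cpt.isBounded)
  have h4 : S.C = h.symm '' (sphere 0 1) := by
    rw [← h3, S.frontier_B, ← image_comp]
    simp
  rw [h4]
  exact (isPreconnected_sphere rank_V 0 1).image _ h.symm.continuous.continuousOn

lemma C_nonempty : S.C.Nonempty := by
  obtain ⟨h, h1, h2, h3⟩ := exists_homeomorph_image_interior_closure_frontier_eq_unitBall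
    S.conv S.int (s := S.B) (S.cpt.isBounded)
  have h4 : S.C = h.symm '' (sphere 0 1) := by
    rw [← h3, S.frontier_B, ← image_comp]
    simp
  rw [h4]
  have : Nontrivial V := by
    refine ⟨0, EuclideanSpace.single 0 1, ?_⟩
    intro h
    have := congrArg (fun v : V => v 0) h
    simp at this
  exact ((NormedSpace.sphere_nonempty (x := (0:V)) (r := 1)).2 zero_le_one).image _

lemma dE_lt_top {x y : V} (hx : x ∈ S.C) (hy : y ∈ S.C) : S.dE x y < ⊤ := by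
  obtain ⟨K, δ, hK, hδ, hch⟩ := S.exists_chord
  by_contra hcon
  rw [not_lt, top_le_iff] at hcon
  set U : Set V := ⋃ z ∈ {z ∈ S.C | S.dE x z < ⊤}, ball z (δ/2) with hU
  set W : Set V := ⋃ z ∈ {z ∈ S.C | S.dE x z = ⊤}, ball z (δ/2) with hW
  have hUo : IsOpen U := isOpen_biUnion fun _ _ => isOpen_ball
  have hWo : IsOpen W := isOpen_biUnion fun _ _ => isOpen_ball
  have hcov : S.C ⊆ U ∪ W := by
    intro z hz
    rcases lt_or_eq_of_le (le_top : S.dE x z ≤ ⊤) with h | h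
    · left
      exact mem_biUnion (show z ∈ {z ∈ S.C | S.dE x z < ⊤} from ⟨hz, h⟩) (mem_ball_self (by positivity))
    · right
      exact mem_biUnion (show z ∈ {z ∈ S.C | S.dE x z = ⊤} from ⟨hz, h⟩) (mem_ball_self (by positivity))
  have h1 := S.C_preconnected U W hUo hWo hcov
    ⟨x, hx, mem_biUnion (show x ∈ {z ∈ S.C | S.dE x z < ⊤} from ⟨hx, by rw [S.dE_self hx]; exact ENNReal.zero_lt_top⟩) (mem_ball_self (by positivity))⟩
    ⟨y, hy, mem_biUnion (show y ∈ {z ∈ S.C | S.dE x z = ⊤} from ⟨hy, hcon⟩) (mem_ball_self (by positivity))⟩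
  obtain ⟨w, hw, hwU, hwW⟩ := h1
  obtain ⟨z1, ⟨hz1, hz1'⟩, hb1⟩ := mem_iUnion₂.1 hwU
  obtain ⟨z2, ⟨hz2, hz2'⟩, hb2⟩ := mem_iUnion₂.1 hwW
  rw [mem_ball, dist_eq_norm] at hb1 hb2
  have k1 := hch z1 hz1 w hw (by rw [norm_sub_rev]; linarith)
  have k2 := hch w hw z2 hz2 (by linarith)
  have k3 : S.dE x z2 < ⊤ := by
    refine lt_of_le_of_lt (S.dE_triangle x z1 z2) ?_
    refine ENNReal.add_lt_top.2 ⟨hz1', ?_⟩
    refine lt_of_le_of_lt (S.dE_triangle z1 w z2) ?_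
    exact ENNReal.add_lt_top.2 ⟨lt_of_le_of_lt k1 ENNReal.ofReal_lt_top,
      lt_of_le_of_lt k2 ENNReal.ofReal_lt_top⟩
  rw [hz2'] at k3
  exact lt_irrefl _ k3

/-- real intrinsic distance -/
noncomputable def d (x y : V) : ℝ := (S.dE x y).toReal

lemma ofReal_d {x y : V} (hx : x ∈ S.C) (hy : y ∈ S.C) : ENNReal.ofReal (S.d x y) = S.dE x y :=
  ENNReal.ofReal_toReal (S.dE_lt_top hx hy).ne

lemma d_nonneg (x y : V) : 0 ≤ S.d x y := ENNReal.toReal_nonneg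

lemma d_self {x : V} (hx : x ∈ S.C) : S.d x x = 0 := by
  unfold d; rw [S.dE_self hx]; rfl

lemma d_comm (x y : V) : S.d x y = S.d y x := by
  unfold d; rw [S.dE_comm]

lemma d_triangle {x y z : V} (hx : x ∈ S.C) (hy : y ∈ S.C) (hz : z ∈ S.C) :
    S.d x z ≤ S.d x y + S.d y z := by
  unfold d
  rw [← ENNReal.toReal_add (S.dE_lt_top hx hy).ne (S.dE_lt_top hy hz).ne]
  exact ENNReal.toReal_mono (ENNReal.add_lt_top.2 ⟨S.dE_lt_top hx hy, S.dE_lt_top hy hz⟩).ne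
    (S.dE_triangle x y z)

lemma norm_le_d {x y : V} (hx : x ∈ S.C) (hy : y ∈ S.C) : ‖x - y‖ ≤ S.d x y := by
  unfold d
  have := S.edist_le_dE x y
  rw [edist_dist, dist_eq_norm] at this
  have h2 := ENNReal.toReal_mono (S.dE_lt_top hx hy).ne this
  rwa [ENNReal.toReal_ofReal (norm_nonneg _)] at h2

lemma d_le_of_dE {x y : V} {r : ℝ} (hr : 0 ≤ r) (h : S.dE x y ≤ ENNReal.ofReal r) : S.d x y ≤ r := by
  unfold d
  have := ENNReal.toReal_mono ENNReal.ofReal_ne_top h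
  rwa [ENNReal.toReal_ofReal hr] at this

lemma eq_of_d {x y : V} (hx : x ∈ S.C) (hy : y ∈ S.C) (h : S.d x y = 0) : x = y := by
  have := S.norm_le_d hx hy
  rw [h] at this
  exact sub_eq_zero.1 (norm_le_zero_iff.1 this)

lemma exists_chord' : ∃ K δ : ℝ, 0 < K ∧ 0 < δ ∧ ∀ x ∈ S.C, ∀ y ∈ S.C, ‖x - y‖ < δ →
    S.d x y ≤ ‖x - y‖ + K * ‖x - y‖ ^ 3 := by
  obtain ⟨K, δ, hK, hδ, h⟩ := S.exists_chord
  exact ⟨K, δ, hK, hδ, fun x hx y hy hxy => S.d_le_of_dE (by positivity) (h x hx y hy hxy)⟩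

lemma d_small {ε : ℝ} (hε : 0 < ε) : ∃ δ > 0, ∀ x ∈ S.C, ∀ y ∈ S.C, ‖x - y‖ < δ → S.d x y < ε := by
  obtain ⟨K, δ, hK, hδ, h⟩ := S.exists_chord'
  refine ⟨min δ (min 1 (ε / (2 * (1 + K)))), by positivity, fun x hx y hy hxy => ?_⟩
  have h1 : ‖x - y‖ < δ := lt_of_lt_of_le hxy (min_le_left _ _)
  have h2 : ‖x - y‖ < 1 := lt_of_lt_of_le hxy ((min_le_right _ _).trans (min_le_left _ _))
  have h3 : ‖x - y‖ < ε / (2 * (1 + K)) :=
    lt_of_lt_of_le hxy ((min_le_right _ _).trans (min_le_right _ _))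
  have h4 := h x hx y hy h1
  have h0 := norm_nonneg (x - y)
  have h5 : ‖x - y‖ ^ 3 ≤ ‖x - y‖ := by
    have : ‖x - y‖ ^ 2 ≤ 1 := by nlinarith
    nlinarith
  have h6 : ‖x - y‖ * (2 * (1 + K)) < ε := by
    rwa [lt_div_iff₀ (by positivity)] at h3
  nlinarith

lemma d_cont : ContinuousOn (fun q : V × V => S.d q.1 q.2) (S.C ×ˢ S.C) := by
  rw [Metric.continuousOn_iff]
  rintro ⟨x, y⟩ ⟨hx, hy⟩ ε hε
  obtain ⟨δ, hδ, h⟩ := S.d_small (half_pos hε)
  refine ⟨δ, hδ, ?_⟩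
  rintro ⟨a, b⟩ ⟨ha, hb⟩ hab
  simp only at ha hb hx hy
  rw [Prod.dist_eq, max_lt_iff] at hab
  simp only [dist_eq_norm] at hab
  have h1 := h a ha x hx hab.1
  have h2 := h b hb y hy hab.2
  rw [Real.dist_eq, abs_lt]
  have t1 := S.d_triangle ha hx hb
  have t2 := S.d_triangle hx hy hb
  have t3 := S.d_triangle hx ha hy
  have t4 := S.d_triangle ha hb hy
  rw [S.d_comm x a] at t3
  rw [S.d_comm y b] at t2
  constructor <;> simp only <;> linarith

lemma d_tendsto {ι : Type*} {F : Filter ι} {u v : ι → V} {x y : V} (hu : Tendsto u F (𝓝 x))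
    (hv : Tendsto v F (𝓝 y)) (huC : ∀ i, u i ∈ S.C) (hvC : ∀ i, v i ∈ S.C) (hx : x ∈ S.C)
    (hy : y ∈ S.C) : Tendsto (fun i => S.d (u i) (v i)) F (𝓝 (S.d x y)) := by
  have h1 : Tendsto (fun q : V × V => S.d q.1 q.2) (𝓝[S.C ×ˢ S.C] (x, y)) (𝓝 (S.d x y)) :=
    S.d_cont (x, y) ⟨hx, hy⟩
  have h2 : Tendsto (fun i => ((u i, v i) : V × V)) F (𝓝[S.C ×ˢ S.C] (x, y)) := by
    refine tendsto_nhdsWithin_iff.2 ⟨hu.prodMk_nhds hv, ?_⟩
    exact Eventually.of_forall fun i => Set.mk_mem_prod (huC i) (hvC i)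
  have h3 := h1.comp h2
  simpa only [Function.comp_def] using h3

/-- unit speed minimising curve -/
def UMin (D : ℝ) (σ : ℝ → V) : Prop :=
  (∀ t ∈ Icc 0 D, σ t ∈ S.C) ∧ ∀ s ∈ Icc 0 D, ∀ t ∈ Icc 0 D, S.d (σ s) (σ t) = |s - t|

lemma UMin.lip {S : Surf} {D : ℝ} {σ : ℝ → V} (h : S.UMin D σ) {s t : ℝ} (hs : s ∈ Icc 0 D)
    (ht : t ∈ Icc 0 D) : ‖σ s - σ t‖ ≤ |s - t| := by
  rw [← h.2 s hs t ht]
  exact S.norm_le_d (h.1 s hs) (h.1 t ht)

lemma UMin.contOn {S : Surf} {D : ℝ} {σ : ℝ → V} (h : S.UMin D σ) : ContinuousOn σ (Icc 0 D) := by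
  apply LipschitzOnWith.continuousOn (K := 1)
  apply LipschitzOnWith.of_dist_le_mul
  intro s hs t ht
  rw [dist_eq_norm, NNReal.coe_one, one_mul, Real.dist_eq]
  exact h.lip hs ht

/-- existence of shortest curves -/
lemma exists_UMin {x y : V} (hx : x ∈ S.C) (hy : y ∈ S.C) :
    ∃ σ : ℝ → V, σ 0 = x ∧ σ (S.d x y) = y ∧ S.UMin (S.d x y) σ := by
  set D := S.d x y with hD
  have hD0 : 0 ≤ D := S.d_nonneg x y
  -- near minimal curves
  have h1 : ∀ n : ℕ, ∃ γ : ℝ → V, S.Adm x y γ ∧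
      eVariationOn γ (Icc 0 1) < ENNReal.ofReal (D + 1 / ((n:ℝ) + 1)) := by
    intro n
    have h2 : S.dE x y < ENNReal.ofReal (D + 1 / ((n:ℝ) + 1)) := by
      rw [← S.ofReal_d hx hy]
      apply (ENNReal.ofReal_lt_ofReal_iff (by positivity)).2
      have : 0 < 1 / ((n:ℝ) + 1) := by positivity
      linarith
    unfold dE at h2
    obtain ⟨⟨γ, hγ⟩, h3⟩ := iInf_lt_iff.1 h2
    exact ⟨γ, hγ, h3⟩
  choose γ hγ hlen using h1
  have hγC : ∀ n, ∀ s ∈ Icc (0:ℝ) 1, γ n s ∈ S.C := fun n => (hγ n).2.2.2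
  -- sub-arcs
  have hsub : ∀ n, ∀ a ∈ Icc (0:ℝ) 1, ∀ b ∈ Icc (0:ℝ) 1, a ≤ b →
      S.d x (γ n a) + S.d (γ n a) (γ n b) + S.d (γ n b) y ≤ D + 1 / ((n:ℝ) + 1) := by
    intro n a ha b hb hab
    obtain ⟨hc, h0, h1, hC⟩ := hγ n
    have i1 : Icc 0 a ⊆ Icc (0:ℝ) 1 := Icc_subset_Icc le_rfl ha.2
    have i2 : Icc a b ⊆ Icc (0:ℝ) 1 := Icc_subset_Icc ha.1 hb.2
    have i3 : Icc b 1 ⊆ Icc (0:ℝ) 1 := Icc_subset_Icc hb.1 le_rfl
    have j1 := S.dE_le_var ha.1 (hc.mono i1) (fun t ht => hC t (i1 ht))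
    have j2 := S.dE_le_var hab (hc.mono i2) (fun t ht => hC t (i2 ht))
    have j3 := S.dE_le_var hb.2 (hc.mono i3) (fun t ht => hC t (i3 ht))
    rw [h0] at j1
    rw [h1] at j3
    have e1 := eVariationOn.Icc_add_Icc (γ n) (s := univ) (a := 0) (b := a) (c := b) ha.1 hab
      (mem_univ _)
    have e2 := eVariationOn.Icc_add_Icc (γ n) (s := univ) (a := 0) (b := b) (c := 1) hb.1 hb.2
      (mem_univ _)
    simp only [univ_inter] at e1 e2
    have j4 : S.dE x (γ n a) + S.dE (γ n a) (γ n b) + S.dE (γ n b) y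
        ≤ ENNReal.ofReal (D + 1 / ((n:ℝ) + 1)) := by
      refine (add_le_add (add_le_add j1 j2) j3).trans ?_
      rw [e1, e2]
      exact (hlen n).le
    rw [← S.ofReal_d hx (hC a ha), ← S.ofReal_d (hC a ha) (hC b hb), ← S.ofReal_d (hC b hb) hy,
      ← ENNReal.ofReal_add (S.d_nonneg _ _) (S.d_nonneg _ _),
      ← ENNReal.ofReal_add (add_nonneg (S.d_nonneg _ _) (S.d_nonneg _ _)) (S.d_nonneg _ _)] at j4
    exact (ENNReal.ofReal_le_ofReal_iff (by positivity)).1 j4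
  -- choose points at prescribed distance
  have hpt : ∀ n, ∀ t : ℝ, ∃ s ∈ Icc (0:ℝ) 1, t ∈ Icc 0 D → S.d x (γ n s) = t := by
    intro n t
    by_cases ht : t ∈ Icc 0 D
    swap
    · exact ⟨0, by simp, fun h => absurd h ht⟩
    obtain ⟨hc, h0, h1, hC⟩ := hγ n
    have hcont : ContinuousOn (fun s => S.d x (γ n s)) (Icc 0 1) := by
      have := S.d_cont.comp (f := fun s => ((x, γ n s) : V × V)) (s := Icc (0:ℝ) 1)
        (continuousOn_const.prodMk hc) (fun s hs => ⟨hx, hC s hs⟩)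
      exact this
    have h3 := intermediate_value_Icc (zero_le_one) hcont
    simp only [h0, h1, S.d_self hx] at h3
    obtain ⟨s, hs, hs'⟩ := h3 ht
    exact ⟨s, hs, fun _ => hs'⟩
  choose s hs hs' using hpt
  set z : ℕ → ℝ → V := fun n t => γ n (s n t) with hz
  have hzC : ∀ n t, z n t ∈ S.C := fun n t => hγC n _ (hs n t)
  have hzd : ∀ n, ∀ a ∈ Icc 0 D, ∀ b ∈ Icc 0 D, S.d (z n a) (z n b) ≤ |a - b| + 1 / ((n:ℝ) + 1) := by
    intro n
    have key : ∀ a ∈ Icc 0 D, ∀ b ∈ Icc 0 D, s n a ≤ s n b →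
        S.d (z n a) (z n b) ≤ |a - b| + 1 / ((n:ℝ) + 1) := by
      intro a ha b hb hab
      have k1 := hsub n _ (hs n a) _ (hs n b) hab
      have k2 := hs' n a ha
      have k3 := hs' n b hb
      have k4 := S.d_triangle hx (hzC n b) hy
      simp only [hz] at k4 ⊢
      rw [k2] at k1
      rw [k3, ← hD] at k4
      have := neg_abs_le (a - b)
      linarith
    intro a ha b hb
    rcases le_total (s n a) (s n b) with h | h
    · exact key a ha b hb h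
    · have := key b hb a ha h
      rwa [S.d_comm, abs_sub_comm] at this
  -- ultrafilter limit
  have hlim : ∀ t, ∃ w ∈ S.C, Tendsto (fun n => z n t) (hyperfilter ℕ) (𝓝 w) := by
    intro t
    have h5 : S.C ∈ (Ultrafilter.map (fun n => z n t) (hyperfilter ℕ) : Filter V) := by
      rw [Ultrafilter.coe_map, mem_map]
      exact Filter.univ_mem' (fun n => hzC n t)
    obtain ⟨w, hw, h6⟩ := S.C_compact.ultrafilter_le_nhds (Ultrafilter.map (fun n => z n t)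
      (hyperfilter ℕ)) (le_principal_iff.2 h5)
    exact ⟨w, hw, h6⟩
  choose σ hσC hσ using hlim
  have hinv : Tendsto (fun n : ℕ => 1 / ((n:ℝ) + 1)) (hyperfilter ℕ) (𝓝 0) :=
    tendsto_one_div_add_atTop_nhds_zero_nat.mono_left
      (by rw [← Nat.cofinite_eq_atTop]; exact hyperfilter_le_cofinite)
  have hle : ∀ a ∈ Icc 0 D, ∀ b ∈ Icc 0 D, S.d (σ a) (σ b) ≤ |a - b| := by
    intro a ha b hb
    have t1 := S.d_tendsto (hσ a) (hσ b) (fun n => hzC n a) (fun n => hzC n b) (hσC a) (hσC b)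
    have t2 : Tendsto (fun n : ℕ => |a - b| + 1 / ((n:ℝ) + 1)) (hyperfilter ℕ) (𝓝 (|a - b| + 0)) :=
      tendsto_const_nhds.add hinv
    rw [add_zero] at t2
    exact le_of_tendsto_of_tendsto' t1 t2 (fun n => hzd n a ha b hb)
  have hdx : ∀ a ∈ Icc 0 D, S.d x (σ a) = a := by
    intro a ha
    have t1 := S.d_tendsto (u := fun _ => x) tendsto_const_nhds (hσ a) (fun n => hx)
      (fun n => hzC n a) hx (hσC a)
    have t2 : (fun n => S.d x (z n a)) = fun _ => a := by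
      ext n; exact hs' n a ha
    rw [t2] at t1
    exact tendsto_nhds_unique t1 tendsto_const_nhds
  have m0 : (0:ℝ) ∈ Icc 0 D := ⟨le_rfl, hD0⟩
  have mD : D ∈ Icc 0 D := ⟨hD0, le_rfl⟩
  have h0 : σ 0 = x := (S.eq_of_d hx (hσC 0) (hdx 0 m0)).symm
  have hDy : σ D = y := by
    apply S.eq_of_d (hσC D) hy
    apply le_antisymm _ (S.d_nonneg _ _)
    have t1 := S.d_tendsto (v := fun _ => y) (hσ D) tendsto_const_nhds (fun n => hzC n D)
      (fun n => hy) (hσC D) hy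
    refine le_of_tendsto_of_tendsto' t1 hinv fun n => ?_
    have k1 := hsub n _ (hs n D) _ (hs n D) le_rfl
    rw [hs' n D mD] at k1
    have := S.d_nonneg (γ n (s n D)) (γ n (s n D))
    simp only [hz]
    linarith
  refine ⟨σ, h0, hDy, fun t _ => hσC t, ?_⟩
  have key : ∀ a ∈ Icc 0 D, ∀ b ∈ Icc 0 D, a ≤ b → S.d (σ a) (σ b) = |a - b| := by
    intro a ha b hb hab
    apply le_antisymm (hle a ha b hb)
    have t := S.d_triangle hx (hσC a) (hσC b)
    rw [hdx a ha, hdx b hb] at t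
    rw [abs_sub_comm, abs_of_nonneg (by linarith)]
    linarith
  intro a ha b hb
  rcases le_total a b with h | h
  · exact key a ha b hb h
  · rw [S.d_comm, abs_sub_comm]; exact key b hb a ha h

lemma UMin.var {S : Surf} {D : ℝ} {σ : ℝ → V} (hD : 0 ≤ D) (h : S.UMin D σ) :
    eVariationOn σ (Icc 0 D) = ENNReal.ofReal D := by
  apply le_antisymm
  · have := var_le (c := σ) (F := id) hD (fun s hs t ht hst => by
      have := h.lip ht hs
      rwa [abs_of_nonneg (by linarith)] at this)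
    simpa using this
  · have h1 := S.dE_le_var hD h.contOn h.1
    rw [← S.ofReal_d (h.1 0 ⟨le_rfl, hD⟩) (h.1 D ⟨hD, le_rfl⟩), h.2 0 ⟨le_rfl, hD⟩ D ⟨hD, le_rfl⟩,
      zero_sub, abs_neg, abs_of_nonneg hD] at h1
    exact h1

/-- every minimiser has the same image as a unit speed minimiser -/
lemma exists_UMin_of_min {x y : V} (hx : x ∈ S.C) (hy : y ∈ S.C) {γ : ℝ → V} (hγ : S.Adm x y γ)
    (hmin : eVariationOn γ (Icc 0 1) ≤ S.dE x y) :
    ∃ σ : ℝ → V, σ 0 = x ∧ σ (S.d x y) = y ∧ S.UMin (S.d x y) σ ∧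
      σ '' Icc 0 (S.d x y) = γ '' Icc 0 1 := by
  set D := S.d x y with hD
  have hD0 : 0 ≤ D := S.d_nonneg x y
  obtain ⟨hc, h0, h1, hC⟩ := hγ
  have hsub : ∀ a ∈ Icc (0:ℝ) 1, ∀ b ∈ Icc (0:ℝ) 1, a ≤ b →
      S.d x (γ a) + S.d (γ a) (γ b) + S.d (γ b) y ≤ D := by
    intro a ha b hb hab
    have i1 : Icc 0 a ⊆ Icc (0:ℝ) 1 := Icc_subset_Icc le_rfl ha.2
    have i2 : Icc a b ⊆ Icc (0:ℝ) 1 := Icc_subset_Icc ha.1 hb.2
    have i3 : Icc b 1 ⊆ Icc (0:ℝ) 1 := Icc_subset_Icc hb.1 le_rfl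
    have j1 := S.dE_le_var ha.1 (hc.mono i1) (fun t ht => hC t (i1 ht))
    have j2 := S.dE_le_var hab (hc.mono i2) (fun t ht => hC t (i2 ht))
    have j3 := S.dE_le_var hb.2 (hc.mono i3) (fun t ht => hC t (i3 ht))
    rw [h0] at j1
    rw [h1] at j3
    have e1 := eVariationOn.Icc_add_Icc γ (s := univ) (a := 0) (b := a) (c := b) ha.1 hab
      (mem_univ _)
    have e2 := eVariationOn.Icc_add_Icc γ (s := univ) (a := 0) (b := b) (c := 1) hb.1 hb.2
      (mem_univ _)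
    simp only [univ_inter] at e1 e2
    have j4 : S.dE x (γ a) + S.dE (γ a) (γ b) + S.dE (γ b) y
        ≤ ENNReal.ofReal D := by
      refine (add_le_add (add_le_add j1 j2) j3).trans ?_
      rw [e1, e2, S.ofReal_d hx hy]
      exact hmin
    rw [← S.ofReal_d hx (hC a ha), ← S.ofReal_d (hC a ha) (hC b hb), ← S.ofReal_d (hC b hb) hy,
      ← ENNReal.ofReal_add (S.d_nonneg _ _) (S.d_nonneg _ _),
      ← ENNReal.ofReal_add (add_nonneg (S.d_nonneg _ _) (S.d_nonneg _ _)) (S.d_nonneg _ _)] at j4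
    exact (ENNReal.ofReal_le_ofReal_iff hD0).1 j4
  have hdd : ∀ a ∈ Icc (0:ℝ) 1, ∀ b ∈ Icc (0:ℝ) 1,
      S.d (γ a) (γ b) = |S.d x (γ a) - S.d x (γ b)| := by
    have key : ∀ a ∈ Icc (0:ℝ) 1, ∀ b ∈ Icc (0:ℝ) 1, a ≤ b →
      S.d (γ a) (γ b) = |S.d x (γ a) - S.d x (γ b)| := by
      intro a ha b hb hab
      have k1 := hsub a ha b hb hab
      have k2 := S.d_triangle hx (hC a ha) (hC b hb)
      have k3 := S.d_triangle hx (hC b hb) hy
      rw [← hD] at k3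
      have k4 := S.d_nonneg (γ a) (γ b)
      rw [abs_sub_comm, abs_of_nonneg (by linarith)]
      linarith
    intro a ha b hb
    rcases le_total a b with h | h
    · exact key a ha b hb h
    · rw [S.d_comm, abs_sub_comm]; exact key b hb a ha h
  have hcont : ContinuousOn (fun s => S.d x (γ s)) (Icc 0 1) := by
    have := S.d_cont.comp (f := fun s => ((x, γ s) : V × V)) (s := Icc (0:ℝ) 1)
      (continuousOn_const.prodMk hc) (fun s hs => ⟨hx, hC s hs⟩)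
    exact this
  have hpt : ∀ t : ℝ, ∃ s ∈ Icc (0:ℝ) 1, t ∈ Icc 0 D → S.d x (γ s) = t := by
    intro t
    by_cases ht : t ∈ Icc 0 D
    swap
    · exact ⟨0, by simp, fun h => absurd h ht⟩
    have h3 := intermediate_value_Icc (zero_le_one) hcont
    simp only [h0, h1, S.d_self hx] at h3
    obtain ⟨s, hs, hs'⟩ := h3 ht
    exact ⟨s, hs, fun _ => hs'⟩
  choose s hs hs' using hpt
  have m0 : (0:ℝ) ∈ Icc 0 D := ⟨le_rfl, hD0⟩
  have mD : D ∈ Icc 0 D := ⟨hD0, le_rfl⟩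
  refine ⟨fun t => γ (s t), ?_, ?_, ⟨fun t _ => hC _ (hs t), ?_⟩, ?_⟩
  · exact (S.eq_of_d hx (hC _ (hs 0)) (hs' 0 m0)).symm
  · apply S.eq_of_d (hC _ (hs D)) hy
    have h3 := hdd _ (hs D) 1 (by simp)
    rw [h1, hs' D mD, ← hD, sub_self, abs_zero] at h3
    exact h3
  · intro a ha b hb
    rw [hdd _ (hs a) _ (hs b), hs' a ha, hs' b hb]
  · ext w
    constructor
    · rintro ⟨t, ht, rfl⟩
      exact ⟨s t, hs t, rfl⟩
    · rintro ⟨t, ht, rfl⟩
      have k1 := hsub t ht t ht le_rfl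
      have k2 := S.d_nonneg (γ t) (γ t)
      have k3 := S.d_nonneg (γ t) y
      have k4 : S.d x (γ t) ∈ Icc 0 D := ⟨S.d_nonneg _ _, by linarith⟩
      refine ⟨S.d x (γ t), k4, ?_⟩
      apply S.eq_of_d (hC _ (hs _)) (hC t ht)
      rw [hdd _ (hs _) _ ht, hs' _ k4, sub_self, abs_zero]

end Surf

attribute [irreducible] Surf.d

end Pool.Agent.H864R2
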