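import Pool.Agent.H864R2.Reg

set_option autoImplicit false
set_option linter.unusedVariables false

open Set Metric Filter Topology MeasureTheory
open scoped ContDiff InnerProductSpace NNReal ENNReal

namespace Pool.Agent.H864R2

lemma innC {f g : ℝ → V} {s : Set ℝ} (hf : ContinuousOn f s) (hg : ContinuousOn g s) :
    ContinuousOn (fun t => ⟪f t, g t⟫_ℝ) s := hf.inner hg

namespace Surf

variable (S : Surf)

lemma N_hasFDerivAt {x : V} (hx : x ∈ S.C) : HasFDerivAt S.N (fderiv ℝ S.N x) x :=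
  ((S.N_contDiffAt (S.g_ne hx)).differentiableAt (by simp)).hasFDerivAt

lemma DN_contAt {x : V} (hx : x ∈ S.C) : ContinuousAt (fderiv ℝ S.N) x := by
  have h1 : ContDiffAt ℝ 0 (fderiv ℝ S.N) x :=
    (S.N_contDiffAt (S.g_ne hx)).fderiv_right (m := 0) (by simp)
  exact h1.continuousAt

/-- second fundamental form in a direction -/
noncomputable def kn (x v : V) : ℝ := ⟪fderiv ℝ S.N x v, v⟫_ℝ

lemma UMin.ode {S : Surf} {D : ℝ} {σ : ℝ → V} (h : S.UMin D σ) :
    ∃ v : ℝ → V, (∀ t ∈ Ioo 0 D, HasDerivAt σ (v t) t) ∧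
      (∀ t ∈ Ioo 0 D, HasDerivAt v (-(S.kn (σ t) (v t)) • S.N (σ t)) t) ∧
      (∀ t ∈ Ioo 0 D, ‖v t‖ = 1) ∧ (∀ t ∈ Ioo 0 D, ⟪S.N (σ t), v t⟫_ℝ = 0) := by
  obtain ⟨v, hvc, hvd, hvn⟩ := h.deriv
  have hIC : ∀ t ∈ Ioo 0 D, σ t ∈ S.C := fun t ht => h.1 t (Ioo_subset_Icc_self ht)
  have hσc : ContinuousOn σ (Ioo 0 D) := fun t ht => (hvd t ht).continuousAt.continuousWithinAt
  -- tangency
  have htan : ∀ t ∈ Ioo 0 D, ⟪S.N (σ t), v t⟫_ℝ = 0 := by
    intro t ht
    have h1 : HasDerivAt (fun s => S.f (σ s)) (fderiv ℝ S.f (σ t) (v t)) t :=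
      (S.hasFDerivAt_f (σ t)).comp_hasDerivAt t (hvd t ht)
    have h2 : HasDerivAt (fun s => S.f (σ s)) 0 t := by
      have : (fun s => S.f (σ s)) =ᶠ[𝓝 t] fun _ => 0 := by
        filter_upwards [isOpen_Ioo.mem_nhds ht] with s hs
        exact hIC s hs
      exact (hasDerivAt_const t (0:ℝ)).congr_of_eventuallyEq this
    have h3 := h1.unique h2
    unfold N
    rw [real_inner_smul_left, S.inner_g, h3, mul_zero]
  set Nσ : ℝ → V := fun t => S.N (σ t) with hNσ
  set N' : ℝ → V := fun t => fderiv ℝ S.N (σ t) (v t) with hN'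
  have hNd : ∀ t ∈ Ioo 0 D, HasDerivAt Nσ (N' t) t := fun t ht =>
    (S.N_hasFDerivAt (hIC t ht)).comp_hasDerivAt t (hvd t ht)
  have hNc : ContinuousOn Nσ (Ioo 0 D) := fun t ht => (hNd t ht).continuousAt.continuousWithinAt
  have hN'c : ContinuousOn N' (Ioo 0 D) := by
    have h1 : ContinuousOn (fun t => fderiv ℝ S.N (σ t)) (Ioo 0 D) := fun t ht =>
      ((S.DN_contAt (hIC t ht)).comp (hvd t ht).continuousAt).continuousWithinAt
    exact h1.clm_apply hvc
  have hNn : ∀ t ∈ Ioo 0 D, ‖Nσ t‖ = 1 := fun t ht => S.N_norm (hIC t ht)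
  set w : ℝ → V := fun t => -(⟪N' t, v t⟫_ℝ) • Nσ t with hw
  have hwc : ContinuousOn w (Ioo 0 D) := ((innC hN'c hvc).neg).smul hNc
  -- the key identity
  have key : ∀ a ∈ Ioo 0 D, ∀ b ∈ Ioo 0 D, a < b → ∃ m : V, ∀ t ∈ Icc a b,
      v t = (∫ s in a..t, w s) + m := by
    intro a ha b hb hab
    have hsub : Icc a b ⊆ Ioo 0 D := fun t ht => ⟨ha.1.trans_le ht.1, ht.2.trans_lt hb.2⟩
    have hIsub : ∀ {x y : ℝ}, x ∈ Ioo 0 D → y ∈ Ioo 0 D → uIcc x y ⊆ Ioo 0 D := by
      intro x y hx hy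
      exact OrdConnected.uIcc_subset (s := Ioo 0 D) inferInstance hx hy
    have hint : ∀ {G : ℝ → V}, ContinuousOn G (Ioo 0 D) → ∀ x ∈ Ioo 0 D, ∀ y ∈ Ioo 0 D,
        IntervalIntegrable G volume x y := fun hG x hx y hy =>
      (hG.mono (hIsub hx hy)).intervalIntegrable
    have hintR : ∀ {G : ℝ → ℝ}, ContinuousOn G (Ioo 0 D) → ∀ x ∈ Ioo 0 D, ∀ y ∈ Ioo 0 D,
        IntervalIntegrable G volume x y := fun hG x hx y hy =>
      (hG.mono (hIsub hx hy)).intervalIntegrable
    have hFTC : ∀ {G : ℝ → V}, ContinuousOn G (Ioo 0 D) → ∀ t ∈ Ioo 0 D,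
        HasDerivAt (fun t => ∫ s in a..t, G s) (G t) t := by
      intro G hG t ht
      exact intervalIntegral.integral_hasDerivAt_right (hint hG a ha t ht)
        (hG.stronglyMeasurableAtFilter isOpen_Ioo t ht) (hG.continuousAt (isOpen_Ioo.mem_nhds ht))
    have hFTCR : ∀ {G : ℝ → ℝ}, ContinuousOn G (Ioo 0 D) → ∀ t ∈ Ioo 0 D,
        HasDerivAt (fun t => ∫ s in a..t, G s) (G t) t := by
      intro G hG t ht
      exact intervalIntegral.integral_hasDerivAt_right (hintR hG a ha t ht)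
        (hG.stronglyMeasurableAtFilter isOpen_Ioo t ht) (hG.continuousAt (isOpen_Ioo.mem_nhds ht))
    set H : ℝ → V := fun t => ∫ s in a..t, w s with hH
    have hHd : ∀ t ∈ Ioo 0 D, HasDerivAt H (w t) t := hFTC hwc
    have hHc : ContinuousOn H (Ioo 0 D) := fun t ht => (hHd t ht).continuousAt.continuousWithinAt
    set m : V := (b - a)⁻¹ • ∫ s in a..b, (v s - H s) with hm
    set ψ : ℝ → V := fun t => v t - H t - m with hψ
    have hψc : ContinuousOn ψ (Ioo 0 D) := (hvc.sub hHc).sub continuousOn_const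
    set Φ : ℝ → V := fun t => ∫ s in a..t, ψ s with hΦ
    have hΦd : ∀ t ∈ Ioo 0 D, HasDerivAt Φ (ψ t) t := hFTC hψc
    have hΦc : ContinuousOn Φ (Ioo 0 D) := fun t ht => (hΦd t ht).continuousAt.continuousWithinAt
    have hΦa : Φ a = 0 := by simp [hΦ]
    have hΦb : Φ b = 0 := by
      simp only [hΦ, hψ]
      have hi1 : IntervalIntegrable (fun s => v s - H s) volume a b := hint (hvc.sub hHc) a ha b hb
      rw [intervalIntegral.integral_sub hi1 (hint continuousOn_const a ha b hb), intervalIntegral.integral_const, hm, smul_smul,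
        mul_inv_cancel₀ (by linarith), one_smul, sub_self]
    -- variation field
    set η : ℝ → V := fun t => Φ t - ⟪Nσ t, Φ t⟫_ℝ • Nσ t with hη
    set η' : ℝ → V := fun t => ψ t - ((⟪Nσ t, Φ t⟫_ℝ) • N' t
      + (⟪Nσ t, ψ t⟫_ℝ + ⟪N' t, Φ t⟫_ℝ) • Nσ t) with hη'
    have hηd : ∀ t ∈ Ioo 0 D, HasDerivAt η (η' t) t := fun t ht =>
      (hΦd t ht).sub (((hNd t ht).inner ℝ (hΦd t ht)).smul (hNd t ht))
    have hη'c : ContinuousOn η' (Ioo 0 D) :=
      hψc.sub (((innC hNc hΦc).smul hN'c).add (((innC hNc hψc).add (innC hN'c hΦc)).smul hNc))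
    set I := ∫ t in a..b, ⟪v t, η' t⟫_ℝ with hI
    set Q := ∫ t in a..b, ‖η' t‖ ^ 2 with hQ
    have hineq : ∀ s : ℝ, 0 ≤ s * I + s ^ 2 / 2 * Q := by
      intro s
      set c : ℝ → V := fun t => σ t + s • η t with hc
      have hcd : ∀ t ∈ Ioo 0 D, HasDerivAt c (v t + s • η' t) t := fun t ht =>
        (hvd t ht).add ((hηd t ht).const_smul s)
      have hcc : ContinuousOn c (Icc a b) := fun t ht =>
        (hcd t (hsub ht)).continuousAt.continuousWithinAt
      set G : ℝ → ℝ := fun t => 1 + s * ⟪v t, η' t⟫_ℝ + s ^ 2 / 2 * ‖η' t‖ ^ 2 with hG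
      have hGc : ContinuousOn G (Ioo 0 D) :=
        (continuousOn_const.add (continuousOn_const.mul (innC hvc hη'c))).add
          (continuousOn_const.mul (hη'c.norm.pow 2))
      have hbound := S.dE_ext (c := c) (F := fun t => ∫ r in a..t, G r) hab.le hcc ?_ ?_
      · have e1 : c a = σ a := by simp [hc, hη, hΦa]
        have e2 : c b = σ b := by simp [hc, hη, hΦb]
        rw [e1, e2, S.P_of_mem (S.C_sub_B (hIC a ha)), S.P_of_mem (S.C_sub_B (hIC b hb)),
          ← S.ofReal_d (hIC a ha) (hIC b hb), h.2 a (Ioo_subset_Icc_self ha) b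
          (Ioo_subset_Icc_self hb), intervalIntegral.integral_same, sub_zero,
          abs_sub_comm, abs_of_pos (by linarith)] at hbound
        have h5 : b - a ≤ ∫ r in a..b, G r := by
          by_contra hcon
          push Not at hcon
          have := ENNReal.ofReal_lt_ofReal_iff (q := b - a) (p := ∫ r in a..b, G r) (by linarith)
          exact absurd hbound (not_le.2 (this.2 hcon))
        have h6 : ∫ r in a..b, G r = (b - a) + s * I + s ^ 2 / 2 * Q := by
          simp only [hG, hI, hQ]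
          rw [intervalIntegral.integral_add, intervalIntegral.integral_add,
            intervalIntegral.integral_const_mul, intervalIntegral.integral_const_mul,
            intervalIntegral.integral_const, smul_eq_mul, mul_one]
          · exact hintR continuousOn_const a ha b hb
          · exact hintR (continuousOn_const.mul (innC hvc hη'c)) a ha b hb
          · exact hintR (continuousOn_const.add (continuousOn_const.mul (innC hvc hη'c))) a ha b hb
          · exact hintR (continuousOn_const.mul (hη'c.norm.pow 2)) a ha b hb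
        rw [h6] at h5
        linarith
      · intro x hx y hy hxy
        have hx' := hsub hx
        have hy' := hsub hy
        have hc'c : ContinuousOn (fun t => v t + s • η' t) (Ioo 0 D) :=
          hvc.add (hη'c.const_smul s)
        have e1 : ∫ t in x..y, (v t + s • η' t) = c y - c x :=
          intervalIntegral.integral_eq_sub_of_hasDerivAt (fun t ht => hcd t (hIsub hx' hy' ht))
            (hint hc'c x hx' y hy')
        have e2 : (∫ r in a..y, G r) - ∫ r in a..x, G r = ∫ r in x..y, G r :=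
          intervalIntegral.integral_interval_sub_left (hintR hGc a ha y hy') (hintR hGc a ha x hx')
        rw [← e1]
        show _ ≤ (∫ r in a..y, G r) - ∫ r in a..x, G r
        rw [e2]
        refine (intervalIntegral.norm_integral_le_integral_norm hxy).trans ?_
        apply intervalIntegral.integral_mono_on hxy (hintR hc'c.norm x hx' y hy')
          (hintR hGc x hx' y hy')
        intro t ht
        have ht' : t ∈ Ioo 0 D := hsub ⟨hx.1.trans ht.1, ht.2.trans hy.2⟩
        have h7 : ‖v t + s • η' t‖ ^ 2 = 1 + 2 * s * ⟪v t, η' t⟫_ℝ + s ^ 2 * ‖η' t‖ ^ 2 := by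
          rw [@norm_add_sq_real, hvn t ht', inner_smul_right, norm_smul, mul_pow, Real.norm_eq_abs,
            sq_abs]
          ring
        simp only [hG]
        nlinarith [sq_nonneg (‖v t + s • η' t‖ - 1)]
      · intro t ht
        have ht' := hsub ht
        apply S.ext_of_inner (hIC t ht')
        have e1 : c t - σ t = s • η t := by simp [hc]
        rw [e1, inner_smul_right]
        have e2 : ⟪S.N (σ t), η t⟫_ℝ = 0 := by
          simp only [hη]
          rw [inner_sub_right, inner_smul_right]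
          show ⟪Nσ t, Φ t⟫_ℝ - ⟪Nσ t, Φ t⟫_ℝ * ⟪Nσ t, Nσ t⟫_ℝ = 0
          rw [real_inner_self_eq_norm_sq, hNn t ht']
          ring
        rw [e2, mul_zero]
    have hI0 : I = 0 := by
      by_contra hne
      have hQ0 : 0 ≤ Q := intervalIntegral.integral_nonneg hab.le (fun t _ => by positivity)
      have h1 := hineq (-(I / (Q + 1)))
      have h2 : -(I / (Q + 1)) * I + (-(I / (Q + 1))) ^ 2 / 2 * Q =
          - I ^ 2 * (Q + 2) / (2 * (Q + 1) ^ 2) := by
        field_simp
        ring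
      rw [h2] at h1
      have h3 : 0 < I ^ 2 * (Q + 2) / (2 * (Q + 1) ^ 2) := by positivity
      have h4 : - I ^ 2 * (Q + 2) / (2 * (Q + 1) ^ 2) = -(I ^ 2 * (Q + 2) / (2 * (Q + 1) ^ 2)) := by
        ring
      linarith
    -- compute I
    have e1 : ∀ t ∈ Ioo 0 D, ⟪v t, η' t⟫_ℝ = ⟪v t, ψ t⟫_ℝ + ⟪w t, Φ t⟫_ℝ := by
      intro t ht
      have h1 : ⟪v t, Nσ t⟫_ℝ = 0 := by rw [real_inner_comm]; exact htan t ht
      simp only [hη', hw]
      rw [inner_sub_right, inner_add_right, inner_smul_right, inner_smul_right, h1,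
        real_inner_smul_left, real_inner_comm (N' t) (v t)]
      ring
    have e2 : I = ∫ t in a..b, (⟪v t, ψ t⟫_ℝ + ⟪w t, Φ t⟫_ℝ) :=
      intervalIntegral.integral_congr fun t ht => e1 t (hIsub ha hb ht)
    have e3 : ∫ t in a..b, (⟪H t, ψ t⟫_ℝ + ⟪w t, Φ t⟫_ℝ) = 0 := by
      have := intervalIntegral.integral_eq_sub_of_hasDerivAt (a := a) (b := b)
        (f := fun t => ⟪H t, Φ t⟫_ℝ) (f' := fun t => ⟪H t, ψ t⟫_ℝ + ⟪w t, Φ t⟫_ℝ)
        (fun t ht => (hHd t (hIsub ha hb ht)).inner ℝ (hΦd t (hIsub ha hb ht)))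
        (hintR ((innC hHc hψc).add (innC hwc hΦc)) a ha b hb)
      rw [this, hΦa, hΦb, inner_zero_right, inner_zero_right, sub_zero]
    have e4 : ∫ t in a..b, ⟪m, ψ t⟫_ℝ = 0 := by
      have := intervalIntegral.integral_eq_sub_of_hasDerivAt (a := a) (b := b)
        (f := fun t => ⟪m, Φ t⟫_ℝ) (f' := fun t => ⟪m, ψ t⟫_ℝ)
        (fun t ht => by
          have := (hasDerivAt_const t m).inner ℝ (hΦd t (hIsub ha hb ht))
          simpa using this)
        (hintR (innC continuousOn_const hψc) a ha b hb)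
      rw [this, hΦa, hΦb, inner_zero_right, sub_zero]
    have e5 : ∫ t in a..b, ‖ψ t‖ ^ 2 = 0 := by
      have h1 : ∫ t in a..b, ‖ψ t‖ ^ 2 = (∫ t in a..b, (⟪v t, ψ t⟫_ℝ + ⟪w t, Φ t⟫_ℝ))
          - (∫ t in a..b, (⟪H t, ψ t⟫_ℝ + ⟪w t, Φ t⟫_ℝ)) - ∫ t in a..b, ⟪m, ψ t⟫_ℝ := by
        rw [← intervalIntegral.integral_sub, ← intervalIntegral.integral_sub]
        · apply intervalIntegral.integral_congr
          intro t ht
          simp only
          rw [← real_inner_self_eq_norm_sq]
          simp only [hψ]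
          rw [inner_sub_left, inner_sub_left]
          ring
        · exact hintR (((innC hvc hψc).add (innC hwc hΦc)).sub ((innC hHc hψc).add (innC hwc hΦc))) a ha b hb
        · exact hintR (innC continuousOn_const hψc) a ha b hb
        · exact hintR ((innC hvc hψc).add (innC hwc hΦc)) a ha b hb
        · exact hintR ((innC hHc hψc).add (innC hwc hΦc)) a ha b hb
      rw [h1, ← e2, hI0, e3, e4]; ring
    have e6 : ∀ t ∈ Icc a b, ψ t = 0 := by
      intro t ht
      by_contra hne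
      have h1 : 0 < ∫ t in a..b, ‖ψ t‖ ^ 2 := by
        apply intervalIntegral.integral_pos hab ((hψc.mono hsub).norm.pow 2)
          (fun x _ => sq_nonneg _) ⟨t, ht, pow_pos (norm_pos_iff.2 hne) 2⟩
      linarith
    refine ⟨m, fun t ht => ?_⟩
    have := e6 t ht
    simp only [hψ] at this
    rw [sub_sub, sub_eq_zero] at this
    exact this
  refine ⟨v, hvd, ?_, hvn, htan⟩
  intro t ht
  -- choose a < t < b
  obtain ⟨a, ha0, hat⟩ := exists_between ht.1
  obtain ⟨b, htb, hbD⟩ := exists_between ht.2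
  have ha : a ∈ Ioo 0 D := ⟨ha0, by linarith⟩
  have hb : b ∈ Ioo 0 D := ⟨by linarith, hbD⟩
  obtain ⟨m, hm⟩ := key a ha b hb (by linarith)
  have hIsub : uIcc a t ⊆ Ioo 0 D := OrdConnected.uIcc_subset (s := Ioo 0 D) inferInstance ha ht
  have h1 : HasDerivAt (fun t => (∫ s in a..t, w s) + m) (w t) t := by
    apply HasDerivAt.add_const
    exact intervalIntegral.integral_hasDerivAt_right ((hwc.mono hIsub).intervalIntegrable)
        (hwc.stronglyMeasurableAtFilter isOpen_Ioo t ht) (hwc.continuousAt (isOpen_Ioo.mem_nhds ht))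
  have h2 : v =ᶠ[𝓝 t] fun t => (∫ s in a..t, w s) + m := by
    filter_upwards [Icc_mem_nhds hat htb] with s hs
    exact hm s hs
  exact h1.congr_of_eventuallyEq h2

end Surf

end Pool.Agent.H864R2
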