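import Pool.Agent.H864R2.Vec
import Pool.Agent.H864R2.Reg2
import Pool.Agent.GR.Flow

set_option autoImplicit false
set_option linter.unusedVariables false

open Set Metric Filter Topology MeasureTheory
open scoped ContDiff InnerProductSpace NNReal ENNReal Manifold

namespace Pool.Agent.H864R2

/-- flow of a smooth compactly supported vector field -/
theorem flow_cpt {E : Type} [NormedAddCommGroup E] [NormedSpace ℝ E] [CompleteSpace E]
    (X : E → E) (hX : ContDiff ℝ ∞ X) (hc : HasCompactSupport X) :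
    ∃ G : ℝ → E → E, ContDiff ℝ ∞ (fun q : ℝ × E => G q.1 q.2) ∧
      (∀ p, G 0 p = p) ∧ (∀ s t p, G (s + t) p = G s (G t p)) ∧
      (∀ p t, HasDerivAt (fun t => G t p) (X (G t p)) t) := by
  obtain ⟨K, hK⟩ := hX.lipschitzWith_of_hasCompactSupport hc (by simp)
  obtain ⟨M, hM⟩ := hc.exists_bound_of_continuous hX.continuous
  have hM' : ∀ x, ‖X x‖ ≤ (Real.toNNReal M : NNReal) := fun x => (hM x).trans (Real.le_coe_toNNReal M)
  choose g h0 h1 using fun p => Pool.Agent.GR.Flow.exists_solution hK hM' p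
  have hfl : Pool.Agent.GR.Flow.IsFlowOf X (fun t p => g p t) := ⟨h0, h1⟩
  refine ⟨fun t p => g p t, ?_, h0, fun s t p => hfl.add hK s t p, h1⟩
  rw [contDiff_infty]
  intro m
  have key : ∀ m : ℕ, m ≠ 0 → ContDiff ℝ m (fun q : ℝ × E => g q.2 q.1) := by
    intro m hm
    exact Pool.Agent.GR.Flow.contDiff_flow (X := ⟨X, hX.continuous⟩) hm
      (hX.of_le (by exact_mod_cast le_top)) hK hfl
  exact (key (m + 1) (by omega)).of_le (by exact_mod_cast Nat.le_succ m)

namespace Surf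

variable (S : Surf)

/-- unit tangent bundle -/
def UC : Set (V × V) := {w | w.1 ∈ S.C ∧ ⟪S.N w.1, w.2⟫_ℝ = 0 ∧ ‖w.2‖ = 1}

lemma UC_compact : IsCompact S.UC := by
  have h1 : S.UC = (S.C ×ˢ sphere (0:V) 1) ∩ {w | ⟪S.N w.1, w.2⟫_ℝ = 0} := by
    ext w
    simp only [UC, mem_inter_iff, mem_prod, mem_sphere_zero_iff_norm]
    constructor
    · rintro ⟨a, b, c⟩; exact ⟨⟨a, c⟩, b⟩
    · rintro ⟨⟨a, c⟩, b⟩; exact ⟨a, b, c⟩
  have h2 : IsCompact (S.C ×ˢ sphere (0:V) 1) := S.C_compact.prod (isCompact_sphere _ _)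
  have h3 : ContinuousOn (fun w : V × V => ⟪S.N w.1, w.2⟫_ℝ) (S.C ×ˢ sphere (0:V) 1) := by
    have a1 : ContinuousOn (fun w : V × V => S.N w.1) (S.C ×ˢ sphere (0:V) 1) :=
      S.N_contOn.comp continuousOn_fst (fun w hw => hw.1)
    exact a1.inner continuousOn_snd
  rw [h1]
  have h4 := h3.preimage_isClosed_of_isClosed h2.isClosed (isClosed_singleton (x := (0:ℝ)))
  exact h2.of_isClosed_subset h4 inter_subset_left

lemma exists_beta : ∃ β : V × V → ℝ, ContDiff ℝ ∞ β ∧ HasCompactSupport β ∧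
    (∀ w ∈ S.UC, β w = 1) ∧ (∀ w ∈ tsupport β, S.g w.1 ≠ 0) := by
  set U : Set (V × V) := {w | S.g w.1 ≠ 0} with hU
  have hUo : IsOpen U := by
    have : Continuous fun w : V × V => S.g w.1 := S.g_cont.comp continuous_fst
    exact isOpen_ne.preimage this
  have hsub : S.UC ⊆ U := fun w hw => S.g_ne hw.1
  obtain ⟨K, hK, h1, h2⟩ := exists_compact_between S.UC_compact hUo hsub
  obtain ⟨β, b1, b2, b3⟩ := exists_contMDiffMap_one_nhds_of_subset_interior (I := 𝓘(ℝ, V × V))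
    (n := ⊤) S.UC_compact.isClosed h1
  have hs : tsupport β ⊆ K := by
    apply closure_minimal _ hK.isClosed
    intro w hw
    by_contra hn
    exact hw (b2 w hn)
  refine ⟨β, β.contMDiff.contDiff, ?_, ?_, ?_⟩
  · exact hK.of_isClosed_subset (isClosed_tsupport _) hs
  · intro w hw
    exact b1.self_of_nhdsSet _ hw
  · intro w hw
    exact h2 (hs hw)

noncomputable def β : V × V → ℝ := S.exists_beta.choose
lemma β_smooth : ContDiff ℝ ∞ S.β := S.exists_beta.choose_spec.1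
lemma β_cpt : HasCompactSupport S.β := S.exists_beta.choose_spec.2.1
lemma β_one {w : V × V} (hw : w ∈ S.UC) : S.β w = 1 := S.exists_beta.choose_spec.2.2.1 w hw
lemma β_supp {w : V × V} (hw : w ∈ tsupport S.β) : S.g w.1 ≠ 0 :=
  S.exists_beta.choose_spec.2.2.2 w hw

/-- the (cut off) geodesic vector field -/
noncomputable def X (w : V × V) : V × V := S.β w • (w.2, -(S.kn w.1 w.2) • S.N w.1)

lemma X_smooth : ContDiff ℝ ∞ S.X := by
  rw [contDiff_iff_contDiffAt]
  intro w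
  by_cases hw : w ∈ tsupport S.β
  · have hg := S.β_supp hw
    have h1 : ContDiffAt ℝ ∞ (fun w : V × V => S.N w.1) w :=
      (S.N_contDiffAt hg).comp w contDiffAt_fst
    have h2 : ContDiffAt ℝ ∞ (fun w : V × V => fderiv ℝ S.N w.1) w := by
      have : ContDiffAt ℝ ∞ (fderiv ℝ S.N) w.1 := (S.N_contDiffAt hg).fderiv_right (by simp)
      exact this.comp w contDiffAt_fst
    have h3 : ContDiffAt ℝ ∞ (fun w : V × V => S.kn w.1 w.2) w :=
      (h2.clm_apply contDiffAt_snd).inner ℝ contDiffAt_snd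
    exact S.β_smooth.contDiffAt.smul (contDiffAt_snd.prodMk (h3.neg.smul h1))
  · have h1 : S.X =ᶠ[𝓝 w] fun _ => 0 := by
      have h2 := notMem_tsupport_iff_eventuallyEq.1 hw
      filter_upwards [h2] with y hy
      unfold X
      rw [hy]; simp
    exact contDiffAt_const.congr_of_eventuallyEq h1

lemma X_cpt : HasCompactSupport S.X := by
  apply S.β_cpt.mono
  intro w hw
  simp only [Function.mem_support] at hw ⊢
  intro h
  apply hw
  unfold X
  rw [h, zero_smul]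

/-- geodesic flow -/
noncomputable def Φ : ℝ → V × V → V × V := (flow_cpt S.X S.X_smooth S.X_cpt).choose

lemma Φ_smooth : ContDiff ℝ ∞ (fun q : ℝ × (V × V) => S.Φ q.1 q.2) :=
  (flow_cpt S.X S.X_smooth S.X_cpt).choose_spec.1
lemma Φ_zero (w : V × V) : S.Φ 0 w = w := (flow_cpt S.X S.X_smooth S.X_cpt).choose_spec.2.1 w
lemma Φ_add (s t : ℝ) (w : V × V) : S.Φ (s + t) w = S.Φ s (S.Φ t w) :=
  (flow_cpt S.X S.X_smooth S.X_cpt).choose_spec.2.2.1 s t w
lemma Φ_deriv (w : V × V) (t : ℝ) : HasDerivAt (fun t => S.Φ t w) (S.X (S.Φ t w)) t :=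
  (flow_cpt S.X S.X_smooth S.X_cpt).choose_spec.2.2.2 w t

lemma Φ_cont : Continuous (fun q : ℝ × (V × V) => S.Φ q.1 q.2) := S.Φ_smooth.continuous

lemma Φ_contt (w : V × V) : Continuous (fun t => S.Φ t w) :=
  S.Φ_cont.comp (continuous_id.prodMk continuous_const)

lemma X_of_UC {w : V × V} (hw : w ∈ S.UC) : S.X w = (w.2, -(S.kn w.1 w.2) • S.N w.1) := by
  unfold X; rw [S.β_one hw, one_smul]

/-- the unit tangent bundle is invariant -/
lemma Φ_UC {w : V × V} (hw : w ∈ S.UC) (t : ℝ) : S.Φ t w ∈ S.UC := by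
  set T : Set ℝ := {t | S.Φ t w ∈ S.UC} with hT
  have hcl : IsClosed T := S.UC_compact.isClosed.preimage (S.Φ_contt w)
  have hop : IsOpen T := by
    rw [Metric.isOpen_iff]
    intro t₀ ht₀
    have h1 : ∀ᶠ t in 𝓝 t₀, S.g (S.Φ t w).1 ≠ 0 := by
      have hc : Continuous fun t => S.g (S.Φ t w).1 := S.g_cont.comp (continuous_fst.comp (S.Φ_contt w))
      exact hc.continuousAt.eventually_ne (S.g_ne ht₀.1)
    obtain ⟨ε, hε, hball⟩ := Metric.eventually_nhds_iff_ball.1 h1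
    refine ⟨ε, hε, ?_⟩
    have hx : ∀ t, HasDerivAt (fun t => (S.Φ t w).1) (S.X (S.Φ t w)).1 t := fun t =>
      (ContinuousLinearMap.fst ℝ V V).hasFDerivAt.comp_hasDerivAt t (S.Φ_deriv w t)
    have hv : ∀ t, HasDerivAt (fun t => (S.Φ t w).2) (S.X (S.Φ t w)).2 t := fun t =>
      (ContinuousLinearMap.snd ℝ V V).hasFDerivAt.comp_hasDerivAt t (S.Φ_deriv w t)
    -- ⟪N, v⟫ is constant
    have hNn : ∀ t ∈ ball t₀ ε, ⟪S.N (S.Φ t w).1, S.N (S.Φ t w).1⟫_ℝ = 1 := by
      intro t ht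
      rw [real_inner_self_eq_norm_sq]
      unfold N
      rw [norm_smul, norm_inv, norm_norm, inv_mul_cancel₀ (norm_ne_zero_iff.2 (hball t ht))]
      norm_num
    have hb : ∀ t ∈ ball t₀ ε, HasDerivAt (fun t => ⟪S.N (S.Φ t w).1, (S.Φ t w).2⟫_ℝ) 0 t := by
      intro t ht
      have hg := hball t ht
      have k0 : HasFDerivAt S.N (fderiv ℝ S.N (S.Φ t w).1) (S.Φ t w).1 :=
        ((S.N_contDiffAt hg).differentiableAt (by simp)).hasFDerivAt
      have k1 := k0.comp_hasDerivAt t (hx t)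
      simp only [Function.comp_def] at k1
      have k2 := k1.inner ℝ (hv t)
      have k3 : ⟪S.N (S.Φ t w).1, (S.X (S.Φ t w)).2⟫_ℝ
          + ⟪fderiv ℝ S.N (S.Φ t w).1 (S.X (S.Φ t w)).1, (S.Φ t w).2⟫_ℝ = 0 := by
        unfold X
        simp only [Prod.smul_fst, Prod.smul_snd]
        rw [map_smul, inner_smul_right, inner_smul_right, real_inner_smul_left, hNn t ht]
        unfold kn
        ring
      rw [k3] at k2
      exact k2
    have hpre : IsPreconnected (ball t₀ ε) := (convex_ball t₀ ε).isPreconnected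
    have hb0 : ∀ t ∈ ball t₀ ε, ⟪S.N (S.Φ t w).1, (S.Φ t w).2⟫_ℝ = 0 := by
      intro t ht
      have := isOpen_ball.is_const_of_deriv_eq_zero (f := fun t => ⟪S.N (S.Φ t w).1, (S.Φ t w).2⟫_ℝ)
        hpre (fun s hs => (hb s hs).differentiableAt.differentiableWithinAt)
        (fun s hs => (hb s hs).deriv) ht (mem_ball_self hε)
      rw [this]; exact ht₀.2.1
    have hc : ∀ t ∈ ball t₀ ε, HasDerivAt (fun t => ⟪(S.Φ t w).2, (S.Φ t w).2⟫_ℝ) 0 t := by
      intro t ht
      have k2 := (hv t).inner ℝ (hv t)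
      have k3 : ⟪(S.X (S.Φ t w)).2, (S.Φ t w).2⟫_ℝ = 0 := by
        unfold X
        simp only [Prod.smul_snd]
        rw [real_inner_smul_left, real_inner_smul_left, hb0 t ht]
        ring
      rw [k3, real_inner_comm, k3, add_zero] at k2
      exact k2
    have ha : ∀ t ∈ ball t₀ ε, HasDerivAt (fun t => S.f (S.Φ t w).1) 0 t := by
      intro t ht
      have k2 := (S.hasFDerivAt_f (S.Φ t w).1).comp_hasDerivAt t (hx t)
      have k3 : fderiv ℝ S.f (S.Φ t w).1 (S.X (S.Φ t w)).1 = 0 := by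
        rw [← S.inner_g, S.g_eq, real_inner_smul_left]
        unfold X
        simp only [Prod.smul_fst]
        rw [inner_smul_right, hb0 t ht]
        ring
      rw [k3] at k2
      exact k2
    intro t ht
    refine ⟨?_, hb0 t ht, ?_⟩
    · have := isOpen_ball.is_const_of_deriv_eq_zero (f := fun t => S.f (S.Φ t w).1)
        hpre (fun s hs => (ha s hs).differentiableAt.differentiableWithinAt)
        (fun s hs => (ha s hs).deriv) ht (mem_ball_self hε)
      show S.f (S.Φ t w).1 = 0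
      rw [this]; exact ht₀.1
    · have := isOpen_ball.is_const_of_deriv_eq_zero (f := fun t => ⟪(S.Φ t w).2, (S.Φ t w).2⟫_ℝ)
        hpre (fun s hs => (hc s hs).differentiableAt.differentiableWithinAt)
        (fun s hs => (hc s hs).deriv) ht (mem_ball_self hε)
      simp only [real_inner_self_eq_norm_sq] at this
      rw [ht₀.2.2] at this
      nlinarith [norm_nonneg (S.Φ t w).2]
  have hne : T.Nonempty := ⟨0, by
    show S.Φ 0 w ∈ S.UC
    rw [S.Φ_zero]; exact hw⟩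
  have := IsClopen.eq_univ ⟨hcl, hop⟩ hne
  have ht : t ∈ T := by rw [this]; trivial
  exact ht

lemma pos_deriv {w : V × V} (hw : w ∈ S.UC) (t : ℝ) :
    HasDerivAt (fun t => (S.Φ t w).1) (S.Φ t w).2 t := by
  have h := (ContinuousLinearMap.fst ℝ V V).hasFDerivAt.comp_hasDerivAt t (S.Φ_deriv w t)
  rw [S.X_of_UC (S.Φ_UC hw t)] at h
  exact h

lemma vel_deriv {w : V × V} (hw : w ∈ S.UC) (t : ℝ) :
    HasDerivAt (fun t => (S.Φ t w).2)
      (-(S.kn (S.Φ t w).1 (S.Φ t w).2) • S.N (S.Φ t w).1) t := by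
  have h := (ContinuousLinearMap.snd ℝ V V).hasFDerivAt.comp_hasDerivAt t (S.Φ_deriv w t)
  rw [S.X_of_UC (S.Φ_UC hw t)] at h
  exact h

lemma Φ_inv (t : ℝ) (w : V × V) : S.Φ (-t) (S.Φ t w) = w := by
  rw [← S.Φ_add, neg_add_cancel, S.Φ_zero]

lemma exists_tangent {p : V} (hp : p ∈ S.C) : ∃ v : V, (p, v) ∈ S.UC := by
  -- a unit vector orthogonal to N p
  set n := S.N p with hn
  have hn1 : ‖n‖ = 1 := S.N_norm hp
  have h2 : n 0 ^ 2 + n 1 ^ 2 + n 2 ^ 2 = 1 := by
    rw [← nsq_c, hn1]; norm_num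
  have key : ∃ u : V, cr n u ≠ 0 := by
    by_contra hcon
    push Not at hcon
    have k1 := hcon (EuclideanSpace.single 0 1)
    have k2 := hcon (EuclideanSpace.single 1 1)
    have a1 := congrArg (fun v : V => v 1) k1
    have a2 := congrArg (fun v : V => v 2) k1
    have b1 := congrArg (fun v : V => v 2) k2
    simp at a1 a2 b1
    rw [a1, a2, b1] at h2
    norm_num at h2
  obtain ⟨u, hu⟩ := key
  refine ⟨‖cr n u‖⁻¹ • cr n u, hp, ?_, ?_⟩
  · show ⟪n, _⟫_ℝ = 0
    rw [inner_smul_right, inner_cr_left, mul_zero]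
  · show ‖_‖ = 1
    rw [norm_smul, norm_inv, norm_norm, inv_mul_cancel₀ (norm_ne_zero_iff.2 hu)]

/-- shortest curves are orbits of the geodesic flow -/
lemma UMin.exists_geo {S : Surf} {D : ℝ} {σ : ℝ → V} (hD : 0 ≤ D) (h : S.UMin D σ) :
    ∃ w ∈ S.UC, ∀ t ∈ Icc 0 D, σ t = (S.Φ t w).1 := by
  rcases eq_or_lt_of_le hD with rfl | hD
  · obtain ⟨v, hv⟩ := S.exists_tangent (h.1 0 ⟨le_rfl, le_rfl⟩)
    refine ⟨(σ 0, v), hv, fun t ht => ?_⟩
    have : t = 0 := le_antisymm ht.2 ht.1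
    rw [this, S.Φ_zero]
  obtain ⟨v, h1, h2, h3, h4⟩ := h.ode
  have hUC : ∀ t ∈ Ioo 0 D, (σ t, v t) ∈ S.UC := fun t ht =>
    ⟨h.1 t (Ioo_subset_Icc_self ht), h4 t ht, h3 t ht⟩
  have ht0 : D / 2 ∈ Ioo 0 D := ⟨by linarith, by linarith⟩
  obtain ⟨K, hK⟩ := S.X_smooth.lipschitzWith_of_hasCompactSupport S.X_cpt (by simp)
  set w : V × V := S.Φ (-(D/2)) (σ (D/2), v (D/2)) with hw
  have hwUC : w ∈ S.UC := S.Φ_UC (hUC _ ht0) _
  have heq : EqOn (fun t => (σ t, v t)) (fun t => S.Φ t w) (Ioo 0 D) := by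
    refine ODE_solution_unique_of_mem_Ioo (v := fun _ => S.X) (s := fun _ => univ) (K := K)
      (t₀ := D/2) (fun t _ => hK.lipschitzOnWith) ht0 (fun t ht => ⟨?_, trivial⟩)
      (fun t ht => ⟨S.Φ_deriv w t, trivial⟩) ?_
    · rw [S.X_of_UC (hUC t ht)]
      exact (h1 t ht).prodMk (h2 t ht)
    · rw [hw, ← S.Φ_add, add_neg_cancel, S.Φ_zero]
  refine ⟨w, hwUC, ?_⟩
  have hcl : EqOn σ (fun t => (S.Φ t w).1) (closure (Ioo 0 D)) := by
    apply EqOn.of_subset_closure (s := Ioo 0 D) (t := closure (Ioo 0 D)) _ _ _ subset_closure le_rfl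
    · intro t ht
      have := heq ht
      exact congrArg Prod.fst this
    · rw [closure_Ioo hD.ne]; exact h.contOn
    · exact (continuous_fst.comp (S.Φ_contt w)).continuousOn
  rw [closure_Ioo hD.ne] at hcl
  exact hcl

lemma geo_unique {w w' : V × V} (hw : w ∈ S.UC) (hw' : w' ∈ S.UC) {a b : ℝ} (hab : a < b)
    (h : ∀ t ∈ Icc a b, (S.Φ t w).1 = (S.Φ t w').1) : w = w' := by
  have hm : (a + b) / 2 ∈ Ioo a b := ⟨by linarith, by linarith⟩
  have h1 := S.pos_deriv hw ((a + b)/2)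
  have h2 := S.pos_deriv hw' ((a + b)/2)
  have h3 : (fun t => (S.Φ t w).1) =ᶠ[𝓝 ((a + b)/2)] fun t => (S.Φ t w').1 := by
    filter_upwards [Icc_mem_nhds hm.1 hm.2] with t ht
    exact h t ht
  have h4 := (h2.congr_of_eventuallyEq h3).unique h1
  have h5 : S.Φ ((a + b)/2) w = S.Φ ((a + b)/2) w' :=
    Prod.ext (h _ (Ioo_subset_Icc_self hm)) h4.symm
  rw [← S.Φ_inv ((a+b)/2) w, h5, S.Φ_inv]

/-- geodesics are 1-Lipschitz for the intrinsic distance -/
lemma d_geo_le {w : V × V} (hw : w ∈ S.UC) (s t : ℝ) :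
    S.d (S.Φ s w).1 (S.Φ t w).1 ≤ |s - t| := by
  have key : ∀ s t : ℝ, s ≤ t → S.d (S.Φ s w).1 (S.Φ t w).1 ≤ |s - t| := by
    intro s t hst
    apply S.d_le_of_dE (abs_nonneg _)
    have h1 := S.dE_le_var (γ := fun t => (S.Φ t w).1) hst
      (continuous_fst.comp (S.Φ_contt w)).continuousOn (fun r _ => (S.Φ_UC hw r).1)
    refine h1.trans ?_
    have h2 := var_le (c := fun t => (S.Φ t w).1) (F := id) hst (fun x hx y hy hxy => ?_)
    · rw [abs_sub_comm, abs_of_nonneg (by linarith)]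
      exact h2
    · have := Convex.norm_image_sub_le_of_norm_hasDerivWithin_le (f := fun t => (S.Φ t w).1)
        (f' := fun t => (S.Φ t w).2) (s := univ) (C := 1) (x := x) (y := y)
        (fun r _ => (S.pos_deriv hw r).hasDerivWithinAt) (fun r _ => (S.Φ_UC hw r).2.2.le)
        convex_univ trivial trivial
      rwa [one_mul, Real.norm_eq_abs, abs_of_nonneg (by linarith)] at this
  rcases le_total s t with h | h
  · exact key s t h
  · rw [S.d_comm, abs_sub_comm]; exact key t s h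

end Surf

end Pool.Agent.H864R2
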