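import Pool.Agent.H864R2.Cut

set_option autoImplicit false
set_option linter.unusedVariables false

open Set Metric Filter Topology MeasureTheory
open scoped ContDiff InnerProductSpace NNReal ENNReal

namespace Pool.Agent.H864R2

/-- implicit function theorem in the plane -/
lemma implicit2 {F : ℝ × ℝ → ℝ} (hF : ContDiff ℝ ∞ F) {x y : ℝ} (h0 : F (x, y) = 0)
    (hy : fderiv ℝ F (x, y) (0, 1) ≠ 0) : ∃ ψ : ℝ → ℝ, ψ x = y ∧
      (∀ᶠ s in 𝓝 x, DifferentiableAt ℝ ψ s) ∧ ContinuousAt ψ x ∧ (∀ᶠ s in 𝓝 x, F (s, ψ s) = 0) ∧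
      (∀ᶠ v in 𝓝 (x, y), F v = 0 → ψ v.1 = v.2) := by
  have cdf : ContDiffAt ℝ ∞ F (x, y) := hF.contDiffAt
  have if₂ : (fderiv ℝ F (x, y) ∘L .inr ℝ ℝ ℝ).IsInvertible := by
    refine ⟨ContinuousLinearEquiv.smulLeft (Units.mk0 _ hy), ?_⟩
    ext
    simp
  refine ⟨cdf.implicitFunction (by simp) if₂, cdf.implicitFunction_apply_self (by simp) if₂, ?_, ?_, ?_, ?_⟩
  · have h1 := cdf.contDiffAt_implicitFunction (by simp) if₂
    have h2 := (h1.of_le (m := 1) (by exact_mod_cast le_top)).eventually (by simp)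
    filter_upwards [h2] with s hs
    exact hs.differentiableAt (by simp)
  · exact (cdf.contDiffAt_implicitFunction (by simp) if₂).continuousAt
  · have := cdf.eventually_apply_implicitFunction (by simp) if₂
    rwa [h0] at this
  · have := cdf.eventually_apply_eq_iff_implicitFunction (by simp) if₂
    filter_upwards [this] with v hv h
    exact hv.1 (by rw [h, h0])

/-- one-dimensional Sard lemma -/
lemma sard1 {f : ℝ → ℝ} {s : Set ℝ} (h : ∀ x ∈ s, HasDerivWithinAt f 0 s x) : volume (f '' s) = 0 := by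
  apply addHaar_image_eq_zero_of_det_fderivWithin_eq_zero
    (f' := fun _ => ContinuousLinearMap.toSpanSingleton ℝ (0:ℝ)) volume
  · intro x hx
    exact (h x hx).hasFDerivWithinAt
  · intro x hx
    simp

namespace Surf

variable (S : Surf)

lemma E_cont (p : V) : Continuous (fun q : ℝ × ℝ => (S.Φ q.1 (S.W p q.2)).1) :=
  continuous_fst.comp (S.Φ_cont.comp (continuous_fst.prodMk ((S.W_cont p).comp continuous_snd)))

lemma n_norm {w : V × V} (hw : w ∈ S.UC) (t : ℝ) :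
    ‖cr (S.N (S.Φ t w).1) (S.Φ t w).2‖ = 1 := (S.UC_cr (S.Φ_UC hw t)).2.2

lemma n_ne {w : V × V} (hw : w ∈ S.UC) (t : ℝ) :
    cr (S.N (S.Φ t w).1) (S.Φ t w).2 ≠ 0 := by
  rw [← norm_ne_zero_iff, S.n_norm hw]; norm_num

/-- partial derivatives of `J` -/
lemma J_pt {p : V} (hp : p ∈ S.C) (t θ : ℝ) :
    fderiv ℝ (fun q : ℝ × ℝ => S.J q.1 (S.W p q.2)) (t, θ) (1, 0) = S.J' t (S.W p θ) := by
  have h1 := pd1 ((S.J_smooth hp).differentiable (by simp)) t θ
  exact h1.unique (S.J_Jac (S.W_UC hp θ) t).1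

lemma J_swap_smooth {p : V} (hp : p ∈ S.C) : ContDiff ℝ ∞ (fun q : ℝ × ℝ => S.J q.2 (S.W p q.1)) :=
  ContDiff.comp (g := fun q : ℝ × ℝ => S.J q.1 (S.W p q.2)) (f := fun q : ℝ × ℝ => (q.2, q.1))
    (S.J_smooth hp) (contDiff_snd.prodMk contDiff_fst)

lemma J_swap_pt {p : V} (hp : p ∈ S.C) (t θ : ℝ) :
    fderiv ℝ (fun q : ℝ × ℝ => S.J q.2 (S.W p q.1)) (θ, t) (0, 1) = S.J' t (S.W p θ) := by
  have h1 := pd2 ((S.J_swap_smooth hp).differentiable (by simp)) θ t
  exact h1.unique (S.J_Jac (S.W_UC hp θ) t).1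

lemma J_swap_pθ {p : V} (hp : p ∈ S.C) (t θ : ℝ) :
    fderiv ℝ (fun q : ℝ × ℝ => S.J q.2 (S.W p q.1)) (θ, t) (1, 0) =
    fderiv ℝ (fun q : ℝ × ℝ => S.J q.1 (S.W p q.2)) (t, θ) (0, 1) := by
  have h1 := pd1 ((S.J_swap_smooth hp).differentiable (by simp)) θ t
  have h2 := pd2 ((S.J_smooth hp).differentiable (by simp)) t θ
  exact h1.unique h2

/-- derivative of a curve `t ↦ E(t, ζ t)` -/
lemma E_curve {p : V} (hp : p ∈ S.C) {a b : ℝ → ℝ} {a' b' s : ℝ} (ha : HasDerivAt a a' s)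
    (hb : HasDerivAt b b' s) : HasDerivAt (fun s => (S.Φ (a s) (S.W p (b s))).1)
      (a' • (S.Φ (a s) (S.W p (b s))).2 + (b' * S.J (a s) (S.W p (b s))) •
        cr (S.N (S.Φ (a s) (S.W p (b s))).1) (S.Φ (a s) (S.W p (b s))).2) s := by
  have hd : Differentiable ℝ (fun q : ℝ × ℝ => (S.Φ q.1 (S.W p q.2)).1) :=
    (contDiff_fst.comp (S.G_smooth (S.W_smooth p))).differentiable (by simp)
  have h1 := (hd (a s, b s)).hasFDerivAt.comp_hasDerivAt s (ha.prodMk hb)
  have e1 := (pd1 hd (a s) (b s)).unique (S.pos_deriv (S.W_UC hp (b s)) (a s))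
  have e2 := (pd2 hd (a s) (b s)).unique (S.E_θ hp (a s) (b s))
  have e3 : ((a', b') : ℝ × ℝ) = a' • (1, 0) + b' • (0, 1) := by
    ext <;> simp
  rw [e3, map_add, map_smul, map_smul, e1, e2, smul_smul] at h1
  exact h1

/-- At a conjugate endpoint of a minimising geodesic the angular derivative of `J` vanishes. -/
lemma J_θ_zero {p : V} (hp : p ∈ S.C) {r θ₀ : ℝ} (hr : 0 < r) (hM : S.Mn r (S.W p θ₀))
    (hJ : S.J r (S.W p θ₀) = 0) :
    fderiv ℝ (fun q : ℝ × ℝ => S.J q.1 (S.W p q.2)) (r, θ₀) (0, 1) = 0 := by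
  by_contra hne
  obtain ⟨ζ, z0, z1, z2, z3, -⟩ := implicit2 (S.J_smooth hp) (x := r) (y := θ₀) hJ hne
  -- derivative of ζ is nonzero
  have hd : Differentiable ℝ (fun q : ℝ × ℝ => S.J q.1 (S.W p q.2)) :=
    (S.J_smooth hp).differentiable (by simp)
  obtain ⟨ε, hε, hball⟩ := Metric.eventually_nhds_iff_ball.1
    ((z1.and z3).and (lt_mem_nhds hr))
  have hJc : ∀ s ∈ ball r ε, S.J s (S.W p (ζ s)) = 0 := fun s hs => (hball s hs).1.2
  have hζd : ∀ s ∈ ball r ε, HasDerivAt ζ (deriv ζ s) s := fun s hs =>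
    (hball s hs).1.1.hasDerivAt
  have hζ : ∀ s ∈ ball r ε, S.J' s (S.W p (ζ s)) +
      deriv ζ s * fderiv ℝ (fun q : ℝ × ℝ => S.J q.1 (S.W p q.2)) (s, ζ s) (0, 1) = 0 := by
    intro s hs
    have h1 := (hd (s, ζ s)).hasFDerivAt.comp_hasDerivAt s ((hasDerivAt_id s).prodMk (hζd s hs))
    have h2 : ((1, deriv ζ s) : ℝ × ℝ) = (1, 0) + deriv ζ s • (0, 1) := by ext <;> simp
    rw [h2, map_add, map_smul, S.J_pt hp] at h1
    have h3 : HasDerivAt (fun _ : ℝ => (0:ℝ)) 0 s := hasDerivAt_const s 0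
    have h4 := h3.congr_of_eventuallyEq (f₁ := (fun q : ℝ × ℝ => S.J q.1 (S.W p q.2)) ∘ fun s => (s, ζ s))
      (by
        filter_upwards [isOpen_ball.mem_nhds hs] with u hu
        exact hJc u hu)
    exact h1.unique h4
  have hζne : ∀ s ∈ ball r ε, deriv ζ s ≠ 0 := by
    intro s hs h0
    have h1 := hζ s hs
    rw [h0, zero_mul, add_zero] at h1
    exact S.J'_ne (S.W_UC hp (ζ s)) (hJc s hs) h1
  -- the envelope curve
  set e : ℝ → V := fun s => (S.Φ s (S.W p (ζ s))).1 with he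
  have heC : ∀ s, e s ∈ S.C := fun s => S.geo_C (S.W_UC hp _) s
  have hed : ∀ s ∈ ball r ε, HasDerivAt e (S.Φ s (S.W p (ζ s))).2 s := by
    intro s hs
    have := S.E_curve hp (hasDerivAt_id s) (hζd s hs)
    simp only [id, hJc s hs, mul_zero, zero_smul, add_zero, one_smul] at this
    exact this
  set x := (S.Φ r (S.W p θ₀)).1 with hx
  have her : e r = x := by simp only [he, z0, hx]
  have hsub : ∀ s, r - ε < s → s ≤ r → Icc s r ⊆ ball r ε := by
    intro s hs hsr u hu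
    rw [Real.ball_eq_Ioo]
    exact ⟨by linarith [hu.1], by linarith [hu.2]⟩
  have hdle : ∀ s, r - ε < s → s ≤ r → S.d (e s) (e r) ≤ r - s := by
    intro s hs hsr
    apply S.d_le_of_dE (by linarith)
    have hcont : ContinuousOn e (Icc s r) := fun u hu =>
      (hed u (hsub s hs hsr hu)).continuousAt.continuousWithinAt
    refine (S.dE_le_var hsr hcont (fun u _ => heC u)).trans ?_
    have h2 := var_le (c := e) (F := id) hsr (fun x hx y hy hxy => ?_)
    · exact h2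
    · have := Convex.norm_image_sub_le_of_norm_hasDerivWithin_le (f := e)
        (f' := fun t => (S.Φ t (S.W p (ζ t))).2) (s := Icc s r) (C := 1) (x := x) (y := y)
        (fun u hu => (hed u (hsub s hs hsr hu)).hasDerivWithinAt)
        (fun u _ => (S.Φ_UC (S.W_UC hp _) u).2.2.le)
        (convex_Icc s r) hx hy
      rwa [one_mul, Real.norm_eq_abs, abs_of_nonneg (by linarith)] at this
  have hpx : S.d p x = r := hM
  have key : ∀ s ∈ Ioo (r - ε) r, (S.Φ r (S.W p (ζ s))).1 = x := by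
    intro s hs
    have hs0 : 0 < s := (hball s (by rw [Real.ball_eq_Ioo]; exact ⟨hs.1, by linarith [hs.2]⟩)).2
    have h1 := hdle s hs.1 hs.2.le
    have h2 : S.d p (e s) ≤ s := S.d_start_le (S.W_UC hp (ζ s)) hs0.le
    have h3 := S.d_triangle hp (heC s) (heC r)
    rw [her, hpx] at h3
    rw [her] at h1
    have h4 : S.Mn s (S.W p (ζ s)) := by
      show S.d p (e s) = s
      linarith
    have h5 := S.extend_geo (S.W_UC hp (ζ s)) hs0 h4 (x := x) (her ▸ heC r)
      (by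
        show S.d p x = s + S.d (e s) x
        linarith)
    rwa [show S.d (S.W p (ζ s)).1 x = r from hpx] at h5
  -- hence J(r, ζ s) = 0
  have key2 : ∀ s ∈ Ioo (r - ε) r, S.J r (S.W p (ζ s)) = 0 := by
    intro s hs
    have hsb : s ∈ ball r ε := by rw [Real.ball_eq_Ioo]; exact ⟨hs.1, by linarith [hs.2]⟩
    have h1 := S.E_curve hp (hasDerivAt_const s r) (hζd s hsb)
    have h2 : HasDerivAt (fun _ : ℝ => x) 0 s := hasDerivAt_const s x
    have h3 := h2.congr_of_eventuallyEq (f₁ := fun s => (S.Φ r (S.W p (ζ s))).1) (by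
      filter_upwards [isOpen_Ioo.mem_nhds hs] with u hu
      exact key u hu)
    have h4 := h1.unique h3
    rw [zero_smul, zero_add] at h4
    rcases smul_eq_zero.1 h4 with h5 | h5
    · rcases mul_eq_zero.1 h5 with h6 | h6
      · exact absurd h6 (hζne s hsb)
      · exact h6
    · exact absurd h5 (S.n_ne (S.W_UC hp _) _)
  -- differentiate at r from the left
  have hrb : r ∈ ball r ε := mem_ball_self hε
  have h1 := (hd (r, ζ r)).hasFDerivAt.comp_hasDerivAt r ((hasDerivAt_const r r).prodMk (hζd r hrb))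
  have h2 : ((0, deriv ζ r) : ℝ × ℝ) = deriv ζ r • (0, 1) := by ext <;> simp
  rw [h2, map_smul] at h1
  have h3 : HasDerivWithinAt (fun _ : ℝ => (0:ℝ)) 0 (Iio r) r := hasDerivWithinAt_const r _ _
  have h4 := h3.congr_of_eventuallyEq
    (f₁ := (fun q : ℝ × ℝ => S.J q.1 (S.W p q.2)) ∘ fun s => (r, ζ s)) (by
      filter_upwards [Ioo_mem_nhdsLT (show r - ε < r by linarith)] with u hu
      exact key2 u hu) (by simp [z0, hJ])
  have h5 := (uniqueDiffWithinAt_Iio r).eq_deriv _ h1.hasDerivWithinAt h4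
  rw [smul_eq_mul] at h5
  rcases mul_eq_zero.1 h5 with h6 | h6
  · exact hζne r hrb h6
  · rw [z0] at h6; exact hne h6

end Surf

end Pool.Agent.H864R2
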