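import Pool.Agent.H864R2.Sant

set_option autoImplicit false
set_option linter.unusedVariables false

open Set Metric Filter Topology MeasureTheory
open scoped ContDiff InnerProductSpace NNReal ENNReal

namespace Pool.Agent.H864R2

lemma lint_Ioo {f : ℝ → ℝ} (hf : Continuous f) {a b : ℝ} (hab : a ≤ b)
    (h : ∀ t ∈ Ioo a b, 0 ≤ f t) :
    ∫⁻ t in Ioo a b, ENNReal.ofReal (f t) = ENNReal.ofReal (∫ t in a..b, f t) := by
  rw [intervalIntegral.integral_of_le hab, integral_Ioc_eq_integral_Ioo,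
    ofReal_integral_eq_lintegral_ofReal]
  · exact (hf.integrableOn_Icc).mono_set Ioo_subset_Icc_self
  · exact (ae_restrict_iff' measurableSet_Ioo).2 (Eventually.of_forall h)

lemma lint_Ico {f : ℝ → ℝ} (hf : Continuous f) {a b : ℝ} (hab : a ≤ b)
    (h : ∀ t ∈ Ico a b, 0 ≤ f t) :
    ∫⁻ t in Ico a b, ENNReal.ofReal (f t) = ENNReal.ofReal (∫ t in a..b, f t) := by
  rw [intervalIntegral.integral_of_le hab, integral_Ioc_eq_integral_Ioo,
    ← integral_Ico_eq_integral_Ioo, ofReal_integral_eq_lintegral_ofReal]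
  · exact (hf.integrableOn_Icc).mono_set Ico_subset_Icc_self
  · exact (ae_restrict_iff' measurableSet_Ico).2 (Eventually.of_forall h)

lemma abs_sin_int (α : ℝ) : ∫ θ in (0:ℝ)..(2 * Real.pi), |Real.sin (α - θ)| = 4 := by
  have hpi := Real.pi_pos
  rw [intervalIntegral.integral_comp_sub_left (fun u => |Real.sin u|) α]
  have hper : Function.Periodic (fun u => |Real.sin u|) (2 * Real.pi) := by
    intro u; simp only [Real.sin_add_two_pi]
  have h1 := hper.intervalIntegral_add_eq (α - 2 * Real.pi) 0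
  rw [sub_add_cancel, zero_add] at h1
  rw [sub_zero, h1]
  have hint : ∀ a b : ℝ, IntervalIntegrable (fun u => |Real.sin u|) volume a b := fun a b =>
    (Real.continuous_sin.abs).intervalIntegrable a b
  rw [← intervalIntegral.integral_add_adjacent_intervals (hint 0 Real.pi) (hint Real.pi (2 * Real.pi))]
  have h2 : ∫ u in (0:ℝ)..Real.pi, |Real.sin u| = 2 := by
    rw [show ∫ u in (0:ℝ)..Real.pi, |Real.sin u| = ∫ u in (0:ℝ)..Real.pi, Real.sin u from
      intervalIntegral.integral_congr (fun u hu => by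
        rw [uIcc_of_le hpi.le] at hu
        exact abs_of_nonneg (Real.sin_nonneg_of_mem_Icc hu)), integral_sin, Real.cos_zero, Real.cos_pi]
    norm_num
  have h3 : ∫ u in Real.pi..(2 * Real.pi), |Real.sin u| = 2 := by
    rw [show ∫ u in Real.pi..(2 * Real.pi), |Real.sin u| = ∫ u in Real.pi..(2 * Real.pi), -Real.sin u from
      intervalIntegral.integral_congr (fun u hu => by
        rw [uIcc_of_le (by linarith)] at hu
        apply abs_of_nonpos
        have := Real.sin_nonneg_of_mem_Icc (x := u - Real.pi) ⟨by linarith [hu.1], by linarith [hu.2]⟩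
        rw [Real.sin_sub_pi] at this
        linarith), intervalIntegral.integral_neg, integral_sin, Real.cos_pi, Real.cos_two_pi]
    norm_num
  rw [h2, h3]; norm_num

namespace Surf

variable (S : Surf)

lemma K_meas : Measurable S.K := by
  have hN := S.N_meas
  have hA : Measurable (fderiv ℝ S.N) := measurable_fderiv ℝ S.N
  have h1 : ∀ v : V, Measurable (fun x => fderiv ℝ S.N x v) := fun v => measurable_fderiv_apply_const ℝ S.N v
  have hc : ∀ i : Fin 3, Measurable (fun x => S.N x i) := fun i =>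
    (EuclideanSpace.proj (𝕜 := ℝ) i).continuous.measurable.comp hN
  have hcr : ∀ {a b : V → V}, Measurable a → Measurable b → Measurable (fun x => cr (a x) (b x)) := by
    intro a b ha hb
    have : Continuous (fun q : V × V => cr q.1 q.2) := by
      rw [← continuousOn_univ]
      exact continuousOn_cr continuousOn_fst continuousOn_snd
    exact this.measurable.comp (ha.prodMk hb)
  unfold K Kc
  exact (((hc 0).mul (hN.inner (hcr (h1 _) (h1 _)))).add
    ((hc 1).mul (hN.inner (hcr (h1 _) (h1 _))))).add ((hc 2).mul (hN.inner (hcr (h1 _) (h1 _))))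

lemma ν_C (hP : S.PropM) : ∀ᵐ x ∂S.ν, x ∈ S.C := by
  obtain ⟨p, hp⟩ := S.C_nonempty
  have hm : MeasurableSet S.C := S.C_closed.measurableSet
  have h1 := S.polar hP hp (G := (S.Cᶜ).indicator 1) (measurable_one.indicator hm.compl)
  rw [lintegral_indicator_one hm.compl] at h1
  rw [ae_iff]
  show S.ν S.Cᶜ = 0
  rw [h1]
  have h2 : ∀ θ t : ℝ, (S.Cᶜ).indicator (1 : V → ℝ≥0∞) (S.Φ t (S.W p θ)).1 = 0 := by
    intro θ t
    apply indicator_of_notMem
    intro h; exact h (S.geo_C (S.W_UC hp θ) t)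
  simp only [h2, zero_mul, lintegral_zero]

lemma total_K (hP : S.PropM) : ∫⁻ x, ENNReal.ofReal (S.K x) ∂S.ν = ENNReal.ofReal (4 * Real.pi) := by
  obtain ⟨p, hp⟩ := S.C_nonempty
  rw [S.polar hP hp S.K_meas.ennreal_ofReal]
  have h1 : ∀ θ : ℝ, ∫⁻ t in Ioo 0 S.L, ENNReal.ofReal (S.K (S.Φ t (S.W p θ)).1) *
      ENNReal.ofReal (S.J t (S.W p θ)) = ENNReal.ofReal 2 := by
    intro θ
    have hw := S.W_UC hp θ
    have hc : Continuous (fun t => S.K (S.Φ t (S.W p θ)).1 * S.J t (S.W p θ)) :=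
      (S.K_cont_geo hw).mul (S.J_cont_t hw)
    rw [← S.KJ_int hP hw, ← lint_Ioo hc S.L_pos.le
      (fun t ht => mul_nonneg (S.K_nonneg (S.geo_C hw t)) (S.J_pos' hP hw ht.1 ht.2).le)]
    apply lintegral_congr
    intro t
    rw [← ENNReal.ofReal_mul (S.K_nonneg (S.geo_C hw t))]
  simp only [h1]
  rw [setLIntegral_const, Real.volume_Ico, ← ENNReal.ofReal_mul (by norm_num)]
  congr 1; ring

/-- Berger kernel -/
noncomputable def κ₁ (q : ℝ × (V × V)) : ℝ≥0∞ :=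
  ENNReal.ofReal (Real.sin (S.kk * q.1) ^ 2 / S.J q.1 q.2)

lemma Dom_sub : S.Dom ⊆ univ ×ˢ S.UC := fun q hq => ⟨trivial, hq.2⟩

lemma κ₁_meas (hP : S.PropM) : Measurable (S.ker S.κ₁) := by
  apply S.ker_meas' hP
  apply ENNReal.continuous_ofReal.comp_continuousOn
  apply ContinuousOn.div _ (S.J_contOn.mono S.Dom_sub)
    (fun q hq => (S.J_pos' hP hq.2 hq.1.1 hq.1.2).ne')
  exact (Continuous.continuousOn (by fun_prop))

lemma κ₁_symm (hP : S.PropM) (x y : V) : S.ker S.κ₁ (x, y) = S.ker S.κ₁ (y, x) := by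
  apply S.ker_symm hP
  intro t ht w hw
  unfold κ₁
  simp only [← S.J_symm hw]

lemma κ₁_mul (hP : S.PropM) {w : V × V} (hw : w ∈ S.UC) {t : ℝ} (ht : t ∈ Ioo 0 S.L) :
    S.κ₁ (t, w) * ENNReal.ofReal (S.J t w) = ENNReal.ofReal (Real.sin (S.kk * t) ^ 2) := by
  have hJ := S.J_pos' hP hw ht.1 ht.2
  unfold κ₁
  simp only []
  rw [← ENNReal.ofReal_mul (by positivity), div_mul_cancel₀ _ hJ.ne']

lemma sinsq_cont : Continuous (fun t => Real.sin (S.kk * t) ^ 2) := by fun_prop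

lemma berger_p (hP : S.PropM) {p : V} (hp : p ∈ S.C) :
    ∫⁻ x, ENNReal.ofReal (S.K x) * S.ker S.κ₁ (p, x) ∂S.ν = ∫⁻ θ in Ico 0 (2 * Real.pi),
      ENNReal.ofReal (∫ t in (0:ℝ)..S.L, S.K (S.Φ t (S.W p θ)).1 * Real.sin (S.kk * t) ^ 2) := by
  rw [S.ker_polar hP hp (S.κ₁_meas hP) _ S.K_meas.ennreal_ofReal]
  apply lintegral_congr
  intro θ
  have hw := S.W_UC hp θ
  have hc : Continuous (fun t => S.K (S.Φ t (S.W p θ)).1 * Real.sin (S.kk * t) ^ 2) :=
    (S.K_cont_geo hw).mul S.sinsq_cont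
  rw [← lint_Ioo hc S.L_pos.le
    (fun t ht => mul_nonneg (S.K_nonneg (S.geo_C hw t)) (sq_nonneg _))]
  apply setLIntegral_congr_fun measurableSet_Ioo
  intro t ht
  simp only []
  rw [mul_assoc, S.κ₁_mul hP hw ht, ← ENNReal.ofReal_mul (S.K_nonneg (S.geo_C hw t))]

lemma sinsq_int : ∫ t in (0:ℝ)..S.L, Real.sin (S.kk * t) ^ 2 = S.L / 2 := by
  have hk := S.kk_pos
  have dlin : ∀ t, HasDerivAt (fun t : ℝ => S.kk * t) S.kk t := fun t => by
    simpa using (hasDerivAt_id t).const_mul S.kk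
  have h1 : ∀ t ∈ uIcc 0 S.L, HasDerivAt (fun t => t / 2 - 1 / (4 * S.kk) * Real.sin (2 * (S.kk * t)))
      (Real.sin (S.kk * t) ^ 2) t := by
    intro t _
    have h3 := (((dlin t).const_mul 2).sin).const_mul (1 / (4 * S.kk))
    refine (((hasDerivAt_id t).div_const 2).fun_sub h3).congr_deriv ?_
    rw [Real.cos_two_mul, Real.cos_sq']
    field_simp
    ring
  rw [intervalIntegral.integral_eq_sub_of_hasDerivAt h1 (S.sinsq_cont.intervalIntegrable _ _)]
  have : 2 * (S.kk * S.L) = 2 * Real.pi := by rw [S.kk_L]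
  rw [this]; simp

lemma sin_p (hP : S.PropM) {p : V} (hp : p ∈ S.C) :
    ∫⁻ x, S.ker S.κ₁ (p, x) ∂S.ν = ENNReal.ofReal (Real.pi * S.L) := by
  have h0 := S.ker_polar hP hp (S.κ₁_meas hP) (fun _ => 1) measurable_const
  simp only [one_mul] at h0
  rw [h0]
  have h1 : ∀ θ : ℝ, ∫⁻ t in Ioo 0 S.L, S.κ₁ (t, S.W p θ) * ENNReal.ofReal (S.J t (S.W p θ)) =
      ENNReal.ofReal (S.L / 2) := by
    intro θ
    have hw := S.W_UC hp θ
    rw [← S.sinsq_int, ← lint_Ioo S.sinsq_cont S.L_pos.le (fun t ht => sq_nonneg _)]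
    apply setLIntegral_congr_fun measurableSet_Ioo
    intro t ht
    exact S.κ₁_mul hP hw ht
  simp only [h1]
  rw [setLIntegral_const, Real.volume_Ico, ← ENNReal.ofReal_mul (by linarith [S.L_pos])]
  congr 1; ring

instance ν_sfinite : SFinite S.ν := by
  unfold ν; infer_instance

lemma berger_swap (hP : S.PropM) :
    ∫⁻ p, ∫⁻ x, ENNReal.ofReal (S.K x) * S.ker S.κ₁ (p, x) ∂S.ν ∂S.ν =
      ENNReal.ofReal (4 * Real.pi) * ENNReal.ofReal (Real.pi * S.L) := by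
  have hm : Measurable (Function.uncurry fun p x => ENNReal.ofReal (S.K x) * S.ker S.κ₁ (p, x)) :=
    (S.K_meas.ennreal_ofReal.comp measurable_snd).mul (S.κ₁_meas hP)
  rw [lintegral_lintegral_swap hm.aemeasurable, ← S.total_K hP,
    ← lintegral_mul_const _ S.K_meas.ennreal_ofReal]
  apply lintegral_congr_ae
  filter_upwards [S.ν_C hP] with x hx
  have hmx : Measurable (fun p => S.ker S.κ₁ (p, x)) := (S.κ₁_meas hP).comp measurable_prodMk_right
  rw [lintegral_const_mul _ hmx]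
  congr 1
  rw [← S.sin_p hP hx]
  apply lintegral_congr
  intro p
  exact S.κ₁_symm hP p x

/-! ### upper bound for the area -/

/-- normal at the foot -/
noncomputable def κn (q : ℝ × (V × V)) : V := cr (S.N q.2.1) q.2.2
noncomputable def κ₀ (q : ℝ × (V × V)) : ℝ≥0∞ := ENNReal.ofReal (1 / S.J q.1 q.2)

lemma κn_meas (hP : S.PropM) : Measurable (S.ker S.κn) := by
  apply S.ker_meas' hP
  apply continuousOn_cr
  · exact S.N_contOn.comp (continuous_fst.comp continuous_snd).continuousOn (fun q hq => hq.2.1)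
  · exact (continuous_snd.comp continuous_snd).continuousOn

lemma κ₀_meas (hP : S.PropM) : Measurable (S.ker S.κ₀) := by
  apply S.ker_meas' hP
  apply ENNReal.continuous_ofReal.comp_continuousOn
  exact ContinuousOn.div continuousOn_const (S.J_contOn.mono S.Dom_sub)
    (fun q hq => (S.J_pos' hP hq.2 hq.1.1 hq.1.2).ne')

/-- the crossing kernel -/
noncomputable def κ₂ (w₀ : V × V) (s : ℝ) (x : V) : ℝ≥0∞ :=
  ENNReal.ofReal |⟪(S.Φ s w₀).2, S.ker S.κn ((S.Φ s w₀).1, x)⟫_ℝ| * S.ker S.κ₀ ((S.Φ s w₀).1, x)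

lemma κ₂_meas (hP : S.PropM) (w₀ : V × V) : Measurable (Function.uncurry (S.κ₂ w₀)) := by
  have h1 : Measurable (fun q : ℝ × V => (((S.Φ q.1 w₀).1, q.2) : V × V)) :=
    ((continuous_fst.comp ((S.Φ_contt w₀).comp continuous_fst)).prodMk continuous_snd).measurable
  have h2 : Measurable (fun q : ℝ × V => (S.Φ q.1 w₀).2) :=
    (continuous_snd.comp ((S.Φ_contt w₀).comp continuous_fst)).measurable
  have h3 := (S.κn_meas hP).comp h1
  have h4 := (S.κ₀_meas hP).comp h1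
  have h5' : Measurable (fun q : ℝ × V => ⟪(S.Φ q.1 w₀).2, S.ker S.κn ((S.Φ q.1 w₀).1, q.2)⟫_ℝ) :=
    h2.inner h3
  have h5 : Measurable (fun q : ℝ × V => |⟪(S.Φ q.1 w₀).2, S.ker S.κn ((S.Φ q.1 w₀).1, q.2)⟫_ℝ|) :=
    continuous_abs.measurable.comp h5'
  exact h5.ennreal_ofReal.mul h4

lemma inner_W {p : V} (hp : p ∈ S.C) (α θ : ℝ) :
    ⟪(S.W p α).2, cr (S.N p) (S.W p θ).2⟫_ℝ = Real.sin (α - θ) := by
  rw [S.cr_W hp]
  have h1 := S.dir_mem hp
  have h2 := S.UC_cr h1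
  have h3 : ⟪S.dir p, cr (S.N p) (S.dir p)⟫_ℝ = 0 := inner_cr_right _ _
  have e1 : ‖S.dir p‖ = 1 := h1.2.2
  have e2 : ‖cr (S.N p) (S.dir p)‖ = 1 := h2.2.2
  unfold W
  simp only [inner_add_left, inner_add_right, inner_smul_right, real_inner_smul_left]
  rw [real_inner_comm (S.dir p) (cr (S.N p) (S.dir p)), h3, real_inner_self_eq_norm_sq,
        real_inner_self_eq_norm_sq, e1, e2, Real.sin_sub]
  ring

lemma κ₂_at (hP : S.PropM) {w₀ w' : V × V} {s t : ℝ} (hw' : w' ∈ S.UC) (h : w'.1 = (S.Φ s w₀).1)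
    (ht : t ∈ Ioo 0 S.L) : S.κ₂ w₀ s (S.Φ t w').1 =
      ENNReal.ofReal |⟪(S.Φ s w₀).2, cr (S.N w'.1) w'.2⟫_ℝ| * ENNReal.ofReal (1 / S.J t w') := by
  unfold κ₂
  rw [← h, S.ker_apply hP S.κn ht hw', S.ker_apply hP S.κ₀ ht hw']
  unfold κn κ₀
  simp only []

lemma κ₂_x (hP : S.PropM) {w₀ : V × V} (hw₀ : w₀ ∈ S.UC) (s : ℝ) :
    ∫⁻ x, S.κ₂ w₀ s x ∂S.ν = ENNReal.ofReal (4 * S.L) := by
  have hwU : S.Φ s w₀ ∈ S.UC := S.Φ_UC hw₀ s
  have hp := hwU.1
  have hm0 : Measurable (fun x : V => Function.uncurry (S.κ₂ w₀) (s, x)) :=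
    (S.κ₂_meas hP w₀).comp (measurable_prodMk_left (x := s))
  simp only [Function.uncurry_apply_pair] at hm0
  have hm : Measurable (S.κ₂ w₀ s) := hm0
  rw [S.polar hP hp hm]
  obtain ⟨α, -, hα⟩ := S.exists_W (p := (S.Φ s w₀).1) (v := (S.Φ s w₀).2) hwU
  have hα2 : (S.W (S.Φ s w₀).1 α).2 = (S.Φ s w₀).2 := by rw [hα]
  have h1 : ∀ θ : ℝ, ∫⁻ t in Ioo 0 S.L, S.κ₂ w₀ s (S.Φ t (S.W (S.Φ s w₀).1 θ)).1 *
      ENNReal.ofReal (S.J t (S.W (S.Φ s w₀).1 θ)) =
      ENNReal.ofReal |Real.sin (α - θ)| * ENNReal.ofReal S.L := by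
    intro θ
    have hWU := S.W_UC hp θ
    have h2 : ∀ t ∈ Ioo 0 S.L, S.κ₂ w₀ s (S.Φ t (S.W (S.Φ s w₀).1 θ)).1 *
        ENNReal.ofReal (S.J t (S.W (S.Φ s w₀).1 θ)) = ENNReal.ofReal |Real.sin (α - θ)| := by
      intro t ht
      have hJ := S.J_pos' hP hWU ht.1 ht.2
      rw [S.κ₂_at hP hWU (S.W_fst _ _) ht, S.W_fst, ← S.inner_W hp α θ, hα2,
        mul_assoc, ← ENNReal.ofReal_mul (by positivity), one_div, inv_mul_cancel₀ hJ.ne',
        ENNReal.ofReal_one, mul_one]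
    rw [setLIntegral_congr_fun measurableSet_Ioo h2, setLIntegral_const, Real.volume_Ioo, sub_zero]
  simp only [h1]
  have hc : Continuous (fun θ => |Real.sin (α - θ)|) := by fun_prop
  rw [lintegral_mul_const _ hc.measurable.ennreal_ofReal,
    lint_Ico hc (by positivity) (fun θ _ => abs_nonneg _), abs_sin_int,
    ← ENNReal.ofReal_mul (by norm_num)]

/-- a closed geodesic is a null set -/
lemma geo_null (hP : S.PropM) {w₀ : V × V} (hw₀ : w₀ ∈ S.UC) :
    ∀ᵐ x ∂S.ν, ∀ s, (S.Φ s w₀).1 ≠ x := by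
  set c : ℝ → V := fun s => (S.Φ s w₀).1 with hc
  have hcc : Continuous c := continuous_fst.comp (S.Φ_contt w₀)
  have hper : Function.Periodic c (2 * S.L) := by
    intro s; simp only [hc, S.Φ_add, S.Φ_2L hP hw₀]
  set R : Set V := c '' Icc (-S.L) (-S.L + 2 * S.L) with hR
  have hL := S.L_pos
  have hmem : ∀ s, c s ∈ R := by
    intro s
    obtain ⟨y, hy, h⟩ := hper.exists_mem_Ioc (by linarith) s (-S.L)
    exact ⟨y, Ioc_subset_Icc_self hy, h.symm⟩
  have hRm : MeasurableSet R := (isCompact_Icc.image hcc).measurableSet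
  have hp := hw₀.1
  have hν : S.ν R = 0 := by
    have h1 := S.polar hP hp (G := R.indicator 1) (measurable_one.indicator hRm)
    rw [lintegral_indicator_one hRm] at h1
    rw [h1]
    -- zero for all but two directions
    obtain ⟨θ₁, hθ₁, e₁⟩ := S.exists_W (p := w₀.1) (v := w₀.2) hw₀
    obtain ⟨θ₂, hθ₂, e₂⟩ := S.exists_W (p := w₀.1) (v := (fl w₀).2) (S.fl_UC hw₀)
    have e₁' : S.W w₀.1 θ₁ = w₀ := e₁
    have e₂' : S.W w₀.1 θ₂ = fl w₀ := e₂
    have h2 : ∀ᵐ θ ∂(volume.restrict (Ico 0 (2 * Real.pi))), θ ≠ θ₁ ∧ θ ≠ θ₂ := by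
      apply ae_restrict_of_ae
      have a1 : ∀ᵐ θ ∂(volume : Measure ℝ), θ ≠ θ₁ := by
        rw [ae_iff]; simp
      have a2 : ∀ᵐ θ ∂(volume : Measure ℝ), θ ≠ θ₂ := by
        rw [ae_iff]; simp
      exact a1.and a2
    rw [← lintegral_zero (μ := volume.restrict (Ico 0 (2 * Real.pi)))]
    apply lintegral_congr_ae
    filter_upwards [h2, ae_restrict_mem measurableSet_Ico] with θ hθ hθI
    rw [← lintegral_zero (μ := volume.restrict (Ioo 0 S.L))]
    apply setLIntegral_congr_fun measurableSet_Ioo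
    intro t ht
    have hWU := S.W_UC hp θ
    have hdt : S.d w₀.1 (S.Φ t (S.W w₀.1 θ)).1 = t := S.d_L hP hWU ht.1.le ht.2.le
    have hni : (S.Φ t (S.W w₀.1 θ)).1 ∉ R := by
      rintro ⟨y, hy, hE⟩
      have hE' : (S.Φ y w₀).1 = (S.Φ t (S.W w₀.1 θ)).1 := hE
      have hy1 : -S.L ≤ y := hy.1
      have hy2 : y ≤ S.L := by linarith [hy.2]
      rcases le_total 0 y with h0 | h0
      · have hdy := S.d_L hP hw₀ h0 hy2
        rw [hE', hdt] at hdy
        subst hdy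
        have := S.geo_inj' hP hw₀ hWU rfl ht.1 ht.2 hE'
        exact hθ.1 (S.W_injOn hp hθI hθ₁ (by rw [← this, e₁']))
      · have hE2 : (S.Φ (-y) (fl w₀)).1 = (S.Φ t (S.W w₀.1 θ)).1 := by
          rw [S.Φ_fl hw₀, neg_neg]; exact hE'
        have hdy := S.d_L hP (S.fl_UC hw₀) (t := -y) (by linarith) (by linarith)
        have hfl1 : (fl w₀).1 = w₀.1 := rfl
        rw [hfl1, hE2, hdt] at hdy
        rw [← hdy] at hE2
        have := S.geo_inj' hP (S.fl_UC hw₀) hWU rfl ht.1 ht.2 hE2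
        exact hθ.2 (S.W_injOn hp hθI hθ₂ (by rw [← this, e₂']))
    simp only [indicator_of_notMem hni, zero_mul]
  have h3 : ∀ᵐ x ∂S.ν, x ∉ R := by
    rw [ae_iff]; simp only [not_not]; exact hν
  filter_upwards [h3] with x hx s hs
  exact hx (hs ▸ hmem s)

lemma κ₂_s (hP : S.PropM) {w₀ : V × V} (hw₀ : w₀ ∈ S.UC) {x : V} (hx : x ∈ S.C)
    (hxc : ∀ s, (S.Φ s w₀).1 ≠ x) :
    ENNReal.ofReal Real.pi ≤ ∫⁻ s in Ioo 0 S.L, S.κ₂ w₀ s x := by
  obtain ⟨w, t, a, hw, hw1, ht, hend, hac, ha, hint⟩ := S.swept hP hw₀ hx hxc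
  have h1 : ∀ s, S.κ₂ w₀ s x = ENNReal.ofReal |a s| := by
    intro s
    have hJ := S.J_pos' hP (hw s) (ht s).1 (ht s).2
    have hU := S.fl_UC (S.Φ_UC (hw s) (t s))
    have e0 := S.κ₂_at hP (w₀ := w₀) (s := s) hU (hend s) (ht s)
    rw [S.fl_Φ_Φ (hw s), ← S.J_symm (hw s)] at e0
    have e5 : (fl (w s)).1 = x := hw1 s
    have e3 : (fl (S.Φ (t s) (w s))).1 = (S.Φ (t s) (w s)).1 := rfl
    have e4 : (fl (S.Φ (t s) (w s))).2 = -(S.Φ (t s) (w s)).2 := rfl
    rw [e5, e3, e4, cr_neg_right, inner_neg_right, abs_neg] at e0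
    rw [e0, ← ENNReal.ofReal_mul (abs_nonneg _), ha s, abs_div, abs_of_pos hJ, real_inner_comm,
      mul_one_div]
  simp only [h1]
  rw [lint_Ioo hac.abs S.L_pos.le (fun t _ => abs_nonneg _)]
  exact ENNReal.ofReal_le_ofReal hint

lemma area_le (hP : S.PropM) : ENNReal.ofReal Real.pi * S.ν univ ≤ ENNReal.ofReal (4 * S.L ^ 2) := by
  obtain ⟨p, hp⟩ := S.C_nonempty
  have hw₀ := S.dir_mem hp
  set w₀ : V × V := (p, S.dir p)
  have h1 : ENNReal.ofReal Real.pi * S.ν univ ≤ ∫⁻ x, (∫⁻ s in Ioo 0 S.L, S.κ₂ w₀ s x) ∂S.ν := by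
    rw [← lintegral_const]
    apply lintegral_mono_ae
    filter_upwards [S.ν_C hP, S.geo_null hP hw₀] with x hx hxc
    exact S.κ₂_s hP hw₀ hx hxc
  refine h1.trans (le_of_eq ?_)
  rw [← lintegral_lintegral_swap (S.κ₂_meas hP w₀).aemeasurable]
  simp only [S.κ₂_x hP hw₀]
  rw [setLIntegral_const, Real.volume_Ioo, ← ENNReal.ofReal_mul (by linarith [S.L_pos])]
  congr 1; ring

end Surf

end Pool.Agent.H864R2
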