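import Pool.Agent.H864R2.Flow

set_option autoImplicit false
set_option linter.unusedVariables false

open Set Metric Filter Topology MeasureTheory
open scoped ContDiff InnerProductSpace NNReal ENNReal

namespace Pool.Agent.H864R2

section PD
variable {E : Type*} [NormedAddCommGroup E] [NormedSpace ℝ E]

lemma pd1 {F : ℝ × ℝ → E} (hF : Differentiable ℝ F) (t s : ℝ) :
    HasDerivAt (fun t => F (t, s)) (fderiv ℝ F (t, s) (1, 0)) t := by
  have h := (hF (t, s)).hasFDerivAt.comp_hasDerivAt t ((hasDerivAt_id t).prodMk (hasDerivAt_const t s))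
  exact h

lemma pd2 {F : ℝ × ℝ → E} (hF : Differentiable ℝ F) (t s : ℝ) :
    HasDerivAt (fun s => F (t, s)) (fderiv ℝ F (t, s) (0, 1)) s := by
  have h := (hF (t, s)).hasFDerivAt.comp_hasDerivAt s ((hasDerivAt_const s t).prodMk (hasDerivAt_id s))
  exact h

lemma mixed {F : ℝ × ℝ → E} (hF : ContDiff ℝ ∞ F) (t s : ℝ) :
    HasDerivAt (fun t => fderiv ℝ F (t, s) (0, 1)) (fderiv ℝ (fderiv ℝ F) (t, s) (1, 0) (0, 1)) t ∧
    HasDerivAt (fun s => fderiv ℝ F (t, s) (1, 0)) (fderiv ℝ (fderiv ℝ F) (t, s) (1, 0) (0, 1)) s := by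
  have h1 : Differentiable ℝ (fderiv ℝ F) :=
    (hF.fderiv_right (m := ∞) (by simp)).differentiable (by simp)
  have hs : IsSymmSndFDerivAt ℝ F (t, s) := hF.contDiffAt.isSymmSndFDerivAt (by
    rw [minSmoothness_of_isRCLikeNormedField]; exact WithTop.coe_le_coe.2 (le_top (a := (2:ℕ∞))))
  constructor
  · have h2 := pd1 h1 t s
    exact (ContinuousLinearMap.apply ℝ E ((0, 1) : ℝ × ℝ)).hasFDerivAt.comp_hasDerivAt t h2
  · have h2 := pd2 h1 t s
    have h3 := (ContinuousLinearMap.apply ℝ E ((1, 0) : ℝ × ℝ)).hasFDerivAt.comp_hasDerivAt s h2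
    rw [hs (1, 0) (0, 1)]
    exact h3

end PD

/-- Gauss–Kronecker curvature of a linear map in the plane normal to `n` -/
noncomputable def Kc (n : V) (A : V →L[ℝ] V) : ℝ :=
  n 0 * ⟪n, cr (A (EuclideanSpace.single 1 1)) (A (EuclideanSpace.single 2 1))⟫_ℝ
  + n 1 * ⟪n, cr (A (EuclideanSpace.single 2 1)) (A (EuclideanSpace.single 0 1))⟫_ℝ
  + n 2 * ⟪n, cr (A (EuclideanSpace.single 0 1)) (A (EuclideanSpace.single 1 1))⟫_ℝ

lemma basis_exp (a : V) : a = a 0 • (EuclideanSpace.single 0 1 : V) + a 1 • (EuclideanSpace.single 1 1 : V)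
    + a 2 • (EuclideanSpace.single 2 1 : V) := by
  apply ext3 <;> simp

lemma Kc_eq {a b : V} (A : V →L[ℝ] V) :
    Kc (cr a b) A = ⟪cr a b, cr (A a) (A b)⟫_ℝ := by
  have ha : A a = a 0 • A (EuclideanSpace.single 0 1) + a 1 • A (EuclideanSpace.single 1 1)
      + a 2 • A (EuclideanSpace.single 2 1) := by
    conv_lhs => rw [basis_exp a]
    simp only [map_add, map_smul]
  have hb : A b = b 0 • A (EuclideanSpace.single 0 1) + b 1 • A (EuclideanSpace.single 1 1)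
      + b 2 • A (EuclideanSpace.single 2 1) := by
    conv_lhs => rw [basis_exp b]
    simp only [map_add, map_smul]
  rw [ha, hb]
  generalize hx : A (EuclideanSpace.single 0 1) = x
  generalize hy : A (EuclideanSpace.single 1 1) = y
  generalize hz : A (EuclideanSpace.single 2 1) = z
  have key : cr (a 0 • x + a 1 • y + a 2 • z) (b 0 • x + b 1 • y + b 2 • z)
      = (cr a b 0) • cr y z + (cr a b 1) • cr z x + (cr a b 2) • cr x y := by
    apply ext3 <;> simp <;> ring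
  unfold Kc
  rw [hx, hy, hz, key, inner_add_right, inner_add_right, inner_smul_right, inner_smul_right,
    inner_smul_right]

namespace Surf

variable (S : Surf)

/-- Gauss curvature -/
noncomputable def K (x : V) : ℝ := Kc (S.N x) (fderiv ℝ S.N x)

lemma K_contOn : ContinuousOn S.K S.C := by
  intro x hx
  apply ContinuousAt.continuousWithinAt
  have hN : ContinuousAt S.N x := (S.N_contDiffAt (S.g_ne hx)).continuousAt
  have hA : ContinuousAt (fderiv ℝ S.N) x := S.DN_contAt hx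
  have hc : ∀ i : Fin 3, ContinuousAt (fun x => S.N x i) x := fun i =>
    (EuclideanSpace.proj (𝕜 := ℝ) i).continuous.continuousAt.comp hN
  have hb : ∀ i j : Fin 3, ContinuousAt (fun x => ⟪S.N x, cr (fderiv ℝ S.N x (EuclideanSpace.single i 1))
      (fderiv ℝ S.N x (EuclideanSpace.single j 1))⟫_ℝ) x := by
    intro i j
    have h1 : ∀ i : Fin 3, ContinuousAt (fun x => fderiv ℝ S.N x (EuclideanSpace.single i 1 : V)) x :=
      fun i => hA.clm_apply continuousAt_const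
    exact hN.inner ((crL.continuous.continuousAt.comp (h1 i)).clm_apply (h1 j))
  unfold K Kc
  exact (((hc 0).mul (hb 1 2)).add ((hc 1).mul (hb 2 0))).add ((hc 2).mul (hb 0 1))

lemma UC_inner {w : V × V} (hw : w ∈ S.UC) : ⟪S.N w.1, w.2⟫_ℝ = 0 := hw.2.1

/-- the frame `(T, n, N)` -/
lemma K_eq {w : V × V} (hw : w ∈ S.UC) : S.K w.1 =
    ⟪fderiv ℝ S.N w.1 w.2, w.2⟫_ℝ * ⟪fderiv ℝ S.N w.1 (cr (S.N w.1) w.2), cr (S.N w.1) w.2⟫_ℝ
    - ⟪fderiv ℝ S.N w.1 w.2, cr (S.N w.1) w.2⟫_ℝ * ⟪fderiv ℝ S.N w.1 (cr (S.N w.1) w.2), w.2⟫_ℝ := by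
  have h1 : cr w.2 (cr (S.N w.1) w.2) = S.N w.1 := by
    rw [cr_cr, real_inner_self_eq_norm_sq, hw.2.2, real_inner_comm, hw.2.1]; simp
  have h2 := Kc_eq (a := w.2) (b := cr (S.N w.1) w.2) (fderiv ℝ S.N w.1)
  rw [h1] at h2
  unfold K
  rw [h2, ← h1, inner_cr_cr, h1]
  set A1 := fderiv ℝ S.N w.1 w.2
  set A2 := fderiv ℝ S.N w.1 (cr (S.N w.1) w.2)
  set n := cr (S.N w.1) w.2
  rw [real_inner_comm A1 w.2, real_inner_comm A2 n, real_inner_comm A2 w.2, real_inner_comm A1 n]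
  ring

/-- second order ODE -/
def Jac (k y z : ℝ → ℝ) : Prop := ∀ t, HasDerivAt y (z t) t ∧ HasDerivAt z (-(k t) * y t) t

end Surf

lemma Surf.Jac.unique {k y z : ℝ → ℝ} (h : Surf.Jac k y z) {M : ℝ} (hk : ∀ t, |k t| ≤ M) {a : ℝ}
    (h0 : y a = 0) (h1 : z a = 0) (t : ℝ) : y t = 0 ∧ z t = 0 := by
  have hM : 0 ≤ M := (abs_nonneg _).trans (hk 0)
  set L : NNReal := Real.toNNReal (max 1 M) with hL
  have hLL : (L : ℝ) = max 1 M := Real.coe_toNNReal _ (le_trans zero_le_one (le_max_left _ _))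
  set v : ℝ → ℝ × ℝ → ℝ × ℝ := fun t q => (q.2, -(k t) * q.1) with hv
  have hlip : ∀ t, LipschitzWith L (v t) := by
    intro t
    apply LipschitzWith.of_dist_le_mul
    intro p q
    rw [hLL, Prod.dist_eq, Prod.dist_eq]
    apply max_le
    · calc dist p.2 q.2 ≤ max (dist p.1 q.1) (dist p.2 q.2) := le_max_right _ _
        _ ≤ max 1 M * _ := le_mul_of_one_le_left (le_max_of_le_left dist_nonneg) (le_max_left _ _)
    · show dist (-(k t) * p.1) (-(k t) * q.1) ≤ _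
      rw [Real.dist_eq, ← mul_sub, abs_mul, abs_neg]
      apply mul_le_mul ((hk t).trans (le_max_right _ _)) _ (abs_nonneg _) (le_max_of_le_left zero_le_one)
      rw [← Real.dist_eq]; exact le_max_left _ _
  have hy : ∀ t, HasDerivAt (fun t => (y t, z t)) (v t (y t, z t)) t := fun t =>
    (h t).1.prodMk (h t).2
  have hz : ∀ t, HasDerivAt (fun _ : ℝ => ((0:ℝ), (0:ℝ))) (v t (0, 0)) t := by
    intro t
    have : v t (0, 0) = 0 := by simp [hv]
    rw [this]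
    exact hasDerivAt_const t _
  set b := |t - a| + 1 with hb
  have htm : t ∈ Ioo (a - b) (a + b) := by
    constructor <;> rw [hb]
    · linarith [neg_abs_le (t - a)]
    · linarith [le_abs_self (t - a)]
  have ha : a ∈ Ioo (a - b) (a + b) := by
    have : 0 < b := by positivity
    constructor <;> linarith
  have key := ODE_solution_unique_of_mem_Ioo (v := v) (s := fun _ => univ) (K := L)
    (f := fun t => (y t, z t)) (g := fun _ => (0, 0)) (t₀ := a) (a := a - b) (b := a + b)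
    (fun t _ => (hlip t).lipschitzOnWith) ha (fun t _ => ⟨hy t, trivial⟩) (fun t _ => ⟨hz t, trivial⟩)
    (by simp [h0, h1]) htm
  simpa using key

lemma Surf.Jac.wronsk {k y z y' z' : ℝ → ℝ} (h : Surf.Jac k y z) (h' : Surf.Jac k y' z') (s t : ℝ) :
    y s * z' s - z s * y' s = y t * z' t - z t * y' t := by
  have hd : ∀ t, HasDerivAt (fun t => y t * z' t - z t * y' t) 0 t := by
    intro t
    have h1 := ((h t).1.fun_mul (h' t).2).fun_sub ((h t).2.fun_mul (h' t).1)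
    refine h1.congr_deriv ?_
    ring
  exact is_const_of_deriv_eq_zero (fun t => (hd t).differentiableAt) (fun t => (hd t).deriv) s t

namespace Surf

variable (S : Surf)

lemma K_bound : ∃ M, ∀ x ∈ S.C, |S.K x| ≤ M := by
  obtain ⟨M, hM⟩ := S.C_compact.exists_bound_of_continuousOn S.K_contOn
  exact ⟨M, fun x hx => by simpa using hM x hx⟩

/-- the flow as a function on the product -/
noncomputable def Φ' (q : ℝ × (V × V)) : V × V := S.Φ q.1 q.2

lemma Φ'_smooth : ContDiff ℝ ∞ S.Φ' := S.Φ_smooth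

/-- Jacobi field and its derivative -/
noncomputable def J (t : ℝ) (w : V × V) : ℝ :=
  ⟪(fderiv ℝ S.Φ' (t, w) (0, (0, cr (S.N w.1) w.2))).1, cr (S.N (S.Φ t w).1) (S.Φ t w).2⟫_ℝ
noncomputable def J' (t : ℝ) (w : V × V) : ℝ :=
  ⟪(fderiv ℝ S.Φ' (t, w) (0, (0, cr (S.N w.1) w.2))).2, cr (S.N (S.Φ t w).1) (S.Φ t w).2⟫_ℝ

section family

variable {W : ℝ → V × V} (hW : ContDiff ℝ ∞ W) (hU : ∀ s, W s ∈ S.UC)

/-- family of geodesics -/
noncomputable def G (W : ℝ → V × V) (q : ℝ × ℝ) : V × V := S.Φ q.1 (W q.2)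
noncomputable def Y (W : ℝ → V × V) (q : ℝ × ℝ) : V := (fderiv ℝ (S.G W) q (0, 1)).1
noncomputable def Z (W : ℝ → V × V) (q : ℝ × ℝ) : V := (fderiv ℝ (S.G W) q (0, 1)).2

include hW in
lemma G_smooth : ContDiff ℝ ∞ (S.G W) :=
  S.Φ_smooth.comp (contDiff_fst.prodMk (hW.comp contDiff_snd))

include hW in
lemma G_diff : Differentiable ℝ (S.G W) := (S.G_smooth hW).differentiable (by simp)

include hW in
lemma G_s1 (t s : ℝ) : HasDerivAt (fun s => (S.Φ t (W s)).1) (S.Y W (t, s)) s :=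
  (ContinuousLinearMap.fst ℝ V V).hasFDerivAt.comp_hasDerivAt s (pd2 (S.G_diff hW) t s)

include hW in
lemma G_s2 (t s : ℝ) : HasDerivAt (fun s => (S.Φ t (W s)).2) (S.Z W (t, s)) s :=
  (ContinuousLinearMap.snd ℝ V V).hasFDerivAt.comp_hasDerivAt s (pd2 (S.G_diff hW) t s)

include hW hU in
lemma G_t (t s : ℝ) : fderiv ℝ (S.G W) (t, s) (1, 0) =
    ((S.Φ t (W s)).2, -(S.kn (S.Φ t (W s)).1 (S.Φ t (W s)).2) • S.N (S.Φ t (W s)).1) := by
  have h1 := pd1 (S.G_diff hW) t s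
  have h2 : HasDerivAt (fun t => S.G W (t, s)) (S.X (S.Φ t (W s))) t := S.Φ_deriv (W s) t
  rw [h1.unique h2, S.X_of_UC (S.Φ_UC (hU s) t)]

lemma kn_diff {x v : ℝ → V} {x' v' : V} {s : ℝ} (hx : HasDerivAt x x' s) (hv : HasDerivAt v v' s)
    (hC : x s ∈ S.C) : ∃ kd, HasDerivAt (fun s => S.kn (x s) (v s)) kd s := by
  have h1 : DifferentiableAt ℝ (fderiv ℝ S.N) (x s) :=
    ((S.N_contDiffAt (S.g_ne hC)).fderiv_right (m := ∞) (by simp)).differentiableAt (by simp)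
  have h2 := h1.hasFDerivAt.comp_hasDerivAt s hx
  have h3 := (h2.clm_apply hv).inner ℝ hv
  exact ⟨_, h3⟩

include hW hU in
lemma YZ_t (t s : ℝ) : HasDerivAt (fun t => S.Y W (t, s)) (S.Z W (t, s)) t ∧
    ∃ kd : ℝ, HasDerivAt (fun t => S.Z W (t, s))
      (-(S.kn (S.Φ t (W s)).1 (S.Φ t (W s)).2) • fderiv ℝ S.N (S.Φ t (W s)).1 (S.Y W (t, s))
        + kd • S.N (S.Φ t (W s)).1) t := by
  obtain ⟨h1, h2⟩ := mixed (S.G_smooth hW) t s
  have h3 : (fun s => fderiv ℝ (S.G W) (t, s) (1, 0)) = fun s => ((S.Φ t (W s)).2,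
      -(S.kn (S.Φ t (W s)).1 (S.Φ t (W s)).2) • S.N (S.Φ t (W s)).1) := by
    funext s; exact S.G_t hW hU t s
  rw [h3] at h2
  set m := fderiv ℝ (fderiv ℝ (S.G W)) (t, s) (1, 0) (0, 1) with hm
  have h4 : HasDerivAt (fun s => (S.Φ t (W s)).2) m.1 s :=
    (ContinuousLinearMap.fst ℝ V V).hasFDerivAt.comp_hasDerivAt s h2
  have h5 : HasDerivAt (fun s => -(S.kn (S.Φ t (W s)).1 (S.Φ t (W s)).2) • S.N (S.Φ t (W s)).1) m.2 s :=
    (ContinuousLinearMap.snd ℝ V V).hasFDerivAt.comp_hasDerivAt s h2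
  have h6 : m.1 = S.Z W (t, s) := h4.unique (S.G_s2 hW t s)
  have hC : (S.Φ t (W s)).1 ∈ S.C := (S.Φ_UC (hU s) t).1
  obtain ⟨kd, hkd⟩ := S.kn_diff (S.G_s1 hW t s) (S.G_s2 hW t s) hC
  have h7 := (S.N_hasFDerivAt hC).comp_hasDerivAt s (S.G_s1 hW t s)
  have h8 := hkd.neg.smul h7
  have h9 : m.2 = -(S.kn (S.Φ t (W s)).1 (S.Φ t (W s)).2) • fderiv ℝ S.N (S.Φ t (W s)).1 (S.Y W (t, s))
        + -kd • S.N (S.Φ t (W s)).1 := h5.unique h8
  refine ⟨?_, -kd, ?_⟩
  · rw [← h6]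
    exact (ContinuousLinearMap.fst ℝ V V).hasFDerivAt.comp_hasDerivAt t h1
  · rw [← h9]
    exact (ContinuousLinearMap.snd ℝ V V).hasFDerivAt.comp_hasDerivAt t h1

include hW hU in
lemma YN (t s : ℝ) : ⟪S.Y W (t, s), S.N (S.Φ t (W s)).1⟫_ℝ = 0 := by
  have hC : (S.Φ t (W s)).1 ∈ S.C := (S.Φ_UC (hU s) t).1
  have h1 := (S.hasFDerivAt_f (S.Φ t (W s)).1).comp_hasDerivAt s (S.G_s1 hW t s)
  have h2 : HasDerivAt (S.f ∘ fun s => (S.Φ t (W s)).1) 0 s := by
    have : (S.f ∘ fun s => (S.Φ t (W s)).1) = fun _ => (0:ℝ) := by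
      funext s; exact (S.Φ_UC (hU s) t).1
    rw [this]; exact hasDerivAt_const s _
  have h3 := h1.unique h2
  rw [← S.inner_g, S.g_eq, real_inner_smul_left] at h3
  rw [real_inner_comm]
  rcases mul_eq_zero.1 h3 with h | h
  · exact absurd (norm_eq_zero.1 h) (S.g_ne hC)
  · exact h

include hW hU in
lemma ZT (t s : ℝ) : ⟪S.Z W (t, s), (S.Φ t (W s)).2⟫_ℝ = 0 := by
  have h1 := (S.G_s2 hW t s).inner ℝ (S.G_s2 hW t s)
  have h2 : HasDerivAt (fun s => ⟪(S.Φ t (W s)).2, (S.Φ t (W s)).2⟫_ℝ) 0 s := by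
    have : (fun s => ⟪(S.Φ t (W s)).2, (S.Φ t (W s)).2⟫_ℝ) = fun _ => (1:ℝ) := by
      funext s; rw [real_inner_self_eq_norm_sq, (S.Φ_UC (hU s) t).2.2]; norm_num
    rw [this]; exact hasDerivAt_const s _
  have h3 := h1.unique h2
  rw [real_inner_comm (S.Z W (t, s)) (S.Φ t (W s)).2] at h3
  linarith

include hW hU in
lemma ZN (t s : ℝ) : ⟪S.Z W (t, s), S.N (S.Φ t (W s)).1⟫_ℝ
    = -⟪fderiv ℝ S.N (S.Φ t (W s)).1 (S.Y W (t, s)), (S.Φ t (W s)).2⟫_ℝ := by
  have hC : (S.Φ t (W s)).1 ∈ S.C := (S.Φ_UC (hU s) t).1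
  have h7 := (S.N_hasFDerivAt hC).comp_hasDerivAt s (S.G_s1 hW t s)
  have h1 := h7.inner ℝ (S.G_s2 hW t s)
  have h2 : HasDerivAt (fun s => ⟪S.N (S.Φ t (W s)).1, (S.Φ t (W s)).2⟫_ℝ) 0 s := by
    have : (fun s => ⟪S.N (S.Φ t (W s)).1, (S.Φ t (W s)).2⟫_ℝ) = fun _ => (0:ℝ) := by
      funext s; exact (S.Φ_UC (hU s) t).2.1
    rw [this]; exact hasDerivAt_const s _
  have h3 := h1.unique h2
  rw [real_inner_comm]
  simp only [Function.comp_def] at h3
  linarith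

end family

lemma DN_perp {x : V} (hx : x ∈ S.C) (v : V) : ⟪fderiv ℝ S.N x v, S.N x⟫_ℝ = 0 := by
  have h1 := (S.N_hasFDerivAt hx).inner ℝ (S.N_hasFDerivAt hx)
  have h2 : HasFDerivAt (fun y => ⟪S.N y, S.N y⟫_ℝ) (0 : V →L[ℝ] ℝ) x := by
    apply (hasFDerivAt_const (1:ℝ) x).congr_of_eventuallyEq
    filter_upwards [S.g_cont.continuousAt.eventually_ne (S.g_ne hx)] with y hy
    rw [real_inner_self_eq_norm_sq]
    unfold N
    rw [norm_smul, norm_inv, norm_norm, inv_mul_cancel₀ (norm_ne_zero_iff.2 hy)]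
    norm_num
  have h3 := h1.unique h2
  have h4 := congrArg (fun L : V →L[ℝ] ℝ => L v) h3
  simp [fderivInnerCLM_apply] at h4
  rw [real_inner_comm (fderiv ℝ S.N x v) (S.N x)] at h4
  linarith

lemma UC_cr {w : V × V} (hw : w ∈ S.UC) : (w.1, cr (S.N w.1) w.2) ∈ S.UC := by
  refine ⟨hw.1, inner_cr_left _ _, ?_⟩
  show ‖cr (S.N w.1) w.2‖ = 1
  have := norm_cr_sq (S.N w.1) w.2
  rw [hw.2.1, hw.2.2, S.N_norm hw.1] at this
  have h2 : ‖cr (S.N w.1) w.2‖ ^ 2 = 1 := by rw [this]; norm_num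
  nlinarith [norm_nonneg (cr (S.N w.1) w.2)]

lemma cr_n_T {w : V × V} (hw : w ∈ S.UC) : cr (cr (S.N w.1) w.2) w.2 = - S.N w.1 := by
  rw [cr_anti, cr_cr, real_inner_self_eq_norm_sq, hw.2.2, real_inner_comm, hw.2.1]; simp

lemma cr_N_n {w : V × V} (hw : w ∈ S.UC) : cr (S.N w.1) (cr (S.N w.1) w.2) = - w.2 := by
  rw [cr_cr, real_inner_self_eq_norm_sq, S.N_norm hw.1, hw.2.1]; simp

/-- expansion of a tangent vector -/
lemma tan_expand {w : V × V} (hw : w ∈ S.UC) {x : V} (hx : ⟪x, S.N w.1⟫_ℝ = 0) :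
    x = ⟪x, w.2⟫_ℝ • w.2 + ⟪x, cr (S.N w.1) w.2⟫_ℝ • cr (S.N w.1) w.2 := by
  have := frame_expand (S.N_norm hw.1) hw.2.2 hw.2.1 x
  rw [hx, zero_smul, add_zero] at this
  exact this

/-- derivative of the normal of a geodesic -/
lemma n_t {w : V × V} (hw : w ∈ S.UC) (t : ℝ) :
    HasDerivAt (fun t => cr (S.N (S.Φ t w).1) (S.Φ t w).2)
      (-⟪fderiv ℝ S.N (S.Φ t w).1 (S.Φ t w).2, cr (S.N (S.Φ t w).1) (S.Φ t w).2⟫_ℝ •
        S.N (S.Φ t w).1) t := by
  have hC := S.Φ_UC hw t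
  have h1 := (S.N_hasFDerivAt hC.1).comp_hasDerivAt t (S.pos_deriv hw t)
  have h2 := HasDerivAt.crV h1 (S.vel_deriv hw t)
  refine h2.congr_deriv ?_
  simp only [Function.comp_def]
  rw [cr_smul_right, cr_self, smul_zero, zero_add]
  have h3 := S.tan_expand hC (S.DN_perp hC.1 (S.Φ t w).2)
  conv_lhs => rw [h3]
  rw [cr_add_left, cr_smul_left, cr_smul_left, cr_self, smul_zero, zero_add, S.cr_n_T hC]
  simp

section family2

variable {W : ℝ → V × V} (hW : ContDiff ℝ ∞ W) (hU : ∀ s, W s ∈ S.UC)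

include hW hU in
/-- the normal component of a variation field solves the Jacobi equation -/
lemma fam_Jac (s : ℝ) : Surf.Jac (fun t => S.K (S.Φ t (W s)).1)
    (fun t => ⟪S.Y W (t, s), cr (S.N (S.Φ t (W s)).1) (S.Φ t (W s)).2⟫_ℝ)
    (fun t => ⟪S.Z W (t, s), cr (S.N (S.Φ t (W s)).1) (S.Φ t (W s)).2⟫_ℝ) := by
  intro t
  have hC := S.Φ_UC (hU s) t
  obtain ⟨h1, kd, h2⟩ := S.YZ_t hW hU t s
  have h3 := S.n_t (hU s) t
  have hYN := S.YN hW hU t s
  have hZT := S.ZT hW hU t s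
  have hZN := S.ZN hW hU t s
  have hY := S.tan_expand hC hYN
  have hK := S.K_eq hC
  have hNn : ⟪S.N (S.Φ t (W s)).1, cr (S.N (S.Φ t (W s)).1) (S.Φ t (W s)).2⟫_ℝ = 0 :=
    inner_cr_left _ _
  constructor
  · have h4 := h1.inner ℝ h3
    refine h4.congr_deriv ?_
    rw [inner_smul_right, hYN]; ring
  · have h4 := h2.inner ℝ h3
    refine h4.congr_deriv ?_
    simp only []
    rw [inner_smul_right, hZN, inner_add_left, real_inner_smul_left, real_inner_smul_left, hNn, hK]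
    have hDY : fderiv ℝ S.N (S.Φ t (W s)).1 (S.Y W (t, s)) =
        ⟪S.Y W (t, s), (S.Φ t (W s)).2⟫_ℝ • fderiv ℝ S.N (S.Φ t (W s)).1 (S.Φ t (W s)).2
        + ⟪S.Y W (t, s), cr (S.N (S.Φ t (W s)).1) (S.Φ t (W s)).2⟫_ℝ •
          fderiv ℝ S.N (S.Φ t (W s)).1 (cr (S.N (S.Φ t (W s)).1) (S.Φ t (W s)).2) := by
      conv_lhs => rw [hY]
      rw [map_add, map_smul, map_smul]
    rw [hDY]
    simp only [inner_add_left, real_inner_smul_left]
    unfold kn
    ring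

include hW hU in
/-- the tangential component of a variation field is constant -/
lemma fam_tan (s t t' : ℝ) : ⟪S.Y W (t, s), (S.Φ t (W s)).2⟫_ℝ = ⟪S.Y W (t', s), (S.Φ t' (W s)).2⟫_ℝ := by
  have hd : ∀ t, HasDerivAt (fun t => ⟪S.Y W (t, s), (S.Φ t (W s)).2⟫_ℝ) 0 t := by
    intro t
    obtain ⟨h1, kd, h2⟩ := S.YZ_t hW hU t s
    have h4 := h1.inner ℝ (S.vel_deriv (hU s) t)
    refine h4.congr_deriv ?_
    rw [inner_smul_right, S.YN hW hU t s, S.ZT hW hU t s]; ring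
  exact is_const_of_deriv_eq_zero (fun t => (hd t).differentiableAt) (fun t => (hd t).deriv) t t'

include hW in
lemma fd_G (t s : ℝ) {W' : V × V} (h : HasDerivAt W W' s) :
    fderiv ℝ (S.G W) (t, s) (0, 1) = fderiv ℝ S.Φ' (t, W s) (0, W') := by
  have h1 := pd2 (S.G_diff hW) t s
  have h2 : HasFDerivAt S.Φ' (fderiv ℝ S.Φ' (t, W s)) (t, W s) :=
    (S.Φ'_smooth.differentiable (by simp) _).hasFDerivAt
  have h3 := h2.comp_hasDerivAt s ((hasDerivAt_const s t).prodMk h)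
  exact h1.unique h3

end family2

/-- reference direction at `p` -/
noncomputable def dir (p : V) : V := by
  classical exact if h : p ∈ S.C then (S.exists_tangent h).choose else 0

lemma dir_mem {p : V} (hp : p ∈ S.C) : (p, S.dir p) ∈ S.UC := by
  unfold dir
  rw [dif_pos hp]
  exact (S.exists_tangent hp).choose_spec

/-- the circle of unit directions at `p` -/
noncomputable def W (p : V) (θ : ℝ) : V × V :=
  (p, Real.cos θ • S.dir p + Real.sin θ • cr (S.N p) (S.dir p))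

lemma W_fst (p : V) (θ : ℝ) : (S.W p θ).1 = p := rfl

lemma W_smooth (p : V) : ContDiff ℝ ∞ (S.W p) :=
  contDiff_const.prodMk ((Real.contDiff_cos.smul contDiff_const).add
    (Real.contDiff_sin.smul contDiff_const))

lemma W_cont (p : V) : Continuous (S.W p) := (S.W_smooth p).continuous

lemma W_period (p : V) (θ : ℝ) : S.W p (θ + 2 * Real.pi) = S.W p θ := by
  unfold W; rw [Real.cos_add_two_pi, Real.sin_add_two_pi]

lemma W_pi (p : V) (θ : ℝ) : S.W p (θ + Real.pi) = (p, -(S.W p θ).2) := by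
  unfold W; rw [Real.cos_add_pi, Real.sin_add_pi]; simp only [neg_smul, neg_add]

lemma W_UC {p : V} (hp : p ∈ S.C) (θ : ℝ) : S.W p θ ∈ S.UC := by
  have h1 := S.dir_mem hp
  have h2 := S.UC_cr h1
  have h3 : ⟪S.dir p, cr (S.N p) (S.dir p)⟫_ℝ = 0 := inner_cr_right _ _
  refine ⟨hp, ?_, ?_⟩
  · show ⟪S.N p, Real.cos θ • S.dir p + Real.sin θ • cr (S.N p) (S.dir p)⟫_ℝ = 0
    rw [inner_add_right, inner_smul_right, inner_smul_right, inner_cr_left, h1.2.1]; simp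
  · show ‖Real.cos θ • S.dir p + Real.sin θ • cr (S.N p) (S.dir p)‖ = 1
    have h4 : ‖Real.cos θ • S.dir p + Real.sin θ • cr (S.N p) (S.dir p)‖ ^ 2 = 1 := by
      rw [← real_inner_self_eq_norm_sq]
      simp only [inner_add_left, inner_add_right, inner_smul_right, real_inner_smul_left]
      rw [real_inner_comm (S.dir p) (cr (S.N p) (S.dir p)), h3, real_inner_self_eq_norm_sq,
        real_inner_self_eq_norm_sq]
      have := h1.2.2
      have := h2.2.2
      simp only at *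
      rw [h1.2.2, h2.2.2]
      nlinarith [Real.sin_sq_add_cos_sq θ]
    nlinarith [norm_nonneg (Real.cos θ • S.dir p + Real.sin θ • cr (S.N p) (S.dir p))]

lemma cr_W {p : V} (hp : p ∈ S.C) (θ : ℝ) : cr (S.N p) (S.W p θ).2
    = -Real.sin θ • S.dir p + Real.cos θ • cr (S.N p) (S.dir p) := by
  have h1 := S.dir_mem hp
  unfold W
  simp only []
  rw [cr_add_right, cr_smul_right, cr_smul_right]
  have := S.cr_N_n h1
  simp only at this
  rw [this]
  simp only [smul_neg, neg_smul]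
  abel

lemma W_deriv {p : V} (hp : p ∈ S.C) (θ : ℝ) :
    HasDerivAt (S.W p) (0, cr (S.N p) (S.W p θ).2) θ := by
  rw [S.cr_W hp θ]
  exact (hasDerivAt_const θ p).prodMk (((Real.hasDerivAt_cos θ).smul_const _).add
    ((Real.hasDerivAt_sin θ).smul_const _))

/-- every unit direction at `p` is some `W p θ` -/
lemma exists_W {p v : V} (h : (p, v) ∈ S.UC) : ∃ θ ∈ Ico 0 (2 * Real.pi), S.W p θ = (p, v) := by
  have h1 := S.dir_mem h.1
  have h2 := S.UC_cr h1
  have hv := S.tan_expand h1 (x := v) (by rw [real_inner_comm]; exact h.2.1)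
  simp only at hv
  set a := ⟪v, S.dir p⟫_ℝ with ha
  set b := ⟪v, cr (S.N p) (S.dir p)⟫_ℝ with hb
  have hab : a ^ 2 + b ^ 2 = 1 := by
    have h4 : ‖v‖ ^ 2 = 1 := by rw [h.2.2]; norm_num
    have h3 : ⟪S.dir p, cr (S.N p) (S.dir p)⟫_ℝ = 0 := inner_cr_right _ _
    rw [← real_inner_self_eq_norm_sq, hv] at h4
    simp only [inner_add_left, inner_add_right, inner_smul_right, real_inner_smul_left] at h4
    rw [real_inner_comm (S.dir p) (cr (S.N p) (S.dir p)), h3, real_inner_self_eq_norm_sq,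
        real_inner_self_eq_norm_sq] at h4
    have e1 : ‖S.dir p‖ = 1 := h1.2.2
    have e2 : ‖cr (S.N p) (S.dir p)‖ = 1 := h2.2.2
    rw [e1, e2] at h4
    nlinarith
  -- angle
  set z : ℂ := ⟨a, b⟩ with hz
  have hzn : ‖z‖ = 1 := by
    rw [Complex.norm_def, Complex.normSq_mk]
    rw [show a * a + b * b = 1 by nlinarith]; simp
  have hz0 : z ≠ 0 := by rw [← norm_ne_zero_iff, hzn]; norm_num
  have hc : Real.cos z.arg = a := by rw [Complex.cos_arg hz0, hzn]; simp [hz]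
  have hs : Real.sin z.arg = b := by rw [Complex.sin_arg, hzn]; simp [hz]
  have key : S.W p z.arg = (p, v) := by
    unfold W; rw [hc, hs, ← hv]
  rcases le_or_gt 0 z.arg with h0 | h0
  · exact ⟨z.arg, ⟨h0, by linarith [Complex.arg_le_pi z, Real.pi_pos]⟩, key⟩
  · refine ⟨z.arg + 2 * Real.pi, ⟨by linarith [Complex.neg_pi_lt_arg z, Real.pi_pos], by linarith⟩, ?_⟩
    rw [S.W_period, key]

lemma W_inj {p : V} (hp : p ∈ S.C) {θ θ' : ℝ} (h : S.W p θ = S.W p θ') :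
    Real.cos θ = Real.cos θ' ∧ Real.sin θ = Real.sin θ' := by
  have h1 := S.dir_mem hp
  have h2 := S.UC_cr h1
  have h3 : ⟪S.dir p, cr (S.N p) (S.dir p)⟫_ℝ = 0 := inner_cr_right _ _
  have h4 := congrArg Prod.snd h
  simp only [W] at h4
  have e1 : ‖S.dir p‖ = 1 := h1.2.2
  have e2 : ‖cr (S.N p) (S.dir p)‖ = 1 := h2.2.2
  constructor
  · have := congrArg (fun x => ⟪x, S.dir p⟫_ℝ) h4
    simp only [inner_add_left, real_inner_smul_left] at this
    rw [real_inner_comm (S.dir p) (cr (S.N p) (S.dir p)), h3, real_inner_self_eq_norm_sq, e1] at this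
    linarith
  · have := congrArg (fun x => ⟪x, cr (S.N p) (S.dir p)⟫_ℝ) h4
    simp only [inner_add_left, real_inner_smul_left] at this
    rw [h3, real_inner_self_eq_norm_sq, e2] at this
    linarith

lemma W_injOn {p : V} (hp : p ∈ S.C) : InjOn (S.W p) (Ico 0 (2 * Real.pi)) := by
  intro θ h θ' h' heq
  obtain ⟨hc, hs⟩ := S.W_inj hp heq
  have h1 : Real.cos (θ - θ') = 1 := by
    rw [Real.cos_sub, hc, hs]; nlinarith [Real.sin_sq_add_cos_sq θ']
  obtain ⟨n, hn⟩ := (Real.cos_eq_one_iff _).1 h1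
  have hpi := Real.pi_pos
  have h2 : (n:ℝ) < 1 := by
    by_contra hcon
    push Not at hcon
    nlinarith [h.1, h.2, h'.1, h'.2]
  have h3 : (-1:ℝ) < n := by
    by_contra hcon
    push Not at hcon
    nlinarith [h.1, h.2, h'.1, h'.2]
  have h4 : n = 0 := by
    have : n < 1 := by exact_mod_cast h2
    have : -1 < n := by exact_mod_cast h3
    omega
  rw [h4] at hn
  simp at hn
  linarith

end Surf

end Pool.Agent.H864R2
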