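import Pool.Agent.H864R2.Jac

set_option autoImplicit false
set_option linter.unusedVariables false

open Set Metric Filter Topology MeasureTheory
open scoped ContDiff InnerProductSpace NNReal ENNReal

namespace Pool.Agent.H864R2

namespace Surf

variable (S : Surf)

lemma J_W {p : V} (hp : p ∈ S.C) (t θ : ℝ) : S.J t (S.W p θ) =
    ⟪S.Y (S.W p) (t, θ), cr (S.N (S.Φ t (S.W p θ)).1) (S.Φ t (S.W p θ)).2⟫_ℝ := by
  unfold J Y
  rw [S.fd_G (S.W_smooth p) t θ (S.W_deriv hp θ), S.W_fst]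

lemma J'_W {p : V} (hp : p ∈ S.C) (t θ : ℝ) : S.J' t (S.W p θ) =
    ⟪S.Z (S.W p) (t, θ), cr (S.N (S.Φ t (S.W p θ)).1) (S.Φ t (S.W p θ)).2⟫_ℝ := by
  unfold J' Z
  rw [S.fd_G (S.W_smooth p) t θ (S.W_deriv hp θ), S.W_fst]

lemma J_Jac {w : V × V} (hw : w ∈ S.UC) :
    Surf.Jac (fun t => S.K (S.Φ t w).1) (fun t => S.J t w) (fun t => S.J' t w) := by
  obtain ⟨θ, -, h⟩ := S.exists_W (p := w.1) (v := w.2) hw
  have := S.fam_Jac (S.W_smooth w.1) (S.W_UC hw.1) θ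
  simp only [← S.J_W hw.1, ← S.J'_W hw.1] at this
  rw [h] at this
  exact this

lemma Y_zero {p : V} (hp : p ∈ S.C) (θ : ℝ) : S.Y (S.W p) (0, θ) = 0 := by
  have h1 := S.G_s1 (S.W_smooth p) 0 θ
  have h2 : (fun s => (S.Φ 0 (S.W p s)).1) = fun _ => p := by
    funext s; rw [S.Φ_zero, S.W_fst]
  rw [h2] at h1
  exact h1.unique (hasDerivAt_const θ p)

lemma J_zero {w : V × V} (hw : w ∈ S.UC) : S.J 0 w = 0 := by
  obtain ⟨θ, -, h⟩ := S.exists_W (p := w.1) (v := w.2) hw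
  have h1 := S.J_W hw.1 0 θ
  rw [S.Y_zero hw.1, inner_zero_left, h] at h1
  exact h1

lemma J'_zero {w : V × V} (hw : w ∈ S.UC) : S.J' 0 w = 1 := by
  obtain ⟨θ, -, h⟩ := S.exists_W (p := w.1) (v := w.2) hw
  have h1 := S.J'_W hw.1 0 θ
  have h2 := S.G_s2 (S.W_smooth w.1) 0 θ
  have h3 : (fun s => (S.Φ 0 (S.W w.1 s)).2) = fun s => (S.W w.1 s).2 := by
    funext s; rw [S.Φ_zero]
  rw [h3] at h2
  have h4 : HasDerivAt (fun s => (S.W w.1 s).2) (cr (S.N w.1) (S.W w.1 θ).2) θ :=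
    (ContinuousLinearMap.snd ℝ V V).hasFDerivAt.comp_hasDerivAt θ (S.W_deriv hw.1 θ)
  rw [h2.unique h4, h, S.Φ_zero] at h1
  have h5 := (S.UC_cr hw).2.2
  simp only at h1 h5
  rw [real_inner_self_eq_norm_sq, h5] at h1
  rw [show w = (w.1, w.2) from rfl, h1]; norm_num

/-- derivative of the endpoint map in the angle -/
lemma E_θ {p : V} (hp : p ∈ S.C) (t θ : ℝ) : HasDerivAt (fun θ => (S.Φ t (S.W p θ)).1)
    (S.J t (S.W p θ) • cr (S.N (S.Φ t (S.W p θ)).1) (S.Φ t (S.W p θ)).2) θ := by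
  have h1 := S.G_s1 (S.W_smooth p) t θ
  have hU := S.W_UC hp
  have h2 := S.tan_expand (S.Φ_UC (hU θ) t) (S.YN (S.W_smooth p) hU t θ)
  rw [S.fam_tan (S.W_smooth p) hU θ t 0, S.Y_zero hp, inner_zero_left, zero_smul, zero_add,
    ← S.J_W hp] at h2
  rw [← h2]; exact h1

lemma J_contOn : ContinuousOn (fun q : ℝ × (V × V) => S.J q.1 q.2) (univ ×ˢ S.UC) := by
  have hN1 : ContinuousOn (fun q : ℝ × (V × V) => S.N q.2.1) (univ ×ˢ S.UC) :=
    S.N_contOn.comp (continuous_fst.comp continuous_snd).continuousOn (fun q hq => hq.2.1)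
  have hN2 : ContinuousOn (fun q : ℝ × (V × V) => S.N (S.Φ q.1 q.2).1) (univ ×ˢ S.UC) :=
    S.N_contOn.comp (continuous_fst.comp S.Φ_cont).continuousOn (fun q hq => (S.Φ_UC hq.2 q.1).1)
  have h1 : Continuous (fderiv ℝ S.Φ') := S.Φ'_smooth.continuous_fderiv (by simp)
  have h2 : ContinuousOn (fun q : ℝ × (V × V) =>
      ((0:ℝ), ((0:V), cr (S.N q.2.1) q.2.2))) (univ ×ˢ S.UC) :=
    continuousOn_const.prodMk (continuousOn_const.prodMk
      (continuousOn_cr hN1 (continuous_snd.comp continuous_snd).continuousOn))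
  have h3 : ContinuousOn (fun q : ℝ × (V × V) => fderiv ℝ S.Φ' (q.1, q.2)
      ((0:ℝ), ((0:V), cr (S.N q.2.1) q.2.2))) (univ ×ˢ S.UC) := h1.continuousOn.clm_apply h2
  exact (continuous_fst.comp_continuousOn h3).inner
    (continuousOn_cr hN2 (continuous_snd.comp S.Φ_cont).continuousOn)

lemma J_smooth {p : V} (hp : p ∈ S.C) : ContDiff ℝ ∞ (fun q : ℝ × ℝ => S.J q.1 (S.W p q.2)) := by
  have hG := S.G_smooth (S.W_smooth p)
  have h1 : ContDiff ℝ ∞ (fun q : ℝ × ℝ => S.Y (S.W p) (q.1, q.2)) := by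
    have : ContDiff ℝ ∞ (fderiv ℝ (S.G (S.W p))) := hG.fderiv_right (m := ∞) (by simp)
    exact contDiff_fst.comp (this.clm_apply contDiff_const)
  have h2 : ContDiff ℝ ∞ (fun q : ℝ × ℝ => S.N (S.Φ q.1 (S.W p q.2)).1) := by
    rw [contDiff_iff_contDiffAt]
    intro q
    have h3 : ContDiffAt ℝ ∞ S.N (S.Φ q.1 (S.W p q.2)).1 :=
      S.N_contDiffAt (S.g_ne (S.Φ_UC (S.W_UC hp q.2) q.1).1)
    exact ContDiffAt.comp (g := S.N) (f := fun q : ℝ × ℝ => (S.Φ q.1 (S.W p q.2)).1) q h3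
      (contDiff_fst.comp hG).contDiffAt
  have h4 : (fun q : ℝ × ℝ => S.J q.1 (S.W p q.2)) = fun q : ℝ × ℝ =>
      ⟪S.Y (S.W p) (q.1, q.2), cr (S.N (S.Φ q.1 (S.W p q.2)).1) (S.Φ q.1 (S.W p q.2)).2⟫_ℝ := by
    funext q; exact S.J_W hp q.1 q.2
  rw [h4]
  exact h1.inner ℝ (contDiff_cr h2 (contDiff_snd.comp hG))

/-- reversal -/
def fl (w : V × V) : V × V := (w.1, -w.2)

lemma fl_UC {w : V × V} (hw : w ∈ S.UC) : fl w ∈ S.UC := by
  refine ⟨hw.1, ?_, ?_⟩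
  · show ⟪S.N w.1, -w.2⟫_ℝ = 0
    rw [inner_neg_right, hw.2.1, neg_zero]
  · show ‖-w.2‖ = 1
    rw [norm_neg]; exact hw.2.2

lemma fl_fl (w : V × V) : fl (fl w) = w := by unfold fl; simp

lemma fl_cont : Continuous fl := continuous_fst.prodMk continuous_snd.neg

lemma orbit_unique {c : ℝ → V × V} (h : ∀ t, HasDerivAt c (S.X (c t)) t) (t : ℝ) :
    c t = S.Φ t (c 0) := by
  obtain ⟨K, hK⟩ := S.X_smooth.lipschitzWith_of_hasCompactSupport S.X_cpt (by simp)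
  have ha : (0:ℝ) ∈ Ioo (-(|t| + 1)) (|t| + 1) := by
    constructor <;> nlinarith [abs_nonneg t]
  have htm : t ∈ Ioo (-(|t| + 1)) (|t| + 1) := by
    constructor
    · linarith [neg_abs_le t]
    · linarith [le_abs_self t]
  exact ODE_solution_unique_of_mem_Ioo (v := fun _ => S.X) (s := fun _ => univ) (K := K)
      (t₀ := 0) (f := c) (g := fun t => S.Φ t (c 0))
      (fun t _ => hK.lipschitzOnWith) ha (fun t ht => ⟨h t, trivial⟩)
      (fun t ht => ⟨S.Φ_deriv _ t, trivial⟩) (S.Φ_zero _).symm htm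

lemma Φ_fl {w : V × V} (hw : w ∈ S.UC) (t : ℝ) : S.Φ t (fl w) = fl (S.Φ (-t) w) := by
  have h : ∀ t, HasDerivAt (fun t => fl (S.Φ (-t) w)) (S.X (fl (S.Φ (-t) w))) t := by
    intro t
    have h1 := (S.pos_deriv hw (-t)).scomp t (hasDerivAt_neg t)
    have h2 := (S.vel_deriv hw (-t)).scomp t (hasDerivAt_neg t)
    have h3 := h1.prodMk h2.neg
    rw [S.X_of_UC (S.fl_UC (S.Φ_UC hw (-t)))]
    refine h3.congr_deriv ?_
    unfold fl kn
    simp
  have := S.orbit_unique h t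
  simp only [neg_zero, S.Φ_zero] at this
  exact this.symm

lemma J_shift {w : V × V} (hw : w ∈ S.UC) (a : ℝ) :
    Surf.Jac (fun t => S.K (S.Φ t w).1) (fun t => S.J (t - a) (S.Φ a w))
      (fun t => S.J' (t - a) (S.Φ a w)) := by
  intro t
  have h := S.J_Jac (S.Φ_UC hw a) (t - a)
  have h1 : HasDerivAt (fun t : ℝ => t - a) 1 t := (hasDerivAt_id t).sub_const a
  have e : S.Φ (t - a) (S.Φ a w) = S.Φ t w := by rw [← S.Φ_add, sub_add_cancel]
  constructor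
  · have := h.1.comp t h1
    simp only [mul_one] at this
    exact this
  · have := h.2.comp t h1
    simp only [mul_one, e] at this
    exact this

lemma K_geo_bound : ∃ M, ∀ w ∈ S.UC, ∀ t, |S.K (S.Φ t w).1| ≤ M := by
  obtain ⟨M, hM⟩ := S.K_bound
  exact ⟨M, fun w hw t => hM _ (S.Φ_UC hw t).1⟩

lemma Jac_lin {k y z y' z' : ℝ → ℝ} (a b : ℝ) (h : Surf.Jac k y z) (h' : Surf.Jac k y' z') :
    Surf.Jac k (fun t => a * y t + b * y' t) (fun t => a * z t + b * z' t) := by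
  intro t
  constructor
  · exact ((h t).1.const_mul a).add ((h' t).1.const_mul b)
  · refine (((h t).2.const_mul a).add ((h' t).2.const_mul b)).congr_deriv ?_
    ring

/-- a Jacobi field vanishing at `a` -/
lemma Jac_char {w : V × V} (hw : w ∈ S.UC) {y z : ℝ → ℝ}
    (h : Surf.Jac (fun t => S.K (S.Φ t w).1) y z) {a : ℝ} (ha : y a = 0) (t : ℝ) :
    y t = z a * S.J (t - a) (S.Φ a w) ∧ z t = z a * S.J' (t - a) (S.Φ a w) := by
  obtain ⟨M, hM⟩ := S.K_geo_bound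
  have h1 := Jac_lin 1 (-(z a)) h (S.J_shift hw a)
  have h2 := h1.unique (hM w hw) (a := a) (by simp [ha, S.J_zero (S.Φ_UC hw a)])
    (by simp [S.J'_zero (S.Φ_UC hw a)]) t
  constructor
  · linarith [h2.1]
  · linarith [h2.2]

lemma J'_ne {w : V × V} (hw : w ∈ S.UC) {t : ℝ} (h : S.J t w = 0) : S.J' t w ≠ 0 := by
  intro h'
  obtain ⟨M, hM⟩ := S.K_geo_bound
  have := (S.J_Jac hw).unique (hM w hw) h h' 0
  rw [S.J'_zero hw] at this
  exact one_ne_zero this.2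

lemma J_neg {w : V × V} (hw : w ∈ S.UC) (t : ℝ) : S.J (-t) w = - S.J t (fl w) := by
  have h : Surf.Jac (fun t => S.K (S.Φ t (fl w)).1) (fun t => S.J (-t) w) (fun t => -S.J' (-t) w) := by
    intro t
    have h0 := S.J_Jac hw (-t)
    constructor
    · have := h0.1.comp t (hasDerivAt_neg t)
      simp only [mul_neg, mul_one] at this
      exact this
    · have := (h0.2.comp t (hasDerivAt_neg t)).neg
      refine this.congr_deriv ?_
      have e : (S.Φ t (fl w)).1 = (S.Φ (-t) w).1 := by rw [S.Φ_fl hw]; rfl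
      simp only [e]
      ring
  have h2 := (S.Jac_char (S.fl_UC hw) h (a := 0) (by simp [S.J_zero hw]) t).1
  simp only [neg_zero, S.J'_zero hw, sub_zero, S.Φ_zero] at h2
  linarith

lemma J_symm {w : V × V} (hw : w ∈ S.UC) (t : ℝ) : S.J t w = S.J t (fl (S.Φ t w)) := by
  have h := (S.J_Jac hw).wronsk (S.J_shift hw t) 0 t
  simp only [S.J_zero hw, S.J'_zero hw, sub_self, S.J_zero (S.Φ_UC hw t), S.J'_zero (S.Φ_UC hw t),
    zero_sub, S.J_neg (S.Φ_UC hw t)] at h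
  linarith

set_option allowUnsafeReducibility true in
attribute [irreducible] J J'

end Surf

end Pool.Agent.H864R2
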