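import Pool.Agent.H864R2.Meas

set_option autoImplicit false
set_option linter.unusedVariables false

open Set Metric Filter Topology MeasureTheory
open scoped ContDiff InnerProductSpace NNReal ENNReal

namespace Pool.Agent.H864R2

namespace Surf

variable (S : Surf)

/-- domain of the kernels -/
def Dom : Set (ℝ × (V × V)) := Ioo 0 S.L ×ˢ S.UC

/-- the map `(t, w) ↦ (foot, endpoint)` -/
noncomputable def Ψ (q : ℝ × (V × V)) : V × V := (q.2.1, (S.Φ q.1 q.2).1)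

lemma Dom_meas : MeasurableSet S.Dom := measurableSet_Ioo.prod S.UC_compact.measurableSet

lemma Ψ_cont : Continuous S.Ψ :=
  (continuous_fst.comp continuous_snd).prodMk (continuous_fst.comp S.Φ_cont)

lemma Ψ_inj (hP : S.PropM) : InjOn S.Ψ S.Dom := by
  rintro ⟨t, w⟩ ⟨ht, hw⟩ ⟨t', w'⟩ ⟨ht', hw'⟩ h
  simp only at ht hw ht' hw'
  have h' : (w.1, (S.Φ t w).1) = (w'.1, (S.Φ t' w').1) := h
  have h1 : w.1 = w'.1 := (Prod.ext_iff.1 h').1
  have h2 : (S.Φ t w).1 = (S.Φ t' w').1 := (Prod.ext_iff.1 h').2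
  have e1 := S.d_L hP hw ht.1.le ht.2.le
  have e2 := S.d_L hP hw' ht'.1.le ht'.2.le
  have h3 : t = t' := by rw [← e1, ← e2, h2, h1]
  subst h3
  rw [S.geo_inj' hP hw hw' h1 ht.1 ht.2 h2]

lemma Ψ_emb (hP : S.PropM) : MeasurableEmbedding (S.Dom.domRestrict S.Ψ) :=
  S.Ψ_cont.continuousOn.measurableEmbedding S.Dom_meas (S.Ψ_inj hP)

/-- kernel on pairs of points -/
noncomputable def ker {α : Type*} [Zero α] (κ : ℝ × (V × V) → α) : V × V → α :=
  Function.extend (S.Dom.domRestrict S.Ψ) (S.Dom.domRestrict κ) (fun _ => 0)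

lemma ker_apply (hP : S.PropM) {α : Type*} [Zero α] (κ : ℝ × (V × V) → α) {t : ℝ} {w : V × V}
    (ht : t ∈ Ioo 0 S.L) (hw : w ∈ S.UC) : S.ker κ (w.1, (S.Φ t w).1) = κ (t, w) := by
  have h := (S.Ψ_emb hP).injective.extend_apply (S.Dom.domRestrict κ) (fun _ => 0)
    ⟨(t, w), ⟨ht, hw⟩⟩
  exact h

lemma ker_zero {α : Type*} [Zero α] (κ : ℝ × (V × V) → α) {z : V × V}
    (hz : ∀ t ∈ Ioo 0 S.L, ∀ w ∈ S.UC, (w.1, (S.Φ t w).1) ≠ z) : S.ker κ z = 0 := by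
  unfold ker
  rw [Function.extend_apply' _ _ _ (by
    rintro ⟨⟨⟨t, w⟩, ⟨ht, hw⟩⟩, h⟩
    exact hz t ht w hw h)]

lemma ker_meas (hP : S.PropM) {α : Type*} [Zero α] [MeasurableSpace α] {κ : ℝ × (V × V) → α}
    (h : Measurable (S.Dom.domRestrict κ)) : Measurable (S.ker κ) :=
  (S.Ψ_emb hP).measurable_extend h measurable_const

lemma ker_meas' (hP : S.PropM) {α : Type*} [Zero α] [TopologicalSpace α] [MeasurableSpace α]
    [BorelSpace α] {κ : ℝ × (V × V) → α}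
    (h : ContinuousOn κ S.Dom) : Measurable (S.ker κ) :=
  S.ker_meas hP (continuousOn_iff_continuous_domRestrict.1 h).measurable

lemma swap_rep {t : ℝ} {w : V × V} (hw : w ∈ S.UC) :
    ((S.Φ t w).1, w.1) = ((fl (S.Φ t w)).1, (S.Φ t (fl (S.Φ t w))).1) := by
  rw [S.fl_Φ_Φ hw]; rfl

lemma ker_symm (hP : S.PropM) {α : Type*} [Zero α] {κ : ℝ × (V × V) → α}
    (hκ : ∀ t ∈ Ioo 0 S.L, ∀ w ∈ S.UC, κ (t, fl (S.Φ t w)) = κ (t, w)) (x y : V) :
    S.ker κ (x, y) = S.ker κ (y, x) := by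
  by_cases h : ∃ t ∈ Ioo 0 S.L, ∃ w ∈ S.UC, (w.1, (S.Φ t w).1) = (x, y)
  · obtain ⟨t, ht, w, hw, h⟩ := h
    have h1 : w.1 = x := congrArg Prod.fst h
    have h2 : (S.Φ t w).1 = y := congrArg Prod.snd h
    rw [← h1, ← h2, S.ker_apply hP κ ht hw, S.swap_rep hw,
      S.ker_apply hP κ ht (S.fl_UC (S.Φ_UC hw t)), hκ t ht w hw]
  · have h' : ¬ ∃ t ∈ Ioo 0 S.L, ∃ w ∈ S.UC, (w.1, (S.Φ t w).1) = (y, x) := by
      rintro ⟨t, ht, w, hw, h2⟩
      apply h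
      refine ⟨t, ht, fl (S.Φ t w), S.fl_UC (S.Φ_UC hw t), ?_⟩
      rw [← S.swap_rep hw]
      exact Prod.ext (Prod.ext_iff.1 h2).2 (Prod.ext_iff.1 h2).1
    push Not at h h'
    rw [S.ker_zero κ h, S.ker_zero κ h']

/-- kernels in polar coordinates -/
lemma ker_polar (hP : S.PropM) {p : V} (hp : p ∈ S.C) {κ : ℝ × (V × V) → ℝ≥0∞}
    (h : Measurable (S.ker κ)) (a : V → ℝ≥0∞) (ha : Measurable a) :
    ∫⁻ x, a x * S.ker κ (p, x) ∂S.ν = ∫⁻ θ in Ico 0 (2 * Real.pi), ∫⁻ t in Ioo 0 S.L,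
      a (S.Φ t (S.W p θ)).1 * κ (t, S.W p θ) * ENNReal.ofReal (S.J t (S.W p θ)) := by
  have h0 := S.polar hP hp (ha.mul (h.comp (measurable_prodMk_left (x := p))))
  simp only [Pi.mul_apply, Function.comp_apply] at h0
  rw [h0]
  apply lintegral_congr
  intro θ
  apply setLIntegral_congr_fun measurableSet_Ioo
  intro t ht
  simp only []
  rw [show ((p, (S.Φ t (S.W p θ)).1) : V × V) = ((S.W p θ).1, (S.Φ t (S.W p θ)).1) from rfl,
    S.ker_apply hP κ ht (S.W_UC hp θ)]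

lemma K_cont_geo {w : V × V} (hw : w ∈ S.UC) : Continuous (fun t => S.K (S.Φ t w).1) := by
  rw [← continuousOn_univ]
  exact S.K_contOn.comp (continuous_fst.comp (S.Φ_contt w)).continuousOn (fun t _ => S.geo_C hw t)

lemma J_cont_t {w : V × V} (hw : w ∈ S.UC) : Continuous (fun t => S.J t w) :=
  continuous_iff_continuousAt.2 fun t => ((S.J_Jac hw t).1).continuousAt

lemma J'_cont_t {w : V × V} (hw : w ∈ S.UC) : Continuous (fun t => S.J' t w) :=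
  continuous_iff_continuousAt.2 fun t => ((S.J_Jac hw t).2).continuousAt

lemma KJ_int (hP : S.PropM) {w : V × V} (hw : w ∈ S.UC) :
    ∫ t in (0:ℝ)..S.L, S.K (S.Φ t w).1 * S.J t w = 2 := by
  have h1 : ∀ t ∈ uIcc 0 S.L, HasDerivAt (fun t => -S.J' t w) (S.K (S.Φ t w).1 * S.J t w) t := by
    intro t _
    refine ((S.J_Jac hw t).2.fun_neg).congr_deriv ?_
    ring
  rw [intervalIntegral.integral_eq_sub_of_hasDerivAt h1
    (((S.K_cont_geo hw).mul (S.J_cont_t hw)).intervalIntegrable _ _), S.J'_L hP hw, S.J'_zero hw]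
  norm_num

/-! ### signs -/

lemma kn_unit_nonneg {w : V × V} (hw : w ∈ S.UC) : 0 ≤ S.kn w.1 w.2 := by
  by_contra hneg
  push Not at hneg
  set φ : ℝ → ℝ := fun t => ⟪S.N w.1, (S.Φ t w).1 - w.1⟫_ℝ with hφ
  have h1 : ∀ t, HasDerivAt φ ⟪S.N w.1, (S.Φ t w).2⟫_ℝ t := by
    intro t
    have := (hasDerivAt_const t (S.N w.1)).inner ℝ ((S.pos_deriv hw t).sub_const w.1)
    simpa using this
  have h2 : HasDerivAt (fun t => ⟪S.N w.1, (S.Φ t w).2⟫_ℝ) (-S.kn w.1 w.2) 0 := by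
    have := (hasDerivAt_const (0:ℝ) (S.N w.1)).inner ℝ (S.vel_deriv hw 0)
    simp only [S.Φ_zero] at this
    rw [inner_smul_right, real_inner_self_eq_norm_sq, S.N_norm hw.1, inner_zero_left] at this
    simpa using this
  have hd : deriv φ = fun t => ⟪S.N w.1, (S.Φ t w).2⟫_ℝ := funext fun t => (h1 t).deriv
  have hmin : IsLocalMin φ 0 := by
    apply isLocalMin_of_deriv_deriv_pos
    · rw [hd, h2.deriv]; linarith
    · rw [hd]; simp only [S.Φ_zero]; exact hw.2.1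
    · exact (h1 0).continuousAt
  have h0 : φ 0 = 0 := by simp only [hφ, S.Φ_zero, sub_self, inner_zero_right]
  have hle : ∀ t, φ t ≤ 0 := fun t => S.inner_N_le hw.1 (S.C_sub_B (S.geo_C hw t))
  have heq : φ =ᶠ[𝓝 0] fun _ => 0 := by
    filter_upwards [hmin] with t ht
    rw [h0] at ht
    exact le_antisymm (hle t) ht
  have h3 : deriv φ =ᶠ[𝓝 0] deriv (fun _ => (0:ℝ)) := heq.deriv
  have h4 : deriv (deriv φ) 0 = 0 := by
    rw [h3.deriv_eq]; simp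
  rw [hd, h2.deriv] at h4
  linarith

lemma kn_nonneg {x v : V} (hx : x ∈ S.C) (hv : ⟪S.N x, v⟫_ℝ = 0) : 0 ≤ S.kn x v := by
  rcases eq_or_ne v 0 with h | h
  · unfold kn; rw [h]; simp
  have hn : 0 < ‖v‖ := norm_pos_iff.2 h
  have hU : (x, ‖v‖⁻¹ • v) ∈ S.UC := by
    refine ⟨hx, ?_, ?_⟩
    · show ⟪S.N x, ‖v‖⁻¹ • v⟫_ℝ = 0
      rw [inner_smul_right, hv, mul_zero]
    · show ‖‖v‖⁻¹ • v‖ = 1
      rw [norm_smul, norm_inv, norm_norm, inv_mul_cancel₀ hn.ne']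
  have h1 := S.kn_unit_nonneg hU
  unfold kn at h1 ⊢
  simp only [map_smul, inner_smul_right, real_inner_smul_left] at h1
  have : ⟪fderiv ℝ S.N x v, v⟫_ℝ = ‖v‖ ^ 2 * (‖v‖⁻¹ * (‖v‖⁻¹ * ⟪fderiv ℝ S.N x v, v⟫_ℝ)) := by
    field_simp
  rw [this]
  positivity

lemma DN_symm {x a b : V} (hx : x ∈ S.C) (ha : ⟪S.N x, a⟫_ℝ = 0) (hb : ⟪S.N x, b⟫_ℝ = 0) :
    ⟪fderiv ℝ S.N x a, b⟫_ℝ = ⟪fderiv ℝ S.N x b, a⟫_ℝ := by
  have hgd : HasFDerivAt S.g (fderiv ℝ S.g x) x :=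
    (S.g_smooth.differentiable (by simp) x).hasFDerivAt
  -- Hessian
  have hH : ∀ u v : V, ⟪fderiv ℝ S.g x u, v⟫_ℝ = fderiv ℝ (fderiv ℝ S.f) x u v := by
    intro u v
    have h1 : HasFDerivAt (fun y => ⟪S.g y, v⟫_ℝ) _ x := hgd.inner ℝ (hasFDerivAt_const v x)
    have h2 : HasFDerivAt (fun y => fderiv ℝ S.f y v)
        ((ContinuousLinearMap.apply ℝ ℝ v).comp (fderiv ℝ (fderiv ℝ S.f) x)) x := by
      have h3 : Differentiable ℝ (fderiv ℝ S.f) :=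
        (S.smooth.fderiv_right (m := ∞) (by simp)).differentiable (by simp)
      exact (ContinuousLinearMap.apply ℝ ℝ v).hasFDerivAt.comp x (h3 x).hasFDerivAt
    have h4 : (fun y => ⟪S.g y, v⟫_ℝ) = fun y => fderiv ℝ S.f y v := funext fun y => S.inner_g y v
    rw [h4] at h1
    have h5 := congrArg (fun L : V →L[ℝ] ℝ => L u) (h1.unique h2)
    simpa [fderivInnerCLM_apply] using h5
  have hsym : ⟪fderiv ℝ S.g x a, b⟫_ℝ = ⟪fderiv ℝ S.g x b, a⟫_ℝ := by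
    rw [hH, hH]
    have hs : IsSymmSndFDerivAt ℝ S.f x := S.smooth.contDiffAt.isSymmSndFDerivAt (by
      rw [minSmoothness_of_isRCLikeNormedField]; exact WithTop.coe_le_coe.2 (le_top (a := (2:ℕ∞))))
    exact hs a b
  have hg0 := S.g_ne hx
  have hρ : HasFDerivAt (fun y => ‖S.g y‖) (fderiv ℝ (fun y => ‖S.g y‖) x) x := by
    have : DifferentiableAt ℝ (fun y => ‖S.g y‖) x :=
      (hgd.differentiableAt).norm ℝ hg0
    exact this.hasFDerivAt
  have hprod := hρ.smul (S.N_hasFDerivAt hx)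
  have hgeq : (fun y => ‖S.g y‖ • S.N y) = S.g := funext fun y => (S.g_eq y).symm
  have hprod' : HasFDerivAt (fun y => ‖S.g y‖ • S.N y) _ x := hprod
  rw [hgeq] at hprod'
  have hDg := hgd.unique hprod'
  have key : ∀ u v : V, ⟪S.N x, v⟫_ℝ = 0 → ⟪fderiv ℝ S.g x u, v⟫_ℝ = ‖S.g x‖ * ⟪fderiv ℝ S.N x u, v⟫_ℝ := by
    intro u v hv
    have h1 := congrArg (fun L : V →L[ℝ] V => L u) hDg
    simp only [add_apply, smul_apply,
      ContinuousLinearMap.smulRight_apply] at h1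
    rw [h1, inner_add_left, real_inner_smul_left, real_inner_smul_left, hv]
    ring
  rw [key a b hb, key b a ha] at hsym
  exact mul_left_cancel₀ (norm_ne_zero_iff.2 hg0) hsym

lemma K_nonneg {x : V} (hx : x ∈ S.C) : 0 ≤ S.K x := by
  have hw := S.dir_mem hx
  have hK := S.K_eq hw
  simp only at hK
  set e := S.dir x
  set m := cr (S.N x) e
  have he : ⟪S.N x, e⟫_ℝ = 0 := hw.2.1
  have hm : ⟪S.N x, m⟫_ℝ = 0 := inner_cr_left _ _
  have hs := S.DN_symm hx he hm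
  have hq : ∀ t : ℝ, 0 ≤ ⟪fderiv ℝ S.N x e, e⟫_ℝ * (t * t) + (2 * ⟪fderiv ℝ S.N x e, m⟫_ℝ) * t
      + ⟪fderiv ℝ S.N x m, m⟫_ℝ := by
    intro t
    have h1 := S.kn_nonneg hx (v := t • e + m) (by rw [inner_add_right, inner_smul_right, he, hm]; ring)
    unfold kn at h1
    simp only [map_add, map_smul, inner_add_left, inner_add_right, real_inner_smul_left,
      inner_smul_right] at h1
    rw [← hs] at h1
    linarith
  have h2 := discrim_le_zero hq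
  unfold discrim at h2
  rw [hK, ← hs]
  nlinarith

end Surf

end Pool.Agent.H864R2
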