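import Pool.Agent.H864R2.ConstK

set_option autoImplicit false
set_option linter.unusedVariables false
set_option linter.unusedSimpArgs false

open Set Metric Filter Topology MeasureTheory
open scoped ContDiff InnerProductSpace NNReal ENNReal

namespace Pool.Agent.H864R2

lemma swap_int {F : ℝ × ℝ → ℝ} (hF : Continuous F) {a b c d : ℝ} (hab : a ≤ b) (hcd : c ≤ d) :
    ∫ x in a..b, ∫ y in c..d, F (x, y) = ∫ y in c..d, ∫ x in a..b, F (x, y) := by
  simp only [intervalIntegral.integral_of_le hab, intervalIntegral.integral_of_le hcd]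
  apply integral_integral_swap (f := fun x y => F (x, y))
  rw [Measure.prod_restrict]
  have h1 : IntegrableOn F (Icc a b ×ˢ Icc c d) (volume : Measure (ℝ × ℝ)) :=
    hF.continuousOn.integrableOn_compact (isCompact_Icc.prod isCompact_Icc)
  exact h1.mono_set (prod_mono Ioc_subset_Icc_self Ioc_subset_Icc_self)

lemma zero_of_int_zero {f : ℝ → ℝ} (hf : Continuous f) {a b : ℝ} (hab : a < b)
    (h0 : ∀ x ∈ Icc a b, 0 ≤ f x) (hint : ∫ x in a..b, f x = 0) : ∀ x ∈ Icc a b, f x = 0 := by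
  have h1 : 0 ≤ᵐ[volume.restrict (Ioc a b)] f :=
    (ae_restrict_iff' measurableSet_Ioc).2 (Eventually.of_forall fun x hx => h0 x (Ioc_subset_Icc_self hx))
  have h2 := (intervalIntegral.integral_eq_zero_iff_of_le_of_nonneg_ae hab.le h1
    (hf.intervalIntegrable a b)).1 hint
  rw [Measure.restrict_congr_set Ioc_ae_eq_Icc] at h2
  have h3 := Measure.eqOn_Icc_of_ae_eq (μ := volume) hab.ne h2 hf.continuousOn continuousOn_const
  exact h3

/-- double integral version -/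
lemma zero_of_int_zero2 {F : ℝ × ℝ → ℝ} (hF : Continuous F) {a b c d : ℝ} (hab : a < b) (hcd : c < d)
    (h0 : ∀ x ∈ Icc a b, ∀ y ∈ Icc c d, 0 ≤ F (x, y))
    (hint : ∫ x in a..b, ∫ y in c..d, F (x, y) = 0) : ∀ x ∈ Icc a b, ∀ y ∈ Icc c d, F (x, y) = 0 := by
  have hg : Continuous (fun x => ∫ y in c..d, F (x, y)) :=
    intervalIntegral.continuous_parametric_intervalIntegral_of_continuous' (f := fun x y => F (x, y)) hF _ _
  have h1 := zero_of_int_zero hg hab (fun x hx =>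
    intervalIntegral.integral_nonneg hcd.le (fun y hy => h0 x hx y hy)) hint
  intro x hx
  exact zero_of_int_zero (hF.comp (Continuous.prodMk_right x)) hcd (h0 x hx) (h1 x hx)

lemma alg_id {T n N X m : V} {a b τ j k : ℝ} (h1 : cr T n = N) (h2 : cr n N = T) (h3 : cr N T = n)
    (hTT : ⟪T, T⟫_ℝ = 1) (hnn : ⟪n, n⟫_ℝ = 1) (hTn : ⟪T, n⟫_ℝ = 0) (hk : k ≠ 0) :
    (⟪X, cr (j • (n - k⁻¹ • (τ • T + b • n))) (a • T + τ • n) + cr m N⟫_ℝ +
      ⟪T, cr (j • (n - k⁻¹ • (τ • T + b • n))) N⟫_ℝ) -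
    (⟪X, cr (T - k⁻¹ • (a • T + τ • n)) (j • (τ • T + b • n)) + cr m N⟫_ℝ +
      ⟪j • n, cr (T - k⁻¹ • (a • T + τ • n)) N⟫_ℝ) =
    j * ((2 - (a + b) / k) + ⟪X, N⟫_ℝ * (2 * (a * b - τ ^ 2) / k - (a + b))) := by
  have h4 : cr n T = -N := by rw [cr_anti, h1]
  have h5 : cr T N = -n := by rw [cr_anti, h3]
  have e1 : cr (j • (n - k⁻¹ • (τ • T + b • n))) (a • T + τ • n) =
      (j * (-a + k⁻¹ * (a * b - τ ^ 2))) • N := by
    simp only [sub_eq_add_neg, ← neg_smul, cr_add_left, cr_add_right, cr_smul_left, cr_smul_right,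
      cr_self, h1, h4, cr_neg_left, smul_add, smul_neg, smul_smul, smul_zero]
    module
  have e2 : cr (j • (n - k⁻¹ • (τ • T + b • n))) N = (j * (1 - b * k⁻¹)) • T + (j * k⁻¹ * τ) • n := by
    simp only [sub_eq_add_neg, ← neg_smul, cr_add_left, cr_add_right, cr_smul_left, cr_smul_right,
      cr_self, h2, h5, cr_neg_left, smul_add, smul_neg, smul_smul, smul_zero]
    module
  have e3 : cr (T - k⁻¹ • (a • T + τ • n)) (j • (τ • T + b • n)) =
      (j * (b - k⁻¹ * (a * b - τ ^ 2))) • N := by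
    simp only [sub_eq_add_neg, ← neg_smul, cr_add_left, cr_add_right, cr_smul_left, cr_smul_right,
      cr_self, h1, h4, cr_neg_left, smul_add, smul_neg, smul_smul, smul_zero]
    module
  have e4 : cr (T - k⁻¹ • (a • T + τ • n)) N = (-1 + a * k⁻¹) • n + (-(k⁻¹ * τ)) • T := by
    simp only [sub_eq_add_neg, ← neg_smul, cr_add_left, cr_add_right, cr_smul_left, cr_smul_right,
      cr_self, h2, h5, cr_neg_left, smul_add, smul_neg, smul_smul, smul_zero]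
    module
  have hnT : ⟪n, T⟫_ℝ = 0 := by rw [real_inner_comm]; exact hTn
  rw [e1, e2, e3, e4]
  simp only [inner_add_right, inner_smul_right, real_inner_smul_left, hTT, hnn, hTn, hnT]
  field_simp
  ring

namespace Surf

variable (S : Surf)

attribute [local irreducible] K N

/-- position, normal, central map in polar coordinates -/
noncomputable def xx (p : V) (q : ℝ × ℝ) : V := (S.Φ q.1 (S.W p q.2)).1
noncomputable def NN (p : V) (q : ℝ × ℝ) : V := S.N (S.xx p q)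
noncomputable def ZZ (p : V) (q : ℝ × ℝ) : V := S.xx p q - p - (S.kk)⁻¹ • S.NN p q

lemma xx_smooth (p : V) : ContDiff ℝ ∞ (S.xx p) := contDiff_fst.comp (S.G_smooth (S.W_smooth p))

lemma xx_C {p : V} (hp : p ∈ S.C) (q : ℝ × ℝ) : S.xx p q ∈ S.C := S.geo_C (S.W_UC hp q.2) q.1

lemma NN_smooth {p : V} (hp : p ∈ S.C) : ContDiff ℝ ∞ (S.NN p) := by
  rw [contDiff_iff_contDiffAt]
  intro q
  exact ContDiffAt.comp (g := S.N) (f := S.xx p) q (S.N_contDiffAt (S.g_ne (S.xx_C hp q)))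
    (S.xx_smooth p).contDiffAt

lemma ZZ_smooth {p : V} (hp : p ∈ S.C) : ContDiff ℝ ∞ (S.ZZ p) :=
  ((S.xx_smooth p).sub contDiff_const).sub ((S.NN_smooth hp).const_smul _)

noncomputable def QQ (p : V) (q : ℝ × ℝ) : ℝ :=
  ⟪S.xx p q - p, cr (fderiv ℝ (S.ZZ p) q (0, 1)) (S.NN p q)⟫_ℝ
noncomputable def PP (p : V) (q : ℝ × ℝ) : ℝ :=
  ⟪S.xx p q - p, cr (fderiv ℝ (S.ZZ p) q (1, 0)) (S.NN p q)⟫_ℝ

lemma QQ_smooth {p : V} (hp : p ∈ S.C) : ContDiff ℝ ∞ (S.QQ p) := by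
  have h1 : ContDiff ℝ ∞ (fderiv ℝ (S.ZZ p)) := (S.ZZ_smooth hp).fderiv_right (m := ∞) (by simp)
  exact ((S.xx_smooth p).sub contDiff_const).inner ℝ
    (contDiff_cr (h1.clm_apply contDiff_const) (S.NN_smooth hp))

lemma PP_smooth {p : V} (hp : p ∈ S.C) : ContDiff ℝ ∞ (S.PP p) := by
  have h1 : ContDiff ℝ ∞ (fderiv ℝ (S.ZZ p)) := (S.ZZ_smooth hp).fderiv_right (m := ∞) (by simp)
  exact ((S.xx_smooth p).sub contDiff_const).inner ℝ
    (contDiff_cr (h1.clm_apply contDiff_const) (S.NN_smooth hp))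

/-- first derivatives -/
lemma xx_t {p : V} (hp : p ∈ S.C) (t θ : ℝ) :
    HasDerivAt (fun t => S.xx p (t, θ)) (S.Φ t (S.W p θ)).2 t := S.pos_deriv (S.W_UC hp θ) t

lemma xx_θ {p : V} (hp : p ∈ S.C) (t θ : ℝ) : HasDerivAt (fun θ => S.xx p (t, θ))
    (S.J t (S.W p θ) • cr (S.N (S.Φ t (S.W p θ)).1) (S.Φ t (S.W p θ)).2) θ := S.E_θ hp t θ

lemma NN_t {p : V} (hp : p ∈ S.C) (t θ : ℝ) :
    HasDerivAt (fun t => S.NN p (t, θ)) (fderiv ℝ S.N (S.xx p (t, θ)) (S.Φ t (S.W p θ)).2) t := by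
  have h := (S.N_hasFDerivAt (S.xx_C hp (t, θ))).comp_hasDerivAt t (S.xx_t hp t θ)
  exact h

lemma NN_θ {p : V} (hp : p ∈ S.C) (t θ : ℝ) :
    HasDerivAt (fun θ => S.NN p (t, θ)) (S.J t (S.W p θ) • fderiv ℝ S.N (S.xx p (t, θ))
      (cr (S.N (S.Φ t (S.W p θ)).1) (S.Φ t (S.W p θ)).2)) θ := by
  have h := (S.N_hasFDerivAt (S.xx_C hp (t, θ))).comp_hasDerivAt θ (S.xx_θ hp t θ)
  rw [map_smul] at h
  exact h

lemma ZZ_t {p : V} (hp : p ∈ S.C) (t θ : ℝ) : fderiv ℝ (S.ZZ p) (t, θ) (1, 0) =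
    (S.Φ t (S.W p θ)).2 - (S.kk)⁻¹ • fderiv ℝ S.N (S.xx p (t, θ)) (S.Φ t (S.W p θ)).2 := by
  have h1 := pd1 ((S.ZZ_smooth hp).differentiable (by simp)) t θ
  have h2 := ((S.xx_t hp t θ).sub_const p).sub ((S.NN_t hp t θ).const_smul (S.kk)⁻¹)
  exact h1.unique h2

lemma ZZ_θ {p : V} (hp : p ∈ S.C) (t θ : ℝ) : fderiv ℝ (S.ZZ p) (t, θ) (0, 1) =
    S.J t (S.W p θ) • (cr (S.N (S.Φ t (S.W p θ)).1) (S.Φ t (S.W p θ)).2 -
    (S.kk)⁻¹ • fderiv ℝ S.N (S.xx p (t, θ)) (cr (S.N (S.Φ t (S.W p θ)).1) (S.Φ t (S.W p θ)).2)) := by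
  have h1 := pd2 ((S.ZZ_smooth hp).differentiable (by simp)) t θ
  have h2 := ((S.xx_θ hp t θ).sub_const p).sub ((S.NN_θ hp t θ).const_smul (S.kk)⁻¹)
  rw [h1.unique h2]
  module

/-- the exterior derivative identity -/
lemma curl_id (hP : S.PropM) {p : V} (hp : p ∈ S.C) (t θ : ℝ) :
    ∃ a b τ : ℝ, 0 ≤ a ∧ 0 ≤ b ∧ a * b - τ ^ 2 = S.kk ^ 2 ∧
      fderiv ℝ S.N (S.xx p (t, θ)) (S.Φ t (S.W p θ)).2 = a • (S.Φ t (S.W p θ)).2 +
        τ • cr (S.N (S.Φ t (S.W p θ)).1) (S.Φ t (S.W p θ)).2 ∧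
      fderiv ℝ (S.QQ p) (t, θ) (1, 0) - fderiv ℝ (S.PP p) (t, θ) (0, 1) =
        S.J t (S.W p θ) * ((2 - (a + b) / S.kk) * (1 + S.kk * ⟪S.xx p (t, θ) - p, S.NN p (t, θ)⟫_ℝ)) := by
  have hk := S.kk_pos
  have hU := S.Φ_UC (S.W_UC hp θ) t
  have hKc := S.K_const hP hU.1
  have hKe := S.K_eq hU
  rw [hKc] at hKe
  obtain ⟨d1, d2⟩ := mixed (S.ZZ_smooth hp) t θ
  have hQ := pd1 ((S.QQ_smooth hp).differentiable (by simp)) t θ
  have hPd := pd2 ((S.PP_smooth hp).differentiable (by simp)) t θ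
  have hxt := (S.xx_t hp t θ).sub_const p
  have hxθ := (S.xx_θ hp t θ).sub_const p
  have hNt := S.NN_t hp t θ
  have hNθ := S.NN_θ hp t θ
  have hQ' := hQ.unique (hxt.inner ℝ (HasDerivAt.crV d1 hNt))
  have hP' := hPd.unique (hxθ.inner ℝ (HasDerivAt.crV d2 hNθ))
  rw [hQ', hP', S.ZZ_t hp, S.ZZ_θ hp]
  have hx : S.xx p (t, θ) = (S.Φ t (S.W p θ)).1 := rfl
  have hN : S.NN p (t, θ) = S.N (S.Φ t (S.W p θ)).1 := rfl
  set T := (S.Φ t (S.W p θ)).2 with hT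
  set N1 := S.N (S.Φ t (S.W p θ)).1 with hN1
  set n := cr N1 T with hn
  set j := S.J t (S.W p θ) with hj
  have hTT : ⟪T, T⟫_ℝ = 1 := by rw [real_inner_self_eq_norm_sq, hU.2.2]; norm_num
  have hnn : ⟪n, n⟫_ℝ = 1 := by
    rw [real_inner_self_eq_norm_sq, S.n_norm (S.W_UC hp θ) t]; norm_num
  have hTn : ⟪T, n⟫_ℝ = 0 := inner_cr_right _ _
  have hNT : ⟪N1, T⟫_ℝ = 0 := hU.2.1
  have hNn : ⟪N1, n⟫_ℝ = 0 := inner_cr_left _ _
  have g1 : cr T n = N1 := by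
    have hNT' : ⟪T, N1⟫_ℝ = 0 := by rw [real_inner_comm]; exact hNT
    rw [hn, cr_cr, hNT', hTT]; simp
  have g2 : cr n N1 = T := by
    rw [cr_anti, S.cr_N_n hU, neg_neg]
  set A := fderiv ℝ S.N (S.Φ t (S.W p θ)).1 with hA
  have hAT : A T = ⟪A T, T⟫_ℝ • T + ⟪A T, n⟫_ℝ • n := S.tan_expand hU (S.DN_perp hU.1 T)
  have hAn : A n = ⟪A T, n⟫_ℝ • T + ⟪A n, n⟫_ℝ • n := by
    have h1 : A n = ⟪A n, T⟫_ℝ • T + ⟪A n, n⟫_ℝ • n := S.tan_expand hU (S.DN_perp hU.1 n)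
    have h2 : ⟪A n, T⟫_ℝ = ⟪A T, n⟫_ℝ := (S.DN_symm hU.1 hNT hNn).symm
    rw [h2] at h1
    exact h1
  have hsym : ⟪A n, T⟫_ℝ = ⟪A T, n⟫_ℝ := (S.DN_symm hU.1 hNT hNn).symm
  have ha : 0 ≤ ⟪A T, T⟫_ℝ := S.kn_nonneg hU.1 hNT
  have hb : 0 ≤ ⟪A n, n⟫_ℝ := S.kn_nonneg hU.1 hNn
  have hK2 : ⟪A T, T⟫_ℝ * ⟪A n, n⟫_ℝ - ⟪A T, n⟫_ℝ ^ 2 = S.kk ^ 2 := by
    rw [hKe, hsym]; ring
  refine ⟨⟪A T, T⟫_ℝ, ⟪A n, n⟫_ℝ, ⟪A T, n⟫_ℝ, ha, hb, hK2, ?_, ?_⟩
  · rw [hx]; exact hAT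
  · have key := alg_id (X := S.xx p (t, θ) - p)
      (m := fderiv ℝ (fderiv ℝ (S.ZZ p)) (t, θ) (1, 0) (0, 1)) (a := ⟪A T, T⟫_ℝ) (b := ⟪A n, n⟫_ℝ)
      (τ := ⟪A T, n⟫_ℝ) (j := j) (k := S.kk) g1 g2 hn.symm hTT hnn hTn hk.ne'
    rw [← hAT, ← hAn, hK2] at key
    rw [hN]
    rw [show S.J t (S.W p θ) = j from rfl] at *
    rw [hx] at key ⊢
    rw [key]
    field_simp

lemma R_zero (hP : S.PropM) {p : V} (hp : p ∈ S.C) : ∀ θ ∈ Icc 0 (2 * Real.pi), ∀ t ∈ Icc 0 S.L,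
    fderiv ℝ (S.QQ p) (t, θ) (1, 0) - fderiv ℝ (S.PP p) (t, θ) (0, 1) = 0 := by
  have hk := S.kk_pos
  have hL := S.L_pos
  have h2pi : (0:ℝ) < 2 * Real.pi := by positivity
  have hQc : Continuous (fun q : ℝ × ℝ => fderiv ℝ (S.QQ p) q (1, 0)) :=
    ((S.QQ_smooth hp).continuous_fderiv (by simp)).clm_apply continuous_const
  have hPc : Continuous (fun q : ℝ × ℝ => fderiv ℝ (S.PP p) q (0, 1)) :=
    ((S.PP_smooth hp).continuous_fderiv (by simp)).clm_apply continuous_const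
  have hswap : Continuous (fun q : ℝ × ℝ => ((q.2, q.1) : ℝ × ℝ)) := continuous_snd.prodMk continuous_fst
  have hQs : Continuous (fun q : ℝ × ℝ => fderiv ℝ (S.QQ p) (q.2, q.1) (1, 0)) := hQc.comp hswap
  have hPs : Continuous (fun q : ℝ × ℝ => fderiv ℝ (S.PP p) (q.2, q.1) (0, 1)) := hPc.comp hswap
  have hJ0 : ∀ θ, S.J 0 (S.W p θ) = 0 := fun θ => S.J_zero (S.W_UC hp θ)
  have hJL : ∀ θ, S.J S.L (S.W p θ) = 0 := fun θ => S.J_L hP (S.W_UC hp θ)
  have hJnn : ∀ θ, ∀ t ∈ Icc 0 S.L, 0 ≤ S.J t (S.W p θ) := by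
    intro θ t ht
    rcases eq_or_lt_of_le ht.1 with h | h
    · rw [← h, hJ0]
    rcases eq_or_lt_of_le ht.2 with h' | h'
    · rw [h', hJL]
    exact (S.J_pos' hP (S.W_UC hp θ) h h').le
  have hQ1 : ∀ θ, ∫ t in (0:ℝ)..S.L, fderiv ℝ (S.QQ p) (t, θ) (1, 0) = 0 := by
    intro θ
    rw [intervalIntegral.integral_eq_sub_of_hasDerivAt
      (fun t _ => pd1 ((S.QQ_smooth hp).differentiable (by simp)) t θ)
      ((hQc.comp (Continuous.prodMk_left θ)).intervalIntegrable _ _)]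
    unfold QQ
    rw [S.ZZ_θ hp, S.ZZ_θ hp, hJ0, hJL]
    simp only [zero_smul, cr_zero_left, inner_zero_right, sub_self]
  have hP1 : ∀ t, ∫ θ in (0:ℝ)..(2 * Real.pi), fderiv ℝ (S.PP p) (t, θ) (0, 1) = 0 := by
    intro t
    rw [intervalIntegral.integral_eq_sub_of_hasDerivAt
      (fun θ _ => pd2 ((S.PP_smooth hp).differentiable (by simp)) t θ)
      ((hPc.comp (Continuous.prodMk_right t)).intervalIntegrable _ _)]
    have hW : S.W p (2 * Real.pi) = S.W p 0 := by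
      have := S.W_period p 0
      rwa [zero_add] at this
    unfold PP
    rw [S.ZZ_t hp, S.ZZ_t hp]
    unfold NN xx
    simp only [hW, sub_self]
  have hint : ∫ θ in (0:ℝ)..(2 * Real.pi), ∫ t in (0:ℝ)..S.L,
      (-(fderiv ℝ (S.QQ p) (t, θ) (1, 0) - fderiv ℝ (S.PP p) (t, θ) (0, 1))) = 0 := by
    have h1 : ∀ θ, ∫ t in (0:ℝ)..S.L,
        (-(fderiv ℝ (S.QQ p) (t, θ) (1, 0) - fderiv ℝ (S.PP p) (t, θ) (0, 1))) =
        ∫ t in (0:ℝ)..S.L, fderiv ℝ (S.PP p) (t, θ) (0, 1) := by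
      intro θ
      have i1 : IntervalIntegrable (fun t => fderiv ℝ (S.QQ p) (t, θ) (1, 0)) volume 0 S.L :=
        (hQc.comp (Continuous.prodMk_left θ)).intervalIntegrable _ _
      have i2 : IntervalIntegrable (fun t => fderiv ℝ (S.PP p) (t, θ) (0, 1)) volume 0 S.L :=
        (hPc.comp (Continuous.prodMk_left θ)).intervalIntegrable _ _
      rw [intervalIntegral.integral_neg, intervalIntegral.integral_sub i1 i2, hQ1 θ]
      ring
    simp only [h1]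
    rw [swap_int hPs h2pi.le hL.le]
    simp only [hP1, intervalIntegral.integral_zero]
  have hle : ∀ θ ∈ Icc 0 (2 * Real.pi), ∀ t ∈ Icc 0 S.L,
      0 ≤ -(fderiv ℝ (S.QQ p) (t, θ) (1, 0) - fderiv ℝ (S.PP p) (t, θ) (0, 1)) := by
    intro θ _ t ht
    obtain ⟨a, b, τ, ha, hb, hab, -, hR⟩ := S.curl_id hP hp t θ
    rw [hR]
    have hh : 0 ≤ ⟪S.xx p (t, θ) - p, S.NN p (t, θ)⟫_ℝ := by
      have h1 := S.inner_N_le (S.xx_C hp (t, θ)) (S.C_sub_B hp)
      rw [← neg_sub p, inner_neg_left, real_inner_comm]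
      unfold NN
      linarith
    have hsum : 2 * S.kk ≤ a + b := by
      nlinarith [sq_nonneg (a - b), sq_nonneg τ]
    have h2 : 2 - (a + b) / S.kk ≤ 0 := by
      rw [sub_nonpos, le_div_iff₀ hk]; exact hsum
    have h3 : 0 ≤ 1 + S.kk * ⟪S.xx p (t, θ) - p, S.NN p (t, θ)⟫_ℝ := by positivity
    have h4 : (2 - (a + b) / S.kk) * (1 + S.kk * ⟪S.xx p (t, θ) - p, S.NN p (t, θ)⟫_ℝ) ≤ 0 :=
      mul_nonpos_of_nonpos_of_nonneg h2 h3
    have h5 := mul_nonpos_of_nonneg_of_nonpos (hJnn θ t ht) h4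
    linarith
  have hfin := zero_of_int_zero2 (F := fun q : ℝ × ℝ =>
    -(fderiv ℝ (S.QQ p) (q.2, q.1) (1, 0) - fderiv ℝ (S.PP p) (q.2, q.1) (0, 1)))
    (hQs.sub hPs).neg h2pi hL hle hint
  intro θ hθ t ht
  have := hfin θ hθ t ht
  simp only [] at this
  linarith

lemma umbilic (hP : S.PropM) {p : V} (hp : p ∈ S.C) {θ t : ℝ} (hθ : θ ∈ Icc 0 (2 * Real.pi))
    (ht : t ∈ Ioo 0 S.L) : fderiv ℝ S.N (S.xx p (t, θ)) (S.Φ t (S.W p θ)).2 =
      S.kk • (S.Φ t (S.W p θ)).2 := by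
  have hk := S.kk_pos
  obtain ⟨a, b, τ, ha, hb, hab, hA, hR⟩ := S.curl_id hP hp t θ
  rw [S.R_zero hP hp θ hθ t (Ioo_subset_Icc_self ht)] at hR
  have hJ := S.J_pos' hP (S.W_UC hp θ) ht.1 ht.2
  have hh : 0 ≤ ⟪S.xx p (t, θ) - p, S.NN p (t, θ)⟫_ℝ := by
    have h1 := S.inner_N_le (S.xx_C hp (t, θ)) (S.C_sub_B hp)
    rw [← neg_sub p, inner_neg_left, real_inner_comm]
    unfold NN
    linarith
  have h3 : 0 < 1 + S.kk * ⟪S.xx p (t, θ) - p, S.NN p (t, θ)⟫_ℝ := by positivity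
  have h4 : 2 - (a + b) / S.kk = 0 := by
    rcases mul_eq_zero.1 hR.symm with h | h
    · exact absurd h hJ.ne'
    · rcases mul_eq_zero.1 h with h | h
      · exact h
      · exact absurd h h3.ne'
  have hsum : a + b = 2 * S.kk := by
    field_simp at h4
    linarith
  have hsq : (a - b) ^ 2 + 4 * τ ^ 2 = 0 := by
    have : (a + b) ^ 2 = 4 * S.kk ^ 2 := by rw [hsum]; ring
    nlinarith
  have hτ : τ = 0 := by nlinarith [sq_nonneg (a - b), sq_nonneg τ]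
  have hd : a = b := by nlinarith [sq_nonneg (a - b), sq_nonneg τ]
  have ha' : a = S.kk := by linarith
  rw [hA, hτ, ha', zero_smul, add_zero]

lemma N_rel (hP : S.PropM) {p x : V} (hp : p ∈ S.C) (hx : x ∈ S.C) :
    S.N x - S.kk • x = S.N p - S.kk • p := by
  have hL := S.L_pos
  obtain ⟨w, hw, h1, h2⟩ := S.exists_Mn hp hx
  obtain ⟨θ, hθ, hW⟩ := S.exists_W (p := p) (v := w.2) (by rw [← h1]; exact hw)
  have hW' : S.W p θ = w := by rw [hW, ← h1]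
  rw [← hW'] at h2
  set f : ℝ → V := fun t => S.NN p (t, θ) - S.kk • S.xx p (t, θ) with hf
  have hfd : ∀ t ∈ Ioo 0 S.L, HasDerivAt f 0 t := by
    intro t ht
    have h3 := (S.NN_t hp t θ).sub ((S.xx_t hp t θ).const_smul S.kk)
    rw [S.umbilic hP hp (Ico_subset_Icc_self hθ) ht, sub_self] at h3
    exact h3
  have hfc : Continuous f := by
    have a1 : Continuous (fun t : ℝ => S.NN p (t, θ)) :=
      (S.NN_smooth hp).continuous.comp (Continuous.prodMk_left θ)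
    have a2 : Continuous (fun t : ℝ => S.xx p (t, θ)) :=
      (S.xx_smooth p).continuous.comp (Continuous.prodMk_left θ)
    have a3 : Continuous (fun t : ℝ => S.kk • S.xx p (t, θ)) := a2.const_smul S.kk
    exact a1.sub a3
  have hm : S.L / 2 ∈ Ioo 0 S.L := ⟨by linarith, by linarith⟩
  have hconst : EqOn f (fun _ => f (S.L / 2)) (Ioo 0 S.L) := by
    intro t ht
    exact isOpen_Ioo.is_const_of_deriv_eq_zero isPreconnected_Ioo
      (fun s hs => (hfd s hs).differentiableAt.differentiableWithinAt)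
      (fun s hs => (hfd s hs).deriv) ht hm
  have hcl := hconst.closure hfc continuous_const
  rw [closure_Ioo hL.ne] at hcl
  have hd : S.d p x ∈ Icc 0 S.L := ⟨S.d_nonneg _ _, by
    rw [← S.ell_L hP hp]; exact S.d_le_ell hp hx⟩
  have e1 := hcl hd
  have e2 := hcl (⟨le_rfl, hL.le⟩ : (0:ℝ) ∈ Icc 0 S.L)
  have e3 : f (S.d p x) = f 0 := by rw [e1, e2]
  have x0 : S.xx p (0, θ) = p := by unfold xx; simp only [S.Φ_zero, S.W_fst]
  have xd : S.xx p (S.d p x, θ) = x := h2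
  simp only [hf, NN, x0, xd] at e3
  exact e3

/-- all points lie on one sphere -/
lemma on_sphere (hP : S.PropM) : ∃ c : V, ∃ r : ℝ, 0 < r ∧ ∀ x ∈ S.C, ‖x - c‖ = r := by
  obtain ⟨p, hp⟩ := S.C_nonempty
  have hk := S.kk_pos
  refine ⟨p - (S.kk)⁻¹ • S.N p, (S.kk)⁻¹, inv_pos.2 hk, fun x hx => ?_⟩
  have h := S.N_rel hP hp hx
  have h2 : x - (p - (S.kk)⁻¹ • S.N p) = (S.kk)⁻¹ • S.N x := by
    have h3 : S.N x = S.N p - S.kk • p + S.kk • x := by rw [← h]; abel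
    rw [h3, smul_add, smul_sub, smul_smul, smul_smul, inv_mul_cancel₀ hk.ne', one_smul, one_smul]
    abel
  rw [h2, norm_smul, S.N_norm hx, mul_one, Real.norm_eq_abs, abs_of_pos (inv_pos.2 hk)]

/-- a closed convex surface contained in a sphere is that sphere -/
lemma eq_sphere {c : V} {r : ℝ} (hr : 0 < r) (h : ∀ x ∈ S.C, ‖x - c‖ = r) :
    S.C = sphere c r := by
  have hBcl : IsClosed S.B := S.cpt.isClosed
  -- B ⊆ closedBall
  have h1 : S.B ⊆ closedBall c r := by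
    obtain ⟨y, hy, hmax⟩ := S.cpt.exists_isMaxOn S.B_nonempty
      (f := fun y => ‖y - c‖) (by fun_prop)
    have hyr : ‖y - c‖ ≤ r := by
      by_contra hcon
      push Not at hcon
      have hyi : y ∈ interior S.B := by
        have : y ∉ frontier S.B := by
          rw [S.frontier_B]
          intro hyC
          exact absurd (h y hyC) hcon.ne'
        rw [hBcl.frontier_eq] at this
        by_contra hni
        exact this ⟨hy, hni⟩
      have h2 : ∀ᶠ s in 𝓝 (0:ℝ), y + s • (y - c) ∈ S.B := by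
        have h3 : Tendsto (fun s : ℝ => y + s • (y - c)) (𝓝 0) (𝓝 y) := by
          have : Continuous (fun s : ℝ => y + s • (y - c)) := by fun_prop
          exact this.tendsto' 0 y (by simp)
        exact h3 (mem_interior_iff_mem_nhds.1 hyi)
      have h4 : ∀ᶠ s in 𝓝[>] (0:ℝ), y + s • (y - c) ∈ S.B := h2.filter_mono nhdsWithin_le_nhds
      obtain ⟨s, hs1, hs2⟩ := (h4.and self_mem_nhdsWithin).exists
      have hs0 : (0:ℝ) < s := hs2
      have h5 : ‖y + s • (y - c) - c‖ ≤ ‖y - c‖ := hmax hs1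
      have h6 : y + s • (y - c) - c = (1 + s) • (y - c) := by module
      rw [h6, norm_smul, Real.norm_eq_abs, abs_of_pos (by linarith)] at h5
      have h7 : 0 < ‖y - c‖ := hr.trans hcon
      nlinarith
    intro z hz
    rw [mem_closedBall_iff_norm]
    exact (hmax hz).trans hyr
  -- ball ⊆ B
  have h2 : ball c r ⊆ S.B := by
    have hpre : IsPreconnected (ball c r) := (convex_ball c r).isPreconnected
    have hne : (ball c r ∩ interior S.B).Nonempty := by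
      have h3 : interior S.B ⊆ ball c r := by
        have := interior_mono h1
        rwa [interior_closedBall c hr.ne'] at this
      exact ⟨S.o, h3 S.o_int, S.o_int⟩
    have hcov : ball c r ⊆ interior S.B ∪ (S.B)ᶜ := by
      intro z hz
      by_cases hzB : z ∈ S.B
      · left
        by_contra hni
        have : z ∈ frontier S.B := by rw [hBcl.frontier_eq]; exact ⟨hzB, hni⟩
        rw [S.frontier_B] at this
        have h4 := h z this
        rw [mem_ball_iff_norm] at hz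
        linarith
      · right; exact hzB
    intro z hz
    by_contra hzB
    obtain ⟨y, -, hy1, hy2⟩ := hpre _ _ isOpen_interior hBcl.isOpen_compl hcov hne ⟨z, hz, hzB⟩
    exact hy2 (interior_subset hy1)
  have h3 : S.B = closedBall c r := by
    apply Subset.antisymm h1
    rw [← closure_ball c hr.ne']
    exact hBcl.closure_subset_iff.2 h2
  rw [← S.frontier_B, h3, frontier_closedBall c hr.ne']

end Surf

end Pool.Agent.H864R2
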