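import Pool.Agent.H864R2.Cone

set_option autoImplicit false
set_option linter.unusedVariables false

open Set Metric Filter Topology MeasureTheory
open scoped ContDiff InnerProductSpace NNReal ENNReal

namespace Pool.Agent.H864R2

/-- coordinates -/
noncomputable def Le : (ℝ × ℝ × ℝ) ≃L[ℝ] V :=
  LinearEquiv.toContinuousLinearEquiv
    { toFun := fun q => !₂[q.1, q.2.1, q.2.2]
      invFun := fun v => (v 0, v 1, v 2)
      left_inv := fun q => by simp
      right_inv := fun v => by apply ext3 <;> simp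
      map_add' := fun q r => by apply ext3 <;> simp
      map_smul' := fun c q => by apply ext3 <;> simp }

@[simp] lemma Le_0 (q : ℝ × ℝ × ℝ) : Le q 0 = q.1 := rfl
@[simp] lemma Le_1 (q : ℝ × ℝ × ℝ) : Le q 1 = q.2.1 := rfl
@[simp] lemma Le_2 (q : ℝ × ℝ × ℝ) : Le q 2 = q.2.2 := rfl

/-- reference measure -/
noncomputable def μV : Measure V := Measure.map Le (volume : Measure (ℝ × ℝ × ℝ))

instance vol2 : (volume : Measure (ℝ × ℝ)).IsAddHaarMeasure :=
  Measure.prod.instIsAddHaarMeasure volume volume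

instance vol3 : (volume : Measure (ℝ × ℝ × ℝ)).IsAddHaarMeasure :=
  Measure.prod.instIsAddHaarMeasure volume volume

instance : (μV).IsAddHaarMeasure := ContinuousLinearEquiv.isAddHaarMeasure_map Le volume

lemma line_null {a b : V} : μV (line[ℝ, a, b] : AffineSubspace ℝ V) = 0 := by
  apply Measure.addHaar_affineSubspace
  intro h
  have h1 : Module.finrank ℝ (line[ℝ, a, b]).direction ≤ 1 := by
    rw [direction_affineSpan, vectorSpan_pair]
    exact (finrank_span_le_card _).trans (by simp)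
  rw [h, AffineSubspace.direction_top, finrank_top] at h1
  simp at h1

namespace Surf

variable (S : Surf)

/-- cone parametrisation by polar coordinates at `p` -/
noncomputable def Fc (p : V) (u : V) : V :=
  S.o + u 0 • ((S.Φ (u 2) (S.W p (u 1))).1 - S.o)

lemma Fc_smooth (p : V) : ContDiff ℝ ∞ (S.Fc p) := by
  have hc : ∀ i : Fin 3, ContDiff ℝ ∞ (fun u : V => u i) := fun i =>
    (EuclideanSpace.proj (𝕜 := ℝ) i).contDiff
  have h1 : ContDiff ℝ ∞ (fun u : V => (S.G (S.W p) (u 2, u 1)).1) :=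
    contDiff_fst.comp ((S.G_smooth (S.W_smooth p)).comp ((hc 2).prodMk (hc 1)))
  exact contDiff_const.add ((hc 0).smul (h1.sub contDiff_const))

lemma Fc_det {p : V} (hp : p ∈ S.C) (u : V) : (fderiv ℝ (S.Fc p) u).det =
    -((u 0) ^ 2 * (S.J (u 2) (S.W p (u 1)) * S.hs (S.Φ (u 2) (S.W p (u 1))).1)) := by
  have hd : HasFDerivAt (S.Fc p) (fderiv ℝ (S.Fc p) u) u :=
    ((S.Fc_smooth p).differentiable (by simp) u).hasFDerivAt
  have hline : ∀ i : Fin 3, HasDerivAt (fun s : ℝ => S.Fc p (u + s • EuclideanSpace.single i 1))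
      (fderiv ℝ (S.Fc p) u (EuclideanSpace.single i 1)) 0 := by
    intro i
    have h1 : HasDerivAt (fun s : ℝ => u + s • (EuclideanSpace.single i 1 : V))
        ((1:ℝ) • (EuclideanSpace.single i 1 : V)) 0 :=
      ((hasDerivAt_id (0:ℝ)).smul_const _).const_add u
    rw [one_smul] at h1
    have h2 : HasFDerivAt (S.Fc p) (fderiv ℝ (S.Fc p) u) (u + (0:ℝ) • (EuclideanSpace.single i 1 : V)) := by
      simpa using hd
    have h3 := h2.comp_hasDerivAt (0:ℝ) h1
    exact h3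
  have hW := S.W_UC hp
  have hU := S.Φ_UC (hW (u 1)) (u 2)
  -- three columns
  have c0 : fderiv ℝ (S.Fc p) u (EuclideanSpace.single 0 1) = (S.Φ (u 2) (S.W p (u 1))).1 - S.o := by
    apply (hline 0).unique
    have h1 : (fun s : ℝ => S.Fc p (u + s • EuclideanSpace.single 0 1)) =
        fun s => S.o + (u 0 + s) • ((S.Φ (u 2) (S.W p (u 1))).1 - S.o) := by
      funext s; simp [Fc]
    rw [h1]
    have h2 := (((hasDerivAt_id (0:ℝ)).const_add (u 0)).smul_const
      ((S.Φ (u 2) (S.W p (u 1))).1 - S.o)).const_add S.o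
    rw [one_smul] at h2
    exact h2
  have c1 : fderiv ℝ (S.Fc p) u (EuclideanSpace.single 1 1) =
      u 0 • (S.J (u 2) (S.W p (u 1)) • cr (S.N (S.Φ (u 2) (S.W p (u 1))).1) (S.Φ (u 2) (S.W p (u 1))).2) := by
    apply (hline 1).unique
    have h1 : (fun s : ℝ => S.Fc p (u + s • EuclideanSpace.single 1 1)) =
        fun s => S.o + (u 0) • ((S.Φ (u 2) (S.W p (u 1 + s))).1 - S.o) := by
      funext s; simp [Fc]
    rw [h1]
    have h3 : HasDerivAt (fun s : ℝ => u 1 + s) 1 0 := (hasDerivAt_id (0:ℝ)).const_add (u 1)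
    have h4 := (S.E_θ hp (u 2) (u 1 + 0)).scomp (0:ℝ) h3
    simp only [one_smul, add_zero] at h4
    exact ((h4.sub_const S.o).const_smul (u 0)).const_add S.o
  have c2 : fderiv ℝ (S.Fc p) u (EuclideanSpace.single 2 1) =
      u 0 • (S.Φ (u 2) (S.W p (u 1))).2 := by
    apply (hline 2).unique
    have h1 : (fun s : ℝ => S.Fc p (u + s • EuclideanSpace.single 2 1)) =
        fun s => S.o + (u 0) • ((S.Φ (u 2 + s) (S.W p (u 1))).1 - S.o) := by
      funext s; simp [Fc]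
    rw [h1]
    have h3 : HasDerivAt (fun s : ℝ => u 2 + s) 1 0 := (hasDerivAt_id (0:ℝ)).const_add (u 2)
    have h4 := (S.pos_deriv (hW (u 1)) (u 2 + 0)).scomp (0:ℝ) h3
    simp only [one_smul, add_zero] at h4
    exact ((h4.sub_const S.o).const_smul (u 0)).const_add S.o
  rw [det3, c0, c1, c2, cr_smul_left, cr_smul_right, cr_smul_left, S.cr_n_T hU]
  unfold hs
  simp only [inner_smul_right, inner_neg_right]
  ring

/-- polar domain -/
def Dp : Set V := {u | u 0 ∈ Ioc (0:ℝ) 1 ∧ u 1 ∈ Ico 0 (2 * Real.pi) ∧ u 2 ∈ Ioo 0 S.L}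

lemma Dp_meas : MeasurableSet S.Dp := by
  have hc : ∀ i : Fin 3, Measurable (fun u : V => u i) := fun i =>
    (EuclideanSpace.proj (𝕜 := ℝ) i).continuous.measurable
  exact ((hc 0) measurableSet_Ioc).inter (((hc 1) measurableSet_Ico).inter ((hc 2) measurableSet_Ioo))

lemma polar_inj (hP : S.PropM) {p : V} (hp : p ∈ S.C) {t t' θ θ' : ℝ} (ht : t ∈ Ioo 0 S.L)
    (ht' : t' ∈ Ioo 0 S.L) (hθ : θ ∈ Ico 0 (2 * Real.pi)) (hθ' : θ' ∈ Ico 0 (2 * Real.pi))
    (h : (S.Φ t (S.W p θ)).1 = (S.Φ t' (S.W p θ')).1) : t = t' ∧ θ = θ' := by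
  have h1 := S.d_L hP (S.W_UC hp θ) ht.1.le ht.2.le
  have h2 := S.d_L hP (S.W_UC hp θ') ht'.1.le ht'.2.le
  have h3 : t = t' := by
    rw [← h1, ← h2, h]; rfl
  refine ⟨h3, ?_⟩
  subst h3
  exact S.W_injOn hp hθ hθ' (S.geo_inj' hP (S.W_UC hp θ) (S.W_UC hp θ') rfl ht.1 ht.2 h)

lemma Fc_injOn (hP : S.PropM) {p : V} (hp : p ∈ S.C) : InjOn (S.Fc p) S.Dp := by
  rintro u ⟨h0, h1, h2⟩ v ⟨k0, k1, k2⟩ heq
  obtain ⟨e0, e1⟩ := S.ray_inj (S.geo_C (S.W_UC hp (u 1)) (u 2)) (S.geo_C (S.W_UC hp (v 1)) (v 2))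
    h0.1 k0.1 heq
  obtain ⟨e2, e3⟩ := S.polar_inj hP hp h2 k2 h1 k1 e1
  exact ext3 e0 e3 e2

lemma Fc_image_sub {p : V} (hp : p ∈ S.C) : S.Fc p '' S.Dp ⊆ S.B := by
  rintro _ ⟨u, ⟨h0, h1, h2⟩, rfl⟩
  exact S.ray_B (S.geo_C (S.W_UC hp (u 1)) (u 2)) h0.1.le h0.2

lemma Fc_image_ae (hP : S.PropM) {p : V} (hp : p ∈ S.C) : S.Fc p '' S.Dp =ᵐ[μV] S.B := by
  apply (LE.le.eventuallyLE (S.Fc_image_sub hp)).antisymm
  · have hsub : S.B \ (S.Fc p '' S.Dp) ⊆ (line[ℝ, S.o, p] : AffineSubspace ℝ V) ∪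
        (line[ℝ, S.o, S.ap p] : AffineSubspace ℝ V) := by
      rintro y ⟨hy, hn⟩
      by_cases hyo : y = S.o
      · left; rw [hyo]; exact left_mem_affineSpan_pair ℝ _ _
      obtain ⟨x, hx, l, hl, rfl⟩ := S.exists_ray hy hyo
      have hmem : ∀ z : V, S.o + l • (z - S.o) ∈ (line[ℝ, S.o, z] : AffineSubspace ℝ V) := by
        intro z
        have := AffineMap.lineMap_mem_affineSpan_pair (k := ℝ) l S.o z
        rw [AffineMap.lineMap_apply] at this
        simp only [vsub_eq_sub, vadd_eq_add] at this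
        rwa [add_comm] at this
      by_cases hxp : x = p
      · left; rw [hxp]; exact hmem p
      by_cases hxp' : x = S.ap p
      · right; rw [hxp']; exact hmem _
      exfalso
      obtain ⟨ht, θ, hθ, hE⟩ := S.polar_surj hP hp hx hxp hxp'
      apply hn
      refine ⟨Le (l, θ, S.d p x), ⟨hl, hθ, ht⟩, ?_⟩
      unfold Fc
      simp only [Le_0, Le_1, Le_2, hE]
    exact ae_le_set.2 (measure_mono_null hsub (measure_union_null line_null line_null))

/-- density -/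
noncomputable def dens (y : V) : ℝ≥0∞ := ENNReal.ofReal (3 / S.hs (S.rp y))

lemma dens_meas : Measurable S.dens :=
  (measurable_const.div (S.hs_meas.comp S.rp_meas)).ennreal_ofReal

/-- area measure -/
noncomputable def ν : Measure V := Measure.map S.rp ((μV.restrict S.B).withDensity S.dens)

lemma B_meas : MeasurableSet S.B := S.cpt.measurableSet

lemma lint_ν {G : V → ℝ≥0∞} (hG : Measurable G) :
    ∫⁻ x, G x ∂S.ν = ∫⁻ y in S.B, S.dens y * G (S.rp y) ∂μV := by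
  unfold ν
  rw [lintegral_map hG S.rp_meas]
  exact lintegral_withDensity_eq_lintegral_mul _ S.dens_meas (hG.comp S.rp_meas)

lemma three_sq : ∫⁻ x in Ioc (0:ℝ) 1, ENNReal.ofReal (3 * x ^ 2) = 1 := by
  rw [← ofReal_integral_eq_lintegral_ofReal]
  · rw [← intervalIntegral.integral_of_le zero_le_one, intervalIntegral.integral_const_mul,
      integral_pow]
    norm_num
  · exact (Continuous.integrableOn_Icc (by fun_prop)).mono_set Ioc_subset_Icc_self
  · exact Eventually.of_forall fun x => by positivity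

lemma polar (hP : S.PropM) {p : V} (hp : p ∈ S.C) {G : V → ℝ≥0∞} (hG : Measurable G) :
    ∫⁻ x, G x ∂S.ν = ∫⁻ θ in Ico 0 (2 * Real.pi), ∫⁻ t in Ioo 0 S.L,
      G (S.Φ t (S.W p θ)).1 * ENNReal.ofReal (S.J t (S.W p θ)) := by
  set H : ℝ × ℝ → ℝ≥0∞ := fun z => G (S.Φ z.2 (S.W p z.1)).1 * ENNReal.ofReal (S.J z.2 (S.W p z.1))
    with hH
  have hHm : Measurable H := by
    have h1 : Continuous (fun z : ℝ × ℝ => (S.Φ z.2 (S.W p z.1)).1) :=
      (S.E_cont p).comp (continuous_snd.prodMk continuous_fst)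
    have h2 : Continuous (fun z : ℝ × ℝ => S.J z.2 (S.W p z.1)) := (S.J_swap_smooth hp).continuous
    exact (hG.comp h1.measurable).mul h2.measurable.ennreal_ofReal
  rw [S.lint_ν hG, ← setLIntegral_congr (S.Fc_image_ae hP hp),
    lintegral_image_eq_lintegral_abs_det_fderiv_mul μV S.Dp_meas
      (fun u _ => ((S.Fc_smooth p).differentiable (by simp) u).hasFDerivAt.hasFDerivWithinAt)
      (S.Fc_injOn hP hp)]
  have e1 : ∫⁻ u in S.Dp, ENNReal.ofReal |(fderiv ℝ (S.Fc p) u).det| *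
      (S.dens (S.Fc p u) * G (S.rp (S.Fc p u))) ∂μV =
      ∫⁻ u in S.Dp, ENNReal.ofReal (3 * (u 0) ^ 2) * H (u 1, u 2) ∂μV := by
    apply setLIntegral_congr_fun S.Dp_meas
    rintro u ⟨h0, h1, h2⟩
    have hE := S.geo_C (S.W_UC hp (u 1)) (u 2)
    have hr : S.rp (S.Fc p u) = (S.Φ (u 2) (S.W p (u 1))).1 := S.rp_ray hE h0.1
    have hJ := S.J_pos' hP (S.W_UC hp (u 1)) h2.1 h2.2
    have hh := S.hs_pos hE
    simp only [dens, hH]
    rw [hr, S.Fc_det hp, abs_neg, abs_of_nonneg (by positivity)]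
    rw [← mul_assoc, ← ENNReal.ofReal_mul (by positivity)]
    rw [mul_comm (G _), ← mul_assoc (ENNReal.ofReal (3 * _)), ← ENNReal.ofReal_mul (p := 3 * u 0 ^ 2) (by positivity)]
    congr 2
    field_simp
  rw [e1]
  have hcu : ∀ i : Fin 3, Measurable (fun u : V => u i) := fun i =>
    (EuclideanSpace.proj (𝕜 := ℝ) i).continuous.measurable
  have hm : Measurable (fun u : V => ENNReal.ofReal (3 * (u 0) ^ 2) * H (u 1, u 2)) :=
    ((((hcu 0).pow_const 2).const_mul 3).ennreal_ofReal).mul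
      (hHm.comp ((hcu 1).prodMk (hcu 2)))
  unfold μV
  rw [setLIntegral_map S.Dp_meas hm Le.continuous.measurable]
  have e2 : Le ⁻¹' S.Dp = Ioc (0:ℝ) 1 ×ˢ (Ico 0 (2 * Real.pi) ×ˢ Ioo 0 S.L) := by
    ext q
    constructor
    · rintro ⟨h0, h1, h2⟩; exact ⟨h0, h1, h2⟩
    · rintro ⟨h0, h1, h2⟩; exact ⟨h0, h1, h2⟩
  rw [e2]
  simp only [Le_0, Le_1, Le_2]
  rw [Measure.volume_eq_prod, ← Measure.prod_restrict]
  have e3 := lintegral_prod_mul (μ := volume.restrict (Ioc (0:ℝ) 1))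
    (ν := (volume : Measure (ℝ × ℝ)).restrict (Ico 0 (2 * Real.pi) ×ˢ Ioo 0 S.L))
    (f := fun x => ENNReal.ofReal (3 * x ^ 2)) (g := H) (by fun_prop) hHm.aemeasurable
  have e4 : ∫⁻ a : ℝ × ℝ × ℝ, ENNReal.ofReal (3 * a.1 ^ 2) * H (a.2.1, a.2.2)
      ∂((volume.restrict (Ioc (0:ℝ) 1)).prod ((volume : Measure (ℝ × ℝ)).restrict
        (Ico 0 (2 * Real.pi) ×ˢ Ioo 0 S.L))) = ∫⁻ z, H z ∂((volume : Measure (ℝ × ℝ)).restrict
        (Ico 0 (2 * Real.pi) ×ˢ Ioo 0 S.L)) := by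
    rw [three_sq, one_mul] at e3
    exact e3
  rw [e4, Measure.volume_eq_prod, ← Measure.prod_restrict, lintegral_prod _ hHm.aemeasurable]

end Surf

end Pool.Agent.H864R2
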