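import Pool.Agent.H864R2.Ker

set_option autoImplicit false
set_option linter.unusedVariables false

open Set Metric Filter Topology MeasureTheory
open scoped ContDiff InnerProductSpace NNReal ENNReal

namespace Pool.Agent.H864R2

lemma quot_tendsto {y φ : ℝ → ℝ} {a y1 φ1 : ℝ} (hy : HasDerivAt y y1 a) (y0 : y a = 0)
    (hne : y1 ≠ 0) (hφ : HasDerivAt φ φ1 a) (φ0 : φ a = 0) :
    Tendsto (fun t => φ t ^ 2 / y t) (𝓝[≠] a) (𝓝 0) := by
  have h1 := hasDerivAt_iff_tendsto_slope.1 hy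
  have h2 := hasDerivAt_iff_tendsto_slope.1 hφ
  have h3 : Tendsto φ (𝓝[≠] a) (𝓝 0) := by
    have := hφ.continuousAt.tendsto
    rw [φ0] at this
    exact this.mono_left nhdsWithin_le_nhds
  have h4 := h3.mul (h2.div h1 hne)
  rw [zero_mul] at h4
  apply h4.congr'
  filter_upwards [self_mem_nhdsWithin] with t ht
  have hta : t - a ≠ 0 := sub_ne_zero.2 ht
  simp only [Pi.div_apply, slope_def_field, φ0, y0, sub_zero]
  rcases eq_or_ne (y t) 0 with h | h
  · rw [h]; simp
  · field_simp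

lemma picone_abs {L k : ℝ} (hL : 0 < L) (hk : k = Real.pi / L) {y z κ : ℝ → ℝ}
    (hy : Surf.Jac κ y z) (hκ : Continuous κ) (y0 : y 0 = 0) (yL : y L = 0) (z0 : z 0 ≠ 0)
    (zL : z L ≠ 0) (hpos : ∀ t ∈ Ioo 0 L, 0 < y t) :
    (∫ t in (0:ℝ)..L, κ t * Real.sin (k * t) ^ 2 ≤ k ^ 2 * L / 2) ∧
    (∫ t in (0:ℝ)..L, κ t * Real.sin (k * t) ^ 2 = k ^ 2 * L / 2 → ∀ t ∈ Ioo 0 L, κ t = k ^ 2) := by
  have hk0 : 0 < k := by rw [hk]; positivity
  have hkL : k * L = Real.pi := by rw [hk]; field_simp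
  set φ : ℝ → ℝ := fun t => Real.sin (k * t) with hφ
  set φ' : ℝ → ℝ := fun t => k * Real.cos (k * t) with hφ'
  have dlin : ∀ t, HasDerivAt (fun t : ℝ => k * t) k t := fun t => by
    simpa using (hasDerivAt_id t).const_mul k
  have dφ : ∀ t, HasDerivAt φ (φ' t) t := fun t => by
    have := (dlin t).sin
    rw [mul_comm] at this
    exact this
  have dφ' : ∀ t, HasDerivAt φ' (-(k ^ 2) * φ t) t := fun t => by
    have := ((dlin t).cos).const_mul k
    refine this.congr_deriv ?_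
    simp only [hφ]; ring
  have φ0 : φ 0 = 0 := by simp [hφ]
  have φL : φ L = 0 := by simp [hφ, hkL]
  have φpos : ∀ t ∈ Ioo 0 L, 0 < φ t := by
    intro t ht
    apply Real.sin_pos_of_pos_of_lt_pi (by have := ht.1; positivity)
    rw [← hkL]; exact mul_lt_mul_of_pos_left ht.2 hk0
  have hyc : Continuous y := continuous_iff_continuousAt.2 fun t => (hy t).1.continuousAt
  have hzc : Continuous z := continuous_iff_continuousAt.2 fun t => (hy t).2.continuousAt
  set G : ℝ → ℝ := fun t => φ t ^ 2 / y t * z t with hG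
  set f : ℝ → ℝ := fun t => φ' t ^ 2 - κ t * φ t ^ 2 with hf
  set q : ℝ → ℝ := fun t => φ' t - φ t * z t / y t with hq
  have hφc : Continuous φ := continuous_iff_continuousAt.2 fun t => (dφ t).continuousAt
  have hφc' : Continuous φ' := continuous_iff_continuousAt.2 fun t => (dφ' t).continuousAt
  have hfc : Continuous f := (hφc'.pow 2).sub (hκ.mul (hφc.pow 2))
  have hGd : ∀ t ∈ Ioo 0 L, HasDerivAt G (f t - q t ^ 2) t := by
    intro t ht
    have hyt := (hpos t ht).ne'
    have h1 := ((((dφ t).fun_pow 2).fun_div (hy t).1 hyt).fun_mul (hy t).2)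
    refine h1.congr_deriv ?_
    simp only [hf, hq]
    field_simp
    ring
  have hGend : ∀ a, y a = 0 → z a ≠ 0 → φ a = 0 → ContinuousAt G a := by
    intro a ha ha' ha''
    rw [continuousAt_iff_punctured_nhds]
    have h1 := quot_tendsto (hy a).1 ha ha' (dφ a) ha''
    have h2 := h1.mul ((hzc.tendsto a).mono_left nhdsWithin_le_nhds : Tendsto z (𝓝[≠] a) (𝓝 (z a)))
    have h3 : G a = 0 * z a := by simp [hG, ha'']
    rw [h3]
    exact h2
  have hGc : ContinuousOn G (Icc 0 L) := by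
    intro t ht
    apply ContinuousAt.continuousWithinAt
    rcases eq_or_lt_of_le ht.1 with h | h
    · rw [← h]; exact hGend 0 y0 z0 φ0
    rcases eq_or_lt_of_le ht.2 with h' | h'
    · rw [h']; exact hGend L yL zL φL
    exact (hGd t ⟨h, h'⟩).continuousAt
  have hG0 : G 0 = 0 := by simp [hG, φ0]
  have hGL : G L = 0 := by simp [hG, φL]
  have hfint : ∀ a b : ℝ, IntervalIntegrable f volume a b := fun a b => hfc.intervalIntegrable a b
  have hle : ∀ a b : ℝ, 0 ≤ a → a ≤ b → b ≤ L → G b - G a ≤ ∫ t in a..b, f t := by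
    intro a b ha hab hb
    apply intervalIntegral.sub_le_integral_of_hasDeriv_right_of_le hab
      (hGc.mono (Icc_subset_Icc ha hb)) (g' := fun t => f t - q t ^ 2)
    · intro x hx
      exact (hGd x ⟨ha.trans_lt hx.1, hx.2.trans_le hb⟩).hasDerivWithinAt
    · exact (hfc.integrableOn_Icc)
    · intro x hx
      nlinarith [sq_nonneg (q x)]
  -- the integral of φ'^2
  have hint : ∫ t in (0:ℝ)..L, φ' t ^ 2 = k ^ 2 * L / 2 := by
    have h1 : ∀ t ∈ uIcc 0 L, HasDerivAt (fun t => k ^ 2 * t / 2 + k / 4 * Real.sin (2 * (k * t)))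
        (φ' t ^ 2) t := by
      intro t _
      have h2 : HasDerivAt (fun t => k ^ 2 * t / 2) (k ^ 2 / 2) t := by
        have := ((hasDerivAt_id t).const_mul (k ^ 2)).div_const 2
        simpa using this
      have h3 := (((dlin t).const_mul 2).sin).const_mul (k / 4)
      refine (h2.fun_add h3).congr_deriv ?_
      simp only [hφ']
      rw [Real.cos_two_mul]; ring
    rw [intervalIntegral.integral_eq_sub_of_hasDerivAt h1 ((hφc'.pow 2).intervalIntegrable _ _)]
    have : 2 * (k * L) = 2 * Real.pi := by rw [hkL]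
    rw [this]; simp
  have hsplit : ∫ t in (0:ℝ)..L, f t = k ^ 2 * L / 2 - ∫ t in (0:ℝ)..L, κ t * φ t ^ 2 := by
    rw [← hint]
    exact intervalIntegral.integral_sub ((hφc'.pow 2).intervalIntegrable _ _)
      ((hκ.mul (hφc.pow 2)).intervalIntegrable _ _)
  have hmain := hle 0 L le_rfl hL.le le_rfl
  rw [hG0, hGL, sub_zero, hsplit] at hmain
  refine ⟨by linarith, ?_⟩
  intro heq
  have heq' : ∫ t in (0:ℝ)..L, κ t * φ t ^ 2 = k ^ 2 * L / 2 := heq
  have hf0 : ∫ t in (0:ℝ)..L, f t = 0 := by rw [hsplit, heq', sub_self]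
  -- equality on [0, b]
  have hb : ∀ b ∈ Icc 0 L, G b = ∫ t in (0:ℝ)..b, f t := by
    intro b hb
    have h1 := hle 0 b le_rfl hb.1 hb.2
    have h2 := hle b L hb.1 hb.2 le_rfl
    have h3 := intervalIntegral.integral_add_adjacent_intervals (hfint 0 b) (hfint b L)
    rw [hf0] at h3
    rw [hG0] at h1
    rw [hGL] at h2
    linarith
  -- q vanishes
  have hq0 : ∀ t ∈ Ioo 0 L, q t = 0 := by
    intro t ht
    have h1 : HasDerivAt (fun b => ∫ t in (0:ℝ)..b, f t) (f t) t :=
      intervalIntegral.integral_hasDerivAt_right (hfint 0 t)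
        hfc.stronglyMeasurable.stronglyMeasurableAtFilter hfc.continuousAt
    have h2 := h1.congr_of_eventuallyEq (f₁ := G) (by
      filter_upwards [Ioo_mem_nhds ht.1 ht.2] with b hb'
      exact hb b (Ioo_subset_Icc_self hb'))
    have h3 := (hGd t ht).unique h2
    have h4 : q t ^ 2 = 0 := by linarith
    exact pow_eq_zero_iff (two_ne_zero) |>.1 h4
  have hrel : ∀ t ∈ Ioo 0 L, φ' t * y t - φ t * z t = 0 := by
    intro t ht
    have h1 := hq0 t ht
    have hyt := (hpos t ht).ne'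
    simp only [hq] at h1
    field_simp at h1
    linarith
  intro t ht
  have h1 := ((dφ' t).fun_mul (hy t).1).fun_sub ((dφ t).fun_mul (hy t).2)
  have h2 : HasDerivAt (fun _ : ℝ => (0:ℝ)) 0 t := hasDerivAt_const t 0
  have h3 := h2.congr_of_eventuallyEq (f₁ := fun t => φ' t * y t - φ t * z t) (by
    filter_upwards [Ioo_mem_nhds ht.1 ht.2] with b hb'
    exact hrel b hb')
  have h4 := h1.unique h3
  have h5 : (κ t - k ^ 2) * (φ t * y t) = 0 := by linear_combination h4
  rcases mul_eq_zero.1 h5 with h | h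
  · linarith
  · exact absurd h (mul_pos (φpos t ht) (hpos t ht)).ne'

namespace Surf

variable (S : Surf)

/-- the constant `π / L` -/
noncomputable def kk : ℝ := Real.pi / S.L

lemma kk_pos : 0 < S.kk := div_pos Real.pi_pos S.L_pos

lemma kk_L : S.kk * S.L = Real.pi := by unfold kk; field_simp [S.L_pos.ne']

lemma picone (hP : S.PropM) {w : V × V} (hw : w ∈ S.UC) :
    (∫ t in (0:ℝ)..S.L, S.K (S.Φ t w).1 * Real.sin (S.kk * t) ^ 2 ≤ S.kk ^ 2 * S.L / 2) ∧
    (∫ t in (0:ℝ)..S.L, S.K (S.Φ t w).1 * Real.sin (S.kk * t) ^ 2 = S.kk ^ 2 * S.L / 2 →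
      ∀ t ∈ Ioo 0 S.L, S.K (S.Φ t w).1 = S.kk ^ 2) :=
  picone_abs S.L_pos rfl (S.J_Jac hw) (S.K_cont_geo hw) (S.J_zero hw) (S.J_L hP hw)
    (by simp only [S.J'_zero hw]; norm_num) (by simp only [S.J'_L hP hw]; norm_num)
    (fun t ht => S.J_pos' hP hw ht.1 ht.2)

end Surf

end Pool.Agent.H864R2
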