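import Pool.Agent.H864R2.Dist2

set_option autoImplicit false
set_option linter.unusedVariables false

open Set Metric Filter Topology MeasureTheory
open scoped ContDiff InnerProductSpace NNReal ENNReal

namespace Pool.Agent.H864R2

/-- slopes over adjacent intervals -/
lemma slope_est {σ : ℝ → V} {K h1 h2 t : ℝ} (hK : 0 < K) (hh1 : 0 < h1) (hh2 : 0 < h2)
    (hsm : K * (h1 + h2) ^ 2 ≤ 1)
    (l1 : ‖σ (t + h1) - σ t‖ ≤ h1) (l2 : ‖σ (t + h1 + h2) - σ (t + h1)‖ ≤ h2)
    (l3 : (h1 + h2) - K * (h1 + h2) ^ 3 ≤ ‖σ (t + h1 + h2) - σ t‖) :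
    h1 * h2 * ‖h1⁻¹ • (σ (t + h1) - σ t) - h2⁻¹ • (σ (t + h1 + h2) - σ (t + h1))‖ ^ 2
      ≤ 2 * K * (h1 + h2) ^ 4 := by
  set u := h1⁻¹ • (σ (t + h1) - σ t) with hu
  set w := h2⁻¹ • (σ (t + h1 + h2) - σ (t + h1)) with hw
  have e1 : σ (t + h1) - σ t = h1 • u := by
    rw [hu, smul_smul, mul_inv_cancel₀ hh1.ne', one_smul]
  have e2 : σ (t + h1 + h2) - σ (t + h1) = h2 • w := by
    rw [hw, smul_smul, mul_inv_cancel₀ hh2.ne', one_smul]
  have e3 : σ (t + h1 + h2) - σ t = h1 • u + h2 • w := by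
    rw [← e1, ← e2]; abel
  rw [e1, norm_smul, Real.norm_eq_abs, abs_of_pos hh1] at l1
  rw [e2, norm_smul, Real.norm_eq_abs, abs_of_pos hh2] at l2
  have hu1 : ‖u‖ ≤ 1 := by nlinarith
  have hw1 : ‖w‖ ≤ 1 := by nlinarith
  rw [e3] at l3
  have k1 : 0 ≤ (h1 + h2) - K * (h1 + h2) ^ 3 := by nlinarith
  have k2 : ((h1 + h2) - K * (h1 + h2) ^ 3) ^ 2 ≤ ‖h1 • u + h2 • w‖ ^ 2 :=
    pow_le_pow_left₀ k1 l3 2
  have k3 : ‖h1 • u + h2 • w‖ ^ 2 = h1 * (h1 + h2) * ‖u‖ ^ 2 + h2 * (h1 + h2) * ‖w‖ ^ 2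
      - h1 * h2 * ‖u - w‖ ^ 2 := by
    rw [← real_inner_self_eq_norm_sq (h1 • u + h2 • w), ← real_inner_self_eq_norm_sq (u - w),
      inner_add_left, inner_add_right, inner_add_right, inner_sub_left, inner_sub_right,
      inner_sub_right]
    simp only [real_inner_smul_left, inner_smul_right, real_inner_self_eq_norm_sq]
    rw [real_inner_comm u w]
    ring
  have k4 : ‖u‖ ^ 2 ≤ 1 := by nlinarith [norm_nonneg u]
  have k5 : ‖w‖ ^ 2 ≤ 1 := by nlinarith [norm_nonneg w]
  have k6 : h1 * (h1 + h2) * ‖u‖ ^ 2 ≤ h1 * (h1 + h2) := by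
    have : 0 ≤ h1 * (h1 + h2) := by positivity
    nlinarith
  have k7 : h2 * (h1 + h2) * ‖w‖ ^ 2 ≤ h2 * (h1 + h2) := by
    have : 0 ≤ h2 * (h1 + h2) := by positivity
    nlinarith
  nlinarith [sq_nonneg (K * (h1 + h2) ^ 3)]

namespace Surf

variable (S : Surf)

/-- constants for the chord-arc property of unit speed minimisers -/
lemma exists_arc : ∃ K δ : ℝ, 0 < K ∧ 0 < δ ∧ K * δ ^ 2 ≤ 1 ∧
    ∀ {D : ℝ} {σ : ℝ → V}, S.UMin D σ → ∀ s ∈ Icc 0 D, ∀ t ∈ Icc 0 D, s ≤ t → t - s < δ →
      (t - s) - K * (t - s) ^ 3 ≤ ‖σ t - σ s‖ := by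
  obtain ⟨K, δ, hK, hδ, h⟩ := S.exists_chord'
  refine ⟨K, min δ (min 1 K⁻¹), hK, by positivity, ?_, ?_⟩
  · have h1 : min δ (min 1 K⁻¹) ≤ 1 := (min_le_right _ _).trans (min_le_left _ _)
    have h2 : min δ (min 1 K⁻¹) ≤ K⁻¹ := (min_le_right _ _).trans (min_le_right _ _)
    have h3 : 0 < min δ (min 1 K⁻¹) := by positivity
    have h4 : K * K⁻¹ = 1 := mul_inv_cancel₀ hK.ne'
    nlinarith [mul_le_mul_of_nonneg_left h2 hK.le]
  · intro D σ hσ s hs t ht hst hlt
    have h1 := hσ.lip ht hs
    rw [abs_of_nonneg (by linarith)] at h1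
    have h2 := h _ (hσ.1 t ht) _ (hσ.1 s hs) (lt_of_le_of_lt h1 (lt_of_lt_of_le hlt (min_le_left _ _)))
    rw [hσ.2 t ht s hs, abs_of_nonneg (by linarith)] at h2
    have h3 : ‖σ t - σ s‖ ^ 3 ≤ (t - s) ^ 3 := pow_le_pow_left₀ (norm_nonneg _) h1 3
    nlinarith

/-- unit speed minimisers are differentiable with continuous derivative -/
lemma UMin.deriv {S : Surf} {D : ℝ} {σ : ℝ → V} (h : S.UMin D σ) :
    ∃ v : ℝ → V, ContinuousOn v (Ioo 0 D) ∧ (∀ t ∈ Ioo 0 D, HasDerivAt σ (v t) t) ∧
      (∀ t ∈ Ioo 0 D, ‖v t‖ = 1) := by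
  obtain ⟨K, δ, hK, hδ, hKδ, harc⟩ := S.exists_arc
  set A := 2 * K + 1 with hA
  have hA0 : 0 < A := by positivity
  have hA2 : 2 * K ≤ A ^ 2 := by rw [hA]; nlinarith
  set R : ℝ → ℝ → V := fun t x => x⁻¹ • (σ (t + x) - σ t) with hR
  -- local slope estimate
  have hsl : ∀ t h1 h2 : ℝ, 0 ≤ t → 0 < h1 → 0 < h2 → t + h1 + h2 ≤ D → h1 + h2 < δ →
      h1 * h2 * ‖R t h1 - R (t + h1) h2‖ ^ 2 ≤ 2 * K * (h1 + h2) ^ 4 := by
    intro t h1 h2 ht hh1 hh2 hD hlt
    have m1 : t ∈ Icc 0 D := ⟨ht, by linarith⟩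
    have m2 : t + h1 ∈ Icc 0 D := ⟨by linarith, by linarith⟩
    have m3 : t + h1 + h2 ∈ Icc 0 D := ⟨by linarith, by linarith⟩
    apply slope_est hK hh1 hh2
    · have : (h1 + h2) ^ 2 ≤ δ ^ 2 := pow_le_pow_left₀ (by positivity) hlt.le 2
      nlinarith
    · have := h.lip m2 m1
      rwa [show t + h1 - t = h1 by ring, abs_of_pos hh1] at this
    · have := h.lip m3 m2
      rwa [show t + h1 + h2 - (t + h1) = h2 by ring, abs_of_pos hh2] at this
    · have := harc h t m1 (t + h1 + h2) m3 (by linarith) (by linarith)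
      rwa [show t + h1 + h2 - t = h1 + h2 by ring] at this
  -- comparable scales
  have hcmp : ∀ t x y : ℝ, 0 ≤ t → 0 < x → x ≤ y → y ≤ 2 * x → t + y ≤ D → y < δ →
      ‖R t y - R t x‖ ≤ A * y := by
    intro t x y ht hx hxy hyx hD hlt
    rcases eq_or_lt_of_le hxy with rfl | hxy'
    · rw [sub_self, norm_zero]; positivity
    have h2 : 0 < y - x := by linarith
    have k := hsl t x (y - x) ht hx h2 (by linarith) (by linarith)
    have e : R t y - R t x = ((y - x) / y) • (R (t + x) (y - x) - R t x) := by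
      simp only [hR]
      have hy : 0 < y := by linarith
      rw [show t + x + (y - x) = t + y by ring]
      have e2 : (y - x) / y * x⁻¹ = x⁻¹ - y⁻¹ := by field_simp
      have e3 : (y - x) / y * (y - x)⁻¹ = y⁻¹ := by field_simp
      rw [smul_sub ((y - x) / y), smul_smul, smul_smul, e2, e3]
      module
    have hy : 0 < y := by linarith
    rw [e, norm_smul, Real.norm_eq_abs, abs_of_pos (div_pos h2 hy)]
    rw [show x + (y - x) = y by ring, norm_sub_rev] at k
    set n := ‖R (t + x) (y - x) - R t x‖ with hn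
    have hn0 : 0 ≤ n := norm_nonneg _
    -- x (y-x) n² ≤ A² y⁴, (y-x) ≤ x
    have k2 : ((y - x) * n) ^ 2 ≤ (A * y ^ 2) ^ 2 := by
      have : (y - x) * n ≥ 0 := by positivity
      have k3 : (y - x) * (y - x) * n ^ 2 ≤ x * (y - x) * n ^ 2 := by
        have : 0 ≤ (y - x) * n ^ 2 := by positivity
        nlinarith
      have k4 : 2 * K * y ^ 4 ≤ A ^ 2 * y ^ 4 := by
        have : 0 ≤ y ^ 4 := by positivity
        nlinarith
      nlinarith
    have k3 : (y - x) * n ≤ A * y ^ 2 := le_of_sq_le_sq k2 (by positivity)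
    rw [div_mul_eq_mul_div, div_le_iff₀ hy]
    nlinarith
  -- all scales
  have hall : ∀ n : ℕ, ∀ t x y : ℝ, 0 ≤ t → 0 < x → x ≤ y → y ≤ 2 ^ n * x → t + y ≤ D → y < δ →
      ‖R t y - R t x‖ ≤ 2 * A * y := by
    intro n
    induction n with
    | zero =>
      intro t x y ht hx hxy hyx hD hlt
      have := hcmp t x y ht hx hxy (by rw [pow_zero, one_mul] at hyx; linarith) hD hlt
      have : 0 ≤ A * y := by have : 0 < y := by linarith
                             positivity
      linarith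
    | succ n ih =>
      intro t x y ht hx hxy hyx hD hlt
      have hy : 0 < y := by linarith
      by_cases hc : y ≤ 2 * x
      · have := hcmp t x y ht hx hxy hc hD hlt
        have : 0 ≤ A * y := by positivity
        linarith
      · push Not at hc
        have k1 := hcmp t (y/2) y ht (by linarith) (by linarith) (by linarith) hD hlt
        have k2 := ih t x (y/2) ht hx (by linarith)
          (by rw [pow_succ] at hyx; linarith) (by linarith) (by linarith)
        have k3 := norm_sub_le_norm_sub_add_norm_sub (R t y) (R t (y/2)) (R t x)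
        linarith
  have hall' : ∀ t x y : ℝ, 0 ≤ t → 0 < x → x ≤ y → t + y ≤ D → y < δ →
      ‖R t y - R t x‖ ≤ 2 * A * y := by
    intro t x y ht hx hxy hD hlt
    obtain ⟨n, hn⟩ := pow_unbounded_of_one_lt (y / x) (one_lt_two (α := ℝ))
    refine hall n t x y ht hx hxy ?_ hD hlt
    rw [div_lt_iff₀ hx] at hn
    exact hn.le
  -- the limit
  have hlim : ∀ t : ℝ, ∃ v : V, 0 ≤ t → ∀ x, 0 < x → t + x ≤ D → x < δ → ‖R t x - v‖ ≤ 2 * A * x := by
    intro t
    by_cases ht : 0 ≤ t ∧ t < D
    swap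
    · refine ⟨0, fun h0 x hx hxD _ => ?_⟩
      exfalso; apply ht; exact ⟨h0, by linarith⟩
    obtain ⟨ht0, htD⟩ := ht
    have hcau : Cauchy (map (R t) (𝓝[>] 0)) := by
      rw [Metric.cauchy_iff]
      refine ⟨inferInstance, fun ε hε => ?_⟩
      set r := min (min (D - t) (δ/2)) (ε / (4 * A)) with hr
      have hr0 : 0 < r := by
        have : 0 < D - t := by linarith
        positivity
      refine ⟨R t '' Ioo 0 r, image_mem_map (Ioo_mem_nhdsGT hr0), ?_⟩
      rintro _ ⟨x, hx, rfl⟩ _ ⟨y, hy, rfl⟩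
      rw [dist_eq_norm]
      have r1 : r ≤ D - t := (min_le_left _ _).trans (min_le_left _ _)
      have r2 : r ≤ δ/2 := (min_le_left _ _).trans (min_le_right _ _)
      have r3 : r ≤ ε / (4 * A) := min_le_right _ _
      have key : ∀ x ∈ Ioo 0 r, ∀ y ∈ Ioo 0 r, x ≤ y → ‖R t y - R t x‖ < ε := by
        intro x hx y hy hxy
        have k := hall' t x y ht0 hx.1 hxy (by linarith [hy.2]) (by linarith [hy.2])
        have k2 : y < ε / (4 * A) := lt_of_lt_of_le hy.2 r3
        rw [lt_div_iff₀ (by positivity)] at k2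
        have := hy.1
        nlinarith
      rcases le_total x y with hxy | hxy
      · rw [norm_sub_rev]; exact key x hx y hy hxy
      · exact key y hy x hx hxy
    obtain ⟨v, hv⟩ := CompleteSpace.complete hcau
    refine ⟨v, fun _ x hx hxD hlt => ?_⟩
    have hv' : Tendsto (R t) (𝓝[>] 0) (𝓝 v) := hv
    have k1 : Tendsto (fun y => ‖R t x - R t y‖) (𝓝[>] 0) (𝓝 ‖R t x - v‖) :=
      (tendsto_const_nhds.sub hv').norm
    refine le_of_tendsto k1 ?_
    filter_upwards [Ioo_mem_nhdsGT hx] with y hy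
    exact hall' t y x ht0 hy.1 hy.2.le hxD hlt
  choose v hv using hlim
  -- left estimate
  have hleft : ∀ t x : ℝ, 0 < x → 0 ≤ t - x → t + x ≤ D → 2 * x < δ →
      ‖R (t - x) x - v t‖ ≤ 6 * A * x := by
    intro t x hx h0 hD hlt
    have k1 := hsl (t - x) x x h0 hx hx (by linarith) (by linarith)
    rw [show t - x + x = t by ring] at k1
    have k2 := hv t (by linarith) x hx hD (by linarith)
    set n := ‖R (t - x) x - R t x‖ with hn
    have hn0 : 0 ≤ n := norm_nonneg _
    have k3 : (x * n) ^ 2 ≤ (4 * A * x ^ 2) ^ 2 := by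
      have k4 : 2 * K * (x + x) ^ 4 ≤ A ^ 2 * (x + x) ^ 4 := by
        have : 0 ≤ (x + x) ^ 4 := by positivity
        nlinarith
      nlinarith
    have k4 : x * n ≤ 4 * A * x ^ 2 := le_of_sq_le_sq k3 (by positivity)
    have k5 : n ≤ 4 * A * x := by
      have : x * n ≤ x * (4 * A * x) := by linarith
      exact le_of_mul_le_mul_left this hx
    have k6 := norm_sub_le_norm_sub_add_norm_sub (R (t - x) x) (R t x) (v t)
    linarith
  refine ⟨v, ?_, ?_, ?_⟩
  · -- continuity
    rw [Metric.continuousOn_iff]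
    intro t ht ε hε
    set r := min (min (t/2) ((D - t)/2)) (min (δ/4) (ε / (16 * A))) with hr
    have ht1 := ht.1
    have ht2 := ht.2
    have hr0 : 0 < r := by
      have : 0 < D - t := by linarith
      positivity
    have r1 : r ≤ t/2 := (min_le_left _ _).trans (min_le_left _ _)
    have r2 : r ≤ (D-t)/2 := (min_le_left _ _).trans (min_le_right _ _)
    have r3 : r ≤ δ/4 := (min_le_right _ _).trans (min_le_left _ _)
    have r4 : r ≤ ε / (16 * A) := (min_le_right _ _).trans (min_le_right _ _)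
    refine ⟨r, hr0, ?_⟩
    intro s hs hst
    rw [Real.dist_eq] at hst
    rw [dist_eq_norm]
    have key : ∀ a b : ℝ, 0 ≤ a → a < b → b - a < r → b + (b - a) ≤ D →
        ‖v a - v b‖ < ε := by
      intro a b ha hab hlt hD
      have k1 := hv a ha (b - a) (by linarith) (by linarith) (by linarith)
      have k2 := hleft b (b - a) (by linarith) (by linarith) hD (by linarith)
      rw [show b - (b - a) = a by ring] at k2
      have k3 := norm_sub_le_norm_sub_add_norm_sub (v a) (R a (b - a)) (v b)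
      rw [norm_sub_rev (v a) (R a (b - a))] at k3
      have k4 : (b - a) < ε / (16 * A) := lt_of_lt_of_le hlt r4
      rw [lt_div_iff₀ (by positivity)] at k4
      nlinarith
    rcases lt_trichotomy s t with hlt | heq | hgt
    · rw [abs_of_neg (by linarith)] at hst
      exact key s t hs.1.le hlt (by linarith) (by linarith)
    · rw [heq, sub_self, norm_zero]; exact hε
    · rw [abs_of_pos (by linarith)] at hst
      rw [norm_sub_rev]
      exact key t s ht.1.le hgt (by linarith) (by linarith)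
  · -- derivative
    intro t ht
    have ht1 := ht.1
    have ht2 := ht.2
    rw [hasDerivAt_iff_isLittleO_nhds_zero, Asymptotics.isLittleO_iff]
    intro ε hε
    set r := min (min (t/2) ((D - t)/2)) (min (δ/4) (ε / (16 * A))) with hr
    have hr0 : 0 < r := by
      have : 0 < D - t := by linarith
      positivity
    have r1 : r ≤ t/2 := (min_le_left _ _).trans (min_le_left _ _)
    have r2 : r ≤ (D-t)/2 := (min_le_left _ _).trans (min_le_right _ _)
    have r3 : r ≤ δ/4 := (min_le_right _ _).trans (min_le_left _ _)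
    have r4 : r ≤ ε / (16 * A) := (min_le_right _ _).trans (min_le_right _ _)
    have hnb : ∀ᶠ x in 𝓝 (0:ℝ), |x| < r := by
      have := Metric.ball_mem_nhds (0:ℝ) hr0
      filter_upwards [this] with x hx
      simpa [Real.dist_eq] using hx
    filter_upwards [hnb] with x hx
    rcases lt_trichotomy x 0 with hlt | heq | hgt
    · rw [abs_of_neg hlt] at hx
      have k := hleft t (-x) (by linarith) (by linarith) (by linarith) (by linarith)
      have e : σ (t + x) - σ t - x • v t = x • (R (t - -x) (-x) - v t) := by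
        simp only [hR]
        rw [show t - -x + -x = t by ring, show t - -x = t + x by ring, smul_sub, smul_smul]
        have : x * (-x)⁻¹ = -1 := by
          have : x ≠ 0 := hlt.ne
          field_simp
        rw [this]
        module
      rw [e, norm_smul, mul_comm, Real.norm_eq_abs]
      apply mul_le_mul_of_nonneg_right _ (abs_nonneg x)
      have k4 : -x < ε / (16 * A) := lt_of_lt_of_le hx r4
      rw [lt_div_iff₀ (by positivity)] at k4
      nlinarith
    · rw [heq]; simp
    · rw [abs_of_pos hgt] at hx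
      have k := hv t ht.1.le x hgt (by linarith) (by linarith)
      have e : σ (t + x) - σ t - x • v t = x • (R t x - v t) := by
        simp only [hR]
        rw [smul_sub, smul_smul, mul_inv_cancel₀ hgt.ne', one_smul]
      rw [e, norm_smul, mul_comm, Real.norm_eq_abs]
      apply mul_le_mul_of_nonneg_right _ (abs_nonneg x)
      have k4 : x < ε / (16 * A) := lt_of_lt_of_le hx r4
      rw [lt_div_iff₀ (by positivity)] at k4
      nlinarith
  · -- unit speed
    intro t ht
    have ht1 := ht.1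
    have ht2 := ht.2
    have hRn : ∀ x, 0 < x → t + x ≤ D → x < δ → 1 - K * x ^ 2 ≤ ‖R t x‖ ∧ ‖R t x‖ ≤ 1 := by
      intro x hx hD hlt
      have k1 := h.lip (s := t + x) (t := t) ⟨by linarith, hD⟩ ⟨by linarith, by linarith⟩
      have k2 := harc h t ⟨by linarith, by linarith⟩ (t + x) ⟨by linarith, hD⟩ (by linarith)
        (by linarith)
      rw [show t + x - t = x by ring] at k1 k2
      rw [abs_of_pos hx] at k1
      simp only [hR]
      rw [norm_smul, norm_inv, Real.norm_eq_abs, abs_of_pos hx, inv_mul_eq_div]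
      constructor
      · rw [le_div_iff₀ hx]; nlinarith
      · rw [div_le_iff₀ hx]; linarith
    have hT : Tendsto (fun x => ‖R t x‖) (𝓝[>] 0) (𝓝 ‖v t‖) := by
      apply Tendsto.norm
      rw [tendsto_iff_norm_sub_tendsto_zero]
      have h0 : Tendsto (fun x : ℝ => 2 * A * x) (𝓝[>] 0) (𝓝 0) := by
        have : Tendsto (fun x : ℝ => 2 * A * x) (𝓝 0) (𝓝 (2 * A * 0)) := by
          apply Continuous.tendsto; fun_prop
        rw [mul_zero] at this
        exact this.mono_left nhdsWithin_le_nhds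
      refine squeeze_zero' (Eventually.of_forall fun _ => norm_nonneg _) ?_ h0
      have hm : 0 < min (D - t) δ := lt_min (by linarith) hδ
      filter_upwards [Ioo_mem_nhdsGT hm] with x hx
      exact hv t ht.1.le x hx.1 (by linarith [hx.2, min_le_left (D - t) δ])
        (lt_of_lt_of_le hx.2 (min_le_right _ _))
    have hT1 : Tendsto (fun x => ‖R t x‖) (𝓝[>] 0) (𝓝 1) := by
      have h0 : Tendsto (fun x : ℝ => 1 - K * x ^ 2) (𝓝[>] 0) (𝓝 1) := by
        have : Tendsto (fun x : ℝ => 1 - K * x ^ 2) (𝓝 0) (𝓝 (1 - K * 0 ^ 2)) := by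
          apply Continuous.tendsto; fun_prop
        simp only [ne_eq, OfNat.ofNat_ne_zero, not_false_eq_true, zero_pow, mul_zero, sub_zero] at this
        exact this.mono_left nhdsWithin_le_nhds
      have hm : 0 < min (D - t) δ := lt_min (by linarith) hδ
      refine tendsto_of_tendsto_of_tendsto_of_le_of_le' h0 tendsto_const_nhds ?_ ?_
      · filter_upwards [Ioo_mem_nhdsGT hm] with x hx
        exact (hRn x hx.1 (by linarith [hx.2, min_le_left (D - t) δ])
          (lt_of_lt_of_le hx.2 (min_le_right _ _))).1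
      · filter_upwards [Ioo_mem_nhdsGT hm] with x hx
        exact (hRn x hx.1 (by linarith [hx.2, min_le_left (D - t) δ])
          (lt_of_lt_of_le hx.2 (min_le_right _ _))).2
    exact tendsto_nhds_unique hT hT1

end Surf

end Pool.Agent.H864R2
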