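import Pool.Agent.H864R2.Picone

set_option autoImplicit false
set_option linter.unusedVariables false

open Set Metric Filter Topology MeasureTheory
open scoped ContDiff InnerProductSpace NNReal ENNReal

namespace Pool.Agent.H864R2

namespace Surf

variable (S : Surf)

/-- derivative of the direction towards a moving point -/
lemma dir_deriv {x : V} (hx : x ∈ S.C) {c : ℝ → V} {c' : V} {s₀ : ℝ} {w : ℝ → V × V} {t : ℝ → ℝ}
    (hw : ∀ s, w s ∈ S.UC) (hw1 : ∀ s, (w s).1 = x) (hend : ∀ s, (S.Φ (t s) (w s)).1 = c s)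
    (hwc : ContinuousAt w s₀) (htc : ContinuousAt t s₀) (hJ : S.J (t s₀) (w s₀) ≠ 0)
    (hcd : HasDerivAt c c' s₀) :
    HasDerivAt (fun s => (w s).2) ((⟪cr (S.N (S.Φ (t s₀) (w s₀)).1) (S.Φ (t s₀) (w s₀)).2, c'⟫_ℝ /
      S.J (t s₀) (w s₀)) • cr (S.N x) (w s₀).2) s₀ := by
  have hwx : ∀ s, (x, (w s).2) = w s := fun s => Prod.ext (hw1 s).symm rfl
  obtain ⟨θ₀, -, hθ₀⟩ := S.exists_W (p := x) (v := (w s₀).2) (by rw [hwx]; exact hw s₀)
  rw [hwx] at hθ₀
  obtain ⟨a, ha, ha0, haW⟩ := S.exists_ang hx θ₀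
  rw [hθ₀] at ha ha0
  have haW' : ∀ s, S.W x (a (w s).2) = w s := fun s => by
    rw [haW (w s).2 (by rw [hwx]; exact hw s), hwx]
  set q : ℝ → ℝ × ℝ := fun s => (t s, a (w s).2) with hq
  have hqc : ContinuousAt q s₀ := by
    apply htc.prodMk
    exact ContinuousAt.comp (g := a) (f := fun s => (w s).2) ha (continuousAt_snd.comp hwc)
  have hq0 : q s₀ = (t s₀, θ₀) := by simp only [hq, ha0]
  set E : ℝ × ℝ → V := fun q => (S.Φ q.1 (S.W x q.2)).1 with hE
  have hEq : ∀ s, E (q s) = c s := fun s => by simp only [hE, hq, haW', hend]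
  have hEs : ContDiff ℝ ∞ E := contDiff_fst.comp (S.G_smooth (S.W_smooth x))
  have hEd : Differentiable ℝ E := hEs.differentiable (by simp)
  have h1 : HasStrictFDerivAt E (fderiv ℝ E (t s₀, θ₀)) (t s₀, θ₀) :=
    hEs.contDiffAt.hasStrictFDerivAt (by simp)
  have e1 := (pd1 hEd (t s₀) θ₀).unique (S.pos_deriv (S.W_UC hx θ₀) (t s₀))
  have e2 := (pd2 hEd (t s₀) θ₀).unique (S.E_θ hx (t s₀) θ₀)
  rw [hθ₀] at e1 e2
  have hUC := S.Φ_UC (hw s₀) (t s₀)
  set T := (S.Φ (t s₀) (w s₀)).2 with hT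
  set n := cr (S.N (S.Φ (t s₀) (w s₀)).1) T with hn
  set j := S.J (t s₀) (w s₀) with hj
  have hTn : ⟪T, n⟫_ℝ = 0 := inner_cr_right _ _
  have hnT : ⟪n, T⟫_ℝ = 0 := by rw [real_inner_comm]; exact hTn
  have hTT : ⟪T, T⟫_ℝ = 1 := by rw [real_inner_self_eq_norm_sq, hUC.2.2]; norm_num
  have hnn : ⟪n, n⟫_ℝ = 1 := by
    rw [real_inner_self_eq_norm_sq, S.n_norm (hw s₀) (t s₀)]; norm_num
  set Lm : V →L[ℝ] ℝ × ℝ := (innerSL ℝ T).prod (j⁻¹ • innerSL ℝ n) with hLm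
  have hLmv : ∀ v, Lm v = (⟪T, v⟫_ℝ, j⁻¹ * ⟪n, v⟫_ℝ) := fun v => rfl
  have h2 : HasStrictFDerivAt (fun q => Lm (E q)) (Lm.comp (fderiv ℝ E (t s₀, θ₀))) (t s₀, θ₀) :=
    Lm.hasStrictFDerivAt.comp (t s₀, θ₀) h1
  have h3 : Lm.comp (fderiv ℝ E (t s₀, θ₀)) = (ContinuousLinearEquiv.refl ℝ (ℝ × ℝ) :
      (ℝ × ℝ) →L[ℝ] (ℝ × ℝ)) := by
    apply ContinuousLinearMap.ext
    rintro ⟨α, β⟩
    have : ((α, β) : ℝ × ℝ) = α • (1, 0) + β • (0, 1) := by ext <;> simp
    have h4 : fderiv ℝ E (t s₀, θ₀) (α, β) = α • T + β • j • n := by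
      rw [this, map_add, map_smul, map_smul, e1, e2]
    rw [ContinuousLinearMap.comp_apply, h4, hLmv]
    simp only [inner_add_right, inner_smul_right, hTT, hTn, hnT, hnn]
    ext
    · simp
    · simp; field_simp
  rw [h3] at h2
  have h5 := h2.eventually_left_inverse
  have h6 := h2.to_localInverse
  set g := h2.localInverse (fun q => Lm (E q)) (ContinuousLinearEquiv.refl ℝ (ℝ × ℝ)) (t s₀, θ₀) with hg
  have hqt : Tendsto q (𝓝 s₀) (𝓝 (t s₀, θ₀)) := by
    have := hqc.tendsto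
    rwa [hq0] at this
  have h7 : q =ᶠ[𝓝 s₀] fun s => g (Lm (c s)) := by
    filter_upwards [hqt.eventually h5] with s hs
    rw [← hEq s]; exact hs.symm
  have h8 : HasDerivAt (fun s => Lm (c s)) (Lm c') s₀ := Lm.hasFDerivAt.comp_hasDerivAt s₀ hcd
  have h9 : HasFDerivAt g ((ContinuousLinearEquiv.refl ℝ (ℝ × ℝ)).symm : (ℝ × ℝ) →L[ℝ] (ℝ × ℝ))
      (Lm (c s₀)) := by
    have := h6.hasFDerivAt
    rwa [← hq0, hEq] at this
  have h10 : HasDerivAt (fun s => g (Lm (c s))) (Lm c') s₀ := by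
    have := h9.comp_hasDerivAt s₀ h8
    exact this
  have h11 : HasDerivAt q (Lm c') s₀ := h10.congr_of_eventuallyEq h7
  have h12 : HasDerivAt (fun s => a (w s).2) (j⁻¹ * ⟪n, c'⟫_ℝ) s₀ :=
    (ContinuousLinearMap.snd ℝ ℝ ℝ).hasFDerivAt.comp_hasDerivAt s₀ h11
  have h13 : HasDerivAt (fun θ => (S.W x θ).2) (cr (S.N x) (S.W x (a (w s₀).2)).2) (a (w s₀).2) :=
    (ContinuousLinearMap.snd ℝ V V).hasFDerivAt.comp_hasDerivAt _ (S.W_deriv hx _)
  have h14 := h13.scomp s₀ h12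
  have h15 : ((fun θ => (S.W x θ).2) ∘ fun s => a (w s).2) = fun s => (w s).2 := by
    funext s; simp only [Function.comp_apply, haW']
  rw [h15, haW'] at h14
  rw [div_eq_inv_mul]
  exact h14

/-- rotation angle of a tangent direction -/
lemma rot_angle {x : V} (hx : x ∈ S.C) {u : ℝ → V} {a : ℝ → ℝ} (hu : ∀ s, (x, u s) ∈ S.UC)
    (ha : Continuous a) (hd : ∀ s, HasDerivAt u (a s • cr (S.N x) (u s)) s) {b : ℝ} (hb : 0 ≤ b)
    (hneg : u b = -u 0) : Real.pi ≤ ∫ s in (0:ℝ)..b, |a s| := by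
  set Θ : ℝ → ℝ := fun s => ∫ r in (0:ℝ)..s, a r with hΘ
  have hΘd : ∀ s, HasDerivAt Θ (a s) s := fun s =>
    intervalIntegral.integral_hasDerivAt_right (ha.intervalIntegrable 0 s)
      ha.stronglyMeasurable.stronglyMeasurableAtFilter ha.continuousAt
  set n₀ := cr (S.N x) (u 0) with hn₀
  have hcn : cr (S.N x) n₀ = -u 0 := by
    have h := S.cr_N_n (hu 0)
    simp only at h
    exact h
  set v : ℝ → V := fun s => Real.cos (Θ s) • u 0 + Real.sin (Θ s) • n₀ with hv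
  have hvd : ∀ s, HasDerivAt v (a s • cr (S.N x) (v s)) s := by
    intro s
    have h1 := ((hΘd s).cos.smul_const (u 0)).add ((hΘd s).sin.smul_const n₀)
    refine h1.congr_deriv ?_
    simp only [hv, cr_add_right, cr_smul_right, hcn, ← hn₀]
    module
  have h0 : ⟪u 0, u 0⟫_ℝ = 1 := by
    have h := (hu 0).2.2
    simp only at h
    rw [real_inner_self_eq_norm_sq, h]; norm_num
  have h0n : ⟪u 0, n₀⟫_ℝ = 0 := inner_cr_right _ _
  have hnn : ⟪n₀, n₀⟫_ℝ = 1 := by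
    have h := (S.UC_cr (hu 0)).2.2
    simp only at h
    rw [real_inner_self_eq_norm_sq, h]; norm_num
  have hn0 : ⟪n₀, u 0⟫_ℝ = 0 := by rw [real_inner_comm]; exact h0n
  have hψd : ∀ s, HasDerivAt (fun s => ⟪u s, v s⟫_ℝ) 0 s := by
    intro s
    have h1 := (hd s).inner ℝ (hvd s)
    refine h1.congr_deriv ?_
    rw [inner_smul_right, real_inner_smul_left, real_inner_comm (v s) (cr (S.N x) (u s)),
      inner_c, inner_c]
    simp
    ring
  have hψ : ∀ s, ⟪u s, v s⟫_ℝ = 1 := by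
    intro s
    have h1 : (fun s => ⟪u s, v s⟫_ℝ) s = (fun s => ⟪u s, v s⟫_ℝ) 0 :=
      is_const_of_deriv_eq_zero (fun t => (hψd t).differentiableAt) (fun t => (hψd t).deriv) s 0
    have h2 : v 0 = u 0 := by
      simp only [hv, hΘ, intervalIntegral.integral_same, Real.cos_zero, Real.sin_zero, one_smul,
        zero_smul, add_zero]
    have h3 : ⟪u s, v s⟫_ℝ = ⟪u 0, v 0⟫_ℝ := h1
    rw [h3, h2, h0]
  have hcos : Real.cos (Θ b) = -1 := by
    have h1 := hψ b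
    rw [hneg, inner_neg_left] at h1
    simp only [hv, inner_add_right, inner_smul_right, h0, h0n] at h1
    linarith
  have habs : Real.pi ≤ |Θ b| := by
    by_contra hcon
    push Not at hcon
    have h1 : Real.cos Real.pi < Real.cos |Θ b| :=
      Real.strictAntiOn_cos ⟨abs_nonneg _, hcon.le⟩ ⟨Real.pi_pos.le, le_rfl⟩ hcon
    rw [Real.cos_abs, hcos, Real.cos_pi] at h1
    exact lt_irrefl _ h1
  refine habs.trans ?_
  exact intervalIntegral.abs_integral_le_integral_abs hb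

/-- angle swept, seen from `x`, by half of a closed geodesic -/
lemma swept (hP : S.PropM) {w₀ : V × V} (hw₀ : w₀ ∈ S.UC) {x : V} (hx : x ∈ S.C)
    (hxc : ∀ s, (S.Φ s w₀).1 ≠ x) : ∃ (w : ℝ → V × V) (t : ℝ → ℝ) (a : ℝ → ℝ),
      (∀ s, w s ∈ S.UC) ∧ (∀ s, (w s).1 = x) ∧ (∀ s, t s ∈ Ioo 0 S.L) ∧
      (∀ s, (S.Φ (t s) (w s)).1 = (S.Φ s w₀).1) ∧ Continuous a ∧
      (∀ s, a s = ⟪cr (S.N (S.Φ (t s) (w s)).1) (S.Φ (t s) (w s)).2, (S.Φ s w₀).2⟫_ℝ /
        S.J (t s) (w s)) ∧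
      Real.pi ≤ ∫ s in (0:ℝ)..S.L, |a s| := by
  have hcC : ∀ s, (S.Φ s w₀).1 ∈ S.C := fun s => S.geo_C hw₀ s
  have hxap : ∀ s, (S.Φ s w₀).1 ≠ S.ap x := by
    intro s h
    apply hxc (s + S.L)
    rw [S.Φ_L' hP hw₀, h, S.ap_ap hP hx]
  choose w hw hw1 hw2 using fun s => S.exists_Mn hx (hcC s)
  set t : ℝ → ℝ := fun s => S.d x (S.Φ s w₀).1 with ht
  have htI : ∀ s, t s ∈ Ioo 0 S.L := fun s => (S.polar_surj hP hx (hcC s) (hxc s) (hxap s)).1
  have huniq : ∀ s, ∀ w' ∈ S.UC, w'.1 = x → (S.Φ (t s) w').1 = (S.Φ s w₀).1 → w' = w s := by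
    intro s w' hw' h1 h2
    exact S.geo_inj' hP hw' (hw s) (h1.trans (hw1 s).symm) (htI s).1 (htI s).2
      (h2.trans (hw2 s).symm)
  have hcc : Continuous fun s => (S.Φ s w₀).1 := continuous_fst.comp (S.Φ_contt w₀)
  have hwc : Continuous w := by
    rw [continuous_iff_continuousAt]
    intro s
    apply S.dir_tendsto (x := fun s => (S.Φ s w₀).1) (x₀ := (S.Φ s w₀).1) (p₀ := x) hw hcC (hcC s)
      (fun i => by rw [hw1]; exact hw2 i)
    · simp only [hw1]; exact tendsto_const_nhds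
    · exact hcc.tendsto s
    · exact huniq s
  have htc : Continuous t := by
    rw [continuous_iff_continuousAt]
    intro s
    exact S.d_tendsto (u := fun _ => x) (v := fun s => (S.Φ s w₀).1) tendsto_const_nhds
      (hcc.tendsto s) (fun _ => hx) hcC hx (hcC s)
  set a : ℝ → ℝ := fun s => ⟪cr (S.N (S.Φ (t s) (w s)).1) (S.Φ (t s) (w s)).2, (S.Φ s w₀).2⟫_ℝ /
        S.J (t s) (w s) with ha
  have hpair : Continuous fun s => ((t s, w s) : ℝ × (V × V)) := htc.prodMk hwc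
  have hΦc : Continuous fun s => S.Φ (t s) (w s) := S.Φ_cont.comp hpair
  have hJc : Continuous fun s => S.J (t s) (w s) := by
    rw [← continuousOn_univ]
    exact S.J_contOn.comp hpair.continuousOn (fun s _ => ⟨trivial, hw s⟩)
  have hNc : Continuous fun s => S.N (S.Φ (t s) (w s)).1 := by
    rw [← continuousOn_univ]
    exact S.N_contOn.comp (continuous_fst.comp hΦc).continuousOn (fun s _ => S.geo_C (hw s) _)
  have hJne : ∀ s, S.J (t s) (w s) ≠ 0 := fun s =>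
    (S.J_pos' hP (hw s) (htI s).1 (htI s).2).ne'
  have hac : Continuous a := by
    apply Continuous.div _ hJc hJne
    apply Continuous.inner _ (continuous_snd.comp (S.Φ_contt w₀))
    rw [← continuousOn_univ] at hNc ⊢
    exact continuousOn_cr hNc (continuous_snd.comp hΦc).continuousOn
  refine ⟨w, t, a, hw, hw1, htI, hw2, hac, fun s => rfl, ?_⟩
  have hwx : ∀ s, (x, (w s).2) = w s := fun s => Prod.ext (hw1 s).symm rfl
  apply S.rot_angle hx (u := fun s => (w s).2) (fun s => by rw [hwx]; exact hw s) hac _ S.L_pos.le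
  · -- antipodal symmetry
    have h1 : w S.L = fl (w 0) := by
      symm
      apply huniq S.L _ (S.fl_UC (hw 0))
      · show (w 0).1 = x
        exact hw1 0
      · have e1 : (S.Φ S.L w₀).1 = S.ap w₀.1 := S.Φ_L hP hw₀
        have e2 : t S.L = S.L - t 0 := by
          have h2 := S.d_add hP (hcC 0) hx
          rw [S.ell_L hP (hcC 0)] at h2
          simp only [S.Φ_zero] at h2
          simp only [ht, e1, S.Φ_zero]
          rw [S.d_comm x w₀.1]
          linarith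
        rw [e2, S.Φ_fl (hw 0)]
        show (S.Φ (-(S.L - t 0)) (w 0)).1 = _
        have h3 := S.Φ_L' hP (hw 0) (-(S.L - t 0))
        rw [show -(S.L - t 0) + S.L = t 0 by ring, hw2 0] at h3
        have h4 := congrArg S.ap h3
        rw [S.ap_ap hP (S.geo_C (hw 0) _), S.Φ_zero] at h4
        rw [← h4, e1]
    show (w S.L).2 = -(w 0).2
    rw [h1]; rfl
  · intro s
    exact S.dir_deriv hx hw hw1 hw2 hwc.continuousAt htc.continuousAt (hJne s) (S.pos_deriv hw₀ s)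

end Surf

end Pool.Agent.H864R2
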