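import Pool.Agent.H864R2.Base

set_option autoImplicit false
set_option linter.unusedVariables false

open Set Metric Filter Topology MeasureTheory
open scoped ContDiff InnerProductSpace NNReal ENNReal

namespace Pool.Agent.H864R2

/-- cross product -/
noncomputable def cr (a b : V) : V :=
  !₂[a 1 * b 2 - a 2 * b 1, a 2 * b 0 - a 0 * b 2, a 0 * b 1 - a 1 * b 0]

@[simp] lemma cr_0 (a b : V) : cr a b 0 = a 1 * b 2 - a 2 * b 1 := by simp [cr]
@[simp] lemma cr_1 (a b : V) : cr a b 1 = a 2 * b 0 - a 0 * b 2 := by simp [cr]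
@[simp] lemma cr_2 (a b : V) : cr a b 2 = a 0 * b 1 - a 1 * b 0 := by simp [cr]

lemma inner_c (a b : V) : ⟪a, b⟫_ℝ = a 0 * b 0 + a 1 * b 1 + a 2 * b 2 := by
  rw [PiLp.inner_apply, Fin.sum_univ_three]
  simp only [RCLike.inner_apply, conj_trivial]
  ring

lemma nsq_c (a : V) : ‖a‖ ^ 2 = a 0 ^ 2 + a 1 ^ 2 + a 2 ^ 2 := by
  rw [← real_inner_self_eq_norm_sq, inner_c]; ring

lemma ext3 {a b : V} (h0 : a 0 = b 0) (h1 : a 1 = b 1) (h2 : a 2 = b 2) : a = b := by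
  ext i; fin_cases i
  · exact h0
  · exact h1
  · exact h2

lemma cr_add_left (a b c : V) : cr (a + b) c = cr a c + cr b c := by
  apply ext3 <;> simp <;> ring
lemma cr_add_right (a b c : V) : cr a (b + c) = cr a b + cr a c := by
  apply ext3 <;> simp <;> ring
lemma cr_smul_left (r : ℝ) (a c : V) : cr (r • a) c = r • cr a c := by
  apply ext3 <;> simp <;> ring
lemma cr_smul_right (r : ℝ) (a c : V) : cr a (r • c) = r • cr a c := by
  apply ext3 <;> simp <;> ring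
lemma cr_self (a : V) : cr a a = 0 := by
  apply ext3 <;> simp <;> ring
lemma cr_anti (a b : V) : cr a b = - cr b a := by
  apply ext3 <;> simp <;> ring
lemma cr_neg_right (a b : V) : cr a (-b) = - cr a b := by
  apply ext3 <;> simp <;> ring
lemma cr_neg_left (a b : V) : cr (-a) b = - cr a b := by
  apply ext3 <;> simp <;> ring
lemma cr_zero_right (a : V) : cr a 0 = 0 := by
  apply ext3 <;> simp
lemma cr_zero_left (a : V) : cr 0 a = 0 := by
  apply ext3 <;> simp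

lemma inner_cr_left (a b : V) : ⟪a, cr a b⟫_ℝ = 0 := by
  rw [inner_c]; simp; ring
lemma inner_cr_right (a b : V) : ⟪b, cr a b⟫_ℝ = 0 := by
  rw [inner_c]; simp; ring
lemma inner_cr_cyc (a b c : V) : ⟪a, cr b c⟫_ℝ = ⟪b, cr c a⟫_ℝ := by
  rw [inner_c, inner_c]; simp; ring
lemma inner_cr_swap (a b c : V) : ⟪a, cr b c⟫_ℝ = - ⟪b, cr a c⟫_ℝ := by
  rw [inner_c, inner_c]; simp; ring
/-- triple product expansion -/
lemma cr_cr (a b c : V) : cr a (cr b c) = ⟪a, c⟫_ℝ • b - ⟪a, b⟫_ℝ • c := by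
  rw [inner_c, inner_c]
  apply ext3 <;> simp <;> ring
lemma inner_cr_cr (a b c d : V) :
    ⟪cr a b, cr c d⟫_ℝ = ⟪a, c⟫_ℝ * ⟪b, d⟫_ℝ - ⟪a, d⟫_ℝ * ⟪b, c⟫_ℝ := by
  simp only [inner_c]; simp; ring
lemma norm_cr_sq (a b : V) : ‖cr a b‖ ^ 2 = ‖a‖ ^ 2 * ‖b‖ ^ 2 - ⟪a, b⟫_ℝ ^ 2 := by
  rw [← real_inner_self_eq_norm_sq, inner_cr_cr, real_inner_self_eq_norm_sq,
    real_inner_self_eq_norm_sq, real_inner_comm]; ring
lemma norm_cr_le (a b : V) : ‖cr a b‖ ≤ ‖a‖ * ‖b‖ := by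
  apply le_of_sq_le_sq _ (by positivity)
  rw [norm_cr_sq]; nlinarith [sq_nonneg ⟪a, b⟫_ℝ]

/-- cross product as a continuous bilinear map -/
noncomputable def crL : V →L[ℝ] V →L[ℝ] V :=
  LinearMap.mkContinuous₂ (LinearMap.mk₂ ℝ cr cr_add_left cr_smul_left cr_add_right
    (fun r a b => cr_smul_right r a b)) 1 (fun a b => by
      rw [one_mul]; exact norm_cr_le a b)

@[simp] lemma crL_apply (a b : V) : crL a b = cr a b := rfl

lemma HasDerivAt.crV {a b : ℝ → V} {a' b' : V} {t : ℝ} (ha : HasDerivAt a a' t)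
    (hb : HasDerivAt b b' t) : HasDerivAt (fun t => cr (a t) (b t)) (cr (a t) b' + cr a' (b t)) t := by
  have h1 : HasDerivAt (fun t => crL (a t)) (crL a') t := crL.hasFDerivAt.comp_hasDerivAt t ha
  have h2 := h1.clm_apply hb
  simp only [crL_apply] at h2
  rw [add_comm]
  exact h2

lemma contDiff_cr {E : Type*} [NormedAddCommGroup E] [NormedSpace ℝ E] {n : WithTop ℕ∞}
    {a b : E → V} (ha : ContDiff ℝ n a) (hb : ContDiff ℝ n b) :
    ContDiff ℝ n (fun t => cr (a t) (b t)) :=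
  (crL.contDiff.comp ha).clm_apply hb

lemma contDiffAt_cr {E : Type*} [NormedAddCommGroup E] [NormedSpace ℝ E] {n : WithTop ℕ∞}
    {a b : E → V} {x : E} (ha : ContDiffAt ℝ n a x) (hb : ContDiffAt ℝ n b x) :
    ContDiffAt ℝ n (fun t => cr (a t) (b t)) x :=
  (crL.contDiff.contDiffAt.comp x ha).clm_apply hb

lemma continuousOn_cr {X : Type*} [TopologicalSpace X] {s : Set X} {a b : X → V}
    (ha : ContinuousOn a s) (hb : ContinuousOn b s) : ContinuousOn (fun t => cr (a t) (b t)) s :=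
  (crL.continuous.comp_continuousOn ha).clm_apply hb

/-- orthonormal frame expansion -/
lemma frame_expand {n T : V} (hn : ‖n‖ = 1) (hT : ‖T‖ = 1) (h : ⟪n, T⟫_ℝ = 0) (x : V) :
    x = ⟪x, T⟫_ℝ • T + ⟪x, cr n T⟫_ℝ • cr n T + ⟪x, n⟫_ℝ • n := by
  -- y := x minus its expansion is orthogonal to n, T, cr n T
  set m := cr n T with hm
  have hnn : ⟪n, n⟫_ℝ = 1 := by rw [real_inner_self_eq_norm_sq, hn]; norm_num
  have hTT : ⟪T, T⟫_ℝ = 1 := by rw [real_inner_self_eq_norm_sq, hT]; norm_num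
  have hTn : ⟪T, n⟫_ℝ = 0 := by rw [real_inner_comm]; exact h
  have hmm : ⟪m, m⟫_ℝ = 1 := by
    rw [hm, inner_cr_cr, hnn, hTT, h, hTn]; ring
  have hmn : ⟪m, n⟫_ℝ = 0 := by rw [real_inner_comm, hm]; exact inner_cr_left n T
  have hmT : ⟪m, T⟫_ℝ = 0 := by rw [real_inner_comm, hm]; exact inner_cr_right n T
  have hnm : ⟪n, m⟫_ℝ = 0 := by rw [real_inner_comm]; exact hmn
  have hTm : ⟪T, m⟫_ℝ = 0 := by rw [real_inner_comm]; exact hmT
  set y := x - (⟪x, T⟫_ℝ • T + ⟪x, m⟫_ℝ • m + ⟪x, n⟫_ℝ • n) with hy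
  have y1 : ⟪y, T⟫_ℝ = 0 := by
    rw [hy, inner_sub_left, inner_add_left, inner_add_left, real_inner_smul_left,
      real_inner_smul_left, real_inner_smul_left, hTT, hmT, h]; ring
  have y2 : ⟪y, m⟫_ℝ = 0 := by
    rw [hy, inner_sub_left, inner_add_left, inner_add_left, real_inner_smul_left,
      real_inner_smul_left, real_inner_smul_left, hTm, hmm, hnm]; ring
  have y3 : ⟪y, n⟫_ℝ = 0 := by
    rw [hy, inner_sub_left, inner_add_left, inner_add_left, real_inner_smul_left,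
      real_inner_smul_left, real_inner_smul_left, hTn, hmn, hnn]; ring
  -- cr y m = 0 and inner y m = 0
  have z1 : cr y m = 0 := by
    rw [hm, cr_cr, y1, y3]; simp
  have z2 : ‖cr y m‖ ^ 2 = ‖y‖ ^ 2 * ‖m‖ ^ 2 - ⟪y, m⟫_ℝ ^ 2 := norm_cr_sq y m
  rw [z1, y2, norm_zero, ← real_inner_self_eq_norm_sq m, hmm] at z2
  have z3 : ‖y‖ = 0 := by
    have : ‖y‖ ^ 2 = 0 := by linarith
    exact pow_eq_zero_iff (two_ne_zero) |>.1 this
  have z4 : y = 0 := norm_eq_zero.1 z3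
  rw [hy, sub_eq_zero] at z4
  exact z4

end Pool.Agent.H864R2
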